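import Pool.Agent.P.MP_b2489f_co.Kempe

set_option autoImplicit false
set_option linter.unusedSectionVars false

/-! Edge-cover colourings of multigraphs without sparse triples: local lemmas. -/

namespace Pool.Agent.P.MP_b2489f_co.Cover

open Finset Classical Kempe Sum

variable {E N : Type} [Fintype E] [Fintype N] {k : ℕ}

/-- the other end of an edge -/
def fl (h : E × Bool) : E × Bool := (h.1, !h.2)

@[simp] lemma fl_fl (h : E × Bool) : fl (fl h) = h := by simp [fl]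
@[simp] lemma fl_1 (h : E × Bool) : (fl h).1 = h.1 := rfl
lemma eq_or_fl {h g : E × Bool} (e : g.1 = h.1) : g = h ∨ g = fl h := by
  obtain ⟨a, b⟩ := h
  obtain ⟨c, d⟩ := g
  cases b <;> cases d <;> simp_all [fl]

variable (nd : E × Bool → N) (R : N → Prop)

/-- a state: the attached ends have distinct colours at each node -/
structure Ok (c : E → Fin k) (a : Finset (E × Bool)) : Prop where
  real : ∀ h ∈ a, R (nd h)
  inj : ∀ h ∈ a, ∀ g ∈ a, nd h = nd g → c h.1 = c g.1 → h = g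

def Mi (c : E → Fin k) (a : Finset (E × Bool)) (v : N) (α : Fin k) : Prop :=
  ∀ h ∈ a, nd h = v → c h.1 ≠ α

noncomputable def dn (a : Finset (E × Bool)) (h : E × Bool) : N ⊕ E × Bool :=
  if h ∈ a then inl (nd h) else inr h

def Lk (c : E → Fin k) (a : Finset (E × Bool)) (α γ : Fin k) :
    N ⊕ E × Bool → N ⊕ E × Bool → Prop :=
  Rc (fun e => dn nd a (e, false)) (fun e => dn nd a (e, true)) univ c α γ

/-- a handle of colour `α` at `v`: a missing colour or a detached end -/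
def Hd (c : E → Fin k) (a : Finset (E × Bool)) (Z : E → Prop) (v : N) (α : Fin k)
    (X : N ⊕ E × Bool) : Prop :=
  (X = inl v ∧ Mi nd c a v α) ∨ ∃ h, X = inr h ∧ h ∉ a ∧ nd h = v ∧ c h.1 = α ∧ ¬ Z h.1

structure Crit (k s M : ℕ) : Prop where
  loop : ∀ h, R (nd h) → nd (fl h) ≠ nd h
  deg : ∀ v, R v → k + s ≤ (univ.filter fun h => nd h = v).card ∨
    (univ.filter fun h => nd h = v).card + s ≤ k
  pos : 1 ≤ s
  big : k < 4 * s + 2
  max : ∀ (c : E → Fin k) a, Ok nd R c a → a.card ≤ M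

/-- a configuration: both ends of one edge are detached -/
structure Cf (M : ℕ) (c : E → Fin k) (a : Finset (E × Bool)) (h0 : E × Bool) (x y : N) :
    Prop where
  ok : Ok nd R c a
  card : a.card + 1 = M
  n0 : h0 ∉ a
  n1 : fl h0 ∉ a
  jx : nd h0 = x
  jy : nd (fl h0) = y
  rx : R x
  ry : R y
  mx : ∃ α, Mi nd c a x α
  my : ∃ α, Mi nd c a y α

/-- an edge at `x` whose colour has a handle at `y` -/
structure Fan (c : E → Fin k) (a : Finset (E × Bool)) (e0 : E) (x y : N) (h : E × Bool) (z : N) :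
    Prop where
  mem : h ∈ a
  jx : nd h = x
  jz : nd (fl h) = z
  ne : z ≠ y
  hd : ∃ Y, Hd nd c a (· = e0) y (c h.1) Y

variable {nd R} {c c' : E → Fin k} {a a' : Finset (E × Bool)} {α β γ δ : Fin k}
  {X Y W : N ⊕ E × Bool} {Z Z' : E → Prop} {u v w x y z : N} {h g h0 : E × Bool} {s M : ℕ}

lemma Ok.att (O : Ok nd R c a) (r : R (nd h)) (m : Mi nd c a (nd h) (c h.1)) :
    Ok nd R c (insert h a) := by
  refine ⟨fun g hg => ?_, fun g hg g' hg' e1 e2 => ?_⟩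
  · rcases mem_insert.1 hg with rfl | hg
    exacts [r, O.real g hg]
  · rcases mem_insert.1 hg with rfl | q <;> rcases mem_insert.1 hg' with rfl | q'
    exacts [rfl, (m g' q' e1.symm e2.symm).elim, (m g q e1 e2).elim, O.inj g q g' q' e1 e2]

lemma Ok.sub (O : Ok nd R c a) (hs : a' ⊆ a) : Ok nd R c a' :=
  ⟨fun g hg => O.real g (hs hg), fun g hg g' hg' => O.inj g (hs hg) g' (hs hg')⟩

lemma Ok.cg (O : Ok nd R c a) (e : ∀ h ∈ a, c' h.1 = c h.1) : Ok nd R c' a :=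
  ⟨O.real, fun g hg g' hg' e1 e2 => O.inj g hg g' hg' e1 (by rwa [e g hg, e g' hg'] at e2)⟩

lemma Mi.cg (m : Mi nd c a v α) (e : ∀ h ∈ a, c' h.1 = c h.1) : Mi nd c' a v α :=
  fun g hg e1 => by rw [e g hg]; exact m g hg e1

lemma Mi.ins (m : Mi nd c a v α) (e : nd h = v → c h.1 ≠ α) : Mi nd c (insert h a) v α := by
  intro g hg
  rcases mem_insert.1 hg with rfl | hg
  exacts [e, m g hg]

lemma Mi.sub (m : Mi nd c a v α) (hs : a' ⊆ a) : Mi nd c a' v α := fun g hg => m g (hs hg)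

lemma Mi.hd (m : Mi nd c a v α) : Hd nd c a Z v α (inl v) := Or.inl ⟨rfl, m⟩

lemma Hd.mi (m : Hd nd c a Z v α (inl w)) : Mi nd c a v α := by
  rcases m with ⟨-, m⟩ | ⟨_, e, -⟩
  exacts [m, by simp at e]

lemma Hd.nd_eq (m : Hd nd c a Z v α X) (m' : Hd nd c' a' Z' w γ X) : v = w := by
  rcases m with ⟨rfl, -⟩ | ⟨h, rfl, -, rfl, -⟩ <;> rcases m' with ⟨e, -⟩ | ⟨g, e, -, rfl, -⟩ <;>
    simp_all

lemma Hd.ne (m : Hd nd c a Z v α X) (m' : Hd nd c' a' Z' w γ Y) (n : v ≠ w) : X ≠ Y := by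
  rintro rfl
  exact n (m.nd_eq m')

lemma upd_eq (n0 : h0 ∉ a) (n1 : fl h0 ∉ a) (α : Fin k) :
    ∀ h ∈ a, Function.update c h0.1 α h.1 = c h.1 := by
  intro h hh
  refine Function.update_of_ne (fun e => ?_) _ _
  rcases eq_or_fl e with rfl | rfl
  exacts [n0 hh, n1 hh]

lemma Hd.tr (m : Hd nd c a Z v δ X) (h1 : ∀ h ∈ a', nd h = v → c' h.1 = δ → h ∈ a ∧ c h.1 = δ)
    (h2 : ∀ h, h ∉ a → nd h = v → c h.1 = δ → ¬ Z h.1 → h ∉ a' ∧ c' h.1 = δ ∧ ¬ Z' h.1) :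
    Hd nd c' a' Z' v δ X := by
  rcases m with ⟨rfl, m⟩ | ⟨h, rfl, b1, b2, b3, b4⟩
  · exact Or.inl ⟨rfl, fun h hh e e' => m h (h1 h hh e e').1 e (h1 h hh e e').2⟩
  · exact Or.inr ⟨h, rfl, (h2 h b1 b2 b3 b4).1, b2, (h2 h b1 b2 b3 b4).2⟩

lemma Lk.symm (l : Lk nd c a α γ X Y) : Lk nd c a α γ Y X := Rc.symm l
lemma Lk.trans (l : Lk nd c a α γ X Y) (l' : Lk nd c a α γ Y W) : Lk nd c a α γ X W :=
  Rc.trans l l'

lemma Lk.mono {α' γ' : Fin k} (l : Lk nd c a α γ X Y)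
    (hm : ∀ h, c h.1 = α ∨ c h.1 = γ → (c' h.1 = α' ∨ c' h.1 = γ') ∧ (h ∈ a' ↔ h ∈ a)) :
    Lk nd c' a' α' γ' X Y := by
  unfold Lk Rc at *
  induction l with
  | refl => rfl
  | tail _ l ih =>
    obtain ⟨e, -, b1, b2⟩ := l
    refine ih.tail ⟨e, mem_univ _, (hm (e, true) b1).1, ?_⟩
    simpa only [Jn, dn, (hm (e, true) b1).2, (hm (e, false) b1).2] using b2

lemma Lk.comm (l : Lk nd c a α γ X Y) : Lk nd c a γ α X Y :=
  l.mono fun _ e => ⟨e.symm, Iff.rfl⟩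

lemma ic_iff {e : E} : Ic (fun e => dn nd a (e, false)) (fun e => dn nd a (e, true)) e X ↔
    ∃ b, dn nd a (e, b) = X := by simp [Ic]

lemma dn_inl : dn nd a h = inl v ↔ h ∈ a ∧ nd h = v := by
  unfold dn; split_ifs <;> simp [*]

lemma dn_inr : dn nd a h = inr g ↔ h ∉ a ∧ h = g := by
  unfold dn; split_ifs <;> simp [*]

lemma Ok.dn_inj (O : Ok nd R c a) (e : dn nd a h = dn nd a g) (e' : c h.1 = c g.1) : h = g := by
  by_cases q : g ∈ a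
  · rw [(dn_inl (h := g)).2 ⟨q, rfl⟩, dn_inl] at e
    exact O.inj h e.1 g q e.2 e'
  · rw [(dn_inr (h := g)).2 ⟨q, rfl⟩, dn_inr] at e
    exact e.2

lemma Hd.en (m : Hd nd c a Z v δ X) (n : α ≠ γ) (e : δ = α ∨ δ = γ) :
    Ms (fun e => dn nd a (e, false)) (fun e => dn nd a (e, true)) univ c X α ∨
    Ms (fun e => dn nd a (e, false)) (fun e => dn nd a (e, true)) univ c X γ := by
  rcases m with ⟨rfl, m⟩ | ⟨h, rfl, -, -, b3, -⟩
  · refine e.imp ?_ ?_ <;> rintro rfl e - he <;> obtain ⟨b, he⟩ := ic_iff.1 he <;>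
      exact m _ (dn_inl.1 he).1 (dn_inl.1 he).2
  · refine e.symm.imp ?_ ?_ <;> rintro rfl e - he <;> obtain ⟨b, he⟩ := ic_iff.1 he <;>
      obtain ⟨-, rfl⟩ := dn_inr.1 he <;> rw [b3]
    exacts [n.symm, n]

lemma Ok.ends {δ1 δ2 δ3 : Fin k} {Z'' : E → Prop} (O : Ok nd R c a) (n : α ≠ γ)
    (m1 : Hd nd c a Z u δ1 X) (m2 : Hd nd c a Z' v δ2 Y) (m3 : Hd nd c a Z'' w δ3 W)
    (e1 : δ1 = α ∨ δ1 = γ) (e2 : δ2 = α ∨ δ2 = γ) (e3 : δ3 = α ∨ δ3 = γ)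
    (l1 : Lk nd c a α γ Y X) (l2 : Lk nd c a α γ W X) (n1 : X ≠ Y) (n2 : X ≠ W) : Y = W := by
  by_contra n3
  refine Kempe.ends (fun e _ q => ?_) (fun e _ e' _ v q q' r => ?_) n1 n2 n3 l1.symm l2.symm
    (m1.en n e1) (m2.en n e2) (m3.en n e3)
  · simpa using O.dn_inj q rfl
  · obtain ⟨b, q⟩ := ic_iff.1 q
    obtain ⟨b', q'⟩ := ic_iff.1 q'
    exact congrArg Prod.fst (O.dn_inj (q.trans q'.symm) r)

lemma Ok.tri {Z'' : E → Prop} (O : Ok nd R c a) (n : α ≠ γ)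
    (m1 : Hd nd c a Z u α X) (m2 : Hd nd c a Z' v γ Y) (m3 : Hd nd c a Z'' w γ W)
    (l1 : Lk nd c a α γ Y X) (l2 : Lk nd c a α γ W X) (n1 : X ≠ Y) (n2 : X ≠ W) : Y = W :=
  O.ends n m1 m2 m3 (Or.inl rfl) (Or.inr rfl) (Or.inr rfl) l1 l2 n1 n2

/-- the result of a Kempe change -/
structure Sw (nd : E × Bool → N) (c c' : E → Fin k) (a : Finset (E × Bool)) (α γ : Fin k)
    (X : N ⊕ E × Bool) : Prop where
  fi : ∀ h, Lk nd c a α γ X (dn nd a h) → c' h.1 = Equiv.swap α γ (c h.1)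
  fo : ∀ h, ¬ Lk nd c a α γ X (dn nd a h) → c' h.1 = c h.1

lemma Ok.swap (O : Ok nd R c a) (α γ : Fin k) (X : N ⊕ E × Bool) :
    ∃ c', Ok nd R c' a ∧ Sw nd c c' a α γ X := by
  have key : ∀ h, (c h.1 = α ∨ c h.1 = γ) →
      (Lk nd c a α γ X (dn nd a (h.1, false)) ↔ Lk nd c a α γ X (dn nd a h)) := by
    rintro ⟨e, _ | _⟩ q
    · rfl
    · exact ⟨fun l => Relation.ReflTransGen.tail l ⟨e, mem_univ _, q, Or.inl ⟨rfl, rfl⟩⟩,
        fun l => Relation.ReflTransGen.tail l ⟨e, mem_univ _, q, Or.inr ⟨rfl, rfl⟩⟩⟩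
  have S : Sw nd c (fun e => if Lk nd c a α γ X (dn nd a (e, false)) then Equiv.swap α γ (c e)
      else c e) a α γ X := by
    refine ⟨fun h l => ?_, fun h l => ?_⟩ <;> by_cases q : c h.1 = α ∨ c h.1 = γ
    · exact if_pos ((key h q).2 l)
    · push Not at q
      rw [Equiv.swap_apply_of_ne_of_ne q.1 q.2, ite_self]
    · exact if_neg fun l' => l ((key h q).1 l')
    · push Not at q
      rw [Equiv.swap_apply_of_ne_of_ne q.1 q.2, ite_self]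
  refine ⟨_, ⟨O.real, fun g hg g' hg' e1 e2 => O.inj g hg g' hg' e1 ?_⟩, S⟩
  have e : dn nd a g' = dn nd a g := by simp [dn, hg, hg', e1]
  by_cases l : Lk nd c a α γ X (dn nd a g)
  · rw [S.fi g l, S.fi g' (e ▸ l)] at e2
    exact (Equiv.swap α γ).injective e2
  · rwa [S.fo g l, S.fo g' (e ▸ l)] at e2

lemma Sw.iff (S : Sw nd c c' a α γ X) (n1 : δ ≠ α) (n2 : δ ≠ γ) (e : E) : c' e = δ ↔ c e = δ := by
  by_cases l : Lk nd c a α γ X (dn nd a (e, true))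
  · rw [S.fi _ l, Equiv.swap_apply_eq_iff, Equiv.swap_apply_of_ne_of_ne n1 n2]
  · rw [S.fo _ l]

lemma Sw.ne (S : Sw nd c c' a α γ X) (m : Hd nd c a Z v δ Y) (n1 : δ ≠ α) (n2 : δ ≠ γ) :
    Hd nd c' a Z v δ Y :=
  m.tr (fun _ b _ e => ⟨b, (S.iff n1 n2 _).1 e⟩) fun _ b _ e b' => ⟨b, (S.iff n1 n2 _).2 e, b'⟩

lemma Sw.out (S : Sw nd c c' a α γ X) (m : Hd nd c a Z v δ Y) (l : ¬ Lk nd c a α γ X Y) :
    Hd nd c' a Z v δ Y := by
  rcases m with ⟨rfl, m⟩ | ⟨h, rfl, b1, b2, b3, b4⟩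
  · refine Or.inl ⟨rfl, fun h b e => ?_⟩
    rw [S.fo h (by rwa [dn_inl.2 ⟨b, e⟩])]
    exact m h b e
  · exact Or.inr ⟨h, rfl, b1, b2, by rw [S.fo h (by rwa [dn_inr.2 ⟨b1, rfl⟩]), b3], b4⟩

lemma Sw.ins (S : Sw nd c c' a α γ X) (m : Hd nd c a Z v δ Y) (l : Lk nd c a α γ X Y) :
    Hd nd c' a Z v (Equiv.swap α γ δ) Y := by
  rcases m with ⟨rfl, m⟩ | ⟨h, rfl, b1, b2, b3, b4⟩
  · refine Or.inl ⟨rfl, fun h b e => ?_⟩
    rw [S.fi h (by rwa [dn_inl.2 ⟨b, e⟩])]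
    exact fun q => m h b e ((Equiv.swap α γ).injective q)
  · exact Or.inr ⟨h, rfl, b1, b2, by rw [S.fi h (by rwa [dn_inr.2 ⟨b1, rfl⟩]), b3], b4⟩

lemma Sw.self (S : Sw nd c c' a α γ X) (m : Hd nd c a Z v γ X) : Hd nd c' a Z v α X := by
  simpa using S.ins m Relation.ReflTransGen.refl

lemma Sw.mi (S : Sw nd c c' a α γ X) (m : Mi nd c a v δ) : ∃ δ', Mi nd c' a v δ' := by
  by_cases l : Lk nd c a α γ X (inl v)
  · exact ⟨_, (S.ins (m.hd (Z := fun _ => True)) l).mi⟩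
  · exact ⟨_, (S.out (m.hd (Z := fun _ => True)) l).mi⟩

lemma Cf.symm (C : Cf nd R M c a h0 x y) : Cf nd R M c a (fl h0) y x :=
  ⟨C.ok, C.card, C.n1, by simpa using C.n0, C.jy, by simpa using C.jx, C.ry, C.rx, C.my, C.mx⟩

lemma Cf.swap (C : Cf nd R M c a h0 x y) (α γ : Fin k) (X : N ⊕ E × Bool) :
    ∃ c', Cf nd R M c' a h0 x y ∧ Sw nd c c' a α γ X := by
  obtain ⟨c', O, S⟩ := C.ok.swap α γ X
  exact ⟨c', ⟨O, C.card, C.n0, C.n1, C.jx, C.jy, C.rx, C.ry, S.mi C.mx.choose_spec,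
    S.mi C.my.choose_spec⟩, S⟩

lemma Ok.two (O : Ok nd R c a) (r : R y) (m : Mi nd c a y β) (n : β ≠ γ) (b1 : h ∉ a) (b2 : g ∉ a)
    (ne : h ≠ g) (e1 : nd h = y) (e2 : nd g = y) (e3 : c h.1 = γ) (e4 : c g.1 = γ) :
    ∃ c' t, t ∉ a ∧ nd t = y ∧ c t.1 = γ ∧ Ok nd R c' (insert t a) ∧
      (∀ e δ, δ ≠ β → δ ≠ γ → (c' e = δ ↔ c e = δ)) ∧
      ∀ v δ, v ≠ y → Mi nd c a v δ → ∃ δ', Mi nd c' (insert t a) v δ' := by
  have hd : ∀ t, t ∉ a → nd t = y → c t.1 = γ → Hd nd c a (fun _ => False) y γ (inr t) :=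
    fun t q1 q2 q3 => Or.inr ⟨t, rfl, q1, q2, q3, id⟩
  obtain ⟨t, q1, q2, q3, l⟩ : ∃ t, t ∉ a ∧ nd t = y ∧ c t.1 = γ ∧
      ¬ Lk nd c a β γ (inr t) (inl y) := by
    by_contra q
    push Not at q
    exact ne (inr_injective (O.tri n (m.hd (Z := fun _ => True)) (hd h b1 e1 e3) (hd g b2 e2 e4)
      (q h b1 e1 e3) (q g b2 e2 e4) (by simp) (by simp)))
  obtain ⟨c', O', S⟩ := O.swap β γ (inr t)
  have e5 : c' t.1 = β := by
    rw [S.fi t (by rw [dn_inr.2 ⟨q1, rfl⟩]; exact Relation.ReflTransGen.refl), q3]; simp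
  refine ⟨c', t, q1, q2, q3, O'.att (q2 ▸ r) ?_, fun e δ n1 n2 => S.iff n1 n2 e,
    fun v δ n' m' => ?_⟩
  · rw [e5, q2]
    exact (S.out (m.hd (Z := fun _ => True)) l).mi
  · obtain ⟨δ', m''⟩ := S.mi m'
    exact ⟨δ', m''.ins fun e => absurd (e.symm.trans q2) n'⟩

end Pool.Agent.P.MP_b2489f_co.Cover
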