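import Pool.Agent.P.MP_b2489f_co.Cover

set_option autoImplicit false
set_option linter.unusedSectionVars false

/-! Edge-cover colourings: the structure of a critical configuration. -/

namespace Pool.Agent.P.MP_b2489f_co.Cover

open Finset Classical Kempe Sum

variable {E N : Type} [Fintype E] [Fintype N] {k : ℕ} {nd : E × Bool → N} {R : N → Prop}
  {c c' : E → Fin k} {a a' : Finset (E × Bool)} {α β γ δ : Fin k}
  {X Y W : N ⊕ E × Bool} {Z Z' : E → Prop} {u v w x y z : N} {h g h0 : E × Bool} {s M : ℕ}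
  (H : Crit nd R k s M)

lemma ex_of_not_mi (m : ¬ Mi nd c a v α) : ∃ h ∈ a, nd h = v ∧ c h.1 = α := by
  unfold Mi at m
  push Not at m
  exact m

lemma Cf.ne0 (C : Cf nd R M c a h0 x y) (b : h ∈ a) : h.1 ≠ h0.1 := fun e => by
  rcases eq_or_fl e with rfl | rfl
  exacts [C.n0 b, C.n1 b]

lemma Cf.upd (C : Cf nd R M c a h0 x y) (α : Fin k) :
    Cf nd R M (Function.update c h0.1 α) a h0 x y :=
  have e := upd_eq (c := c) C.n0 C.n1 α
  ⟨C.ok.cg e, C.card, C.n0, C.n1, C.jx, C.jy, C.rx, C.ry, C.mx.imp fun _ m => m.cg e,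
    C.my.imp fun _ m => m.cg e⟩

include H

lemma Cf.xy (C : Cf nd R M c a h0 x y) : x ≠ y := fun e =>
  H.loop h0 (C.jx ▸ C.rx) (C.jy.trans (e.symm.trans C.jx.symm))

lemma free (O : Ok nd R c a) (hM : M ≤ a.card) (n0 : h ∉ a) (n1 : fl h ∉ a) (r : R (nd h))
    (m : Mi nd c a (nd h) α) : False := by
  have e := upd_eq (c := c) n0 n1 α
  have := H.max _ _ ((O.cg e).att r (by rw [Function.update_self]; exact m.cg e))
  rw [card_insert_of_notMem n0] at this
  omega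

lemma nodet (C : Cf nd R M c a h0 x y) (b : h ∉ a) (n : h.1 ≠ h0.1) (r : R (nd h))
    (m : Mi nd c a (nd h) (c h.1)) : False := by
  have O := C.ok.att r m
  have hc : M ≤ (insert h a).card := by rw [card_insert_of_notMem b, C.card]
  have n0 : h0 ∉ insert h a := by
    rw [mem_insert, not_or]; exact ⟨fun e => n (e ▸ rfl), C.n0⟩
  have n1 : fl h0 ∉ insert h a := by
    rw [mem_insert, not_or]; exact ⟨fun e => n (e ▸ rfl), C.n1⟩
  by_cases q : nd h = x
  · obtain ⟨β, m'⟩ := C.my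
    exact free H O hc n1 (by simpa using n0) (C.jy ▸ C.ry)
      (C.jy ▸ m'.ins fun e => absurd (q.symm.trans e) (C.xy H))
  · obtain ⟨β, m'⟩ := C.mx
    exact free H O hc n0 n1 (C.jx ▸ C.rx) (C.jx ▸ m'.ins fun e => absurd e q)

lemma nodet' (C : Cf nd R M c a h0 x y) (r : R v) (m : Mi nd c a v α)
    (d : Hd nd c a (· = h0.1) v α (inr h)) : False := by
  rcases d with ⟨e, -⟩ | ⟨g, -, b1, rfl, rfl, b4⟩
  exacts [by simp at e, nodet H C b1 b4 r m]

lemma c0a (C : Cf nd R M c a h0 x y) (m : Mi nd c a x α) (d : Hd nd c a (· = h0.1) y α Y) :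
    False := by
  have e := upd_eq (c := c) C.n0 C.n1 α
  have O := (C.ok.cg e).att (h := h0) (C.jx ▸ C.rx)
    (by rw [Function.update_self, C.jx]; exact m.cg e)
  have n1 : fl h0 ∉ insert h0 a := by
    rw [mem_insert, not_or]
    exact ⟨fun e => C.xy H (C.jx.symm.trans (e ▸ C.jy)), C.n1⟩
  have my : ∀ β, Mi nd c a y β → Mi nd (Function.update c h0.1 α) (insert h0 a) y β :=
    fun β m' => (m'.cg e).ins fun q => absurd (C.jx.symm.trans q) (C.xy H)
  have hc := card_insert_of_notMem C.n0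
  have hM := C.card
  rcases d with ⟨-, m'⟩ | ⟨g, rfl, b1, b2, b3, b4⟩
  · have := H.max _ _ (O.att (h := fl h0) (C.jy ▸ C.ry)
      (by rw [fl_1, Function.update_self, C.jy]; exact my _ m'))
    rw [card_insert_of_notMem n1] at this
    omega
  · obtain ⟨β, m'⟩ := C.my
    obtain ⟨c', t, q1, -, -, O', -⟩ := O.two (γ := α) C.ry (my β m')
      (by rintro rfl; exact nodet H C b1 b4 (b2 ▸ C.ry) (b2 ▸ b3 ▸ m')) n1 (g := g)
      (by rw [mem_insert, not_or]; exact ⟨fun e => b4 (e ▸ rfl), b1⟩)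
      (fun e => b4 (e ▸ rfl)) C.jy b2 (by simp) (by rw [Function.update_of_ne b4, b3])
    have := H.max _ _ O'
    rw [card_insert_of_notMem q1] at this
    omega

lemma c0 (C : Cf nd R M c a h0 x y) (d : Hd nd c a (· = h0.1) x α X)
    (d' : Hd nd c a (· = h0.1) y α Y) : False := by
  rcases X with X | X
  · exact c0a H C d.mi d'
  obtain ⟨β, m⟩ := C.mx
  have n : β ≠ α := by rintro rfl; exact nodet' H C C.rx m d
  have l : Lk nd c a β α (inr X) (inl x) := by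
    by_contra l
    obtain ⟨c', C', S⟩ := C.swap β α (inr X)
    exact nodet' H C' C.rx (S.out (m.hd (Z := fun _ => True)) l).mi (S.self d)
  obtain ⟨c', C', S⟩ := C.swap β α Y
  refine c0a H C' (S.out (m.hd (Z := fun _ => True)) fun l' => ?_).mi (S.self d')
  exact d.ne d' (C.xy H) (C.ok.tri n (m.hd (Z := fun _ => True)) d d' l l' (by simp)
    ((m.hd (Z := fun _ => True)).ne d' (C.xy H)))

lemma link (C : Cf nd R M c a h0 x y) (d : Hd nd c a (· = h0.1) x α X)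
    (d' : Hd nd c a (· = h0.1) y γ Y) : Lk nd c a α γ Y X := by
  by_contra l
  obtain ⟨c', C', S⟩ := C.swap α γ Y
  exact c0 H C' (S.out d l) (S.self d')

lemma uniq (C : Cf nd R M c a h0 x y) (d : Hd nd c a (· = h0.1) y γ Y)
    (d' : Hd nd c a (· = h0.1) y γ W) : Y = W := by
  obtain ⟨α, m⟩ := C.mx
  exact C.ok.tri (by rintro rfl; exact c0 H C m.hd d) (m.hd (Z := fun _ => True)) d d' (link H C m.hd d)
    (link H C m.hd d') ((m.hd (Z := fun _ => True)).ne d (C.xy H)) ((m.hd (Z := fun _ => True)).ne d' (C.xy H))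

lemma Fan.xz (C : Cf nd R M c a h0 x y) (F : Fan nd c a h0.1 x y h z) : x ≠ z := fun e =>
  H.loop h (F.jx ▸ C.rx) (F.jz.trans (e.symm.trans F.jx.symm))

lemma shift (C : Cf nd R M c a h0 x y) (F : Fan nd c a h0.1 x y h z) :
    fl h ∈ a ∧ ∃ c' a', Cf nd R M c' a' h x z ∧ ∀ v δ W, (∀ Y, ¬ Hd nd c a (· = h0.1) y δ Y) →
      Hd nd c a (· = h0.1) v δ W → Hd nd c' a' (· = h.1) v δ W := by
  obtain ⟨Y, d⟩ := F.hd
  have xy := C.xy H
  have xz := F.xz H C
  set a1 := (a.erase h).erase (fl h) with ha1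
  have s1 : a1 ⊆ a := (erase_subset _ _).trans (erase_subset _ _)
  have n0 : h0 ∉ a1 := fun q => C.n0 (s1 q)
  have e := upd_eq (c := c) n0 (fun q => C.n1 (s1 q)) (c h.1)
  set c1 := Function.update c h0.1 (c h.1) with hc1
  have u0 : c1 h0.1 = c h.1 := Function.update_self ..
  have mβ : ∀ g ∈ a, c g.1 = c h.1 → g ∉ a1 → Mi nd c1 a1 (nd g) (c h.1) :=
    fun g b1 b2 b3 => Mi.cg (fun g' q1 q2 q3 =>
      b3 (C.ok.inj g' (s1 q1) g b1 q2 (q3.trans b2.symm) ▸ q1)) e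
  have O := ((C.ok.sub s1).cg e).att (h := h0) (C.jx ▸ C.rx)
    (by rw [u0, C.jx, ← F.jx]; exact mβ h F.mem rfl (by simp [a1]))
  have n1 : fl h0 ∉ insert h0 a1 := by
    rw [mem_insert, not_or]
    exact ⟨fun e => xy (C.jx.symm.trans (e ▸ C.jy)), fun q => C.n1 (s1 q)⟩
  have my : ∀ β, Mi nd c a y β → Mi nd c1 (insert h0 a1) y β :=
    fun β m' => ((m'.sub s1).cg e).ins fun q => absurd (C.jx.symm.trans q) xy
  obtain ⟨β, mb⟩ := C.my
  obtain ⟨c', t, q1, q2, q3, O', q4, q5⟩ : ∃ c' t, t ∉ insert h0 a1 ∧ nd t = y ∧ c1 t.1 = c h.1 ∧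
      Ok nd R c' (insert t (insert h0 a1)) ∧
      (∀ e δ, δ ≠ β → δ ≠ c h.1 → (c' e = δ ↔ c1 e = δ)) ∧
      ∀ v δ, v ≠ y → Mi nd c1 (insert h0 a1) v δ →
        ∃ δ', Mi nd c' (insert t (insert h0 a1)) v δ' := by
    rcases d with ⟨-, m'⟩ | ⟨g, rfl, b1, b2, b3, b4⟩
    · exact ⟨c1, fl h0, n1, C.jy, u0, O.att (C.jy ▸ C.ry) (by rw [fl_1, u0, C.jy]; exact my _ m'),
        fun _ _ _ _ => Iff.rfl, fun v δ n m => ⟨δ, m.ins fun q => absurd (q.symm.trans C.jy) n⟩⟩
    · exact O.two C.ry (my β mb)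
        (by rintro rfl; exact nodet H C b1 b4 (b2 ▸ C.ry) (b2 ▸ b3 ▸ mb)) n1 (g := g)
        (by rw [mem_insert, not_or]; exact ⟨fun e => b4 (e ▸ rfl), fun q => b1 (s1 q)⟩)
        (fun e => b4 (e ▸ rfl)) C.jy b2 u0 (by rw [hc1, Function.update_of_ne b4, b3])
  have ne0 := C.ne0 F.mem
  have m0 : h ∉ insert t (insert h0 a1) := by
    simp only [mem_insert, not_or]
    exact ⟨fun e => xy (F.jx.symm.trans (e ▸ q2)), fun e => ne0 (e ▸ rfl), by simp [a1]⟩
  have m1 : fl h ∉ insert t (insert h0 a1) := by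
    simp only [mem_insert, not_or]
    exact ⟨fun e => F.ne (F.jz.symm.trans (e ▸ q2)), fun e => ne0 (e ▸ rfl), by simp [a1]⟩
  obtain ⟨α, ma⟩ := C.mx
  obtain ⟨α', ma'⟩ := q5 x α xy (((ma.sub s1).cg e).ins fun _ => by
    rw [u0]; exact ma h F.mem F.jx)
  have hc : (insert t (insert h0 a1)).card = a1.card + 2 := by
    rw [card_insert_of_notMem q1, card_insert_of_notMem n0]
  have h1 := card_erase_add_one F.mem
  have hM := C.card
  have fm : fl h ∈ a := by
    by_contra q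
    refine free H O' ?_ m0 m1 (F.jx ▸ C.rx) (F.jx ▸ ma')
    rw [hc, ha1, erase_eq_of_notMem fun q' => q (mem_of_mem_erase q')]
    omega
  have h2 := card_erase_add_one (mem_erase.2 ⟨fun e : fl h = h =>
    xz (F.jx.symm.trans ((congrArg nd e).symm.trans F.jz)), fm⟩)
  refine ⟨fm, c', _, ⟨O', by rw [hc, ha1]; omega, m0, m1, F.jx, F.jz, C.rx,
    F.jz ▸ C.ok.real _ fm, ⟨_, ma'⟩, q5 z (c h.1) F.ne
      ((F.jz ▸ mβ (fl h) fm rfl (by simp [a1])).ins fun q => absurd (C.jx.symm.trans q) xz)⟩,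
    fun v δ W n d' => ?_⟩
  have n2 : δ ≠ β := by rintro rfl; exact n _ mb.hd
  have n3 : δ ≠ c h.1 := by rintro rfl; exact n _ d
  refine d'.tr (fun g b _ b' => ?_) fun g b _ b' b'' => ?_
  · rw [q4 _ _ n2 n3] at b'
    simp only [mem_insert] at b
    rcases b with rfl | rfl | b
    exacts [absurd (b'.symm.trans q3) n3, absurd (b'.symm.trans u0) n3, ⟨s1 b, e g b ▸ b'⟩]
  · have e' : c1 g.1 = δ := by rw [hc1, Function.update_of_ne b'', b']
    refine ⟨?_, (q4 _ _ n2 n3).2 e', fun q => n3 (by rw [← b', q])⟩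
    simp only [mem_insert, not_or]
    exact ⟨fun q => n3 (by rw [← e', q, q3]), fun q => b'' (q ▸ rfl), fun q => b (s1 q)⟩

lemma c1a (C : Cf nd R M c a h0 x y) (F : Fan nd c a h0.1 x y h z)
    (d : Hd nd c a (· = h0.1) x α X) (d' : Hd nd c a (· = h0.1) z α W) : False := by
  obtain ⟨-, c', a', C', t⟩ := shift H C F
  exact c0 H C' (t _ _ _ (fun _ => c0 H C d) d) (t _ _ _ (fun _ => c0 H C d) d')

lemma c1β (C : Cf nd R M c a h0 x y) (F : Fan nd c a h0.1 x y h z)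
    (d' : Hd nd c a (· = h0.1) z (c h.1) W) : False := by
  obtain ⟨Y, d⟩ := F.hd
  obtain ⟨α, m⟩ := C.mx
  have l := link H C m.hd d
  have l' : ¬ Lk nd c a α (c h.1) W (inl x) := fun l' => d.ne d' F.ne.symm
    (C.ok.tri (m h F.mem F.jx).symm (m.hd (Z := fun _ => True)) d d' l l' ((m.hd (Z := fun _ => True)).ne d (C.xy H))
      ((m.hd (Z := fun _ => True)).ne d' (F.xz H C)))
  obtain ⟨c', C', S⟩ := C.swap α (c h.1) W
  refine c1a H C' ⟨F.mem, F.jx, F.jz, F.ne, Y, ?_⟩ (S.out m.hd l') (S.self d')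
  rw [S.fo h (by rwa [dn_inl.2 ⟨F.mem, F.jx⟩])]
  exact S.out d fun q => l' (q.trans l)

lemma c1b (C : Cf nd R M c a h0 x y) (F : Fan nd c a h0.1 x y h z)
    (d : Hd nd c a (· = h0.1) x α X) (d' : Hd nd c a (· = h0.1) z γ W) : Lk nd c a α γ W X := by
  by_contra l
  obtain ⟨Y, d''⟩ := F.hd
  have n1 : c h.1 ≠ α := by rintro rfl; exact c0 H C d d''
  have n2 : c h.1 ≠ γ := by rintro rfl; exact c1β H C F d'
  obtain ⟨c', C', S⟩ := C.swap α γ W
  refine c1a H C' ⟨F.mem, F.jx, F.jz, F.ne, Y, ?_⟩ (S.out d l) (S.self d')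
  rw [(S.iff n1 n2 _).2 rfl]
  exact S.ne d'' n1 n2

lemma c1c (C : Cf nd R M c a h0 x y) (F : Fan nd c a h0.1 x y h z)
    (d : Hd nd c a (· = h0.1) y γ Y) (d' : Hd nd c a (· = h0.1) z γ W) : False := by
  obtain ⟨α, m⟩ := C.mx
  exact d.ne d' F.ne.symm (C.ok.tri (by rintro rfl; exact c0 H C m.hd d) (m.hd (Z := fun _ => True)) d d'
    (link H C m.hd d) (c1b H C F m.hd d') ((m.hd (Z := fun _ => True)).ne d (C.xy H))
    ((m.hd (Z := fun _ => True)).ne d' (F.xz H C)))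

lemma uniqz (C : Cf nd R M c a h0 x y) (F : Fan nd c a h0.1 x y h z)
    (d : Hd nd c a (· = h0.1) z γ Y) (d' : Hd nd c a (· = h0.1) z γ W) : Y = W := by
  obtain ⟨α, m⟩ := C.mx
  exact C.ok.tri (by rintro rfl; exact c1a H C F m.hd d) (m.hd (Z := fun _ => True)) d d'
    (c1b H C F m.hd d) (c1b H C F m.hd d') ((m.hd (Z := fun _ => True)).ne d (F.xz H C))
    ((m.hd (Z := fun _ => True)).ne d' (F.xz H C))

omit H in
lemma card_mi (O : Ok nd R c a) (v : N) :
    (univ.filter (Mi nd c a v)).card + (a.filter fun h => nd h = v).card = k := by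
  have h1 := card_filter_add_card_filter_not (s := univ) (Mi nd c a v)
  have h2 : (univ.filter fun α => ¬ Mi nd c a v α) =
      (a.filter fun h => nd h = v).image fun h => c h.1 := by
    ext α
    simp only [mem_filter, mem_univ, true_and, mem_image, and_assoc]
    exact ⟨ex_of_not_mi, fun ⟨h, b1, b2, b3⟩ m => m h b1 b2 b3⟩
  rw [h2, card_image_of_injOn fun h b g b' e => O.inj h (mem_filter.1 b).1 g (mem_filter.1 b').1
    ((mem_filter.1 b).2.trans (mem_filter.1 b').2.symm) e] at h1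
  simpa using h1

/-- the colours with a handle at `v` -/
noncomputable def Ph (nd : E × Bool → N) (c : E → Fin k) (a : Finset (E × Bool)) (Z : E → Prop)
    (v : N) : Finset (Fin k) := univ.filter fun γ => ∃ X, Hd nd c a Z v γ X

lemma ph_ge (O : Ok nd R c a) (r : R v) (hz : ∀ h ∈ a, ¬ Z h.1)
    (un : ∀ γ X Y, Hd nd c a Z v γ X → Hd nd c a Z v γ Y → X = Y) {j : ℕ}
    (hj : (univ.filter fun h => nd h = v ∧ Z h.1).card = j)
    (hm : j ≤ (univ.filter (Mi nd c a v)).card) : s + j ≤ (Ph nd c a Z v).card := by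
  have h1 := card_mi O v
  let D := univ.filter fun h => nd h = v ∧ h ∉ a ∧ ¬ Z h.1
  have hd : ∀ h ∈ D, Hd nd c a Z v (c h.1) (inr h) := fun h b =>
    Or.inr ⟨h, rfl, (mem_filter.1 b).2.2.1, (mem_filter.1 b).2.1, rfl, (mem_filter.1 b).2.2.2⟩
  have h2 : (univ.filter fun h => nd h = v).card =
      (a.filter fun h => nd h = v).card + D.card + j := by
    rw [← hj, show (a.filter fun h => nd h = v) = univ.filter fun h => h ∈ a ∧ nd h = v by
      ext; simp]
    simp only [D, card_filter, ← sum_add_distrib]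
    refine sum_congr rfl fun h _ => ?_
    have := hz h
    split_ifs <;> first | rfl | (exfalso; tauto)
  have h3 : (univ.filter (Mi nd c a v)).card + D.card ≤ (Ph nd c a Z v).card := by
    rw [← card_image_of_injOn (s := D) (f := fun h => c h.1) fun h b g b' e =>
      inr_injective (un _ _ _ (hd h b) (by rw [show c h.1 = c g.1 from e]; exact hd g b')),
      ← card_union_of_disjoint]
    · refine card_le_card fun γ b => mem_filter.2 ⟨mem_univ _, ?_⟩
      rcases mem_union.1 b with b | b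
      · exact ⟨_, (mem_filter.1 b).2.hd⟩
      · obtain ⟨h, q, rfl⟩ := mem_image.1 b
        exact ⟨_, hd h q⟩
    · refine disjoint_left.2 fun γ b b' => ?_
      obtain ⟨h, q, rfl⟩ := mem_image.1 b'
      simpa using un _ _ _ (mem_filter.1 b).2.hd (hd h q)
  have := H.deg v r
  omega

lemma ph_x (C : Cf nd R M c a h0 x y) : s + 1 ≤ (Ph nd c a (· = h0.1) x).card := by
  refine ph_ge H C.ok C.rx (fun h => C.ne0) (fun _ _ _ => uniq H C.symm) (card_eq_one.2 ⟨h0, ?_⟩)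
    (card_pos.2 (C.mx.imp fun α m => mem_filter.2 ⟨mem_univ _, m⟩))
  ext g
  simp only [mem_filter, mem_univ, true_and, mem_singleton]
  refine ⟨fun ⟨b1, b2⟩ => (eq_or_fl (h := h0) b2).resolve_right ?_, ?_⟩ <;> rintro rfl
  exacts [C.xy H (b1.symm.trans C.jy), ⟨C.jx, rfl⟩]

lemma ph_w (C : Cf nd R M c a h0 x y) (r : R w) (n1 : w ≠ x) (n2 : w ≠ y)
    (un : ∀ γ X Y, Hd nd c a (· = h0.1) w γ X → Hd nd c a (· = h0.1) w γ Y → X = Y) :
    s ≤ (Ph nd c a (· = h0.1) w).card := by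
  refine ph_ge H C.ok r (fun h => C.ne0) un (j := 0) (card_eq_zero.2 ?_) (Nat.zero_le _)
  refine filter_eq_empty_iff.2 fun g _ ⟨b1, b2⟩ => ?_
  rcases eq_or_fl b2 with rfl | rfl
  exacts [n1 (b1.symm.trans C.jx), n2 (b1.symm.trans C.jy)]

lemma c4 (C : Cf nd R M c a h0 x y) (F : Fan nd c a h0.1 x y h z) (r : R w) (n1 : w ≠ x)
    (n2 : w ≠ y)
    (un : ∀ γ X Y, Hd nd c a (· = h0.1) w γ X → Hd nd c a (· = h0.1) w γ Y → X = Y) :
    ∃ γ W X, Hd nd c a (· = h0.1) w γ W ∧ (Hd nd c a (· = h0.1) x γ X ∨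
      Hd nd c a (· = h0.1) y γ X ∨ Hd nd c a (· = h0.1) z γ X) := by
  by_contra q
  push Not at q
  have a1 := ph_x H C
  have a2 := ph_x H C.symm
  have a3 := ph_w H C (F.jz ▸ C.ok.real _ (shift H C F).1) (F.xz H C).symm F.ne
    fun _ _ _ => uniqz H C F
  have a4 := ph_w H C r n1 n2 un
  have a5 := H.big
  have : (Ph nd c a (· = h0.1) x).card + (Ph nd c a (· = h0.1) y).card
      + (Ph nd c a (· = h0.1) z).card + (Ph nd c a (· = h0.1) w).card ≤ ∑ _γ : Fin k, 1 := by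
    simp only [Ph, card_filter, ← sum_add_distrib]
    refine sum_le_sum fun γ _ => ?_
    have b1 := fun X Y => c0 H C (α := γ) (X := X) (Y := Y)
    have b2 := fun X Y => c1a H C F (α := γ) (X := X) (W := Y)
    have b3 := fun X Y => c1c H C F (γ := γ) (Y := X) (W := Y)
    have b4 := q γ
    split_ifs <;> first | omega | (exfalso; grind)
  simp only [sum_const, card_univ, Fintype.card_fin, smul_eq_mul, fl_1] at this a2
  omega

lemma c2 {z' : N} (C : Cf nd R M c a h0 x y) (F : Fan nd c a h0.1 x y h z)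
    (F' : Fan nd c a h0.1 y x g z') : z = z' := by
  by_contra n
  obtain ⟨γ, W, X, d, d' | d' | d'⟩ := c4 H C F (F'.jz ▸ C.ok.real _ (shift H C.symm F').1) F'.ne
    (F'.xz H C.symm).symm fun _ _ _ => uniqz (h0 := fl h0) H C.symm F'
  · exact c1c H C.symm F' d' d
  · exact c1a H C.symm F' d' d
  have := H.pos
  obtain ⟨α, b, n1⟩ := exists_mem_ne (s := Ph nd c a (· = h0.1) x)
    (by have := ph_x H C; omega) (c g.1)
  obtain ⟨Y, m⟩ := (mem_filter.1 b).2
  obtain ⟨Y', m'⟩ := F'.hd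
  have l : ¬ Lk nd c a α γ W Y := fun l => d'.ne d n (C.ok.tri
    (by rintro rfl; exact c1a H C F m d') m d' d (c1b H C F m d') l (m.ne d' (F.xz H C))
    (m.ne d F'.ne.symm))
  obtain ⟨c', C', S⟩ := C.swap α γ W
  have n2 : c g.1 ≠ γ := by rintro rfl; exact c1a H C F m' d'
  refine c1c H C'.symm ⟨F'.mem, F'.jx, F'.jz, F'.ne, Y', ?_⟩ (S.out m l) (S.self d)
  rw [(S.iff n1.symm n2 _).2 rfl]
  exact S.ne m' n1.symm n2

lemma rep0 (C : Cf nd R M c a h0 x y) (m0 : Mi nd c a x (c h0.1)) (F : Fan nd c a h0.1 x y h z)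
    (d : Hd nd c a (· = h0.1) y (c h.1) (inr g)) : False := by
  have xy := C.xy H
  obtain ⟨t, tm, ty, tc⟩ := ex_of_not_mi fun m => nodet' H C C.ry m d
  obtain ⟨β, mb⟩ := C.my
  obtain ⟨gm, gy, gc, g0⟩ : g ∉ a ∧ nd g = y ∧ c g.1 = c h.1 ∧ g.1 ≠ h0.1 := by
    rcases d with ⟨e, -⟩ | ⟨g, e, b⟩
    · simp at e
    · obtain rfl := inr_injective e
      exact b
  have O := C.ok.att (h := h0) (C.jx ▸ C.rx) (C.jx ▸ m0)
  have hc := card_insert_of_notMem C.n0
  have hM := C.card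
  have g1 : g ∉ insert h0 a := by
    rw [mem_insert, not_or]; exact ⟨fun e => g0 (e ▸ rfl), gm⟩
  have mb1 : Mi nd c (insert h0 a) y β := mb.ins fun q => absurd (C.jx.symm.trans q) xy
  have f1 : fl g ∈ insert h0 a := by
    by_contra q
    exact free H O (by omega) g1 q (gy ▸ C.ry) (gy ▸ mb1)
  have f2 : fl g ∈ a := (mem_insert.1 f1).resolve_left fun e => g0 (e ▸ rfl)
  have nx : ∀ t, fl t ∈ a → nd t = y → c t.1 = c h.1 → x ≠ nd (fl t) := fun t b1 b2 b3 e => by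
    obtain rfl := C.ok.inj _ b1 _ F.mem (e.symm.trans F.jx.symm) b3
    exact F.ne (F.jz.symm.trans (by simpa using b2))
  have wy : nd (fl g) ≠ y := gy ▸ H.loop g (gy ▸ C.ry)
  have mw : Mi nd c ((insert h0 a).erase (fl g)) (nd (fl g)) (c g.1) := fun g' b1 b2 b3 =>
    (mem_erase.1 b1).1 (O.inj _ (mem_of_mem_erase b1) _ f1 b2 b3)
  have mb2 : Mi nd c ((insert h0 a).erase (fl g)) y β := mb1.sub (erase_subset _ _)
  have C' : Cf nd R M c ((insert h0 a).erase (fl g)) g y (nd (fl g)) :=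
    ⟨O.sub (erase_subset _ _), by have := card_erase_add_one f1; omega,
      fun q => g1 (mem_of_mem_erase q), by simp, gy, rfl, C.ry, C.ok.real _ f2, ⟨_, mb2⟩, _, mw⟩
  have tg : t.1 ≠ g.1 := fun e => by
    rcases eq_or_fl e with rfl | rfl
    exacts [gm tm, wy ty]
  have F' : Fan nd c ((insert h0 a).erase (fl g)) g.1 y (nd (fl g)) t (nd (fl t)) := by
    refine ⟨mem_erase.2 ⟨fun e => tg (e ▸ rfl), mem_insert_of_mem tm⟩, ty, rfl, fun e => ?_, _,
      by rw [tc, ← gc]; exact mw.hd⟩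
    refine nodet H C' (h := fl t) (fun q => ?_) tg (e ▸ C'.ry) (by rw [e, fl_1, tc, ← gc]; exact mw)
    exact mw _ q e (tc.trans gc.symm)
  have f3 : fl t ∈ a := (mem_insert.1 (mem_of_mem_erase (shift H C' F').1)).resolve_left
    fun e => C.ne0 tm (e ▸ rfl)
  have bk : ∀ v γ W, v ≠ nd (fl g) → (v = x ∨ γ ≠ c h0.1) →
      Hd nd c ((insert h0 a).erase (fl g)) (· = g.1) v γ W → Hd nd c a (· = h0.1) v γ W := by
    refine fun v γ W n1 n2 d' => d'.tr (fun t b1 b2 b3 => ⟨mem_erase.2 ⟨fun e => n1 (e ▸ b2.symm),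
      mem_insert_of_mem b1⟩, b3⟩) fun t b1 b2 b3 _ => ?_
    have b4 : t ∉ insert h0 a := fun q => b1 (mem_erase.2 ⟨fun e => n1 (e ▸ b2.symm), q⟩)
    refine ⟨fun q => b4 (mem_insert_of_mem q), b3, fun e => ?_⟩
    rcases eq_or_fl e with rfl | rfl
    · simp at b4
    · rcases n2 with rfl | n2
      exacts [xy (b2.symm.trans C.jy), n2 b3.symm]
  have xw := nx g f2 gy gc
  obtain ⟨γ, W, X, d1, d2⟩ := c4 H C' F' C.rx xy xw fun γ X Y d1 d2 =>
    uniq H C.symm (bk _ _ _ xw (Or.inl rfl) d1) (bk _ _ _ xw (Or.inl rfl) d2)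
  have d3 := bk _ _ _ xw (Or.inl rfl) d1
  have n0 : γ ≠ c h0.1 := by
    rintro rfl
    obtain rfl := uniq H C.symm d3 m0.hd
    exact d1.mi h0 (mem_erase.2 ⟨fun e => g0 (e ▸ rfl), mem_insert_self _ _⟩) C.jx rfl
  have n1 : β ≠ γ := by rintro rfl; exact c0 H C d3 mb.hd
  have l : Lk nd c ((insert h0 a).erase (fl g)) β γ W (inl y) := by
    refine (link H C d3 mb.hd).symm.mono fun t b => ⟨b.symm, ?_⟩
    have b1 : t ≠ fl g := by
      rintro rfl
      rw [fl_1, gc] at b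
      rcases b with rfl | rfl
      exacts [c0 H C d3 d, nodet' H C C.ry mb d]
    have b2 : t ≠ h0 := by
      rintro rfl
      rcases b with rfl | rfl
      exacts [n0 rfl, c0 H C m0.hd mb.hd]
    simp [b1, b2]
  rcases d2 with d2 | d2 | d2
  · exact c0 H C d3 (bk _ _ _ wy.symm (Or.inr n0) d2)
  · exact d1.ne d2 xw (C'.ok.tri n1 (mb2.hd (Z := fun _ => True)) d1 d2 l (link H C' mb2.hd d2)
      ((mb2.hd (Z := fun _ => True)).ne d1 xy.symm) ((mb2.hd (Z := fun _ => True)).ne d2 wy.symm))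
  · exact d1.ne d2 (nx t f3 ty tc) (C'.ok.tri n1 (mb2.hd (Z := fun _ => True)) d1 d2 l
      (c1b H C' F' mb2.hd d2) ((mb2.hd (Z := fun _ => True)).ne d1 xy.symm)
      ((mb2.hd (Z := fun _ => True)).ne d2 (F'.xz H C')))

end Pool.Agent.P.MP_b2489f_co.Cover
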