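import Pool.Agent.P.MP_b2489f_co.Cover2

set_option autoImplicit false
set_option linter.unusedSectionVars false

/-! Edge-cover colourings of multigraphs without sparse triples. -/

namespace Pool.Agent.P.MP_b2489f_co.Cover

open Finset Classical Kempe Sum

variable {E N : Type} [Fintype E] [Fintype N] {k : ℕ} {nd : E × Bool → N} {R : N → Prop}
  {c c' : E → Fin k} {a a' : Finset (E × Bool)} {α β γ δ ξ : Fin k} {U : N → Prop}
  {X Y W : N ⊕ E × Bool} {Z Z' : E → Prop} {u v w x y z : N} {h g h0 p q r : E × Bool} {s M : ℕ}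
  (H : Crit nd R k s M)

lemma ff (h : E × Bool) : fl h ≠ h := by
  obtain ⟨e, _ | _⟩ := h <;> simp [fl]

/-- the edges meeting a set of nodes -/
noncomputable def Inc (nd : E × Bool → N) (U : N → Prop) : Finset E :=
  univ.filter fun e => ∃ b, U (nd (e, b))

/-- the ends at a node -/
noncomputable def At (nd : E × Bool → N) (v : N) : Finset (E × Bool) :=
  univ.filter fun h => nd h = v

/-- a triangle of edges with all six ends detached -/
structure Geo (nd : E × Bool → N) (R : N → Prop) (M : ℕ) (a : Finset (E × Bool)) (U : N → Prop)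
    (Z : E → Prop) (x y z : N) (p q r : E × Bool) : Prop where
  px : nd p = x
  py : nd (fl p) = y
  qy : nd q = y
  qz : nd (fl q) = z
  rx : nd r = x
  rz : nd (fl r) = z
  rX : R x
  rY : R y
  rZ : R z
  xy : x ≠ y
  xz : x ≠ z
  yz : y ≠ z
  out : ∀ h ∈ a, ¬ Z h.1
  hZ : ∀ e, Z e ↔ e = p.1 ∨ e = q.1 ∨ e = r.1
  hU : ∀ v, U v ↔ v = x ∨ v = y ∨ v = z
  card : a.card + 5 = M

lemma Geo.symm (G : Geo nd R M a U Z x y z p q r) : Geo nd R M a U Z y x z (fl p) r q :=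
  ⟨G.py, by simpa using G.px, G.rx, G.rz, G.qy, G.qz, G.rY, G.rX, G.rZ, G.xy.symm, G.yz, G.xz,
    G.out, fun e => by rw [G.hZ, fl_1]; tauto, fun v => by rw [G.hU]; tauto, G.card⟩

lemma Geo.rot (G : Geo nd R M a U Z x y z p q r) : Geo nd R M a U Z y z x q (fl r) (fl p) :=
  ⟨G.qy, G.qz, G.rz, by simpa using G.rx, G.py, by simpa using G.px, G.rY, G.rZ, G.rX, G.yz,
    G.xy.symm, G.xz.symm, G.out, fun e => by rw [G.hZ, fl_1, fl_1]; tauto,
    fun v => by rw [G.hU]; tauto, G.card⟩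

lemma Geo.pq (G : Geo nd R M a U Z x y z p q r) : p.1 ≠ q.1 := fun e => by
  rcases eq_or_fl e with rfl | rfl
  exacts [G.xy (G.px.symm.trans G.qy), G.xz (G.px.symm.trans G.qz)]

lemma Geo.mkcf (G : Geo nd R M a U Z x y z p q r) (O : Ok nd R c a) (m1 : Mi nd c a x ξ)
    (m2 : Mi nd c a x β) (m3 : Mi nd c a y α) (m4 : Mi nd c a y β) (m5 : Mi nd c a z α)
    (m6 : Mi nd c a z β) (n1 : ξ ≠ β) (n2 : α ≠ β) :
    ∃ c1 a1, Cf nd R M c1 a1 p x y ∧ c1 p.1 = ξ ∧ Mi nd c1 a1 x ξ ∧ Fan nd c1 a1 p.1 x y r z ∧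
      (∀ h, ¬ Z h.1 → c1 h.1 = c h.1 ∧ (h ∈ a1 ↔ h ∈ a)) ∧
      ∀ v δ W, δ ≠ α → δ ≠ β → Hd nd c a Z v δ W → Hd nd c1 a1 (· = p.1) v δ W := by
  have pq := G.pq
  have qr : q.1 ≠ r.1 := G.rot.pq
  have rp : r.1 ≠ p.1 := G.rot.rot.pq
  let c1 : E → Fin k := fun e => if e = p.1 then ξ else if e = q.1 then α else
    if e = r.1 then β else c e
  have u1 : c1 p.1 = ξ := if_pos rfl
  have u2 : c1 q.1 = α := by simp [c1, pq.symm]
  have u3 : c1 r.1 = β := by simp [c1, rp, qr.symm]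
  have u4 : ∀ e, ¬ Z e → c1 e = c e := fun e b => by
    rw [G.hZ] at b
    push Not at b
    simp [c1, b]
  have e : ∀ h ∈ a, c1 h.1 = c h.1 := fun h b => u4 _ (G.out h b)
  have O1 := (O.cg e).att (h := r) (G.rx ▸ G.rX) (by rw [u3, G.rx]; exact m2.cg e)
  have O2 := O1.att (h := fl r) (G.rz ▸ G.rZ) (by
    rw [fl_1, u3, G.rz]; exact (m6.cg e).ins fun b => absurd (G.rx.symm.trans b) G.xz)
  have O3 := O2.att (h := q) (G.qy ▸ G.rY) (by
    rw [u2, G.qy]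
    exact ((m3.cg e).ins fun _ => u3 ▸ n2.symm).ins fun _ => u3 ▸ n2.symm)
  have O4 := O3.att (h := fl q) (G.qz ▸ G.rZ) (by
    rw [fl_1, u2, G.qz]
    exact (((m5.cg e).ins fun _ => u3 ▸ n2.symm).ins fun _ => u3 ▸ n2.symm).ins
      fun b => absurd (G.qy.symm.trans b) G.yz)
  have mx : Mi nd c1 (insert (fl q) (insert q (insert (fl r) (insert r a)))) x ξ :=
    ((((m1.cg e).ins fun _ => u3 ▸ n1.symm).ins fun _ => u3 ▸ n1.symm).ins
      fun b => absurd (b.symm.trans G.qy) G.xy).ins fun b => absurd (b.symm.trans G.qz) G.xz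
  have my : Mi nd c1 (insert (fl q) (insert q (insert (fl r) (insert r a)))) y β :=
    ((((m4.cg e).ins fun b => absurd (G.rx.symm.trans b) G.xy).ins
      fun b => absurd (b.symm.trans G.rz) G.yz).ins fun _ => u2 ▸ n2).ins fun _ => u2 ▸ n2
  have mem : ∀ h, h ∈ insert (fl q) (insert q (insert (fl r) (insert r a))) ↔
      h.1 = q.1 ∨ h.1 = r.1 ∨ h ∈ a := fun h => by
    simp only [mem_insert]
    refine ⟨?_, ?_⟩
    · rintro (rfl | rfl | rfl | rfl | b) <;> simp [*]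
    · rintro (b | b | b)
      exacts [by have := eq_or_fl b; tauto, by have := eq_or_fl b; tauto, by tauto]
  have na : ∀ h, h.1 = p.1 ∨ h.1 = q.1 ∨ h.1 = r.1 → h ∉ a := fun h b b' =>
    G.out h b' ((G.hZ _).2 b)
  have nn : ∀ h g : E × Bool, h.1 ≠ g.1 → h ≠ g := fun h g b b' => b (b' ▸ rfl)
  have u5 : ∀ h, ¬ Z h.1 → (h ∈ insert (fl q) (insert q (insert (fl r) (insert r a))) ↔ h ∈ a) :=
    fun h b => by rw [mem]; rw [G.hZ] at b; tauto
  refine ⟨c1, _, ⟨O4, ?_, ?_, ?_, G.px, G.py, G.rX, G.rY, ⟨_, mx⟩, _, my⟩, u1, mx,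
    ⟨by simp, G.rx, G.rz, G.yz.symm, _, by rw [u3]; exact my.hd⟩, fun h b => ⟨u4 _ b, u5 h b⟩,
    fun v δ W b1 b2 d => d.tr (fun h b _ b' => ?_) fun h b _ b' b'' =>
      ⟨fun q => b ((u5 h b'').1 q), by rw [u4 _ b'', b'], fun q => b'' ((G.hZ _).2 (Or.inl q))⟩⟩
  · rw [← G.card, card_insert_of_notMem, card_insert_of_notMem, card_insert_of_notMem,
      card_insert_of_notMem (na r (by simp))]
    · simp [ff, na (fl r) (by simp)]
    · simp [nn q r qr, nn q (fl r) qr, na q]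
    · simp [ff, nn (fl q) r qr, nn (fl q) (fl r) qr, na (fl q) (by simp)]
  · rw [mem]; simp [pq, rp.symm, na p]
  · rw [mem]; simp [pq, rp.symm, na (fl p) (by simp)]
  · rcases (mem h).1 b with b | b | b
    exacts [absurd (by rw [← b', b, u2]) b1, absurd (by rw [← b', b, u3]) b2, ⟨b, e h b ▸ b'⟩]

structure Tri (nd : E × Bool → N) (R : N → Prop) (M : ℕ) (c : E → Fin k) (a : Finset (E × Bool))
    (U : N → Prop) (Z : E → Prop) (x y z : N) (p q r : E × Bool) (α β : Fin k) : Prop where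
  geo : Geo nd R M a U Z x y z p q r
  ok : Ok nd R c a
  ma : ∀ v, U v → Mi nd c a v α
  mb : ∀ v, U v → Mi nd c a v β
  ne : α ≠ β

lemma Tri.symm (T : Tri nd R M c a U Z x y z p q r α β) :
    Tri nd R M c a U Z y x z (fl p) r q α β := ⟨T.geo.symm, T.ok, T.ma, T.mb, T.ne⟩

lemma Tri.rot (T : Tri nd R M c a U Z x y z p q r α β) :
    Tri nd R M c a U Z y z x q (fl r) (fl p) α β := ⟨T.geo.rot, T.ok, T.ma, T.mb, T.ne⟩

lemma Tri.sw (T : Tri nd R M c a U Z x y z p q r α β) :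
    Tri nd R M c a U Z x y z p q r β α := ⟨T.geo, T.ok, T.mb, T.ma, T.ne.symm⟩

lemma Geo.ux (G : Geo nd R M a U Z x y z p q r) : U x := (G.hU _).2 (by simp)
lemma Geo.uy (G : Geo nd R M a U Z x y z p q r) : U y := (G.hU _).2 (by simp)
lemma Geo.uz (G : Geo nd R M a U Z x y z p q r) : U z := (G.hU _).2 (by simp)

lemma Tri.mkcf (T : Tri nd R M c a U Z x y z p q r α β) :
    ∃ c1 a1, Cf nd R M c1 a1 p x y ∧ c1 p.1 = α ∧ Mi nd c1 a1 x α ∧ Fan nd c1 a1 p.1 x y r z ∧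
      (∀ h, ¬ Z h.1 → c1 h.1 = c h.1 ∧ (h ∈ a1 ↔ h ∈ a)) ∧
      ∀ v δ W, δ ≠ α → δ ≠ β → Hd nd c a Z v δ W → Hd nd c1 a1 (· = p.1) v δ W :=
  T.geo.mkcf T.ok (T.ma _ T.geo.ux) (T.mb _ T.geo.ux) (T.ma _ T.geo.uy) (T.mb _ T.geo.uy)
    (T.ma _ T.geo.uz) (T.mb _ T.geo.uz) T.ne T.ne

lemma det (b : h ∉ a) (b' : ¬ Z h.1) (e : nd h = v) (e' : c h.1 = δ) :
    Hd nd c a Z v δ (inr h) := Or.inr ⟨h, rfl, b, e, e', b'⟩

include H

lemma Geo.g1 (G : Geo nd R M a U Z x y z p q r) (O : Ok nd R c a) (m1 : Mi nd c a x ξ)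
    (m2 : Mi nd c a x β) (m3 : Mi nd c a y α) (m4 : Mi nd c a y β) (m5 : Mi nd c a z α)
    (m6 : Mi nd c a z β) (n1 : ξ ≠ β) (n2 : α ≠ β) (b1 : h ∈ a) (b2 : nd h = y) (b3 : c h.1 = ξ) :
    nd (fl h) = z := by
  obtain ⟨c1, a1, C, -, m, F, t, -⟩ := G.mkcf O m1 m2 m3 m4 m5 m6 n1 n2
  have o := G.out h b1
  rw [← (t h o).1] at b3
  refine (c2 H C F ⟨(t h o).2.2 b1, b2, rfl, fun e => ?_, _, by rw [b3]; exact m.hd⟩).symm
  refine nodet H C (h := fl h) (fun b => m _ b e b3) (fun b => o ((G.hZ _).2 (Or.inl b)))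
    (e ▸ G.rX) (by rw [e, fl_1, b3]; exact m)

lemma Tri.no0 (T : Tri nd R M c a U Z x y z p q r α β) (o : ¬ Z h.1) (b : nd h = x) :
    c h.1 ≠ α := by
  obtain ⟨c1, a1, C, -, m, -, t, -⟩ := T.mkcf
  rw [← (t h o).1]
  intro e
  exact nodet H C (fun b' => m _ b' b e) (fun b => o ((T.geo.hZ _).2 (Or.inl b)))
    (b ▸ C.rx) (by rw [e, b]; exact m)

lemma Tri.no (T : Tri nd R M c a U Z x y z p q r α β) (o : ¬ Z h.1) (b : U (nd h)) :
    c h.1 ≠ α := by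
  rcases (T.geo.hU _).1 b with b | b | b
  exacts [T.no0 H o b, T.rot.no0 H o b, T.rot.rot.no0 H o b]

lemma Tri.c0 (T : Tri nd R M c a U Z x y z p q r α β) (n1 : δ ≠ α) (n2 : δ ≠ β)
    (d : Hd nd c a Z x δ X) (d' : Hd nd c a Z y δ Y) : False := by
  obtain ⟨c1, a1, C, -, -, -, -, t⟩ := T.mkcf
  exact Cover.c0 H C (t _ _ _ n1 n2 d) (t _ _ _ n1 n2 d')

lemma Tri.uniq (T : Tri nd R M c a U Z x y z p q r α β) (n1 : δ ≠ α) (n2 : δ ≠ β)
    (d : Hd nd c a Z y δ X) (d' : Hd nd c a Z y δ Y) : X = Y := by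
  obtain ⟨c1, a1, C, -, -, -, -, t⟩ := T.mkcf
  exact Cover.uniq H C (t _ _ _ n1 n2 d) (t _ _ _ n1 n2 d')

lemma Tri.g2 (T : Tri nd R M c a U Z x y z p q r α β) (n1 : δ ≠ α) (n2 : δ ≠ β)
    (d : Hd nd c a Z y δ (inr g)) (b1 : h ∈ a) (b2 : nd h = x) (b3 : c h.1 = δ) :
    nd (fl h) = y := by
  obtain ⟨c1, a1, C, e, m, -, t, t'⟩ := T.mkcf
  have o := T.geo.out h b1
  have d' := t' _ _ _ n1 n2 d
  rw [← b3, ← (t h o).1] at d'
  by_contra n
  exact rep0 H C (e ▸ m) ⟨(t h o).2.2 b1, b2, rfl, n, _, d'⟩ d'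

lemma Tri.k1 (T : Tri nd R M c a U Z x y z p q r α β) (n1 : δ ≠ α) (n2 : δ ≠ β)
    (m : Mi nd c a x δ) : ∃ e, ∀ h, ¬ Z h.1 → U (nd h) → c h.1 = δ → h.1 = e := by
  obtain ⟨t, t1, t2, t3⟩ := ex_of_not_mi fun m' => T.c0 H n1 n2 m.hd m'.hd
  have G := T.geo
  have t4 := G.g1 H T.ok m (T.mb _ G.ux) (T.ma _ G.uy) (T.mb _ G.uy) (T.ma _ G.uz) (T.mb _ G.uz)
    n2 T.ne t1 t2 t3
  have az : ∀ h, ¬ Z h.1 → nd h = z → c h.1 = δ → h ∈ a := fun h o b e => by
    by_contra b'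
    exact T.rot.rot.c0 H n1 n2 (det b' o b e) m.hd
  refine ⟨t.1, fun h o b e => ?_⟩
  rcases (G.hU _).1 b with b | b | b
  · by_cases b' : h ∈ a
    · exact (m h b' b e).elim
    · simpa using T.symm.uniq H n1 n2 m.hd (det b' o b e)
  · by_cases b' : h ∈ a
    · rw [T.ok.inj h b' t t1 (b.trans t2.symm) (e.trans t3.symm)]
    · exact (T.c0 H n1 n2 m.hd (det b' o b e)).elim
  · rw [T.ok.inj h (az h o b e) (fl t) (az _ (G.out t t1) t4 t3) (b.trans t4.symm)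
      (e.trans t3.symm), fl_1]

lemma Tri.k2 (T : Tri nd R M c a U Z x y z p q r α β) (n1 : δ ≠ α) (n2 : δ ≠ β)
    (d : Hd nd c a Z y δ (inr g)) :
    ∃ e e', ∀ h, ¬ Z h.1 → U (nd h) → c h.1 = δ → h.1 = e ∨ h.1 = e' := by
  obtain ⟨t, t1, t2, t3⟩ := ex_of_not_mi fun m' => by simpa using T.uniq H n1 n2 d m'.hd
  have ay : ∀ h, ¬ Z h.1 → nd h = y → c h.1 = δ → h.1 = t.1 ∨ h.1 = g.1 := fun h o b e => by
    by_cases b' : h ∈ a
    · rw [T.ok.inj h b' t t1 (b.trans t2.symm) (e.trans t3.symm)]; simp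
    · rw [inr_injective (T.uniq H n1 n2 d (det b' o b e))]; simp
  refine ⟨t.1, g.1, fun h o b e => ?_⟩
  rcases (T.geo.hU _).1 b with b | b | b
  · by_cases b' : h ∈ a
    · exact ay (fl h) o (T.g2 H n1 n2 d b' b e) e
    · exact (T.c0 H n1 n2 (det b' o b e) d).elim
  · exact ay h o b e
  · by_cases b' : h ∈ a
    · exact ay (fl h) o (T.rot.symm.g2 H n1 n2 d b' b e) e
    · exact (T.rot.c0 H n1 n2 d (det b' o b e)).elim

lemma Tri.k3 (T : Tri nd R M c a U Z x y z p q r α β) (n2 : δ ≠ β)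
    (nh : ∀ v W, U v → ¬ Hd nd c a Z v δ W) (l1 : ¬ Lk nd c a δ α (inl x) (inl y))
    (l2 : ¬ Lk nd c a δ α (inl x) (inl z)) :
    ∃ e e', ∀ h, ¬ Z h.1 → U (nd h) → c h.1 = δ → h.1 = e ∨ h.1 = e' := by
  have G := T.geo
  obtain ⟨t, t1, t2, t3⟩ := ex_of_not_mi fun m' => nh x _ G.ux m'.hd
  obtain ⟨t', t1', t2', t3'⟩ := ex_of_not_mi fun m' => nh y _ G.uy m'.hd
  obtain ⟨c', O, S⟩ := T.ok.swap δ α (inl x)
  have mb : ∀ v, U v → Mi nd c' a v β := fun v b =>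
    (S.ne ((T.mb v b).hd (Z := Z)) n2.symm T.ne.symm).mi
  have t4 := G.g1 H O (S.self ((T.ma _ G.ux).hd (Z := Z))).mi (mb _ G.ux)
    (S.out ((T.ma _ G.uy).hd (Z := Z)) l1).mi (mb _ G.uy)
    (S.out ((T.ma _ G.uz).hd (Z := Z)) l2).mi (mb _ G.uz) n2 T.ne t1' t2'
    (by rw [S.fo t' (by rwa [dn_inl.2 ⟨t1', t2'⟩]), t3'])
  have aa : ∀ h, ¬ Z h.1 → U (nd h) → c h.1 = δ → h ∈ a := fun h o b e => by
    by_contra b'
    exact nh _ _ b (det b' o rfl e)
  refine ⟨t.1, t'.1, fun h o b e => ?_⟩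
  have b' := aa h o b e
  rcases (G.hU _).1 b with b | b | b
  · rw [T.ok.inj h b' t t1 (b.trans t2.symm) (e.trans t3.symm)]; simp
  · rw [T.ok.inj h b' t' t1' (b.trans t2'.symm) (e.trans t3'.symm)]; simp
  · rw [T.ok.inj h b' (fl t') (aa _ (G.out t' t1') (t4 ▸ G.uz) t3') (b.trans t4.symm)
      (e.trans t3'.symm)]; simp

lemma Tri.k4 (T : Tri nd R M c a U Z x y z p q r α β) (n1 : δ ≠ α) (n2 : δ ≠ β)
    (nm : ∀ v, U v → ¬ Mi nd c a v δ) :
    ∃ e e', ∀ h, ¬ Z h.1 → U (nd h) → c h.1 = δ → h.1 = e ∨ h.1 = e' := by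
  have G := T.geo
  by_cases nh : ∀ v W, U v → ¬ Hd nd c a Z v δ W
  · by_cases l1 : Lk nd c a δ α (inl x) (inl y) <;> by_cases l2 : Lk nd c a δ α (inl x) (inl z)
    · have := T.ok.ends n1 ((T.ma _ G.ux).hd (Z := Z)) ((T.ma _ G.uy).hd (Z := Z))
        ((T.ma _ G.uz).hd (Z := Z)) (Or.inr rfl) (Or.inr rfl) (Or.inr rfl) l1.symm l2.symm
        (by simp [G.xy]) (by simp [G.xz])
      simp [G.yz] at this
    · exact T.rot.rot.k3 H n2 nh (fun l => l2 l.symm) fun l => l2 (l1.trans l.symm)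
    · exact T.rot.k3 H n2 nh (fun l => l1 (l2.trans l.symm)) fun l => l1 l.symm
    · exact T.k3 H n2 nh l1 l2
  push Not at nh
  obtain ⟨v, W | g, b, d⟩ := nh
  · exact (nm v b d.mi).elim
  rcases (G.hU _).1 b with rfl | rfl | rfl
  exacts [T.symm.k2 H n1 n2 d, T.k2 H n1 n2 d, T.rot.k2 H n1 n2 d]

lemma Tri.count (T : Tri nd R M c a U Z x y z p q r α β) :
    (Inc nd U).card + (univ.filter (Mi nd c a x)).card +
      (univ.filter (Mi nd c a y)).card + (univ.filter (Mi nd c a z)).card ≤ 2 * k + 5 := by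
  have G := T.geo
  let I : Fin k → Finset E := fun δ => univ.filter fun e => ¬ Z e ∧ (∃ b, U (nd (e, b))) ∧ c e = δ
  have h1 : (Inc nd U).card ≤ ∑ δ, (I δ).card + 3 := by
    refine le_trans (card_le_card (t := univ.biUnion I ∪ {p.1, q.1, r.1}) fun e b => ?_)
      ((card_union_le _ _).trans (add_le_add card_biUnion_le card_le_three))
    by_cases o : Z e
    · exact mem_union_right _ (by simpa using (G.hZ e).1 o)
    · exact mem_union_left _ (mem_biUnion.2 ⟨_, mem_univ _,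
        mem_filter.2 ⟨mem_univ _, o, (mem_filter.1 b).2, rfl⟩⟩)
  have i1 : ∀ δ, (∃ e, ∀ h, ¬ Z h.1 → U (nd h) → c h.1 = δ → h.1 = e) → (I δ).card ≤ 1 := by
    rintro δ ⟨e, he⟩
    refine (card_le_card (t := {e}) fun e' b => ?_).trans (by simp)
    obtain ⟨-, b1, ⟨b, b2⟩, b3⟩ := mem_filter.1 b
    exact mem_singleton.2 (he (e', b) b1 b2 b3)
  have h2 : ∀ δ, (I δ).card + (if Mi nd c a x δ then 1 else 0) + (if Mi nd c a y δ then 1 else 0)
      + (if Mi nd c a z δ then 1 else 0) ≤ 2 + if δ ∈ ({α, β} : Finset (Fin k)) then 1 else 0 := by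
    intro δ
    by_cases n : δ ∈ ({α, β} : Finset (Fin k))
    · have : (I δ).card = 0 := by
        refine card_eq_zero.2 (filter_eq_empty_iff.2 fun e _ ⟨b1, ⟨b, b2⟩, b3⟩ => ?_)
        rcases mem_insert.1 n with rfl | n
        exacts [T.no H (h := (e, b)) b1 b2 b3, T.sw.no H (h := (e, b)) b1 b2
          (b3.trans (mem_singleton.1 n))]
      split_ifs <;> omega
    rw [if_neg n]
    simp only [mem_insert, mem_singleton, not_or] at n
    have xy : Mi nd c a x δ → Mi nd c a y δ → False := fun m m' => T.c0 H n.1 n.2 m.hd m'.hd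
    have yz : Mi nd c a y δ → Mi nd c a z δ → False := fun m m' => T.rot.c0 H n.1 n.2 m.hd m'.hd
    have zx : Mi nd c a z δ → Mi nd c a x δ → False :=
      fun m m' => T.rot.rot.c0 H n.1 n.2 m.hd m'.hd
    split_ifs with b1 b2 b3 b3 b2 b3 b3
    exacts [(xy b1 b2).elim, (xy b1 b2).elim, (zx b3 b1).elim,
      by have := i1 δ (T.k1 H n.1 n.2 b1); omega, (yz b2 b3).elim,
      by have := i1 δ (T.rot.k1 H n.1 n.2 b2); omega,
      by have := i1 δ (T.rot.rot.k1 H n.1 n.2 b3); omega, by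
        obtain ⟨e, e', he⟩ := T.k4 H n.1 n.2 fun v b => by
          rcases (G.hU _).1 b with rfl | rfl | rfl <;> assumption
        refine (card_le_card (t := {e, e'}) fun e'' b => ?_).trans card_le_two
        obtain ⟨-, b1, ⟨b, b2⟩, b3⟩ := mem_filter.1 b
        simpa using he (e'', b) b1 b2 b3]
  have h3 := sum_le_sum fun δ (_ : δ ∈ univ) => h2 δ
  have h4 : ∀ v, ∑ δ, (if Mi nd c a v δ then 1 else 0) = (univ.filter (Mi nd c a v)).card :=
    fun v => (card_filter _ _).symm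
  simp only [sum_add_distrib, h4] at h3
  simp only [← card_filter, sum_const, card_univ, Fintype.card_fin, smul_eq_mul,
    filter_mem_eq_inter, univ_inter, card_pair T.ne] at h3
  omega

omit H in
lemma Tri.mi_ge (T : Tri nd R M c a U Z x y z p q r α β) :
    2 + (k - (univ.filter fun h => nd h = x).card) ≤ (univ.filter (Mi nd c a x)).card := by
  have G := T.geo
  have h1 := card_mi T.ok x
  have h2 : ({α, β} : Finset (Fin k)).card ≤ (univ.filter (Mi nd c a x)).card :=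
    card_le_card (by simp [insert_subset_iff, T.ma _ G.ux, T.mb _ G.ux])
  have h3 : (insert p (insert r (a.filter fun h => nd h = x))).card ≤
      (univ.filter fun h => nd h = x).card :=
    card_le_card (by
      simp only [insert_subset_iff, mem_filter, mem_univ, G.px, G.rx, true_and]
      exact filter_subset_filter _ (subset_univ _))
  have na : ∀ h, h.1 = p.1 ∨ h.1 = q.1 ∨ h.1 = r.1 → h ∉ a := fun h b b' =>
    G.out h b' ((G.hZ _).2 b)
  have pr : p ≠ r := fun e => G.rot.rot.pq (e ▸ rfl)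
  rw [card_insert_of_notMem (by simp [pr, na p]), card_insert_of_notMem (by simp [na r])] at h3
  rw [card_pair T.ne] at h2
  omega

lemma Cf.tri (C : Cf nd R M c a p x y) : ∃ a' z q r α β, Tri nd R M c a'
    (fun v => v = x ∨ v = y ∨ v = z) (fun e => e = p.1 ∨ e = q.1 ∨ e = r.1) x y z p q r α β := by
  have fan : ∀ {p x y β}, Cf nd R M c a p x y → Mi nd c a y β →
      ∃ r, c r.1 = β ∧ Fan nd c a p.1 x y r (nd (fl r)) := by
    intro p x y β C m
    obtain ⟨r, r1, r2, r3⟩ := ex_of_not_mi fun m' => c0 H C m'.hd m.hd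
    refine ⟨r, r3, r1, r2, rfl, fun e => ?_, _, by rw [r3]; exact m.hd⟩
    exact nodet H C (h := fl r) (fun b => m _ b e r3) (C.ne0 (h := r) r1) (e ▸ C.ry)
      (by rw [e, fl_1, r3]; exact m)
  obtain ⟨α, ma⟩ := C.mx
  obtain ⟨β, mb⟩ := C.my
  have n : α ≠ β := by rintro rfl; exact c0 H C ma.hd mb.hd
  obtain ⟨r, r3, F⟩ := fan C mb
  obtain ⟨q, q3, F'⟩ := fan C.symm ma
  have e := c2 H C F F'
  have r4 := (shift H C F).1
  have q4 := (shift H C.symm F').1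
  have qr : q.1 ≠ r.1 := fun e => n (by rw [← q3, e, r3])
  have nn : ∀ h g : E × Bool, h.1 ≠ g.1 → h ≠ g := fun h g b b' => b (b' ▸ rfl)
  have mem : ∀ h, h ∈ (((a.erase r).erase (fl r)).erase q).erase (fl q) ↔
      h.1 ≠ q.1 ∧ h.1 ≠ r.1 ∧ h ∈ a := fun h => by
    simp only [mem_erase]
    exact ⟨fun ⟨b1, b2, b3, b4, b5⟩ => ⟨fun b => (eq_or_fl b).elim b2 b1,
      fun b => (eq_or_fl b).elim b4 b3, b5⟩,
      fun ⟨b1, b2, b3⟩ => ⟨nn _ _ b1, nn _ _ b1, nn _ _ b2, nn _ _ b2, b3⟩⟩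
  have sb : (((a.erase r).erase (fl r)).erase q).erase (fl q) ⊆ a := fun h b => ((mem h).1 b).2.2
  have mi : ∀ t ∈ a, t.1 = q.1 ∨ t.1 = r.1 →
      Mi nd c ((((a.erase r).erase (fl r)).erase q).erase (fl q)) (nd t) (c t.1) :=
    fun t b b' g b1 b2 b3 => by
      obtain rfl := C.ok.inj g (sb b1) t b b2 b3
      exact b'.elim ((mem _).1 b1).1 ((mem _).1 b1).2.1
  refine ⟨_, nd (fl r), q, r, α, β, ⟨C.jx, C.jy, F'.jx, e.symm, F.jx, rfl, C.rx, C.ry,
    C.ok.real _ r4, C.xy H, F.xz H C, F.ne.symm, fun h b => ?_, fun _ => Iff.rfl, fun _ => Iff.rfl,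
    ?_⟩, C.ok.sub sb, ?_, ?_, n⟩
  · obtain ⟨b1, b2, b3⟩ := (mem h).1 b
    have := C.ne0 b3
    tauto
  · have h1 := card_erase_add_one F.mem
    have h2 := card_erase_add_one (mem_erase.2 ⟨ff r, r4⟩)
    have h3 := card_erase_add_one (mem_erase.2 ⟨nn q (fl r) qr, mem_erase.2 ⟨nn q r qr, F'.mem⟩⟩)
    have h4 := card_erase_add_one (mem_erase.2 ⟨ff q, mem_erase.2 ⟨nn (fl q) (fl r) qr,
      mem_erase.2 ⟨nn (fl q) r qr, q4⟩⟩⟩)
    have := C.card
    omega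
  · rintro v (rfl | rfl | rfl)
    exacts [ma.sub sb, F'.jx ▸ q3 ▸ mi q F'.mem (Or.inl rfl), e ▸ q3 ▸ mi (fl q) q4 (Or.inl rfl)]
  · rintro v (rfl | rfl | rfl)
    exacts [F.jx ▸ r3 ▸ mi r F.mem (Or.inr rfl), mb.sub sb, r3 ▸ mi (fl r) r4 (Or.inr rfl)]

omit H in
theorem cover (nd : E × Bool → N) (R : N → Prop) (k s : ℕ) (dg : N → ℕ)
    (hd : ∀ v, (At nd v).card = dg v)
    (loop : ∀ h, R (nd h) → nd (fl h) ≠ nd h) (deg : ∀ v, R v → k + s ≤ dg v ∨ dg v + s ≤ k)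
    (hk : 0 < k) (pos : 1 ≤ s) (big : k < 4 * s + 2)
    (tri : ∀ x y z, R x → R y → R z → x ≠ y → x ≠ z → y ≠ z →
      2 * k ≤ (Inc nd fun v => v = x ∨ v = y ∨ v = z).card +
        ((k - dg x) + (k - dg y) + (k - dg z))) :
    ∃ c : E → Fin k, ∀ v, R v → (k ≤ dg v → ∀ α, ∃ h, nd h = v ∧ c h.1 = α) ∧
      (dg v < k → ∀ h g, nd h = v → nd g = v → c h.1 = c g.1 → h = g) := by
  replace hd : ∀ v, (univ.filter fun h => nd h = v).card = dg v := hd
  obtain ⟨⟨c, a⟩, O, hm⟩ := exists_max_image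
    (univ.filter fun t : (E → Fin k) × Finset (E × Bool) => Ok nd R t.1 t.2) (fun t => t.2.card)
    ⟨(fun _ => ⟨0, hk⟩, ∅), mem_filter.2 ⟨mem_univ _, by simp, by simp⟩⟩
  replace O : Ok nd R c a := (mem_filter.1 O).2
  have H : Crit nd R k s a.card := ⟨loop, fun v r => hd v ▸ deg v r, pos, big,
    fun c' a' O' => hm (c', a') (mem_filter.2 ⟨mem_univ _, O'⟩)⟩
  have key : ∀ h α, R (nd h) → Mi nd c a (nd h) α → h ∈ a := by
    intro h α r m
    by_contra b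
    have f : fl h ∈ a := by
      by_contra q
      exact free H O le_rfl b q r m
    have C : Cf nd R a.card c (a.erase (fl h)) h (nd h) (nd (fl h)) :=
      ⟨O.sub (erase_subset _ _), card_erase_add_one f, fun q => b (mem_of_mem_erase q), by simp,
        rfl, rfl, r, O.real _ f, ⟨_, m.sub (erase_subset _ _)⟩, c h.1, fun g b1 b2 b3 =>
          (mem_erase.1 b1).1 (O.inj _ (mem_of_mem_erase b1) _ f b2 b3)⟩
    obtain ⟨a', z, q, r, α, β, T⟩ := C.tri H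
    have h1 := T.count H
    have h2 := T.mi_ge
    have h3 := T.rot.mi_ge
    have h4 := T.rot.rot.mi_ge
    have h5 := tri _ _ _ T.geo.rX T.geo.rY T.geo.rZ T.geo.xy T.geo.xz T.geo.yz
    rw [hd] at h2 h3 h4
    omega
  refine ⟨c, fun v r => ⟨fun b α => ?_, fun b h g b1 b2 b3 => ?_⟩⟩
  · by_contra q
    have m : Mi nd c a v α := fun h _ b1 b2 => q ⟨h, b1, b2⟩
    have h1 := card_mi O v
    have h2 : dg v ≤ (a.filter fun h => nd h = v).card := hd v ▸ card_le_card fun h b => by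
      obtain rfl := (mem_filter.1 b).2
      exact mem_filter.2 ⟨key h α r m, rfl⟩
    have h3 := card_pos.2 ⟨α, mem_filter.2 ⟨mem_univ _, m⟩⟩
    omega
  · have h1 := card_mi O v
    have h2 : (a.filter fun h => nd h = v).card ≤ dg v :=
      hd v ▸ card_le_card (filter_subset_filter _ (subset_univ _))
    obtain ⟨α, m⟩ := card_pos.1 (show 0 < (univ.filter (Mi nd c a v)).card by omega)
    replace m := (mem_filter.1 m).2
    exact O.inj h (key h α (b1 ▸ r) (b1 ▸ m)) g (key g α (b2 ▸ r) (b2 ▸ m)) (b1.trans b2.symm) b3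

end Pool.Agent.P.MP_b2489f_co.Cover
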