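import Mathlib

set_option autoImplicit false

/-! Plane graphs as genus-zero combinatorial maps, and polychromatic colourings. -/

namespace Pool.Agent.P.MP_b2489f_co

/-- The orbits (cycles, fixed points included) of a permutation. -/
def Orb {D : Type} (π : Equiv.Perm D) : Type := Quotient (Equiv.Perm.SameCycle.setoid π)

/-- The orbit of a point. -/
def orb {D : Type} (π : Equiv.Perm D) (d : D) : Orb π :=
  Quotient.mk (Equiv.Perm.SameCycle.setoid π) d

/-- A connected plane multigraph (loops and multiple edges allowed) with at least one edge, given
as a genus-zero combinatorial map on a set `D` of darts (half-edges): `σ` turns a dart around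
its vertex, `α` exchanges the two darts of an edge.  Vertices are the orbits of `σ`, edges the
orbits of `α`, faces the orbits of `σ * α`, and Euler's formula `V - E + F = 2` holds. -/
structure PlaneMap (D : Type) where
  σ : Equiv.Perm D
  α : Equiv.Perm D
  α_α : ∀ d, α (α d) = d
  α_ne : ∀ d, α d ≠ d
  conn : ∀ x y, Relation.ReflTransGen (fun a b => b = σ a ∨ b = α a) x y
  euler : Nat.card (Orb σ) + Nat.card (Orb (σ * α)) = Nat.card (Orb α) + 2

namespace PlaneMap

variable {D : Type} (M : PlaneMap D)

/-- The set of vertices on the boundary of the face `f`. -/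
def faceVerts (f : Orb (M.σ * M.α)) : Set (Orb M.σ) :=
  {v | ∃ d, orb M.σ d = v ∧ orb (M.σ * M.α) d = f}

/-- `g(G)`: the least number of distinct vertices on a face. -/
noncomputable def minFace : ℕ := sInf (Set.range fun f => (M.faceVerts f).ncard)

/-- A `k`-colouring of the vertices is polychromatic if every colour appears on every face. -/
def Polychromatic {k : ℕ} (c : Orb M.σ → Fin k) : Prop :=
  ∀ f i, ∃ v ∈ M.faceVerts f, c v = i

/-- `p(G)`: the largest `k` admitting a polychromatic `k`-colouring. -/
noncomputable def polyNum : ℕ := sSup {k | ∃ c : Orb M.σ → Fin k, M.Polychromatic c}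

end PlaneMap

/-- `p(g)`: the least polychromatic number of a plane graph whose smallest face has size `g`. -/
noncomputable def pMin (g : ℕ) : ℕ :=
  sInf {k | ∃ (D : Type) (_ : Finite D) (M : PlaneMap D), M.minFace = g ∧ M.polyNum = k}

end Pool.Agent.P.MP_b2489f_co
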