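import Pool.Agent.P.MP_b2489f_co.Spr

set_option autoImplicit false
set_option linter.unusedSectionVars false

/-! The regions cut out by a dense triple of faces. -/

namespace Pool.Agent.P.MP_b2489f_co.Cover

open Finset Classical Sum Relation

variable {V F : Type} [Fintype V] [Fintype F] {k g : ℕ} {N : F → Finset V} {U : Finset F}
  {f f' f0 : F} {v : V}

/-- faces outside `U` joined through vertices outside the faces of `U` -/
def Cl (N : F → Finset V) (U : Finset F) : F → F → Prop :=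
  ReflTransGen fun a b => a ∉ U ∧ b ∉ U ∧ ∃ v, v ∉ U.biUnion N ∧ v ∈ N a ∧ v ∈ N b

/-- the attachments of a class -/
noncomputable def Tt (N : F → Finset V) (U : Finset F) (f : F) : Finset V :=
  (U.biUnion N).filter fun v => ∃ f', Cl N U f f' ∧ v ∈ N f'

def Cs (N : F → Finset V) (U : Finset F) (f : F) : Set (V ⊕ F) :=
  {x | ∃ f', Cl N U f f' ∧ (x = inr f' ∨ ∃ v, v ∉ U.biUnion N ∧ v ∈ N f' ∧ x = inl v)}

lemma Cl.symm (h : Cl N U f f') : Cl N U f' f := by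
  induction h with
  | refl => exact ReflTransGen.refl
  | tail _ h ih =>
    obtain ⟨a, b, v, c, d, e⟩ := h
    exact ReflTransGen.head ⟨b, a, v, c, e, d⟩ ih

lemma Cl.out (h : Cl N U f f') (n : f ∉ U) : f' ∉ U := by
  induction h with
  | refl => exact n
  | tail _ h _ => exact h.2.1

lemma cs_inr : inr f' ∈ Cs N U f ↔ Cl N U f f' := by simp [Cs]

lemma cs_inl (h : inl v ∈ Cs N U f) : v ∉ U.biUnion N := by
  obtain ⟨_, -, e | ⟨w, a, -, e⟩⟩ := h
  exacts [by simp at e, inl_injective e ▸ a]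

lemma conn_cs : Conn (fun v f => v ∈ N f) (Cs N U f) := by
  have key : ∀ f', Cl N U f f' → ReflTransGen (fun a b => a ∈ Cs N U f ∧ b ∈ Cs N U f ∧
      Adj (fun v f => v ∈ N f) a b) (inr f) (inr f') := by
    intro f' h
    induction h with
    | refl => rfl
    | @tail a b h h' ih =>
      obtain ⟨v, c, d, e⟩ := h'.2.2
      have m : inl v ∈ Cs N U f := ⟨a, h, Or.inr ⟨v, c, d, rfl⟩⟩
      exact (ih.tail ⟨cs_inr.2 h, m, d⟩).tail ⟨m, cs_inr.2 (h.tail h'), e⟩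
  refine ⟨inr f, ?_⟩
  rintro x ⟨f', h, rfl | ⟨v, a, b, rfl⟩⟩
  exacts [key f' h, (key f' h).tail ⟨cs_inr.2 h, ⟨f', h, Or.inr ⟨v, a, b, rfl⟩⟩, b⟩]

lemma mem_tt : v ∈ Tt N U f ↔ v ∈ U.biUnion N ∧ ∃ f', Cl N U f f' ∧ v ∈ N f' := mem_filter

lemma conn_hub {H : Set (V ⊕ F)} (h : Conn (fun v f => v ∈ N f) H) :
    Conn (fun v f => v ∈ N f)
      (H ∪ {x | ∃ f, (f ∉ U ∧ ∃ v ∈ Tt N U f, inl v ∈ H) ∧ x ∈ Cs N U f}) :=
  conn_iUnion h _ _ (fun _ _ => conn_cs) fun _ ⟨_, v, a, b⟩ => by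
    obtain ⟨-, f', c, d⟩ := mem_tt.1 a
    exact ⟨_, b, _, cs_inr.2 c, d⟩

lemma conn_add {H : Set (V ⊕ F)} (h : Conn (fun v f => v ∈ N f) H) (A : Finset V)
    (hA : ∀ v ∈ A, ∃ f, inr f ∈ H ∧ v ∈ N f) :
    Conn (fun v f => v ∈ N f) (H ∪ {x | ∃ v, v ∈ A ∧ x ∈ ({inl v} : Set (V ⊕ F))}) :=
  conn_iUnion h _ _ (fun _ _ => conn_singleton _ _) fun v a => by
    obtain ⟨f, b, c⟩ := hA v a
    exact ⟨_, b, _, rfl, c⟩

structure Dn (N : F → Finset V) (U : Finset F) (k g : ℕ) : Prop where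
  spr : Spr fun v f => v ∈ N f
  card : U.card = 3
  hN : ∀ f ∈ U, (N f).card = g
  den : (U.biUnion N).card < 2 * k + 6
  hk : 4 * k + 2 = 3 * g
  big : 126 ≤ g

variable (D : Dn N U k g)
include D

lemma Dn.rk : Rk N (Fintype.card V + 1) U :=
  ⟨D.card, by have := card_le_univ (Lv N U 1); have := card_le_univ (Lv N U 2); omega⟩

lemma Dn.lv : v ∈ U.biUnion N ↔ v ∈ Lv N U 1 ∨ v ∈ Lv N U 2 ∨ v ∈ Lv N U 3 := by
  have h1 : (U.filter fun f => v ∈ N f).card ≤ 3 := D.card ▸ card_filter_le _ _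
  have h2 : v ∈ U.biUnion N ↔ 0 < (U.filter fun f => v ∈ N f).card := by
    simp [card_pos, filter_nonempty_iff]
  simp only [h2, mem_lv]
  omega

lemma Dn.all (h : v ∈ Lv N U 3) (q : f ∈ U) : v ∈ N f := by
  have := eq_of_subset_of_card_le (filter_subset (fun f => v ∈ N f) U)
    (by rw [D.card, mem_lv.1 h])
  rw [← this] at q
  exact (mem_filter.1 q).2

lemma Dn.oth (q : f ∈ U) : ∃ a ∈ U, ∃ b ∈ U, a ≠ f ∧ b ≠ f ∧ a ≠ b := by
  obtain ⟨a, a1, b, b1, n⟩ := one_lt_card.1 (show 1 < (U.erase f).card by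
    rw [card_erase_of_mem q, D.card]; omega)
  rw [mem_erase] at a1 b1
  exact ⟨a, a1.2, b, b1.2, a1.1, b1.1, n⟩

lemma Dn.cnt : (Lv N U 1).card + 2 * (Lv N U 2).card + 3 * (Lv N U 3).card = 3 * g ∧
    (Lv N U 1).card + (Lv N U 2).card + (Lv N U 3).card < 2 * k + 6 ∧ (Lv N U 3).card ≤ 2 := by
  have h0 : ∀ v, (U.filter fun f => v ∈ N f).card ≤ 3 := fun v => D.card ▸ card_filter_le _ _
  refine ⟨?_, lt_of_le_of_lt ?_ D.den, ?_⟩
  · have : ∑ f ∈ U, (N f).card = 3 * g := by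
      rw [sum_congr rfl D.hN, sum_const, D.card, smul_eq_mul]
    have e : ∀ f, (N f).card = ∑ v, if v ∈ N f then 1 else 0 := fun f => by simp
    simp only [e] at this
    rw [← this, sum_comm, Lv, Lv, Lv, card_filter, card_filter, card_filter, mul_sum, mul_sum,
      ← sum_add_distrib, ← sum_add_distrib]
    refine sum_congr rfl fun v _ => ?_
    have := h0 v
    rw [← card_filter]
    split_ifs <;> omega
  · rw [← card_union_of_disjoint, ← card_union_of_disjoint]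
    · exact card_le_card fun v a => D.lv.2 (by simpa [or_assoc] using a)
    all_goals
      refine disjoint_left.2 fun v a b => ?_
      simp only [mem_union, mem_lv] at a b
      omega
  · obtain ⟨f, q⟩ := card_pos.1 (show 0 < U.card by rw [D.card]; omega)
    obtain ⟨a, a1, b, b1, n1, n2, n3⟩ := D.oth q
    exact D.spr.hub (conn_singleton _ (inr f)) (conn_singleton _ (inr a)) (conn_singleton _ (inr b))
      (by simp [n1.symm]) (by simp [n2.symm]) (by simp [n3]) _ fun z h =>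
        ⟨by simp, ⟨f, rfl, D.all h q⟩, ⟨a, rfl, D.all h a1⟩, b, rfl, D.all h b1⟩

lemma Dn.typ (q : f ∈ U) : 42 ≤ (Lv N U 2 \ N f).card ∧ (Lv N U 2 \ N f).card + 27 ≤ k := by
  have h1 := card_sdiff_add_card_inter (Lv N U 2) (N f)
  have h2 : (Lv N U 2 ∩ N f).card ≤ g := D.hN f q ▸ card_le_card inter_subset_right
  have h3 : g ≤ (Lv N U 1 ∪ Lv N U 3 ∪ Lv N U 2 ∩ N f).card := D.hN f q ▸ card_le_card fun v h => by
    have := D.lv.1 (mem_biUnion.2 ⟨f, q, h⟩)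
    simp only [mem_union, mem_inter]
    tauto
  have := card_union_le (Lv N U 1 ∪ Lv N U 3) (Lv N U 2 ∩ N f)
  have := card_union_le (Lv N U 1) (Lv N U 3)
  have := D.cnt
  have := D.hk
  have := D.big
  omega

lemma Dn.g1 (q : f ∈ U) (n : f0 ∉ U) (Z : Finset V)
    (hZ : ∀ z ∈ Z, z ∈ Tt N U f0 ∧ z ∈ N f ∧ z ∉ Lv N U 1) : Z.card ≤ 2 := by
  obtain ⟨w, hw⟩ := card_pos.1 (show 0 < (Lv N U 2 \ N f).card by have := D.typ q; omega)
  obtain ⟨w1, w2⟩ := mem_sdiff.1 hw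
  refine D.spr.hub (conn_singleton _ (inr f)) (conn_cs (U := U) (f := f0))
    (conn_iUnion (conn_singleton _ (inl w)) (fun a => a ∈ U ∧ a ≠ f) (fun a => {inr a})
      (fun _ _ => conn_singleton _ _) fun a b =>
        ⟨_, rfl, _, rfl, (D.rk.oth w1 q b.1 w2).resolve_right b.2⟩) ?_ ?_ ?_ Z fun z h => ?_
  · rintro _ rfl a
    exact (cs_inr.1 a).out n q
  · rintro _ rfl (e | ⟨b, c, e⟩)
    exacts [by simp at e, c.2 (inr_injective e).symm]
  · rintro _ a (rfl | ⟨b, c, rfl⟩)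
    exacts [cs_inl a (D.lv.2 (by simp [w1])), (cs_inr.1 a).out n c.1]
  · obtain ⟨h1, h2, h3⟩ := hZ z h
    obtain ⟨h4, f', h5, h6⟩ := mem_tt.1 h1
    obtain ⟨a, a1, a2⟩ := exists_mem_ne (s := U.filter fun f => z ∈ N f) (by
      have := D.lv.1 h4
      simp only [mem_lv] at this h3
      omega) f
    exact ⟨⟨by simp, fun a => cs_inl a h4, by simpa using fun e : z = w => w2 (e ▸ h2)⟩,
      ⟨f, rfl, h2⟩, ⟨f', cs_inr.2 h5, h6⟩, a, Or.inr ⟨a, ⟨(mem_filter.1 a1).1, a2⟩, rfl⟩,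
      (mem_filter.1 a1).2⟩

lemma Dn.tt3 (n : f0 ∉ U) : (Tt N U f0 \ Lv N U 1).card ≤ 3 := by
  have h1 : ∑ f ∈ U, ((Tt N U f0 \ Lv N U 1).filter fun v => v ∈ N f).card ≤ U.card * 2 :=
    sum_le_card_nsmul _ _ _ fun f q => D.g1 q n _ fun z h => by
      simp only [mem_filter (s := _ \ _), mem_sdiff] at h
      tauto
  simp only [card_filter] at h1
  rw [sum_comm, D.card] at h1
  have h2 := card_nsmul_le_sum (Tt N U f0 \ Lv N U 1) (fun v => ∑ f ∈ U, if v ∈ N f then 1 else 0)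
    2 fun v h => by
      have := D.lv.1 (mem_tt.1 (mem_sdiff.1 h).1).1
      have := (mem_sdiff.1 h).2
      simp only [mem_lv] at *
      rw [← card_filter]
      omega
  rw [smul_eq_mul] at h2
  omega

lemma Dn.tt (n : f0 ∉ U) : (Tt N U f0).card ≤ 13 := by
  have := D.tt3 n
  have := le_card_sdiff (Lv N U 1) (Tt N U f0)
  have := D.cnt
  have := D.hk
  omega

lemma Dn.g2 (q : f ∈ U) {H : Set (V ⊕ F)} (c : Conn (fun v f => v ∈ N f) H)
    (h : ∀ a ∈ U, a ≠ f → inr a ∉ H) (Z : Finset V) (hZ : ∀ z ∈ Z, z ∈ Lv N U 2 ∧ z ∉ N f ∧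
      inl z ∉ H ∧ ∃ f', f' ∉ U ∧ z ∈ Tt N U f' ∧ ∃ v ∈ Tt N U f', inl v ∈ H) : Z.card ≤ 2 := by
  obtain ⟨a, a1, b, b1, n1, n2, n3⟩ := D.oth q
  have key : ∀ a ∈ U, a ≠ f → ∀ x ∈ ({inr a} : Set (V ⊕ F)),
      x ∉ H ∪ {x | ∃ f, (f ∉ U ∧ ∃ v ∈ Tt N U f, inl v ∈ H) ∧ x ∈ Cs N U f} := by
    rintro a a1 n _ rfl (e | ⟨f', e, e'⟩)
    exacts [h a a1 n e, (cs_inr.1 e').out e.1 a1]
  refine D.spr.hub (conn_singleton _ (inr a)) (conn_singleton _ (inr b)) (conn_hub (U := U) c)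
    (by simp [n3]) (key a a1 n1) (key b b1 n2) Z fun z hz => ?_
  obtain ⟨h1, h2, h3, f', h4, h5, h6⟩ := hZ z hz
  obtain ⟨h7, f'', h8, h9⟩ := mem_tt.1 h5
  refine ⟨⟨by simp, by simp, ?_⟩, ⟨a, rfl, (D.rk.oth h1 q a1 h2).resolve_right n1⟩,
    ⟨b, rfl, (D.rk.oth h1 q b1 h2).resolve_right n2⟩, f'', Or.inr ⟨f', ⟨h4, h6⟩, cs_inr.2 h8⟩, h9⟩
  rintro (e | ⟨_, -, e⟩)
  exacts [h3 e, cs_inl e h7]

omit D in
/-- the inner vertices that get a colour of their own -/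
noncomputable def Sp (N : F → Finset V) (U : Finset F) (ρ : F) : Finset V :=
  (Lv N U 2 \ Tt N U ρ).filter fun y => ∃ f', f' ∉ U ∧ y ∈ Tt N U f' ∧ ∃ v ∈ Tt N U f',
    v ∈ Tt N U ρ ∨ ∀ f ∈ U, y ∉ N f → v ∈ N f

lemma Dn.sp (n : f0 ∉ U) : (Sp N U f0).card ≤ 12 := by
  rw [← D.rk.sum (Sp N U f0) ((filter_subset _ _).trans sdiff_subset)]
  refine (sum_le_card_nsmul _ _ 4 fun f q => ?_).trans (by rw [D.card]; rfl)
  have h1 := D.g2 q (conn_add (conn_cs (U := U) (f := f0)) (Tt N U f0) fun v a => by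
      obtain ⟨-, f', b, c⟩ := mem_tt.1 a
      exact ⟨f', cs_inr.2 b, c⟩)
    (fun a a1 _ e => by simpa using e.imp (fun e => (cs_inr.1 e).out n a1) id)
    ((Sp N U f0 \ N f).filter fun y => ∃ f', f' ∉ U ∧ y ∈ Tt N U f' ∧ ∃ v ∈ Tt N U f',
      v ∈ Tt N U f0) fun z h => by
      obtain ⟨h1, f', h2, h3, v, h4, h5⟩ := mem_filter.1 h
      obtain ⟨h6, h7⟩ := mem_sdiff.1 h1
      obtain ⟨h8, h9⟩ := mem_sdiff.1 (mem_filter.1 h6).1
      refine ⟨h8, h7, ?_, f', h2, h3, v, h4, Or.inr ⟨v, h5, rfl⟩⟩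
      rintro (e | ⟨w, e, e'⟩)
      exacts [cs_inl e (mem_tt.1 h3).1, h9 (inl_injective e' ▸ e)]
  have h2 := D.g2 q (conn_add (conn_singleton _ (inr f)) (N f) fun v a => ⟨f, rfl, a⟩)
    (fun a a1 n => by simpa using n)
    ((Sp N U f0 \ N f).filter fun y => ¬ ∃ f', f' ∉ U ∧ y ∈ Tt N U f' ∧ ∃ v ∈ Tt N U f',
      v ∈ Tt N U f0) fun z h => by
      obtain ⟨h1, h0⟩ := mem_filter.1 h
      obtain ⟨h6, h7⟩ := mem_sdiff.1 h1
      obtain ⟨h8, f', h2, h3, v, h4, h5⟩ := mem_filter.1 h6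
      exact ⟨(mem_sdiff.1 h8).1, h7, by simpa using h7, f', h2, h3, v, h4, Or.inr
        ⟨v, (h5.resolve_left fun e => h0 ⟨f', h2, h3, v, h4, e⟩) f q h7, rfl⟩⟩
  have := card_filter_add_card_filter_not (s := Sp N U f0 \ N f)
    fun y => ∃ f', f' ∉ U ∧ y ∈ Tt N U f' ∧ ∃ v ∈ Tt N U f', v ∈ Tt N U f0
  omega

lemma Dn.con (q : f ∈ U) (n : f0 ∉ U) : Spr fun v a =>
    v ∈ (if a = f then Tt N U f0 else if Cl N U f0 a then N a else ∅) := by
  have c : Conn (fun v f => v ∈ N f) ({inr f} ∪ {x | ∃ a, (a ∈ U ∧ a ≠ f) ∧ x ∈ {inr a} ∪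
      {x | ∃ v, v ∈ (Lv N U 2 \ Tt N U f0).filter (· ∈ N a) ∧ x ∈ ({inl v} : Set (V ⊕ F))}}) := by
    refine conn_iUnion (conn_singleton _ _) _ _ (fun a _ => conn_add (conn_singleton _ _) _
      fun v h => ⟨a, rfl, (mem_filter.1 h).2⟩) fun a ⟨a1, a2⟩ => ?_
    obtain ⟨l, l1⟩ := card_pos.1 (show 0 < ((U.erase f).erase a).card by
      rw [card_erase_of_mem (mem_erase.2 ⟨a2, a1⟩), card_erase_of_mem q, D.card]; omega)
    simp only [mem_erase] at l1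
    obtain ⟨w, w1, w2⟩ := exists_mem_notMem_of_card_lt_card (s := Tt N U f0)
      (t := Lv N U 2 \ N l) (by have := D.typ l1.2.2; have := D.tt n; omega)
    obtain ⟨w3, w4⟩ := mem_sdiff.1 w1
    exact ⟨_, rfl, inl w, Or.inr ⟨w, mem_filter.2 ⟨mem_sdiff.2 ⟨w3, w2⟩,
      (D.rk.oth w3 l1.2.2 a1 w4).resolve_right (Ne.symm l1.1)⟩, rfl⟩,
      (D.rk.oth w3 l1.2.2 q w4).resolve_right (Ne.symm l1.2.1)⟩
  generalize hH : (_ ∪ _ : Set (V ⊕ F)) = H at c
  have m1 : ∀ a, inr a ∈ H ↔ a ∈ U := fun a => by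
    subst hH
    by_cases e : a = f <;> simp [e, q]
  have m2 : ∀ v, inl v ∈ H → v ∈ Lv N U 2 \ Tt N U f0 := fun v => by
    subst hH
    simp only [Set.mem_union, Set.mem_singleton_iff, Set.mem_ofPred_eq, mem_filter (s := _ \ _)]
    grind
  refine D.spr.map (Sum.elim (fun v => if v ∈ Lv N U 2 \ Tt N U f0 then ∅ else {inl v})
    fun a => if a = f then H else if a ∈ U then ∅ else {inr a}) ?_ ?_ fun v a h => ?_
  · rintro (x | x) (y | y) (z | z) a b <;> simp only [elim_inl, elim_inr] at a b <;>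
      split_ifs at a b <;> simp_all
  · rintro (x | x) <;> simp only [elim_inl, elim_inr] <;> split_ifs
    exacts [⟨inl x, by simp⟩, conn_singleton _ _, c, ⟨inr x, by simp⟩, conn_singleton _ _]
  · simp only [elim_inl, elim_inr]
    split_ifs at h with e e'
    · obtain ⟨b, b1, b2⟩ := mem_biUnion.1 (mem_tt.1 h).1
      rw [if_neg (by simp [h]), if_pos e]
      exact ⟨_, rfl, _, (m1 b).2 b1, b2⟩
    · rw [if_neg fun p => (mem_sdiff.1 p).2 (mem_tt.2 ⟨D.lv.2 (by simp [(mem_sdiff.1 p).1]),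
        a, e', h⟩), if_neg e, if_neg (e'.out n)]
      exact ⟨_, rfl, _, rfl, h⟩
    · simp at h

lemma Dn.fill (c1 : V → Fin k) (P : Finset V) (hP : P ⊆ Lv N U 2) (A B : Finset (Fin k))
    (AB : Disjoint A B) (hA : ∀ α ∈ A, ∀ f ∈ U, ∃ v ∈ N f, c1 v = α ∧ v ∉ Lv N U 2 \ P)
    (hB : ∀ α ∈ B, ∃ f ∈ U, ∃ v ∈ N f, c1 v = α ∧ v ∉ Lv N U 2 \ P)
    (n1 : 2 * k + P.card ≤ (Lv N U 2).card + 2 * A.card + B.card) (n2 : P.card ≤ 15)
    (n3 : A.card + B.card ≤ 27) : ∃ c' : V → Fin k,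
      (∀ v, v ∉ Lv N U 2 \ P → c' v = c1 v) ∧ ∀ f ∈ U, ∀ α, ∃ v ∈ N f, c' v = α := by
  have r := D.rk
  have : Nonempty F := ⟨(card_pos.1 (by rw [r.1]; omega)).choose⟩
  choose! t t1 t2 using hB
  let O := univ \ (A ∪ B)
  have hO : O.card + A.card + B.card = k := by
    have := card_sdiff_add_card_eq_card (subset_univ (A ∪ B))
    rw [card_union_of_disjoint AB, card_univ, Fintype.card_fin] at this
    rw [add_assoc, this]
  let J : F → Finset V := fun f => (Lv N U 2 \ P) \ N f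
  let B' : F → Finset (Fin k) := fun f => B.filter fun α => t α = f
  have j1 : ∑ f ∈ U, (J f).card + P.card = (Lv N U 2).card := by
    rw [r.sum _ sdiff_subset, card_sdiff_add_card_eq_card hP]
  have j2 : ∑ f ∈ U, (B' f).card = B.card := (card_eq_sum_card_fiberwise fun α h => t1 α h).symm
  have j3 : ∀ f ∈ U, (B' f).card ≤ (J f).card ∧ (J f).card ≤ O.card := fun f q => by
    have a1 := D.typ q
    have a2 : (B' f).card ≤ B.card := card_filter_le _ _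
    have a3 : (J f).card ≤ (Lv N U 2 \ N f).card :=
      card_le_card (sdiff_subset_sdiff sdiff_subset Subset.rfl)
    have a4 : (Lv N U 2 \ N f).card ≤ (J f ∪ P).card := card_le_card fun v h => by
      simp only [J, mem_union, mem_sdiff] at h ⊢
      tauto
    have := card_union_le (J f) P
    omega
  obtain ⟨M, hM⟩ := split U (fun f => O.card + (B' f).card - (J f).card) O (by
    have : ∑ f ∈ U, (O.card + (B' f).card - (J f).card + (J f).card) =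
        ∑ f ∈ U, (O.card + (B' f).card) := sum_congr rfl fun f q => by have := j3 f q; omega
    simp only [sum_add_distrib, sum_const, r.1, smul_eq_mul] at this
    omega)
  obtain ⟨c', f1, f2⟩ := Cover.fill U J (fun f => O \ M f ∪ B' f) c1 (fun f q f' q' v h h' =>
      ((r.oth (mem_sdiff.1 (mem_sdiff.1 h).1).1 q q' (mem_sdiff.1 h).2).resolve_left
        (mem_sdiff.1 h').2).symm) fun f q => by
    have := card_union_le (O \ M f) (B' f)
    have := card_sdiff_add_card_eq_card (hM f q).1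
    have := (hM f q).2.1
    have := j3 f q
    omega
  have fx : ∀ v, v ∉ Lv N U 2 \ P → c' v = c1 v := fun v h => (f1 v).resolve_right
    fun ⟨f, _, q, _⟩ => h (mem_sdiff.1 q).1
  have cov : ∀ f ∈ U, ∀ a ∈ U, f ≠ a → ∀ α ∈ O \ M a ∪ B' a, ∃ v ∈ N f, c' v = α :=
    fun f q a q' n α h => by
      obtain ⟨v, h, e⟩ := f2 a q' α h
      exact ⟨v, (r.oth (mem_sdiff.1 (mem_sdiff.1 h).1).1 q' q (mem_sdiff.1 h).2).resolve_right n, e⟩
  refine ⟨c', fx, fun f q' α => ?_⟩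
  by_cases a : α ∈ A
  · obtain ⟨v, h, e, h'⟩ := hA α a f q'
    exact ⟨v, h, (fx v h').trans e⟩
  by_cases a' : α ∈ B
  · by_cases e : f = t α
    · obtain ⟨v, h, e', h'⟩ := t2 α a'
      exact ⟨v, e ▸ h, (fx v h').trans e'⟩
    · exact cov f q' _ (t1 α a') e α (mem_union_right _ (mem_filter.2 ⟨a', rfl⟩))
  obtain ⟨x, x1, y, y1, n1, n2, n⟩ := D.oth q'
  have o : α ∈ O := by simp [O, a, a']
  by_cases m : α ∈ M x
  · exact cov f q' y y1 n2.symm α (mem_union_left _ (mem_sdiff.2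
      ⟨o, fun m' => n ((hM x x1).2.2 y y1 α m m')⟩))
  · exact cov f q' x x1 n1.symm α (mem_union_left _ (mem_sdiff.2 ⟨o, m⟩))

end Pool.Agent.P.MP_b2489f_co.Cover
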