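import Pool.Agent.P.MP_b2489f_co.Dense

set_option autoImplicit false
set_option linter.unusedSectionVars false

/-! The induction over dense triples; the exact value for `g ≡ 2 (mod 4)`. -/

namespace Pool.Agent.P.MP_b2489f_co.Cover

open Finset Classical Sum Relation

variable {V F : Type} [Fintype V] [Fintype F] {k g : ℕ} {N : F → Finset V} {U : Finset F}
  {f f' f0 : F} {v : V}

lemma Dup.mono {c : V → Fin k} {A B : Finset V} (h : Dup c B) (s : A ⊆ B) : Dup c A := by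
  have h1 : (B.image c).card ≤ (A.image c ∪ (B \ A).image c).card := card_le_card (by
    rw [← image_union, union_sdiff_of_subset s])
  have h2 := card_union_le (A.image c) ((B \ A).image c)
  have h3 : ((B \ A).image c).card ≤ _ := card_image_le
  have h4 := card_sdiff_add_card_eq_card s
  unfold Dup at *
  omega

/-- the colouring of the three faces, given the colours on the attachments of the root class -/
lemma Dn.ext (D : Dn N U k g) {ρ : F} (n : ρ ∉ U) (c : V → Fin k) (hc : Dup c (Tt N U ρ)) :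
    ∃ c' : V → Fin k, (∀ v ∈ Tt N U ρ, c' v = c v) ∧ (∀ f ∈ U, ∀ α, ∃ v ∈ N f, c' v = α) ∧
      ∀ f, f ∉ U → Dup c' (Tt N U f) := by
  have cnt := D.cnt
  have hk := D.hk
  have big := D.big
  have t13 := D.tt n
  have t3 := D.tt3 n
  have s12 := D.sp n
  have : Nonempty (Fin k) := ⟨⟨0, by omega⟩⟩
  set T := Tt N U ρ with hT
  let P := Lv N U 2 ∩ T ∪ Sp N U ρ
  let X := Lv N U 1 ∪ Lv N U 3 ∪ P
  have hP : P ⊆ Lv N U 2 := union_subset inter_subset_left ((filter_subset _ _).trans sdiff_subset)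
  have cP : P.card ≤ 15 := by
    have h1 : P.card ≤ _ := card_union_le (Lv N U 2 ∩ T) (Sp N U ρ)
    have h2 : (Lv N U 2 ∩ T).card ≤ (T \ Lv N U 1).card := card_le_card fun v a => by
      simp only [mem_inter, mem_sdiff, mem_lv] at a ⊢
      exact ⟨a.2, by omega⟩
    omega
  have cX : X.card = (Lv N U 1).card + (Lv N U 3).card + P.card := by
    rw [card_union_of_disjoint, card_union_of_disjoint]
    · exact disjoint_left.2 fun v a b => by simp only [mem_lv] at a b; omega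
    · refine disjoint_left.2 fun v a b => ?_
      have := hP b
      simp only [mem_union, mem_lv] at a this
      omega
  have TX : T ⊆ X := fun v a => by
    have := D.lv.1 (mem_tt.1 a).1
    simp only [X, P, mem_union, mem_inter]
    tauto
  have XN : ∀ v ∈ X, v ∈ U.biUnion N ∧ v ∉ Lv N U 2 \ P := fun v a => by
    have := @hP v
    rw [D.lv]
    simp only [X, mem_union (s := _ ∪ _), mem_union (s := Lv N U 1), mem_sdiff, mem_lv] at a this ⊢
    grind
  obtain ⟨φ, p1, p2, -⟩ := cover_inj (X \ T) ∅ (univ \ T.image c) (empty_subset _) (by simp) (by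
    have h1 : (T.image c).card ≤ _ := card_image_le
    rw [card_sdiff_of_subset TX, card_sdiff_of_subset (subset_univ _), card_univ, Fintype.card_fin]
    omega)
  let c1 : V → Fin k := fun v => if v ∈ X \ T then φ v else c v
  have e1 : ∀ v ∈ T, c1 v = c v := fun v a => if_neg (by simp [a])
  have e2 : ∀ v ∈ X \ T, c1 v = φ v := fun v a => if_pos a
  have i1 : Set.InjOn c1 (X \ T : Finset V) := fun v a w b e =>
    p1 a b (by rwa [e2 v a, e2 w b] at e)
  have nT : ∀ v ∈ X \ T, c1 v ∉ T.image c := fun v a => e2 v a ▸ (mem_sdiff.1 (p2 v a)).2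
  have cI : (X.image c1).card + T.card = X.card + (T.image c).card := by
    have : X.image c1 = T.image c ∪ (X \ T).image c1 := by
      rw [← image_congr e1, ← image_union, union_sdiff_of_subset TX]
    rw [this, card_union_of_disjoint (disjoint_right.2 fun α a => by
      obtain ⟨v, b, rfl⟩ := mem_image.1 a
      exact nT v b), card_image_of_injOn i1, ← card_sdiff_add_card_eq_card TX]
    omega
  let A := (X.image c1).filter fun α => ∀ f ∈ U, ∃ v ∈ N f, c1 v = α ∧ v ∈ X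
  have cA := card_sdiff_add_card_eq_card (filter_subset
    (fun α => ∀ f ∈ U, ∃ v ∈ N f, c1 v = α ∧ v ∈ X) (X.image c1))
  have a3 : ∀ x ∈ Lv N U 3, c1 x ∈ A := fun x a =>
    have b : x ∈ X := by simp [X, a]
    mem_filter.2 ⟨mem_image_of_mem _ b, fun f q => ⟨x, D.all a q, rfl, b⟩⟩
  have b1 : 0 < (Lv N U 3).card → 0 < A.card := fun h =>
    card_pos.2 ⟨_, a3 _ (card_pos.1 h).choose_spec⟩
  have b2 : (Lv N U 1).card = 0 → (T.image c).card + 2 ≤ T.card →
      0 < A.card ∧ ((Lv N U 3).card = 2 → 1 < A.card) := by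
    intro h0 h
    have h1 : ∀ v, v ∉ Lv N U 1 := by simp [card_eq_zero.1 h0]
    have h2 := le_card_sdiff (Lv N U 1) T
    have h3 : 0 < (T.image c).card := card_pos.2 ((card_pos.1 (by omega)).image _)
    have h4 : ∀ f ∈ U, ¬ T ⊆ N f := fun f q s => by
      have := D.g1 q n T fun z a => ⟨a, s a, h1 z⟩
      omega
    obtain ⟨γ, hγ⟩ := card_eq_one.1 (show (T.image c).card = 1 by omega)
    have h5 : ∀ v ∈ T, c1 v = γ := fun v a => by
      rw [e1 v a, ← mem_singleton, ← hγ]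
      exact mem_image_of_mem _ a
    have h6 : ∀ f ∈ U, ∃ v ∈ N f, c1 v = γ ∧ v ∈ X := fun f q => by
      by_contra h
      obtain ⟨a, a1, -, -, a2, -⟩ := D.oth q
      refine h4 a a1 fun v b => ?_
      have b' : v ∉ N f := fun b' => h ⟨v, b', h5 v b, TX b⟩
      rcases D.lv.1 (mem_tt.1 b).1 with e | e | e
      exacts [absurd e (h1 v), (D.rk.oth e q a1 b').resolve_right a2, D.all e a1]
    obtain ⟨t, ht⟩ := card_pos.1 (show 0 < T.card by omega)
    have h7 : γ ∈ A := mem_filter.2 ⟨h5 t ht ▸ mem_image_of_mem _ (TX ht), h6⟩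
    refine ⟨card_pos.2 ⟨_, h7⟩, fun h8 => ?_⟩
    obtain ⟨x, x1, x2⟩ : ∃ x ∈ Lv N U 3, x ∉ T := by
      by_contra h
      push Not at h
      obtain ⟨y, hy⟩ := card_eq_one.1 (show (T \ Lv N U 3).card = 1 by
        rw [card_sdiff_of_subset h]; omega)
      obtain ⟨f, q, b⟩ := mem_biUnion.1 (mem_tt.1 (mem_sdiff.1 (hy ▸ mem_singleton_self y)).1).1
      refine h4 f q fun v a => ?_
      by_cases e : v ∈ Lv N U 3
      · exact D.all e q
      · exact mem_singleton.1 (hy ▸ mem_sdiff.2 ⟨a, e⟩) ▸ b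
    refine one_lt_card.2 ⟨_, h7, _, a3 x x1, fun e => nT x (mem_sdiff.2 ⟨by simp [X, x1], x2⟩) ?_⟩
    rw [← e, hγ]
    simp
  have cI' : (X.image c1).card ≤ _ := card_image_le
  have cT : (T.image c).card ≤ _ := card_image_le
  obtain ⟨c', f1, f2⟩ := D.fill c1 P hP A (X.image c1 \ A) disjoint_sdiff
    (fun α a f q => by
      obtain ⟨v, a1, a2, a3⟩ := (mem_filter.1 a).2 f q
      exact ⟨v, a1, a2, (XN v a3).2⟩)
    (fun α a => by
      obtain ⟨v, a1, a2⟩ := mem_image.1 (mem_sdiff.1 a).1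
      obtain ⟨f, q, b⟩ := mem_biUnion.1 (XN v a1).1
      exact ⟨f, q, v, b, a2, (XN v a1).2⟩)
    (by unfold Dup at hc; change (_ \ A).card + A.card = _ at cA; omega) cP
    (by change (_ \ A).card + A.card = _ at cA; omega)
  have e3 : ∀ v ∈ X, c' v = c1 v := fun v a => f1 v (XN v a).2
  refine ⟨c', fun v a => (e3 v (TX a)).trans (e1 v a), f2, fun f q => ?_⟩
  by_cases s : Tt N U f ⊆ X
  · refine Dup.mono ?_ s
    unfold Dup at hc ⊢
    rw [image_congr e3]
    omega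
  obtain ⟨y, y1, y2⟩ := not_subset.1 s
  have ty : ∀ y ∈ Tt N U f, y ∉ X → y ∈ Lv N U 2 := fun y a b => by
    have := D.lv.1 (mem_tt.1 a).1
    simp only [X, mem_union (s := _ ∪ _), mem_union (s := Lv N U 1)] at b
    tauto
  have h1 : ∀ v ∈ Tt N U f, v ∉ T ∧ ∃ l ∈ U, y ∉ N l ∧ v ∉ N l := fun v a => by
    by_contra h
    refine y2 (mem_union_right _ (mem_union_right _ (mem_filter.2
      ⟨mem_sdiff.2 ⟨ty y y1 y2, fun b => y2 (TX b)⟩, f, q, y1, v, a, ?_⟩)))
    grind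
  obtain ⟨-, l, l1, l2, -⟩ := h1 y y1
  obtain ⟨a, a1, -, -, a2, -⟩ := D.oth l1
  have h2 := D.g1 a1 q (Tt N U f \ X) fun z b => by
    obtain ⟨b1, b2⟩ := mem_sdiff.1 b
    obtain ⟨-, l', b3, b4, b5⟩ := h1 z b1
    obtain rfl := (D.rk.oth (ty y y1 y2) l1 b3 l2).resolve_left b4
    exact ⟨b1, (D.rk.oth (ty z b1 b2) l1 a1 b5).resolve_right a2, fun e => b2 (by simp [X, e])⟩
  have h3 := card_sdiff_add_card_inter (Tt N U f) X
  have h4 := card_le_card (image_subset_image (f := c') (inter_subset_left (s₁ := Tt N U f) (s₂ := X)))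
  rw [card_image_of_injOn fun v a w b e => by
    obtain ⟨v1, v2⟩ := mem_inter.1 a
    obtain ⟨w1, w2⟩ := mem_inter.1 b
    exact i1 (mem_sdiff.2 ⟨v2, (h1 v v1).1⟩) (mem_sdiff.2 ⟨w2, (h1 w w1).1⟩)
      (by rwa [e3 v v2, e3 w w2] at e)] at h4
  unfold Dup
  omega

theorem ind (hk : 4 * k + 2 = 3 * g) (big : 126 ≤ g) (n : ℕ) : ∀ N : F → Finset V,
    (univ.filter fun f => (N f).card = g).card < n → (Spr fun v f => v ∈ N f) →
    (∀ f, (N f).card = g ∨ (N f).card ≤ 13) → ∀ ρ, (N ρ).card ≤ 13 → ∀ c0 : V → Fin k,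
    Dup c0 (N ρ) → ∃ c : V → Fin k, (∀ v ∈ N ρ, c v = c0 v) ∧ ∀ f, Req g c (N f) := by
  induction n with
  | zero => simp
  | succ n ih =>
  intro N hn h hN ρ hρ c0 h0
  by_cases nd : ∀ x y z, x ≠ y → x ≠ z → y ≠ z → (N x).card = g → (N y).card = g →
    (N z).card = g → 2 * k + 6 ≤ (N x ∪ N y ∪ N z).card
  · exact base h hk (by omega) hN nd ρ hρ c0 h0
  push Not at nd
  obtain ⟨x, y, z, n1, n2, n3, gx, gy, gz, nd⟩ := nd
  obtain ⟨U, D, xU⟩ : ∃ U, Dn N U k g ∧ x ∈ U := ⟨{x, y, z}, ⟨h, card_eq_three.2 ⟨x, y, z, n1, n2,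
    n3, rfl⟩, by simp [*], by simpa [union_assoc] using nd, hk, big⟩, by simp⟩
  have nρ : ρ ∉ U := fun q => by have := D.hN ρ q; omega
  have sub : ∀ f0, f0 ∉ U → ∀ r (A : Finset V), A.card ≤ 13 →
      (if r = x then Tt N U f0 else if Cl N U f0 r then N r else ∅) = A → ∀ c0 : V → Fin k,
      Dup c0 A → ∃ c : V → Fin k, (∀ v ∈ A, c v = c0 v) ∧ Dup c (Tt N U f0) ∧
        ∀ f, Cl N U f0 f → Req g c (N f) := by
    intro f0 q r A cA e c0 h0
    have t := D.tt q
    obtain ⟨c, c1, c2⟩ := ih (fun a => if a = x then Tt N U f0 else if Cl N U f0 a then N a else ∅)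
      (lt_of_lt_of_le (card_lt_card ((ssubset_iff_of_subset fun a b => by
        have := (mem_filter.1 b).2
        split_ifs at this
        exacts [by omega, mem_filter.2 ⟨mem_univ _, this⟩, by simp at this; omega]).2
        ⟨x, mem_filter.2 ⟨mem_univ _, gx⟩, by simp; omega⟩)) (Nat.le_of_lt_succ hn)) (D.con xU q)
      (fun a => by
        split_ifs
        exacts [Or.inr t, hN a, by simp]) r (e ▸ cA) c0 (e ▸ h0)
    refine ⟨c, e ▸ c1, by simpa using (c2 x).2 (by simp; omega), fun f b => ?_⟩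
    have n : f ≠ x := fun e => b.out q (e ▸ xU)
    simpa [n, b] using c2 f
  obtain ⟨cρ, r1, r2, r3⟩ := sub ρ nρ ρ (N ρ) hρ
    (by rw [if_neg fun e : ρ = x => nρ (e ▸ xU), if_pos (show Cl N U ρ ρ from ReflTransGen.refl)]) c0 h0
  obtain ⟨c1, s1, s2, s3⟩ := D.ext nρ cρ r2
  have : ∀ K : Set F, ∃ c : V → Fin k, ∀ f0, f0 ∉ U → K = {f | Cl N U f0 f} →
      (∀ v ∈ Tt N U f0, c v = c1 v) ∧ (∀ f, Cl N U f0 f → Req g c (N f)) ∧
        (Cl N U ρ f0 → c = cρ) := by
    intro K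
    have tt : ∀ a b, Cl N U a b → ∀ v ∈ Tt N U b, v ∈ Tt N U a := fun a b e v q =>
      mem_tt.2 ⟨(mem_tt.1 q).1, (mem_tt.1 q).2.imp fun _ p => ⟨e.trans p.1, p.2⟩⟩
    by_cases q : ∃ f0, f0 ∉ U ∧ K = {f | Cl N U f0 f}
    · obtain ⟨f0, q, rfl⟩ := q
      have cl : ∀ f1, {f | Cl N U f0 f} = {f | Cl N U f1 f} → Cl N U f0 f1 := fun f1 e =>
        (Set.ext_iff.1 e f1).2 ReflTransGen.refl
      by_cases e : Cl N U ρ f0
      · exact ⟨cρ, fun f1 _ e' => ⟨fun v a => (s1 v (tt _ _ (e.trans (cl f1 e')) v a)).symm,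
          fun f a => r3 f ((e.trans (cl f1 e')).trans a), fun _ => rfl⟩⟩
      · obtain ⟨c, a1, -, a2⟩ := sub f0 q x _ (D.tt q) (if_pos rfl) c1 (s3 f0 q)
        exact ⟨c, fun f1 _ e' => ⟨fun v a => a1 v (tt _ _ (cl f1 e') v a),
          fun f a => a2 f ((cl f1 e').trans a), fun a => absurd (a.trans (cl f1 e').symm) e⟩⟩
    · exact ⟨c1, fun f0 a b => absurd ⟨f0, a, b⟩ q⟩
  choose G hG using this
  let c : V → Fin k := fun v => if v ∈ U.biUnion N then c1 v else
    G {f | ∃ f0, f0 ∉ U ∧ v ∈ N f0 ∧ Cl N U f0 f} v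
  have key : ∀ f, f ∉ U → ∀ v ∈ N f, c v = G {f' | Cl N U f f'} v := fun f q v a => by
    by_cases b : v ∈ U.biUnion N
    · exact (if_pos b).trans ((hG _ f q rfl).1 v (mem_tt.2 ⟨b, f, ReflTransGen.refl, a⟩)).symm
    · have : {f | ∃ f0, f0 ∉ U ∧ v ∈ N f0 ∧ Cl N U f0 f} = {f' | Cl N U f f'} := Set.ext fun f' =>
        ⟨fun ⟨f0, b1, b2, b3⟩ => ReflTransGen.head ⟨q, b1, v, b, a, b2⟩ b3, fun e => ⟨f, q, a, e⟩⟩
      exact (if_neg b).trans (by rw [this])
  refine ⟨c, fun v a => ?_, fun f => ?_⟩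
  · rw [key ρ nρ v a, (hG _ ρ nρ rfl).2.2 ReflTransGen.refl, r1 v a]
  · by_cases q : f ∈ U
    · refine ⟨fun _ α => ?_, fun e => absurd (D.hN f q) e⟩
      obtain ⟨v, a, e⟩ := s2 f q α
      exact ⟨v, a, (if_pos (mem_biUnion.2 ⟨f, q, a⟩)).trans e⟩
    · exact ((hG _ f q rfl).2.1 f ReflTransGen.refl).cg (key f q)

theorem res012 (g : ℕ)
    (hg : (g % 4 = 0 ∧ 8 ≤ g) ∨ (g % 4 = 1 ∧ 13 ≤ g) ∨ (g % 4 = 2 ∧ 126 ≤ g)) :
    IsLeast {k | ∃ (D : Type) (_ : Finite D) (M : PlaneMap D), M.minFace = g ∧ M.polyNum = k}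
      ((3 * g - 1) / 4) := by
  rw [← or_assoc] at hg
  rcases hg with hg | hg
  · exact res01 g hg
  refine exact_of g (by omega) fun V F _ _ N plan hN => ?_
  have k0 : 0 < (3 * g - 1) / 4 := by omega
  rcases isEmpty_or_nonempty F with _ | ⟨⟨f0⟩⟩
  · exact ⟨fun _ => ⟨0, k0⟩, fun f => isEmptyElim f⟩
  obtain ⟨c, -, hc⟩ := ind (V := V) (F := Option F) (k := (3 * g - 1) / 4) (g := g) (by omega)
    hg.2 _ (fun o => o.elim ∅ N) (Nat.lt_succ_self _)
    ((spr_of plan).map (Sum.elim (fun v => {inl v}) fun o : Option F => o.elim ∅ fun f => {inr f})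
      (by rintro (x | _ | x) (y | _ | y) z a b <;> simp_all)
      (by rintro (x | _ | x); exacts [conn_singleton _ _, ⟨inr f0, by simp⟩, conn_singleton _ _])
      (by rintro v (_ | f) a; exacts [by simp at a, ⟨_, rfl, _, rfl, a⟩]))
    (by rintro (_ | f); exacts [by simp, Or.inl (hN f)]) none (by simp)
    (fun _ => ⟨0, k0⟩) (by simp [Dup])
  exact ⟨c, fun f => (hc (some f)).1 (hN f)⟩

end Pool.Agent.P.MP_b2489f_co.Cover
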