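import Pool.Agent.P.MP_b2489f_co.Defs

set_option autoImplicit false

/-! Chain complex of a pair of dual graphs over `ZMod 2`; exactness for genus-zero maps. -/

namespace Pool.Agent.P.MP_b2489f_co

open Finset Classical Module

abbrev F2 := ZMod 2

lemma F2_add_self (x : F2) : x + x = 0 := CharTwo.add_self_eq_zero x

/-- indicator vector of a point -/
noncomputable def dl {X : Type} (a : X) : X → F2 := fun x => if a = x then 1 else 0

@[simp] lemma dl_self {X : Type} (a : X) : dl a a = 1 := by simp [dl]

lemma dl_ne {X : Type} {a b : X} (h : a ≠ b) : dl a b = 0 := by simp [dl, h]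

@[simp] lemma sum_dl {X : Type} [Fintype X] (a : X) : ∑ x, dl a x = 1 := by simp [dl]

lemma sum_mul_dl {X : Type} [Fintype X] (t : X → F2) (y : X) : ∑ x, t x * dl x y = t y := by
  simp [dl]

lemma sum_dl_mul {X : Type} [Fintype X] (t : X → F2) (y : X) : ∑ x, dl y x * t x = t y := by
  simp [dl]

/-- boundary map of a graph with edge set `D` and end maps `p1 p2` -/
noncomputable def bd {D X : Type} [Fintype D] (p1 p2 : D → X) : (D → F2) →ₗ[F2] (X → F2) where
  toFun z x := ∑ d, z d * (dl (p1 d) x + dl (p2 d) x)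
  map_add' z w := by
    ext x; simp only [Pi.add_apply, add_mul, sum_add_distrib]
  map_smul' c z := by
    ext x; simp only [Pi.smul_apply, smul_eq_mul, RingHom.id_apply, mul_sum, mul_assoc]

lemma bd_apply {D X : Type} [Fintype D] (p1 p2 : D → X) (z : D → F2) (x : X) :
    bd p1 p2 z x = ∑ d, z d * (dl (p1 d) x + dl (p2 d) x) := rfl

lemma bd_single {D X : Type} [Fintype D] (p1 p2 : D → X) (d : D) :
    bd p1 p2 (dl d) = dl (p1 d) + dl (p2 d) := by
  ext x
  rw [bd_apply, sum_dl_mul (fun d => dl (p1 d) x + dl (p2 d) x)]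
  rfl

/-- coboundary map -/
def cb {D Y : Type} (q1 q2 : D → Y) : (Y → F2) →ₗ[F2] (D → F2) where
  toFun u d := u (q1 d) + u (q2 d)
  map_add' u w := by ext d; simp only [Pi.add_apply]; ring
  map_smul' c u := by ext d; simp only [Pi.smul_apply, smul_eq_mul, RingHom.id_apply]; ring

lemma cb_apply {D Y : Type} (q1 q2 : D → Y) (u : Y → F2) (d : D) :
    cb q1 q2 u d = u (q1 d) + u (q2 d) := rfl

/-- sum of all coordinates -/
noncomputable def tot (X : Type) [Fintype X] : (X → F2) →ₗ[F2] F2 where
  toFun t := ∑ x, t x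
  map_add' a b := by simp [sum_add_distrib]
  map_smul' c a := by simp [mul_sum]

lemma finrank_ker_tot (X : Type) [Fintype X] [Nonempty X] :
    finrank F2 (LinearMap.ker (tot X)) + 1 = Fintype.card X := by
  have h := LinearMap.finrank_range_add_finrank_ker (tot X)
  have hr : LinearMap.range (tot X) = ⊤ := by
    rw [LinearMap.range_eq_top]
    intro c
    obtain ⟨x⟩ := ‹Nonempty X›
    refine ⟨c • dl x, ?_⟩
    show ∑ y, (c • dl x) y = c
    simp [← mul_sum]
  rw [hr] at h
  simp at h
  omega

lemma range_bd_le {D X : Type} [Fintype D] [Fintype X] (p1 p2 : D → X) :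
    LinearMap.range (bd p1 p2) ≤ LinearMap.ker (tot X) := by
  rintro _ ⟨z, rfl⟩
  rw [LinearMap.mem_ker]
  show ∑ x, bd p1 p2 z x = 0
  simp only [bd_apply]
  rw [sum_comm]
  refine sum_eq_zero fun d _ => ?_
  rw [← mul_sum, sum_add_distrib]
  simp [F2_add_self]

lemma ker_tot_le {X : Type} [Fintype X] (T : Submodule F2 (X → F2)) (r : X)
    (h : ∀ x, dl x + dl r ∈ T) : LinearMap.ker (tot X) ≤ T := by
  intro t ht
  have ht' : ∑ x, t x = 0 := ht
  have : t = ∑ x, t x • (dl x + dl r) := by
    simp only [smul_add, sum_add_distrib]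
    rw [← sum_smul, ht', zero_smul, add_zero]
    ext y
    simp [Finset.sum_apply, sum_mul_dl]
  rw [this]
  exact T.sum_mem fun x _ => T.smul_mem _ (h x)

section Maps

variable {D : Type} [Fintype D] (σ α : Equiv.Perm D)

instance (π : Equiv.Perm D) : Finite (Orb π) := Quotient.finite _

noncomputable instance (π : Equiv.Perm D) : Fintype (Orb π) := Fintype.ofFinite _

omit [Fintype D] in
lemma orb_apply (π : Equiv.Perm D) (d : D) : orb π (π d) = orb π d :=
  Quotient.sound (Equiv.Perm.sameCycle_apply_left.2 (Equiv.Perm.SameCycle.refl _ _))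

omit [Fintype D] in
lemma orb_symm_apply (π : Equiv.Perm D) (d : D) : orb π (π.symm d) = orb π d := by
  rw [← orb_apply π (π.symm d), Equiv.apply_symm_apply]

omit [Fintype D] in
lemma orb_surj (π : Equiv.Perm D) : Function.Surjective (orb π) := Quotient.mk_surjective

omit [Fintype D] in
lemma orb_eq_iff (π : Equiv.Perm D) (a b : D) : orb π a = orb π b ↔ π.SameCycle a b :=
  Quotient.eq

/-- a function invariant under `π` factors through the orbits -/
lemma inv_of_orb_eq {β : Type} (π : Equiv.Perm D) (t : D → β) (ht : ∀ d, t (π d) = t d)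
    {a b : D} (h : orb π a = orb π b) : t a = t b := by
  obtain ⟨n, hn, rfl⟩ := ((orb_eq_iff π a b).1 h).exists_pow_eq'
  clear hn h
  induction n with
  | zero => simp
  | succ n ih => rw [pow_succ', Equiv.Perm.mul_apply, ht, ← ih]

lemma card_darts (hα : ∀ d, α (α d) = d) (hne : ∀ d, α d ≠ d) :
    Fintype.card D = 2 * Fintype.card (Orb α) := by
  have h : ∀ e : Orb α, (univ.filter fun d => orb α d = e).card = 2 := by
    intro e
    obtain ⟨a, rfl⟩ := orb_surj α e
    rw [card_eq_two]
    refine ⟨a, α a, (hne a).symm, ?_⟩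
    ext d
    simp only [mem_filter, mem_univ, true_and, mem_insert, mem_singleton]
    constructor
    · intro hd
      have := inv_of_orb_eq α (fun d => d = a ∨ d = α a) (fun d => by
        apply propext
        constructor
        · rintro (h | h)
          · right; rw [← h, hα]
          · left; exact α.injective h
        · rintro (h | h)
          · right; rw [h]
          · left; rw [h, hα]) hd
      simp only [true_or] at this
      exact this.symm ▸ trivial
    · rintro (rfl | rfl)
      · rfl
      · exact orb_apply α a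
  have := card_eq_sum_card_fiberwise (s := (univ : Finset D)) (t := (univ : Finset (Orb α)))
    (f := orb α) (fun _ _ => mem_coe.2 (mem_univ _))
  rw [card_univ] at this
  rw [this, sum_congr rfl fun e _ => h e]
  simp [mul_comm]

/-- ends of a dart in the vertex-face incidence graph -/
def rv (d : D) : Orb σ ⊕ Orb (σ * α) := Sum.inl (orb σ d)
def rf (d : D) : Orb σ ⊕ Orb (σ * α) := Sum.inr (orb (σ * α) d)
def e1 (d : D) : Orb α := orb α d
def e2 (d : D) : Orb α := orb α (σ.symm d)

lemma bd_cb (u : Orb α → F2) :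
    bd (rv σ α) (rf σ α) (cb (e1 α) (e2 σ α) u) = 0 := by
  ext x
  rw [bd_apply]
  simp only [cb_apply, add_mul, sum_add_distrib, Pi.zero_apply]
  rcases x with v | f
  · have : ∑ d, u (e2 σ α d) * (dl (rv σ α d) (Sum.inl v) + dl (rf σ α d) (Sum.inl v)) =
        ∑ d, u (e1 α d) * (dl (rv σ α d) (Sum.inl v) + dl (rf σ α d) (Sum.inl v)) := by
      rw [← Equiv.sum_comp σ]
      refine sum_congr rfl fun d _ => ?_
      simp [e1, e2, rv, rf, orb_apply, dl]
    rw [this, F2_add_self]
  · have : ∑ d, u (e2 σ α d) * (dl (rv σ α d) (Sum.inr f) + dl (rf σ α d) (Sum.inr f)) =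
        ∑ d, u (e1 α d) * (dl (rv σ α d) (Sum.inr f) + dl (rf σ α d) (Sum.inr f)) := by
      rw [← Equiv.sum_comp (σ * α)]
      refine sum_congr rfl fun d _ => ?_
      have h1 : orb (σ * α) (σ (α d)) = orb (σ * α) d := orb_apply (σ * α) d
      simp [e1, e2, rv, rf, orb_apply, h1, dl]
    rw [this, F2_add_self]

omit [Fintype D] in
lemma const_of_conn {β : Type}
    (hc : ∀ x y, Relation.ReflTransGen (fun a b => b = σ a ∨ b = α a) x y)
    (t : D → β) (h1 : ∀ d, t (σ d) = t d) (h2 : ∀ d, t (α d) = t d) (x y : D) : t x = t y := by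
  induction hc x y with
  | refl => rfl
  | tail _ h ih => rcases h with rfl | rfl <;> simp [h1, h2, ih]

lemma rank_cb [Nonempty D]
    (hc : ∀ x y, Relation.ReflTransGen (fun a b => b = σ a ∨ b = α a) x y) :
    Fintype.card (Orb α) ≤ finrank F2 (LinearMap.range (cb (e1 α) (e2 σ α))) + 1 := by
  have h := LinearMap.finrank_range_add_finrank_ker (cb (e1 α) (e2 σ α))
  have hk : finrank F2 (LinearMap.ker (cb (e1 α) (e2 σ α))) ≤ 1 := by
    have : LinearMap.ker (cb (e1 α) (e2 σ α)) ≤ Submodule.span F2 {fun _ => (1 : F2)} := by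
      intro u hu
      obtain ⟨d0⟩ := ‹Nonempty D›
      have hu' : ∀ d, u (orb α (σ d)) = u (orb α d) := by
        intro d
        have := congrFun (LinearMap.mem_ker.1 hu) (σ d)
        simp only [cb_apply, e1, e2, Equiv.symm_apply_apply, Pi.zero_apply] at this
        rw [← sub_eq_zero, CharTwo.sub_eq_add]; exact this
      have hconst := const_of_conn σ α hc (fun d => u (orb α d)) hu'
        (fun d => by simp only [orb_apply])
      rw [Submodule.mem_span_singleton]
      refine ⟨u (orb α d0), ?_⟩
      ext e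
      obtain ⟨d, rfl⟩ := orb_surj α e
      simp [hconst d0 d]
    exact (Submodule.finrank_mono this).trans (finrank_span_le_card _ |>.trans (by simp))
  simp at h
  omega

lemma rank_bd [Nonempty D]
    (hc : ∀ x y, Relation.ReflTransGen (fun a b => b = σ a ∨ b = α a) x y) :
    Fintype.card (Orb σ) + Fintype.card (Orb (σ * α)) ≤
      finrank F2 (LinearMap.range (bd (rv σ α) (rf σ α))) + 1 := by
  obtain ⟨d0⟩ := ‹Nonempty D›
  have : Nonempty (Orb σ ⊕ Orb (σ * α)) := ⟨rv σ α d0⟩
  set T := LinearMap.range (bd (rv σ α) (rf σ α)) with hT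
  have hvf : ∀ d, dl (rv σ α d) + dl (rf σ α d) ∈ T := fun d => ⟨dl d, bd_single _ _ d⟩
  have key : ∀ (a b c : Orb σ ⊕ Orb (σ * α) → F2), a + b ∈ T → b + c ∈ T → a + c ∈ T := by
    intro a b c h1 h2
    have : a + c = (a + b) + (b + c) := by
      ext x; simp only [Pi.add_apply]
      have := F2_add_self (b x)
      linear_combination -this
    rw [this]; exact T.add_mem h1 h2
  have hv : ∀ d, dl (rv σ α d) + dl (rv σ α d0) ∈ T := by
    intro d
    induction hc d0 d with
    | refl =>
      have : dl (rv σ α d0) + dl (rv σ α d0) = 0 := by ext x; exact F2_add_self _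
      rw [this]; exact T.zero_mem
    | @tail b c _ h ih =>
      rcases h with rfl | rfl
      · have : rv σ α (σ b) = rv σ α b := by simp [rv, orb_apply]
        rw [this]; exact ih
      · have h1 : rv σ α (α b) = rv σ α ((σ * α) b) := by simp [rv, orb_apply]
        have h2 : rf σ α ((σ * α) b) = rf σ α b := by simp only [rf, orb_apply]
        have h3 := hvf ((σ * α) b)
        rw [h2, ← h1] at h3
        refine key _ _ _ h3 (key _ _ _ ?_ ih)
        rw [add_comm]; exact hvf b
  have hle : LinearMap.ker (tot (Orb σ ⊕ Orb (σ * α))) ≤ T := by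
    refine ker_tot_le T (rv σ α d0) ?_
    rintro (v | f)
    · obtain ⟨d, rfl⟩ := orb_surj σ v
      exact hv d
    · obtain ⟨d, rfl⟩ := orb_surj (σ * α) f
      refine key _ _ _ ?_ (hv d)
      rw [add_comm]; exact hvf d
  have h1 := Submodule.finrank_mono hle
  have h2 := finrank_ker_tot (Orb σ ⊕ Orb (σ * α))
  rw [Fintype.card_sum] at h2
  omega

lemma range_cb_le :
    LinearMap.range (cb (e1 α) (e2 σ α)) ≤ LinearMap.ker (bd (rv σ α) (rf σ α)) := by
  rintro _ ⟨u, rfl⟩
  exact bd_cb σ α u

/-- Euler's inequality for connected maps -/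
lemma euler_le [Nonempty D] (hα : ∀ d, α (α d) = d) (hne : ∀ d, α d ≠ d)
    (hc : ∀ x y, Relation.ReflTransGen (fun a b => b = σ a ∨ b = α a) x y) :
    Fintype.card (Orb σ) + Fintype.card (Orb (σ * α)) ≤ Fintype.card (Orb α) + 2 := by
  have h1 := rank_cb σ α hc
  have h2 := rank_bd σ α hc
  have h3 := Submodule.finrank_mono (range_cb_le σ α)
  have h4 := LinearMap.finrank_range_add_finrank_ker (bd (rv σ α) (rf σ α))
  have h5 := card_darts α hα hne
  simp only [finrank_fintype_fun_eq_card] at h4
  omega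

end Maps

lemma PlaneMap.nonempty {D : Type} (M : PlaneMap D) : Nonempty D := by
  by_contra h
  rw [not_nonempty_iff] at h
  have h1 : ∀ π : Equiv.Perm D, Nat.card (Orb π) = 0 := fun π => by
    have : IsEmpty (Orb π) := ⟨fun e => by obtain ⟨d, -⟩ := orb_surj π e; exact h.elim d⟩
    simp
  have := M.euler
  simp [h1] at this

lemma PlaneMap.exact {D : Type} [Fintype D] (M : PlaneMap D) :
    LinearMap.range (cb (e1 M.α) (e2 M.σ M.α)) =
      LinearMap.ker (bd (rv M.σ M.α) (rf M.σ M.α)) := by
  have := M.nonempty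
  refine Submodule.eq_of_le_of_finrank_le (range_cb_le _ _) ?_
  have h1 := rank_cb M.σ M.α M.conn
  have h2 := rank_bd M.σ M.α M.conn
  have h4 := LinearMap.finrank_range_add_finrank_ker (bd (rv M.σ M.α) (rf M.σ M.α))
  have h5 := card_darts M.α M.α_α M.α_ne
  have h6 := M.euler
  simp only [Nat.card_eq_fintype_card] at h6
  simp only [finrank_fintype_fun_eq_card] at h4
  omega

end Pool.Agent.P.MP_b2489f_co
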