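import Pool.Agent.P.MP_b2489f_co.LMap

set_option autoImplicit false

/-! The extremal example. -/

namespace Pool.Agent.P.MP_b2489f_co

open Finset Classical

/-- successor table -/
def nx : Fin 15 → Bool → Fin 15 × Bool := fun j b =>
  if b then ![(2, true), (6, true), (3, true), (4, true), (5, true), (0, true), (7, true),
    (8, true), (2, false), (7, false), (4, false), (11, false), (12, false), (13, false),
    (1, false)] j
  else ![(14, true), (13, true), (1, true), (12, true), (9, true), (10, false), (11, true),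
    (10, true), (9, false), (3, false), (6, false), (5, false), (8, false), (0, false),
    (14, false)] j

/-- index shift of the successor -/
def sx : Fin 15 → Bool → ℤ := fun j b =>
  if j = 14 then (if b then 1 else -1) else if j = 1 ∧ b = false then -1 else 0

/-- vertex table -/
def tv : Fin 15 → Bool → Option (Fin 9) := fun j b =>
  if b then ![some 0, none, none, some 1, some 3, some 2, some 0, some 4, some 5, some 3, some 4,
    some 0, some 1, none, some 0] j
  else ![none, some 0, some 1, some 3, some 2, some 0, some 4, some 5, some 1, some 5, some 2,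
    some 6, some 7, some 8, some 0] j

def sv : Fin 15 → Bool → ℤ := fun j b => if j = 14 ∧ b = false then 1 else 0

/-- face table -/
def tf : Fin 15 → Bool → Option (Fin 6) := fun j b =>
  if b then ![some 0, some 1, some 0, some 0, some 0, some 0, some 1, some 1, some 1, some 2,
    some 2, some 3, some 4, some 5, some 5] j
  else ![some 5, some 5, some 1, some 4, some 2, some 3, some 3, some 2, some 4, some 4, some 3,
    some 3, some 4, some 5, none] j

def sf : Fin 15 → Bool → ℤ := fun j b => if j = 1 ∧ b = false then -1 else 0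

lemma nx_inj : ∀ j b j' b', nx j b = nx j' b' → j = j' ∧ b = b' := by decide +kernel

lemma tv_nx : ∀ j b, tv (nx j b).1 (nx j b).2 = tv j (!b) ∧
    (tv j (!b) = none ∨ sx j b + sv (nx j b).1 (nx j b).2 = sv j (!b)) := by decide +kernel

lemma tf_nx : ∀ j b, tf (nx j b).1 (nx j b).2 = tf j b ∧
    (tf j b = none ∨ sx j b + sf (nx j b).1 (nx j b).2 = sf j b) := by decide +kernel

lemma tv_surj : ∀ a, ∃ j b, tv j b = a := by decide +kernel
lemma tf_surj : ∀ a, ∃ j b, tf j b = a := by decide +kernel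

variable (g : ℕ) [NeZero g]

/-- shifted labels -/
def lab {n : ℕ} (T : Fin 15 → Bool → Option (Fin n)) (s : Fin 15 → Bool → ℤ)
    (d : (ZMod g × Fin 15) × Bool) : Option (ZMod g × Fin n) :=
  (T d.1.2 d.2).map fun a => (d.1.1 + s d.1.2 d.2, a)

omit [NeZero g] in
lemma lab_surj {n : ℕ} (T : Fin 15 → Bool → Option (Fin n)) (s : Fin 15 → Bool → ℤ)
    (h : ∀ a, ∃ j b, T j b = a) : Function.Surjective (lab g T s) := by
  rintro (_ | ⟨i, a⟩)
  · obtain ⟨j, b, h⟩ := h none
    exact ⟨((0, j), b), by simp [lab, h]⟩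
  · obtain ⟨j, b, h⟩ := h (some a)
    exact ⟨((i - s j b, j), b), by simp [lab, h]⟩

/-- the base map -/
def base : LMap (ZMod g × Fin 15) (Option (ZMod g × Fin 9)) (Option (ZMod g × Fin 6)) where
  φ d := ((d.1.1 + sx d.1.2 d.2, (nx d.1.2 d.2).1), (nx d.1.2 d.2).2)
  inj := by
    rintro ⟨⟨i, j⟩, b⟩ ⟨⟨i', j'⟩, b'⟩ h
    simp only [Prod.mk.injEq] at h
    obtain ⟨rfl, rfl⟩ := nx_inj j b j' b' (Prod.ext h.1.2 h.2)
    rw [add_right_cancel h.1.1]
  t := lab g tv sv
  u := lab g tf sf
  ht := by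
    rintro ⟨⟨i, j⟩, b⟩
    obtain ⟨h1, h2 | h2⟩ := tv_nx j b
    · simp [lab, h1, h2]
    · simp only [lab, h1, ← h2]; push_cast; simp only [add_assoc]
  hu := by
    rintro ⟨⟨i, j⟩, b⟩
    obtain ⟨h1, h2 | h2⟩ := tf_nx j b
    · simp [lab, h1, h2]
    · simp only [lab, h1, ← h2]; push_cast; simp only [add_assoc]
  ts := lab_surj g _ _ tv_surj
  us := lab_surj g _ _ tf_surj
  conn := by
    intro P h1 h2
    have h3 : ∀ e b, P (e, b) ↔ P (e, true) := by
      intro e b
      cases b
      · exact (h2 e).symm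
      · rfl
    have st : ∀ (i : ZMod g) j b, P ((i + sx j b, (nx j b).1), true) ↔ P ((i, j), true) := by
      intro i j b
      have := h1 ((i, j), b)
      rw [h3, h3 (i, j)] at this
      exact this
    have st' : ∀ (i : ZMod g) j b j', sx j b = 0 → (nx j b).1 = j' →
        (P ((i, j), true) ↔ P ((i, 0), true)) → (P ((i, j'), true) ↔ P ((i, 0), true)) := by
      intro i j b j' e1 e2 h
      rw [← h, ← st i j b, e1, e2, Int.cast_zero, add_zero]
    have loc : ∀ (i : ZMod g) j, P ((i, j), true) ↔ P ((i, 0), true) := by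
      intro i j
      have a2 := st' i 0 true 2 rfl rfl Iff.rfl
      have a3 := st' i 2 true 3 rfl rfl a2
      have a4 := st' i 3 true 4 rfl rfl a3
      have a5 := st' i 4 true 5 rfl rfl a4
      have a1 := st' i 2 false 1 rfl rfl a2
      have a6 := st' i 1 true 6 rfl rfl a1
      have a7 := st' i 6 true 7 rfl rfl a6
      have a8 := st' i 7 true 8 rfl rfl a7
      have a9 := st' i 4 false 9 rfl rfl a4
      have a10 := st' i 7 false 10 rfl rfl a7
      have a11 := st' i 6 false 11 rfl rfl a6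
      have a12 := st' i 3 false 12 rfl rfl a3
      have a14 := st' i 0 false 14 rfl rfl Iff.rfl
      have a13 : P ((i, 13), true) ↔ P ((i, 0), true) := by
        rw [← st i 13 false]
        have : sx 13 false = 0 := rfl
        rw [this, Int.cast_zero, add_zero]
        rfl
      fin_cases j
      exacts [Iff.rfl, a1, a2, a3, a4, a5, a6, a7, a8, a9, a10, a11, a12, a13, a14]
    have step : ∀ i : ZMod g, P ((i + 1, 0), true) ↔ P ((i, 0), true) := by
      intro i
      have := st i 14 true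
      simp only [sx, if_true, Int.cast_one] at this
      rw [loc, loc i] at this
      exact this
    have all : ∀ n : ℕ, P (((n : ZMod g), 0), true) ↔ P ((0, 0), true) := by
      intro n
      induction n with
      | zero => simp
      | succ n ih => push_cast; rw [step, ih]
    have fin : ∀ x, P x ↔ P ((0, 0), true) := by
      rintro ⟨⟨i, j⟩, b⟩
      rw [← all i.val, ZMod.natCast_zmod_val, ← loc i j]
      cases b
      · exact (h2 _).symm
      · rfl
    intro x y hx
    rw [fin] at hx ⊢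
    exact hx
  card := by simp; ring

/-- subdivision lengths -/
def ln (e : ZMod g × Fin 15) : ℕ :=
  ![0, 0, (g + 1) / 2 - 3, 0, g / 2 - 2, 0, 0, g / 2 - 2, 0, 0, g % 2, g, g, g, 0] e.2

/-- incidence relation of the example -/
def Inc (v : Option (ZMod g × Fin 9) ⊕ Σ e, Fin (ln g e)) (f : Option (ZMod g × Fin 6)) : Prop :=
  ∃ d, ((base g).sub (ln g)).t d = v ∧ ((base g).sub (ln g)).u d = f

lemma sh_zero : ∀ j b (a : Fin 6), tf j b = some a → a.1 < 3 → sf j b = 0 ∧ sv j b = 0 := by
  decide +kernel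

lemma inc_inl (v) (i : ZMod g) (a : Fin 6) (ha : a.1 < 3) :
    Inc g (Sum.inl v) (some (i, a)) ↔
      ∃ o, (∃ j b, tf j b = some a ∧ tv j b = o) ∧ o.map (fun x => (i, x)) = v := by
  rw [Inc, sub_inc_inl]
  constructor
  · rintro ⟨⟨⟨i', j⟩, b⟩, h1, h2⟩
    simp only [base, lab, Option.map_eq_some_iff, Prod.mk.injEq] at h1 h2
    obtain ⟨a', h2, h3, rfl⟩ := h2
    obtain ⟨h4, h5⟩ := sh_zero j b a' h2 ha
    rw [h4, Int.cast_zero, add_zero] at h3
    rw [h5, Int.cast_zero, add_zero, h3] at h1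
    exact ⟨_, ⟨j, b, h2, rfl⟩, h1⟩
  · rintro ⟨_, ⟨j, b, h2, rfl⟩, rfl⟩
    obtain ⟨h4, h5⟩ := sh_zero j b a h2 ha
    exact ⟨((i, j), b), by simp [base, lab, h5], by simp [base, lab, h2, h4]⟩

lemma inc_inr (x) (i : ZMod g) (a : Fin 6) (ha : a.1 < 3) :
    Inc g (Sum.inr x) (some (i, a)) ↔ x.1.1 = i ∧ ∃ b, tf x.1.2 b = some a := by
  rw [Inc, sub_inc_inr]
  constructor
  · rintro ⟨b, h2⟩
    simp only [base, lab, Option.map_eq_some_iff, Prod.mk.injEq] at h2
    obtain ⟨a', h2, h3, rfl⟩ := h2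
    rw [(sh_zero _ b a' h2 ha).1, Int.cast_zero, add_zero] at h3
    exact ⟨h3, b, h2⟩
  · rintro ⟨rfl, b, h2⟩
    exact ⟨b, by simp [base, lab, h2, (sh_zero _ b a h2 ha).1]⟩

lemma card_gad (i : ZMod g) (A : Finset (Fin 6)) (hA : ∀ a ∈ A, a.1 < 3) :
    (univ.filter fun v => ∃ a ∈ A, Inc g v (some (i, a))).card =
      (univ.filter fun o => ∃ a ∈ A, ∃ j b, tf j b = some a ∧ tv j b = o).card +
      ∑ j, if ∃ a ∈ A, ∃ b, tf j b = some a then ln g (i, j) else 0 := by
  rw [card_sub_filter (ln g) _ (fun e => e.1 = i ∧ ∃ a ∈ A, ∃ b, tf e.2 b = some a)]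
  · congr 1
    · symm
      refine card_bij (fun o _ => o.map (fun x => (i, x))) ?_ ?_ ?_
      · intro o ho
        obtain ⟨a, ha, h⟩ := (mem_filter.1 ho).2
        exact mem_filter.2 ⟨mem_univ _, a, ha, (inc_inl g _ i a (hA a ha)).2 ⟨o, h, rfl⟩⟩
      · intro o _ o' _ h
        exact Option.map_injective (fun x y h => (Prod.mk.inj h).2) h
      · intro v hv
        obtain ⟨a, ha, h⟩ := (mem_filter.1 hv).2
        obtain ⟨o, h', rfl⟩ := (inc_inl g _ i a (hA a ha)).1 h
        exact ⟨o, mem_filter.2 ⟨mem_univ _, a, ha, h'⟩, rfl⟩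
    · rw [Fintype.sum_prod_type, sum_eq_single i]
      · refine sum_congr rfl fun j _ => ?_
        simp only [true_and]
      · intro i' _ h
        simp [h]
      · simp
  · intro x
    constructor
    · rintro ⟨a, ha, h⟩
      obtain ⟨h1, h2⟩ := (inc_inr g x i a (hA a ha)).1 h
      exact ⟨h1, a, ha, h2⟩
    · rintro ⟨h1, a, ha, h2⟩
      exact ⟨a, ha, (inc_inr g x i a (hA a ha)).2 ⟨h1, h2⟩⟩

omit [NeZero g] in
lemma sum_ln (i : ZMod g) (q : Fin 15 → Prop) [DecidablePred q] (h : ¬ q 11 ∧ ¬ q 12 ∧ ¬ q 13) :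
    (∑ j, if q j then ln g (i, j) else 0) = (if q 2 then (g + 1) / 2 - 3 else 0) +
      (if q 4 then g / 2 - 2 else 0) + (if q 7 then g / 2 - 2 else 0) +
      (if q 10 then g % 2 else 0) := by
  simp only [Fin.sum_univ_succ, ln]
  simp [h.1, h.2.1, h.2.2]
  ring

lemma card_face (hg : 5 ≤ g) (i : ZMod g) (a : Fin 6) (ha : a.1 < 3) :
    (univ.filter fun v => Inc g v (some (i, a))).card = g := by
  have := card_gad g i {a} (by simpa using ha)
  simp only [mem_singleton, exists_eq_left] at this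
  rw [this]
  have : a = 0 ∨ a = 1 ∨ a = 2 := by omega
  rcases this with rfl | rfl | rfl
  · rw [sum_ln g i _ (by decide +kernel), if_pos (by decide +kernel), if_pos (by decide +kernel),
      if_neg (by decide +kernel), if_neg (by decide +kernel)]
    have : (univ.filter fun o => ∃ j b, tf j b = some 0 ∧ tv j b = o).card = 5 := by
      decide +kernel
    rw [this]; omega
  · rw [sum_ln g i _ (by decide +kernel), if_pos (by decide +kernel), if_neg (by decide +kernel),
      if_pos (by decide +kernel), if_neg (by decide +kernel)]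
    have : (univ.filter fun o => ∃ j b, tf j b = some 1 ∧ tv j b = o).card = 5 := by
      decide +kernel
    rw [this]; omega
  · rw [sum_ln g i _ (by decide +kernel), if_neg (by decide +kernel), if_pos (by decide +kernel),
      if_pos (by decide +kernel), if_pos (by decide +kernel)]
    have : (univ.filter fun o => ∃ j b, tf j b = some 2 ∧ tv j b = o).card = 4 := by
      decide +kernel
    rw [this]; omega

lemma card_union3 (hg : 5 ≤ g) (i : ZMod g) :
    2 * (univ.filter fun v => ∃ a ∈ ({0, 1, 2} : Finset (Fin 6)), Inc g v (some (i, a))).card ≤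
      3 * g + 1 := by
  rw [card_gad g i _ (by decide), sum_ln g i _ (by decide +kernel), if_pos (by decide +kernel),
    if_pos (by decide +kernel), if_pos (by decide +kernel), if_pos (by decide +kernel)]
  have : (univ.filter fun o => ∃ a ∈ ({0, 1, 2} : Finset (Fin 6)),
      ∃ j b, tf j b = some a ∧ tv j b = o).card = 7 := by
    decide +kernel
  rw [this]; omega

lemma card_face_ge (hg : 5 ≤ g) (f) : g ≤ (univ.filter fun v => Inc g v f).card := by
  have pad : ∀ (i : ZMod g) (j : Fin 15) (a : Fin 6), ln g (i, j) = g → tf j true = some a →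
      sf j true = 0 → g ≤ (univ.filter fun v => Inc g v (some (i, a))).card := by
    intro i j a h1 h2 h3
    calc g = (univ : Finset (Fin (ln g (i, j)))).card := by simp [h1]
      _ ≤ _ := by
        refine card_le_card_of_injOn (fun x => Sum.inr ⟨(i, j), x⟩) ?_ ?_
        · intro x _
          refine mem_coe.2 (mem_filter.2 ⟨mem_univ _, (sub_inc_inr _ _ _ _).2 ⟨true, ?_⟩⟩)
          simp [base, lab, h2, h3]
        · intro x _ y _ h
          simpa using h
  rcases f with _ | ⟨i, a⟩
  · calc g = (univ : Finset (ZMod g)).card := by simp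
      _ ≤ _ := by
        refine card_le_card_of_injOn (fun x => Sum.inl (some (x, 0))) ?_ ?_
        · intro x _
          refine mem_coe.2 (mem_filter.2 ⟨mem_univ _, (sub_inc_inl _ _ _ _).2
            ⟨((x - 1, 14), false), ?_, rfl⟩⟩)
          simp [base, lab, tv, sv]
        · intro x _ y _ h
          simpa using h
  · by_cases ha : a.1 < 3
    · exact (card_face g hg i a ha).ge
    · have : a = 3 ∨ a = 4 ∨ a = 5 := by omega
      rcases this with rfl | rfl | rfl
      · exact pad i 11 3 rfl rfl rfl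
      · exact pad i 12 4 rfl rfl rfl
      · exact pad i 13 5 rfl rfl rfl

lemma inc_none (v) (h : Inc g v none) : ∃ i, v = Sum.inl (some (i, 0)) := by
  have t1 : ∀ j b, tf j b = none → j = 14 ∧ tv j b = some 0 := by decide +kernel
  rcases v with v | ⟨⟨i, j⟩, x⟩
  · obtain ⟨⟨⟨i, j⟩, b⟩, h1, h2⟩ := (sub_inc_inl _ _ _ _).1 h
    simp only [base, lab, Option.map_eq_none_iff] at h1 h2
    rw [(t1 j b h2).2] at h1
    exact ⟨_, by rw [← h1]; rfl⟩
  · obtain ⟨b, h2⟩ := (sub_inc_inr _ _ _ _).1 h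
    simp only [base, lab, Option.map_eq_none_iff] at h2
    obtain rfl := (t1 j b h2).1
    exact x.elim0

lemma not_all (i : ZMod g) (v) (h0 : Inc g v (some (i, 0))) (h1 : Inc g v (some (i, 1)))
    (h2 : Inc g v (some (i, 2))) : False := by
  rcases v with v | x
  · obtain ⟨o0, h0, rfl⟩ := (inc_inl g _ i 0 (by decide)).1 h0
    obtain ⟨o1, h1, e1⟩ := (inc_inl g _ i 1 (by decide)).1 h1
    obtain ⟨o2, h2, e2⟩ := (inc_inl g _ i 2 (by decide)).1 h2
    obtain rfl := Option.map_injective (fun x y h => (Prod.mk.inj h).2) e1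
    obtain rfl := Option.map_injective (fun x y h => (Prod.mk.inj h).2) e2
    have : ∀ o, (∃ j b, tf j b = some 0 ∧ tv j b = o) → (∃ j b, tf j b = some 1 ∧ tv j b = o) →
      (∃ j b, tf j b = some 2 ∧ tv j b = o) → False := by decide +kernel
    exact this _ ‹_› ‹_› ‹_›
  · have h0 := ((inc_inr g _ i 0 (by decide)).1 h0).2
    have h1 := ((inc_inr g _ i 1 (by decide)).1 h1).2
    have h2 := ((inc_inr g _ i 2 (by decide)).1 h2).2
    generalize x.1.2 = j at h0 h1 h2
    revert j
    decide +kernel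

lemma ex_bound (hg : 5 ≤ g) (k : ℕ) (c : Option (ZMod g × Fin 9) ⊕ (Σ e, Fin (ln g e)) → Fin k)
    (hc : ∀ f α, ∃ v, Inc g v f ∧ c v = α) : 4 * k + 1 ≤ 3 * g := by
  obtain ⟨_, h0, hz⟩ := hc none (c (Sum.inl none))
  obtain ⟨i, rfl⟩ := inc_none g _ h0
  set U := univ.filter fun v => ∃ a ∈ ({0, 1, 2} : Finset (Fin 6)), Inc g v (some (i, a)) with hU
  have hU1 : 2 * U.card ≤ 3 * g + 1 := card_union3 g hg i
  have mem : ∀ v (a : Fin 6), a ∈ ({0, 1, 2} : Finset (Fin 6)) → Inc g v (some (i, a)) → v ∈ U :=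
    fun v a ha h => mem_filter.2 ⟨mem_univ _, a, ha, h⟩
  have two : ∀ α, 2 ≤ (U.filter fun v => c v = α).card := by
    intro α
    obtain ⟨v0, h0, e0⟩ := hc (some (i, 0)) α
    obtain ⟨v1, h1, e1⟩ := hc (some (i, 1)) α
    obtain ⟨v2, h2, e2⟩ := hc (some (i, 2)) α
    by_contra hlt
    have := card_le_one.1 (Nat.le_of_lt_succ (not_le.1 hlt))
    have m0 : v0 ∈ U.filter fun v => c v = α := mem_filter.2 ⟨mem _ 0 (by decide) h0, e0⟩
    obtain rfl := this _ m0 _ (mem_filter.2 ⟨mem _ 1 (by decide) h1, e1⟩)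
    obtain rfl := this _ m0 _ (mem_filter.2 ⟨mem _ 2 (by decide) h2, e2⟩)
    exact not_all g i _ h0 h1 h2
  have three : 3 ≤ (U.filter fun v => c v = c (Sum.inl none)).card := by
    obtain ⟨v2, h2, e2⟩ := hc (some (i, 2)) (c (Sum.inl none))
    have a1 : Inc g (Sum.inl none) (some (i, 0)) :=
      (inc_inl g _ i 0 (by decide)).2 ⟨none, ⟨2, true, rfl, rfl⟩, rfl⟩
    have a2 : Inc g (Sum.inl none) (some (i, 1)) :=
      (inc_inl g _ i 1 (by decide)).2 ⟨none, ⟨1, true, rfl, rfl⟩, rfl⟩
    have a3 : Inc g (Sum.inl (some (i, 0))) (some (i, 0)) :=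
      (inc_inl g _ i 0 (by decide)).2 ⟨some 0, ⟨0, true, rfl, rfl⟩, rfl⟩
    have a4 : Inc g (Sum.inl (some (i, 0))) (some (i, 1)) :=
      (inc_inl g _ i 1 (by decide)).2 ⟨some 0, ⟨6, true, rfl, rfl⟩, rfl⟩
    have : ({Sum.inl none, Sum.inl (some (i, 0)), v2} : Finset _).card = 3 := by
      rw [card_eq_three]
      refine ⟨_, _, _, by simp, ?_, ?_, rfl⟩
      · rintro rfl; exact not_all g i _ a1 a2 h2
      · rintro rfl; exact not_all g i _ a3 a4 h2
    rw [← this]
    refine card_le_card fun x hx => ?_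
    simp only [mem_insert, mem_singleton] at hx
    rcases hx with rfl | rfl | rfl
    · exact mem_filter.2 ⟨mem _ 0 (by decide) a1, rfl⟩
    · exact mem_filter.2 ⟨mem _ 0 (by decide) a3, hz⟩
    · exact mem_filter.2 ⟨mem _ 2 (by decide) h2, e2⟩
  have hsum : U.card = ∑ α, (U.filter fun v => c v = α).card :=
    card_eq_sum_card_fiberwise fun _ _ => mem_coe.2 (mem_univ _)
  have : ∑ _α : Fin k, 2 < ∑ α, (U.filter fun v => c v = α).card :=
    sum_lt_sum (fun α _ => two α) ⟨_, mem_univ _, three⟩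
  simp only [sum_const, card_univ, Fintype.card_fin, smul_eq_mul] at this
  omega

omit [NeZero g] in
theorem upper (hg : 5 ≤ g) : ∃ (D : Type) (_ : Finite D) (M : PlaneMap D),
    M.minFace = g ∧ M.polyNum ≤ (3 * g - 1) / 4 := by
  have : NeZero g := ⟨by omega⟩
  have : Nonempty (Σ e, Fin (ln g e + 1)) := ⟨⟨(0, 0), 0⟩⟩
  obtain ⟨M, eV, eF, h⟩ := ((base g).sub (ln g)).toPlane
  have hcard : ∀ f, (M.faceVerts f).ncard = (univ.filter fun v => Inc g v (eF f)).card := by
    intro f
    rw [← Set.ncard_image_of_injective _ eV.injective, ← Set.ncard_coe_finset]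
    congr 1
    ext v
    obtain ⟨v, rfl⟩ := eV.surjective v
    rw [eV.injective.mem_set_image, h]
    simp [Inc]
  refine ⟨_, inferInstance, M, le_antisymm (Nat.sInf_le ⟨eF.symm (some (0, 0)), ?_⟩)
    (le_csInf ⟨_, eF.symm none, rfl⟩ ?_), csSup_le' ?_⟩
  · simp only [hcard, Equiv.apply_symm_apply]
    exact card_face g hg 0 0 (by decide)
  · rintro _ ⟨f, rfl⟩
    simp only [hcard]
    exact card_face_ge g hg _
  · rintro k ⟨c, hc⟩
    have := ex_bound g hg k (fun v => c (eV.symm v)) fun f α => by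
      obtain ⟨v, h1, h2⟩ := hc (eF.symm f) α
      rw [h, Equiv.apply_symm_apply] at h1
      exact ⟨eV v, h1, by simpa using h2⟩
    omega

end Pool.Agent.P.MP_b2489f_co
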