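import Pool.Agent.P.MP_b2489f_co.Plan

set_option autoImplicit false

/-! Rado's transversal theorem and the choice of colour shifts. -/

namespace Pool.Agent.P.MP_b2489f_co.Five

open Finset Classical Module

theorem rado {B O : Type} (r : Finset (B × O) → ℕ) (mono : ∀ A A', A ⊆ A' → r A ≤ r A')
    (sub : ∀ A A', r (A ∪ A') + r (A ∩ A') ≤ r A + r A') (P : B → Prop) (S : Finset (B × O))
    (hS : ∀ U : Finset B, (∀ b ∈ U, P b) → U.card ≤ r (S.filter fun p => p.1 ∈ U)) :
    ∃ S' ⊆ S, (∀ U : Finset B, (∀ b ∈ U, P b) → U.card ≤ r (S'.filter fun p => p.1 ∈ U)) ∧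
      ∀ p ∈ S', ∀ q ∈ S', p.1 = q.1 → p = q := by
  induction S using Finset.strongInduction with
  | H S ih =>
  by_cases h : ∀ p ∈ S, ∀ q ∈ S, p.1 = q.1 → p = q
  · exact ⟨S, Subset.refl _, hS, h⟩
  push Not at h
  obtain ⟨p, hp, q, hq, e, ne⟩ := h
  have key : ∀ x ∈ S, (∀ U : Finset B, (∀ b ∈ U, P b) →
      U.card ≤ r ((S.erase x).filter fun p => p.1 ∈ U)) → ∃ S' ⊆ S,
      (∀ U : Finset B, (∀ b ∈ U, P b) → U.card ≤ r (S'.filter fun p => p.1 ∈ U)) ∧
      ∀ p ∈ S', ∀ q ∈ S', p.1 = q.1 → p = q := fun x hx H => by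
    obtain ⟨S', h1, h2⟩ := ih _ (erase_ssubset hx) H
    exact ⟨S', h1.trans (erase_subset _ _), h2⟩
  by_contra hn
  have k2 : ∀ x ∈ S, ∃ U : Finset B, (∀ b ∈ U, P b) ∧ x.1 ∈ U ∧
      r ((S.erase x).filter fun p => p.1 ∈ U) < U.card := fun x hx => by
    by_contra c
    refine hn (key x hx fun U hU => ?_)
    by_cases m : x.1 ∈ U
    · exact not_lt.1 fun l => c ⟨U, hU, m, l⟩
    · refine (hS U hU).trans (mono _ _ fun y hy => ?_)
      rw [mem_filter] at hy ⊢
      exact ⟨mem_erase.2 ⟨fun e => m (e ▸ hy.2), hy.1⟩, hy.2⟩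
  obtain ⟨U1, a1, a2, a3⟩ := k2 p hp
  obtain ⟨U2, b1, b2, b3⟩ := k2 q hq
  have c1 := sub ((S.erase p).filter fun p => p.1 ∈ U1) ((S.erase q).filter fun p => p.1 ∈ U2)
  have c2 := (hS (U1 ∪ U2) fun b hb => (mem_union.1 hb).elim (a1 b) (b1 b)).trans
    (mono _ (((S.erase p).filter fun p => p.1 ∈ U1) ∪ ((S.erase q).filter fun p => p.1 ∈ U2))
      fun y hy => by
        simp only [mem_filter, mem_union, mem_erase] at hy ⊢
        by_cases y1 : y = p
        · exact Or.inr ⟨⟨y1 ▸ ne, hy.1⟩, by rw [y1, e]; exact b2⟩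
        by_cases y2 : y = q
        · exact Or.inl ⟨⟨y1, hy.1⟩, by rw [y2, ← e]; exact a2⟩
        exact hy.2.imp (fun z => ⟨⟨y1, hy.1⟩, z⟩) fun z => ⟨⟨y2, hy.1⟩, z⟩)
  have c3 := (hS ((U1 ∩ U2).erase p.1) fun b hb => a1 b (mem_inter.1 (mem_erase.1 hb).2).1).trans
    (mono _ (((S.erase p).filter fun p => p.1 ∈ U1) ∩ ((S.erase q).filter fun p => p.1 ∈ U2))
      fun y hy => by
        simp only [mem_filter, mem_inter, mem_erase] at hy ⊢
        exact ⟨⟨⟨fun z => hy.2.1 (z ▸ rfl), hy.1⟩, hy.2.2.1⟩,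
          ⟨fun z => hy.2.1 (z ▸ e.symm), hy.1⟩, hy.2.2.2⟩)
  have c4 : p.1 ∈ U1 ∩ U2 := mem_inter.2 ⟨a2, e ▸ b2⟩
  rw [card_erase_of_mem c4] at c3
  have c5 := card_union_add_card_inter U1 U2
  have c6 := card_pos.2 ⟨_, c4⟩
  omega

lemma dl_add_self {X : Type} (a : X) : dl a + dl a = 0 := by
  ext x; exact F2_add_self _

variable {V Q : Type} [AddCommGroup Q] [Module F2 Q] (π : (V → F2) →ₗ[F2] Q)

theorem solve {B : Type} [DecidableEq B] (x y : B → V) (t : B → ZMod 3) (U : Finset B)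
    (hU : ∀ b ∈ U, π (dl (x b) + dl (y b)) ∉
      Submodule.span F2 ((fun b => π (dl (x b) + dl (y b))) '' (U.erase b : Finset B))) :
    ∃ s : V → ZMod 3, (∀ a a', π (dl a + dl a') = 0 → s a = s a') ∧
      ∀ b ∈ U, s (y b) - s (x b) = t b := by
  induction U using Finset.induction_on with
  | empty => exact ⟨fun _ => 0, fun _ _ _ => rfl, by simp⟩
  | insert b U hb ih =>
  obtain ⟨s, h1, h2⟩ := ih fun c hc m => hU c (mem_insert_of_mem hc)
    (Submodule.span_mono (Set.image_mono (coe_subset.2 (erase_subset_erase _ (subset_insert _ _)))) m)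
  have h3 := hU b (mem_insert_self _ _)
  rw [erase_insert hb] at h3
  set T := (Submodule.span F2 ((fun b => π (dl (x b) + dl (y b))) '' (U : Finset B))).comap π
  have h4 : ∀ a a', dl a + dl a' ∈ T → (dl a + dl (y b) ∈ T ↔ dl a' + dl (y b) ∈ T) :=
    fun a a' h => ⟨add_mem_trans T _ _ _ (add_comm (dl a) _ ▸ h), add_mem_trans T _ _ _ h⟩
  refine ⟨fun z => s z + if dl z + dl (y b) ∈ T then t b - (s (y b) - s (x b)) else 0,
    fun a a' h => ?_, fun c hc => ?_⟩
  · have : dl a + dl a' ∈ T := by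
      rw [Submodule.mem_comap, h]; exact Submodule.zero_mem _
    simp only [h1 a a' h, h4 a a' this]
  · rcases mem_insert.1 hc with rfl | hc
    · have : dl (y c) + dl (y c) ∈ T := by rw [dl_add_self]; exact T.zero_mem
      have h3' : dl (x c) + dl (y c) ∉ T := h3
      simp only [this, h3', if_true, if_false]
      ring
    · have : dl (x c) + dl (y c) ∈ T := Submodule.subset_span ⟨c, hc, rfl⟩
      simp only [h4 _ _ this, ← h2 c hc]
      ring

theorem shifts {B O : Type} [Fintype B] [Fintype O] [Module.Finite F2 Q] (P : B → Prop)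
    (x y : B × O → V) (t : B × O → ZMod 3)
    (h : ∀ U : Finset B, (∀ b ∈ U, P b) → U.card ≤ finrank F2
      (Submodule.span F2 ((fun p => π (dl (x p) + dl (y p))) '' {p | p.1 ∈ U}))) :
    ∃ s : V → ZMod 3, (∀ a a', π (dl a + dl a') = 0 → s a = s a') ∧
      ∀ b, P b → ∃ o, s (y (b, o)) - s (x (b, o)) = t (b, o) := by
  let w : B × O → Q := fun p => π (dl (x p) + dl (y p))
  let r : Finset (B × O) → ℕ := fun A => finrank F2 (Submodule.span F2 (w '' A))
  have mono : ∀ A A', A ⊆ A' → r A ≤ r A' := fun A A' hA =>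
    Submodule.finrank_mono (Submodule.span_mono (Set.image_mono (coe_subset.2 hA)))
  have le : ∀ A, r A ≤ A.card := fun A => by
    have := finrank_span_finset_le_card (R := F2) (A.image w)
    rw [Set.finrank, coe_image] at this
    exact this.trans card_image_le
  obtain ⟨S, h1, h2, h3⟩ := rado r mono (fun A A' => by
      have a1 := Submodule.finrank_sup_add_finrank_inf_eq (Submodule.span F2 (w '' A))
        (Submodule.span F2 (w '' A'))
      have a2 : r (A ∩ A') ≤ finrank F2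
          (Submodule.span F2 (w '' A) ⊓ Submodule.span F2 (w '' A') : Submodule F2 Q) :=
        Submodule.finrank_mono (le_inf
          (Submodule.span_mono (Set.image_mono (coe_subset.2 inter_subset_left)))
          (Submodule.span_mono (Set.image_mono (coe_subset.2 inter_subset_right))))
      have a3 : r (A ∪ A') = finrank F2
          (Submodule.span F2 (w '' A) ⊔ Submodule.span F2 (w '' A') : Submodule F2 Q) := by
        simp only [r]
        rw [coe_union, Set.image_union, Submodule.span_union]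
      simp only [r] at a2 a3 ⊢
      omega) P (univ.filter fun p => P p.1) fun U hU => (h U hU).trans
    (Submodule.finrank_mono (Submodule.span_mono (Set.image_mono fun p hp => by
      have hp' : p.1 ∈ U := hp
      simp [hp', hU _ hp'])))
  obtain ⟨s, a1, a2⟩ := solve π x y t S fun p hp m => by
    have b1 := h2 (S.image Prod.fst) fun b hb => by
      obtain ⟨q, hq, rfl⟩ := mem_image.1 hb
      exact (mem_filter.1 (h1 hq)).2
    rw [card_image_of_injOn fun a ha b hb => h3 a ha b hb] at b1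
    have b2 := le (S.erase p)
    rw [card_erase_of_mem hp] at b2
    have b3 : r (S.filter fun q => q.1 ∈ S.image Prod.fst) ≤ r (S.erase p) := by
      refine Submodule.finrank_mono (Submodule.span_le.2 ?_)
      rintro _ ⟨q, hq, rfl⟩
      by_cases e : q = p
      · rw [e]; exact m
      · exact Submodule.subset_span ⟨q, mem_erase.2 ⟨e, (mem_filter.1 hq).1⟩, rfl⟩
    have := card_pos.2 ⟨p, hp⟩
    omega
  refine ⟨s, a1, fun b hb => ?_⟩
  have b1 := (h2 {b} (by simpa using hb)).trans (le _)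
  obtain ⟨p, hp⟩ := card_pos.1 (lt_of_lt_of_le (by simp) b1)
  rw [mem_filter, mem_singleton] at hp
  exact ⟨p.2, hp.2 ▸ a2 p hp.1⟩

end Pool.Agent.P.MP_b2489f_co.Five
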