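import Pool.Agent.P.MP_b2489f_co.Plan

set_option autoImplicit false

/-! Outerplanar graphs (planar after adding an apex) are 3-colourable. -/

namespace Pool.Agent.P.MP_b2489f_co.Five

open Finset Classical Module

variable {D X Y : Type} (p1 p2 : D → X)

/-- adjacency -/
def Ad (a b : X) : Prop := ∃ d, (p1 d = a ∧ p2 d = b) ∨ (p1 d = b ∧ p2 d = a)

/-- connected sets -/
def Cn (W : Set X) : Prop :=
  ∃ r, ∀ x ∈ W, Relation.ReflTransGen (fun a b => a ∈ W ∧ b ∈ W ∧ Ad p1 p2 a b) r x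

/-- touching sets -/
def Tc (W W' : Set X) : Prop := ∃ x ∈ W, ∃ y ∈ W', Ad p1 p2 x y

variable {p1 p2}

lemma Ad.symm {a b : X} (h : Ad p1 p2 a b) : Ad p1 p2 b a := h.imp fun _ => Or.symm

lemma Tc.symm {W W' : Set X} (h : Tc p1 p2 W W') : Tc p1 p2 W' W := by
  obtain ⟨x, hx, y, hy, h⟩ := h
  exact ⟨y, hy, x, hx, h.symm⟩

lemma Tc.mono {W W' U U' : Set X} (h : Tc p1 p2 W W') (h1 : W ⊆ U) (h2 : W' ⊆ U') :
    Tc p1 p2 U U' := by
  obtain ⟨x, hx, y, hy, h⟩ := h
  exact ⟨x, h1 hx, y, h2 hy, h⟩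

lemma Cn.union {W U : Set X} (hW : Cn p1 p2 W) (hU : Cn p1 p2 U) (hT : Tc p1 p2 W U) :
    Cn p1 p2 (W ∪ U) := by
  obtain ⟨r, hr⟩ := hW
  obtain ⟨s, hs⟩ := hU
  obtain ⟨a, ha, b, hb, hab⟩ := hT
  have m : ∀ {Z : Set X} {a b : X}, Z ⊆ W ∪ U →
      Relation.ReflTransGen (fun a b => a ∈ Z ∧ b ∈ Z ∧ Ad p1 p2 a b) a b →
      Relation.ReflTransGen (fun a b => a ∈ W ∪ U ∧ b ∈ W ∪ U ∧ Ad p1 p2 a b) a b :=
    fun hZ h => rtg_imp (fun _ _ h => ⟨hZ h.1, hZ h.2.1, h.2.2⟩) h
  have sy : ∀ {a b : X}, Relation.ReflTransGen (fun a b => a ∈ U ∧ b ∈ U ∧ Ad p1 p2 a b) a b →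
      Relation.ReflTransGen (fun a b => a ∈ U ∧ b ∈ U ∧ Ad p1 p2 a b) b a := fun h => by
    induction h with
    | refl => rfl
    | tail _ h ih => exact Relation.ReflTransGen.head ⟨h.2.1, h.1, h.2.2.symm⟩ ih
  refine ⟨r, ?_⟩
  rintro x (hx | hx)
  · exact m Set.subset_union_left (hr x hx)
  · refine (m Set.subset_union_left (hr a ha)).trans ?_
    refine Relation.ReflTransGen.head ⟨Or.inl ha, Or.inr hb, hab⟩ ?_
    exact m Set.subset_union_right ((sy (hs b hb)).trans (hs x hx))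

variable (p1 p2) in
/-- a family of branch sets, all touching the apex set `W0` -/
structure Fam (W0 : Set X) (S : Finset X) (W : X → Set X) : Prop where
  dis : ∀ i ∈ S, ∀ j ∈ S, ∀ x, x ∈ W i → x ∈ W j → i = j
  out : ∀ i ∈ S, ∀ x ∈ W i, x ∉ W0
  cn : ∀ i ∈ S, Cn p1 p2 (W i)
  tc : ∀ i ∈ S, Tc p1 p2 W0 (W i)

lemma Fam.mono {W0 : Set X} {S S' : Finset X} {W : X → Set X} (h : Fam p1 p2 W0 S W)
    (hS : S' ⊆ S) : Fam p1 p2 W0 S' W :=
  ⟨fun i hi j hj => h.dis i (hS hi) j (hS hj), fun i hi => h.out i (hS hi),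
    fun i hi => h.cn i (hS hi), fun i hi => h.tc i (hS hi)⟩

variable [Fintype D] [Fintype X] [Fintype Y] {q1 q2 : D → Y}
  (hex : LinearMap.range (cb q1 q2) = LinearMap.ker (bd p1 p2)) {W0 : Set X} (h0 : Cn p1 p2 W0)

include hex h0

lemma bound1 {S : Finset X} {W : X → Set X} (h : Fam p1 p2 W0 S W) (hS : 2 ≤ S.card)
    (E : Finset (X × X)) (hE : ∀ e ∈ E, e.1 ∈ S ∧ e.2 ∈ S ∧ e.1 ≠ e.2 ∧ Tc p1 p2 (W e.1) (W e.2))
    (ha : ∀ e ∈ E, e.swap ∉ E) : E.card + 3 ≤ 2 * S.card := by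
  rcases E.eq_empty_or_nonempty with rfl | hne
  · simp; omega
  have := card_pos.2 hne
  let g : S ⊕ E → Option S × Option S := fun e => match e with
    | Sum.inl i => (none, some i)
    | Sum.inr e => (some ⟨e.1.1, (hE _ e.2).1⟩, some ⟨e.1.2, (hE _ e.2).2.1⟩)
  have hg : Function.Injective g := by
    rintro (a | a) (b | b) hab <;> simp only [g, Prod.mk.injEq, Option.some.injEq, true_and,
      Subtype.mk.injEq, reduceCtorEq, false_and] at hab
    · rw [hab]
    · rw [Subtype.ext (Prod.ext hab.1 hab.2 : a.1 = b.1)]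
  have hA : (univ.image g).card = S.card + E.card := by
    rw [card_image_of_injective _ hg]; simp
  have hne : ∀ a ∈ univ.image g, a.1 ≠ a.2 := by
    intro a ha
    obtain ⟨b | b, -, rfl⟩ := mem_image.1 ha
    · simp [g]
    · simpa [g] using (hE _ b.2).2.2.1
  have has : ∀ a ∈ univ.image g, a.swap ∉ univ.image g := by
    intro a h1 h2
    obtain ⟨b | b, -, rfl⟩ := mem_image.1 h1 <;> obtain ⟨c | c, -, h3⟩ := mem_image.1 h2 <;>
      simp only [g, Prod.swap, Prod.mk.injEq, Option.some.injEq, Subtype.mk.injEq, reduceCtorEq,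
        false_and, and_false] at h3
    refine ha _ b.2 ?_
    rw [show b.1.swap = c.1 from Prod.ext h3.1.symm h3.2.symm]
    exact c.2
  have := minor_core (ι := Option S) p1 p2 q1 q2 hex (fun i => i.elim W0 fun i => W i) ?_ ?_
    (univ.image g) hne has ?_ 3 (girth3 _ hne has) (by rw [hA]; simp; omega)
  · rw [hA] at this
    simp only [Fintype.card_option, Fintype.card_coe] at this
    omega
  · rintro (_ | i) (_ | j) x h1 h2
    · rfl
    · exact (h.out j j.2 x h2 h1).elim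
    · exact (h.out i i.2 x h1 h2).elim
    · rw [Subtype.ext (h.dis i i.2 j j.2 x h1 h2)]
  · rintro (_ | i)
    · exact h0
    · exact h.cn i i.2
  · intro a ha
    obtain ⟨b | b, -, rfl⟩ := mem_image.1 ha
    · exact h.tc b b.2
    · exact (hE _ b.2).2.2.2

lemma bound2 {S : Finset X} {W : X → Set X} (h : Fam p1 p2 W0 S W) (hS : 2 ≤ S.card)
    (E : Finset (X × X))
    (hE : ∀ e ∈ E, e.1 ∈ S ∧ e.2 ∈ S ∧ e.1 ≠ e.2 ∧ Tc p1 p2 (W e.1) (W e.2)) :
    E.card + 6 ≤ 4 * S.card := by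
  let lt : X → X → Prop := fun a b => (Fintype.equivFin X a) < Fintype.equivFin X b
  have h1 := bound1 hex h0 h hS (E.filter fun p => lt p.1 p.2)
    (fun e he => hE e (mem_filter.1 he).1)
    (fun a ha ha' => lt_asymm (mem_filter.1 ha).2 (mem_filter.1 ha').2)
  have h2 := bound1 hex h0 h hS (E.filter fun p => ¬ lt p.1 p.2)
    (fun e he => hE e (mem_filter.1 he).1) (fun a ha ha' => by
      have e1 := (mem_filter.1 ha).2
      have e2 := (mem_filter.1 ha').2
      simp only [lt, not_lt, Prod.fst_swap, Prod.snd_swap] at e1 e2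
      exact (hE a (mem_filter.1 ha).1).2.2.1 ((Fintype.equivFin X).injective (le_antisymm e2 e1)))
  have := card_filter_add_card_filter_not (s := E) (fun p => lt p.1 p.2)
  omega

theorem col3 (n : ℕ) : ∀ (S : Finset X) (W : X → Set X), S.card ≤ n → Fam p1 p2 W0 S W →
    ∃ c : X → ZMod 3, ∀ i ∈ S, ∀ j ∈ S, i ≠ j → Tc p1 p2 (W i) (W j) → c i ≠ c j := by
  induction n with
  | zero =>
    intro S W hS _
    rw [Nat.le_zero, card_eq_zero] at hS
    exact ⟨0, by simp [hS]⟩
  | succ n ih =>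
  intro S W hS h
  by_cases h2 : S.card ≤ 1
  · exact ⟨0, fun i hi j hj e => absurd (card_le_one.1 h2 i hi j hj) e⟩
  let N : X → Finset X := fun v => S.filter fun j => v ≠ j ∧ Tc p1 p2 (W v) (W j)
  obtain ⟨v, hv, hN⟩ : ∃ v ∈ S, (N v).card ≤ 3 := by
    by_contra c
    push Not at c
    have a1 := bound2 hex h0 h (by omega) ((S.sigma N).image fun p => (p.1, p.2)) fun e he => by
      obtain ⟨p, hp, rfl⟩ := mem_image.1 he
      rw [mem_sigma, mem_filter] at hp
      exact ⟨hp.1, hp.2⟩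
    rw [card_image_of_injective _ (fun a b e => by
      cases a; cases b; simp only [Prod.mk.injEq] at e; rw [e.1, e.2]), card_sigma] at a1
    have a2 := card_nsmul_le_sum S (fun v => (N v).card) 4 c
    rw [smul_eq_mul] at a2
    omega
  have hv' := card_erase_of_mem hv
  obtain ⟨c, c1, c2⟩ : ∃ c : X → ZMod 3, (∀ i ∈ S.erase v, ∀ j ∈ S.erase v, i ≠ j →
      Tc p1 p2 (W i) (W j) → c i ≠ c j) ∧ ((N v).image c).card ≤ 2 := by
    by_cases h3 : (N v).card ≤ 2
    · obtain ⟨c, hc⟩ := ih (S.erase v) W (by omega) (h.mono (erase_subset _ _))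
      exact ⟨c, hc, card_image_le.trans h3⟩
    obtain ⟨a, ha, b, hb, ab, nt⟩ : ∃ a ∈ N v, ∃ b ∈ N v, a ≠ b ∧ ¬ Tc p1 p2 (W a) (W b) := by
      by_contra c
      push Not at c
      have a0 : (insert v (N v)).card = 4 := by
        rw [card_insert_of_notMem (by simp [N])]; omega
      have a1 := bound2 hex h0 (h.mono (S' := insert v (N v))
        (insert_subset hv (filter_subset _ _))) (by omega) (insert v (N v)).offDiag fun e he => by
          rw [mem_offDiag] at he
          refine ⟨he.1, he.2.1, he.2.2, ?_⟩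
          rcases mem_insert.1 he.1 with e1 | e1 <;> rcases mem_insert.1 he.2.1 with e2 | e2
          · exact absurd (e1.trans e2.symm) he.2.2
          · rw [e1]; exact (mem_filter.1 e2).2.2
          · rw [e2]; exact (mem_filter.1 e1).2.2.symm
          · exact c _ e1 _ e2 he.2.2
      rw [offDiag_card, a0] at a1
      omega
    have ha' := mem_filter.1 ha
    have hb' := mem_filter.1 hb
    have sub : (S.erase v).erase b ⊆ S := (erase_subset _ _).trans (erase_subset _ _)
    let W' : X → Set X := fun i => if i = a then W a ∪ W v ∪ W b else W i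
    have w1 : ∀ i, W i ⊆ W' i := fun i x hx => by
      by_cases e : i = a
      · simp only [W', e, if_true]; exact Or.inl (Or.inl (e ▸ hx))
      · simp only [W', e, if_false]; exact hx
    have w2 : ∀ i ∈ (S.erase v).erase b, ∀ x ∈ W' i, ∃ j ∈ S, x ∈ W j ∧
        (j = i ∨ (i = a ∧ j ∉ (S.erase v).erase b)) := fun i hi x hx => by
      by_cases e : i = a
      · simp only [W', e, if_true] at hx
        rcases hx with (hx | hx) | hx
        · exact ⟨a, ha'.1, hx, Or.inl e.symm⟩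
        · exact ⟨v, hv, hx, Or.inr ⟨e, by simp⟩⟩
        · exact ⟨b, hb'.1, hx, Or.inr ⟨e, by simp⟩⟩
      · simp only [W', e, if_false] at hx
        exact ⟨i, sub hi, hx, Or.inl rfl⟩
    obtain ⟨c, hc⟩ := ih ((S.erase v).erase b) W' (card_erase_le.trans (by omega))
      ⟨fun i hi j hj x h1 h2 => by
        obtain ⟨k, k1, k2, k3⟩ := w2 i hi x h1
        obtain ⟨l, l1, l2, l3⟩ := w2 j hj x h2
        obtain rfl := h.dis k k1 l l1 x k2 l2
        rcases k3 with k3 | k3 <;> rcases l3 with l3 | l3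
        · exact k3.symm.trans l3
        · exact absurd (k3 ▸ hi) l3.2
        · exact absurd (l3 ▸ hj) k3.2
        · exact k3.1.trans l3.1.symm,
      fun i hi x hx => by
        obtain ⟨k, k1, k2, -⟩ := w2 i hi x hx
        exact h.out k k1 x k2,
      fun i hi => by
        by_cases e : i = a
        · simp only [W', e, if_true]
          exact ((h.cn a ha'.1).union (h.cn v hv) ha'.2.2.symm).union (h.cn b hb'.1)
            (hb'.2.2.mono Set.subset_union_right (Set.Subset.refl _))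
        · simp only [W', e, if_false]; exact h.cn i (sub hi),
      fun i hi => (h.tc i (sub hi)).mono (Set.Subset.refl _) (w1 i)⟩
    let m : X → X := fun i => if i = b then a else i
    have m1 : ∀ i ∈ S.erase v, m i ∈ (S.erase v).erase b ∧ W i ⊆ W' (m i) := fun i hi => by
      by_cases e : i = b
      · simp only [m, e, if_true, W']
        exact ⟨mem_erase.2 ⟨ab, mem_erase.2 ⟨ha'.2.1.symm, ha'.1⟩⟩, Set.subset_union_right⟩
      · simp only [m, e, if_false]
        exact ⟨mem_erase.2 ⟨e, hi⟩, w1 i⟩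
    refine ⟨c ∘ m, fun i hi j hj e t => hc _ (m1 i hi).1 _ (m1 j hj).1 (fun q => ?_)
      (t.mono (m1 i hi).2 (m1 j hj).2), ?_⟩
    · by_cases e1 : i = b <;> by_cases e2 : j = b <;> simp only [m, e1, e2, if_true, if_false] at q
      · exact e (e1.trans e2.symm)
      · exact nt (by rw [q, ← e1]; exact t.symm)
      · exact nt (by rw [← q, ← e2]; exact t)
      · exact e q
    · refine (card_le_card (t := ((N v).erase b).image c) fun z hz => ?_).trans
        (card_image_le.trans (by rw [card_erase_of_mem hb]; omega))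
      obtain ⟨i, hi, rfl⟩ := mem_image.1 hz
      refine mem_image.2 ⟨m i, ?_, rfl⟩
      by_cases e : i = b
      · simp only [m, e, if_true]; exact mem_erase.2 ⟨ab, ha⟩
      · simp only [m, e, if_false]; exact mem_erase.2 ⟨e, hi⟩
  obtain ⟨z, -, hz⟩ := exists_mem_notMem_of_card_lt_card (s := (N v).image c) (t := univ)
    (by rw [card_univ, ZMod.card]; omega)
  have k : ∀ j ∈ S, v ≠ j → Tc p1 p2 (W v) (W j) → z ≠ c j := fun j hj e t q =>
    hz (mem_image.2 ⟨j, mem_filter.2 ⟨hj, e, t⟩, q.symm⟩)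
  refine ⟨fun i => if i = v then z else c i, fun i hi j hj e t => ?_⟩
  by_cases e1 : i = v <;> by_cases e2 : j = v <;> simp only [e1, e2, if_true, if_false]
  · exact absurd (e1.trans e2.symm) e
  · exact k j hj (e1 ▸ e) (e1 ▸ t)
  · exact (k i hi (e2 ▸ e.symm) (e2 ▸ t.symm)).symm
  · exact c1 i (mem_erase.2 ⟨e1, hi⟩) j (mem_erase.2 ⟨e2, hj⟩) e t

omit h0 in
/-- the edges inside the levels of a breadth-first search are properly 3-colourable -/
theorem levels (rt : X → X) (h : X → ℕ) (h1 : ∀ x, h x = 0 → x = rt x)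
    (h2 : ∀ x k, h x = k + 1 → ∃ y, Ad p1 p2 y x ∧ rt y = rt x ∧ h y = k) :
    ∃ c : X → ZMod 3, ∀ x y, x ≠ y → Ad p1 p2 x y → rt x = rt y → h x = h y → c x ≠ c y := by
  have : ∀ r k, ∃ c : X → ZMod 3, ∀ x y, x ≠ y → Ad p1 p2 x y → rt x = r → rt y = r →
      h x = k → h y = k → c x ≠ c y := by
    intro r k
    rcases k with _ | k
    · exact ⟨0, fun x y e _ a b c d => absurd (by rw [h1 x c, h1 y d, a, b]) e⟩
    have h0 : Cn p1 p2 {x | rt x = r ∧ h x ≤ k} := by
      refine ⟨r, fun x hx => ?_⟩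
      induction hm : h x generalizing x with
      | zero => rw [h1 x hm, hx.1]
      | succ m ih =>
        obtain ⟨y, a, b, c⟩ := h2 x m hm
        have hy : y ∈ {x | rt x = r ∧ h x ≤ k} := ⟨b.trans hx.1, by have := hx.2; omega⟩
        exact (ih y hy c).tail ⟨hy, hx, a⟩
    obtain ⟨c, hc⟩ := col3 hex h0 _ (univ.filter fun x => rt x = r ∧ h x = k + 1) (fun x => {x})
      le_rfl ⟨fun i _ j _ x a b => a.symm.trans b, fun i hi x a b => by
        have := b.2
        rw [a, (mem_filter.1 hi).2.2] at this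
        omega, fun i _ => ⟨i, fun x hx => by rw [hx]⟩, fun i hi => by
        obtain ⟨y, a, b, c⟩ := h2 i k (mem_filter.1 hi).2.2
        exact ⟨y, ⟨b.trans (mem_filter.1 hi).2.1, c.le⟩, i, rfl, a⟩⟩
    exact ⟨c, fun x y e t a b c d => hc x (by simp [a, c]) y (by simp [b, d]) e ⟨x, rfl, y, rfl, t⟩⟩
  choose c hc using this
  refine ⟨fun x => c (rt x) (h x) x, fun x y e t a b => ?_⟩
  have := hc _ _ x y e t rfl a.symm rfl b.symm
  simp only [← a, ← b]
  exact this

end Pool.Agent.P.MP_b2489f_co.Five
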