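import Pool.Agent.P.MP_b2489f_co.Five1
import Pool.Agent.P.MP_b2489f_co.Five2

set_option autoImplicit false

/-! Plane systems of pentagons: breadth-first levels, chords, and the rank bound. -/

namespace Pool.Agent.P.MP_b2489f_co.Five

open Finset Classical Module

lemma bfs {X : Type} (A : X → X → Prop) (sy : ∀ x y, A x y → A y x) :
    ∃ (rt : X → X) (h : X → ℕ), (∀ x, h x = 0 → x = rt x) ∧
      (∀ x k, h x = k + 1 → ∃ y, A y x ∧ h y = k) ∧
      ∀ x y, A x y → rt x = rt y ∧ h y ≤ h x + 1 := by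
  let st : Setoid X := ⟨Relation.ReflTransGen A, fun _ => Relation.ReflTransGen.refl,
    fun h => by
      induction h with
      | refl => rfl
      | tail _ h ih => exact Relation.ReflTransGen.head (sy _ _ h) ih,
    Relation.ReflTransGen.trans⟩
  let rt : X → X := fun x => (Quotient.mk st x).out
  let R : ℕ → X → Prop := fun n => Nat.rec (fun x => x = rt x) (fun _ r x => ∃ y, A y x ∧ r y) n
  have ex : ∀ x, ∃ n, R n x := fun x => by
    have : Relation.ReflTransGen A (rt x) x := Quotient.exact (Quotient.out_eq (Quotient.mk st x))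
    have h0 : R 0 (rt x) := by
      show rt x = (Quotient.mk st (Quotient.mk st x).out).out
      rw [Quotient.out_eq]
    generalize rt x = r at this h0
    induction this with
    | refl => exact ⟨0, h0⟩
    | tail _ h ih => exact ih.elim fun n hn => ⟨n + 1, _, h, hn⟩
  let H : X → ℕ := fun x => sInf {n | R n x}
  have sp : ∀ x, R (H x) x := fun x => Nat.sInf_mem (ex x)
  have mn : ∀ x n, R n x → H x ≤ n := fun x n h => Nat.sInf_le h
  have le : ∀ x y, A x y → H y ≤ H x + 1 := fun x y h => mn _ _ ⟨x, h, sp x⟩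
  refine ⟨rt, H, fun x hx => ?_, fun x k hx => ?_, fun x y h =>
    ⟨congrArg Quotient.out (Quotient.sound (Relation.ReflTransGen.single h)), le x y h⟩⟩
  · have := sp x
    rwa [hx] at this
  · have := sp x
    rw [hx] at this
    obtain ⟨y, h1, h2⟩ := this
    have a1 := le y x h1
    have a2 := mn y k h2
    exact ⟨y, h1, by omega⟩

lemma classify (h : Fin 5 → ℕ) (H : ∀ i, h (i + 1) ≤ h i + 1 ∧ h i ≤ h (i + 1) + 1) :
    ∃ ρ : Fin 5, h (0 + ρ) = h (1 + ρ) ∧ (h (1 + ρ) = h (2 + ρ) ∨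
      ∀ i : Fin 4, h (i.succ + ρ) ≠ h (i.succ + 1 + ρ)) := by
  have h0 : h 1 ≤ h 0 + 1 ∧ h 0 ≤ h 1 + 1 := H 0
  have h1 : h 2 ≤ h 1 + 1 ∧ h 1 ≤ h 2 + 1 := H 1
  have h2 : h 3 ≤ h 2 + 1 ∧ h 2 ≤ h 3 + 1 := H 2
  have h3 : h 4 ≤ h 3 + 1 ∧ h 3 ≤ h 4 + 1 := H 3
  have h4 : h 0 ≤ h 4 + 1 ∧ h 4 ≤ h 0 + 1 := H 4
  have k : ∀ ρ : Fin 5, (h (1 + ρ) ≠ h (2 + ρ) ∧ h (2 + ρ) ≠ h (3 + ρ) ∧ h (3 + ρ) ≠ h (4 + ρ) ∧
      h (4 + ρ) ≠ h (0 + ρ)) → ∀ i : Fin 4, h (i.succ + ρ) ≠ h (i.succ + 1 + ρ) := by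
    intro ρ a i
    fin_cases i
    exacts [a.1, a.2.1, a.2.2.1, a.2.2.2]
  by_contra c
  push Not at c
  have c' : ∀ ρ : Fin 5, h (0 + ρ) = h (1 + ρ) → h (1 + ρ) ≠ h (2 + ρ) ∧
      ¬ (h (1 + ρ) ≠ h (2 + ρ) ∧ h (2 + ρ) ≠ h (3 + ρ) ∧ h (3 + ρ) ≠ h (4 + ρ) ∧
      h (4 + ρ) ≠ h (0 + ρ)) := fun ρ a =>
    ⟨(c ρ a).1, fun b => (c ρ a).2.elim fun i hi => k ρ b i hi⟩
  have c0 : h 0 = h 1 → h 1 ≠ h 2 ∧ ¬ (h 1 ≠ h 2 ∧ h 2 ≠ h 3 ∧ h 3 ≠ h 4 ∧ h 4 ≠ h 0) := c' 0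
  have c1 : h 1 = h 2 → h 2 ≠ h 3 ∧ ¬ (h 2 ≠ h 3 ∧ h 3 ≠ h 4 ∧ h 4 ≠ h 0 ∧ h 0 ≠ h 1) := c' 1
  have c2 : h 2 = h 3 → h 3 ≠ h 4 ∧ ¬ (h 3 ≠ h 4 ∧ h 4 ≠ h 0 ∧ h 0 ≠ h 1 ∧ h 1 ≠ h 2) := c' 2
  have c3 : h 3 = h 4 → h 4 ≠ h 0 ∧ ¬ (h 4 ≠ h 0 ∧ h 0 ≠ h 1 ∧ h 1 ≠ h 2 ∧ h 2 ≠ h 3) := c' 3
  have c4 : h 4 = h 0 → h 0 ≠ h 1 ∧ ¬ (h 0 ≠ h 1 ∧ h 1 ≠ h 2 ∧ h 2 ≠ h 3 ∧ h 3 ≠ h 4) := c' 4
  omega

lemma selforth {ε : Type} [Fintype ε] (W : Submodule F2 (ε → F2))
    (h : ∀ w ∈ W, ∀ w' ∈ W, ∑ e, w e * w' e = 0) : 2 * finrank F2 W ≤ Fintype.card ε := by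
  have a1 := Subspace.finrank_add_finrank_dualAnnihilator_eq W
  have a2 : W.map (dotProductEquiv F2 ε : (ε → F2) →ₗ[F2] Module.Dual F2 (ε → F2)) ≤
      W.dualAnnihilator := by
    rintro _ ⟨w, hw, rfl⟩
    rw [Submodule.mem_dualAnnihilator]
    exact fun w' hw' => h w hw w' hw'
  have a3 := Submodule.finrank_mono a2
  rw [LinearEquiv.finrank_map_eq] at a3
  rw [finrank_fintype_fun_eq_card] at a1
  omega

lemma bd_pair {D X : Type} [Fintype D] [Fintype X] (p1 p2 : D → X) (κ : X → F2) (z : D → F2)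
    (hz : bd p1 p2 z = 0) : ∑ d, z d * (κ (p1 d) + κ (p2 d)) = 0 := by
  have : ∑ x, κ x * bd p1 p2 z x = 0 := by simp [hz]
  rw [← this]
  simp only [bd_apply, mul_sum]
  rw [sum_comm]
  refine sum_congr rfl fun d _ => ?_
  have : ∀ x, κ x * (z d * (dl (p1 d) x + dl (p2 d) x)) =
      z d * (dl (p1 d) x * κ x) + z d * (dl (p2 d) x * κ x) := fun x => by ring
  simp only [this, sum_add_distrib, ← mul_sum, sum_dl_mul]
  ring

lemma bd_eq_sum {D X : Type} [Fintype D] (p1 p2 : D → X) (z : D → F2) :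
    bd p1 p2 z = ∑ d, z d • (dl (p1 d) + dl (p2 d)) := by
  ext x
  simp [bd_apply, Finset.sum_apply, mul_add]

lemma sum5 (t : Fin 5 → F2) : ∑ i, (t i + t (i + 1)) = 0 := by
  rw [sum_add_distrib, Equiv.sum_comp (Equiv.addRight (1 : Fin 5)) t |>.symm]
  exact F2_add_self _

/-- pentagons drawn in the plane: `v f i` are the corners, `g f i` is the region on the other
side of the side from corner `i` to corner `i + 1` -/
structure Pent (V F K : Type) [Fintype F] where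
  v : F → Fin 5 → V
  g : F → Fin 5 → K
  inj : ∀ f, Function.Injective (v f)
  cyc : ∀ u : K → F2, bd (fun s : F × Fin 5 => v s.1 s.2) (fun s => v s.1 (s.2 + 1))
    (fun s => u (g s.1 s.2)) = 0
  ex : ∀ z, bd (fun s : F × Fin 5 => v s.1 s.2) (fun s => v s.1 (s.2 + 1)) z = 0 →
    ∃ (t : F → F2) (u : K → F2), ∀ f i, z (f, i) = t f + u (g f i)

namespace Pent

variable {V F K : Type} [Fintype F] (P : Pent V F K)

abbrev a : F × Fin 5 → V := fun s => P.v s.1 s.2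
abbrev b : F × Fin 5 → V := fun s => P.v s.1 (s.2 + 1)

lemma bd_rot (ρ : F → Fin 5) (z : F × Fin 5 → F2) :
    bd (fun s : F × Fin 5 => P.v s.1 (s.2 + ρ s.1)) (fun s => P.v s.1 (s.2 + 1 + ρ s.1))
      (fun s => z (s.1, s.2 + ρ s.1)) = bd P.a P.b z := by
  ext x
  simp only [bd_apply, Fintype.sum_prod_type]
  refine sum_congr rfl fun f _ => ?_
  refine Eq.trans ?_ (Equiv.sum_comp (Equiv.addRight (ρ f)) _)
  simp only [Equiv.coe_addRight, add_right_comm _ (1 : Fin 5)]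

/-- rotate the corner numbers -/
def rot (ρ : F → Fin 5) : Pent V F K where
  v f i := P.v f (i + ρ f)
  g f i := P.g f (i + ρ f)
  inj f _ _ h := add_right_cancel (P.inj f h)
  cyc u := (P.bd_rot ρ fun s => u (P.g s.1 s.2)).trans (P.cyc u)
  ex z hz := by
    obtain ⟨t, u, h⟩ := P.ex (fun s => z (s.1, s.2 - ρ s.1)) (by
      rw [← hz]
      refine (P.bd_rot ρ _).symm.trans ?_
      simp only [add_sub_cancel_right])
    exact ⟨t, u, fun f i => by rw [← h]; simp only [add_sub_cancel_right]⟩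

lemma ad_rot (ρ : F → Fin 5) (x y : V) : Ad (P.rot ρ).a (P.rot ρ).b x y ↔ Ad P.a P.b x y := by
  constructor
  · rintro ⟨s, h⟩
    refine ⟨(s.1, s.2 + ρ s.1), ?_⟩
    simpa only [rot, a, b, add_right_comm _ (1 : Fin 5)] using h
  · rintro ⟨s, h⟩
    refine ⟨(s.1, s.2 - ρ s.1), ?_⟩
    simpa only [rot, a, b, add_right_comm _ (1 : Fin 5), sub_add_cancel] using h

lemma bd_fst (t : F → F2) : bd P.a P.b (fun s => t s.1) = 0 := by
  ext x
  simp only [bd_apply, Fintype.sum_prod_type, ← mul_sum, Pi.zero_apply]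
  refine sum_eq_zero fun f _ => ?_
  rw [sum5 fun i => dl (P.v f i) x, mul_zero]

/-- sides and chords -/
def a' : (F × Fin 5) ⊕ F → V := Sum.elim P.a fun f => P.v f 0
def b' : (F × Fin 5) ⊕ F → V := Sum.elim P.b fun f => P.v f 2
def l' : (F × Fin 5) ⊕ F → (F × Bool) ⊕ K :=
  Sum.elim (fun s => Sum.inl (s.1, ![true, true, false, false, false] s.2)) fun f => Sum.inl (f, true)
def r' : (F × Fin 5) ⊕ F → (F × Bool) ⊕ K :=
  Sum.elim (fun s => Sum.inr (P.g s.1 s.2)) fun f => Sum.inl (f, false)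

lemma bd_chord (z : (F × Fin 5) ⊕ F → F2) : bd P.a' P.b' z =
    bd P.a P.b fun s => z (Sum.inl s) + ![1, 1, 0, 0, 0] s.2 * z (Sum.inr s.1) := by
  ext x
  simp only [bd_apply, Fintype.sum_sum_type, Fintype.sum_prod_type, add_mul, sum_add_distrib, a', b',
    Sum.elim_inl, Sum.elim_inr]
  congr 1
  refine sum_congr rfl fun f _ => ?_
  simp [Fin.sum_univ_five, a, b]
  have := F2_add_self (z (Sum.inr f) * dl (P.v f 1) x)
  linear_combination -this

lemma exact' : LinearMap.range (cb (l' (K := K)) P.r') = LinearMap.ker (bd P.a' P.b') := by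
  refine le_antisymm ?_ fun z hz => ?_
  · rintro _ ⟨u, rfl⟩
    rw [LinearMap.mem_ker, bd_chord]
    have := congrArg₂ (· + ·) (P.bd_fst fun f => u (Sum.inl (f, false)))
      (P.cyc fun k => u (Sum.inr k))
    simp only [add_zero] at this
    rw [← this, ← map_add]
    congr 1
    ext ⟨f, i⟩
    have := F2_add_self (u (Sum.inl (f, true)))
    fin_cases i <;> simp [cb_apply, l', r'] <;> linear_combination this
  · rw [LinearMap.mem_ker, bd_chord] at hz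
    obtain ⟨t, u, h⟩ := P.ex _ hz
    refine ⟨Sum.elim (fun p => t p.1 + if p.2 then z (Sum.inr p.1) else 0) u, ?_⟩
    ext (⟨f, i⟩ | f)
    · have := h f i
      have h2 := F2_add_self (z (Sum.inr f))
      fin_cases i <;> simp [cb_apply, l', r'] at this ⊢ <;> first
        | linear_combination h2 - this
        | exact this.symm
    · have h2 := F2_add_self (t f)
      simp [cb_apply, l', r']
      linear_combination h2

end Pent

end Pool.Agent.P.MP_b2489f_co.Five
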