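import Pool.Agent.P.MP_b2489f_co.Five3

set_option autoImplicit false

/-! Every plane system of pentagons has a colouring with all three colours on each pentagon. -/

namespace Pool.Agent.P.MP_b2489f_co.Five.Pent

open Finset Classical Module

variable {V F K : Type} [Fintype F] [Fintype V] (P : Pent V F K) (κ : V → F2)

/-- `1` on the sides whose ends have different parity -/
def cut (s : F × Fin 5) : F2 := κ (P.a s) + κ (P.b s)

/-- chains on the sides whose ends have equal parity -/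
def S0 : Submodule F2 (F × Fin 5 → F2) where
  carrier := {w | ∀ s, P.cut κ s ≠ 0 → w s = 0}
  add_mem' := fun {a b} ha hb d hd => by simp [ha d hd, hb d hd]
  zero_mem' := fun _ _ => rfl
  smul_mem' := fun c w hw d hd => by simp [hw d hd]

/-- weights that agree across the pentagons outside `U` -/
def Adm (U : Finset F) : Submodule F2 (K → F2) where
  carrier := {u | ∀ f ∉ U, ∃ t, ∀ i, P.cut κ (f, i) ≠ 0 → u (P.g f i) = t}
  add_mem' := fun {a b} ha hb f hf => by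
    obtain ⟨t, h⟩ := ha f hf
    obtain ⟨t', h'⟩ := hb f hf
    exact ⟨t + t', fun i hi => by rw [Pi.add_apply, h i hi, h' i hi]⟩
  zero_mem' := fun _ _ => ⟨0, fun _ _ => rfl⟩
  smul_mem' := fun c w hw f hf => by
    obtain ⟨t, h⟩ := hw f hf
    exact ⟨c • t, fun i hi => by rw [Pi.smul_apply, h i hi]⟩

lemma parity (U : Finset F) (hU : ∀ f ∈ U, P.cut κ (f, 0) = 0 ∧ ∀ i : Fin 4, P.cut κ (f, i.succ) = 1)
    (u : K → F2) (hu : u ∈ P.Adm κ U) : ∑ e : U × Fin 4, u (P.g e.1 e.2.succ) = 0 := by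
  have h := bd_pair _ _ κ _ (P.cyc u)
  rw [Fintype.sum_prod_type, ← sum_add_sum_compl U] at h
  have h2 : ∑ f ∈ Uᶜ, ∑ i, u (P.g f i) * P.cut κ (f, i) = 0 := by
    refine sum_eq_zero fun f hf => ?_
    obtain ⟨t, ht⟩ := hu f (mem_compl.1 hf)
    have : ∀ i, u (P.g f i) * P.cut κ (f, i) = t * P.cut κ (f, i) := fun i => by
      by_cases c : P.cut κ (f, i) = 0
      · rw [c, mul_zero, mul_zero]
      · rw [ht i c]
    simp only [this, ← mul_sum]
    exact (congrArg _ (sum5 fun i => κ (P.v f i))).trans (mul_zero _)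
  have h3 : ∑ f ∈ U, ∑ i, u (P.g f i) * P.cut κ (f, i) = 0 := by
    rw [← h, eq_comm]
    exact (congrArg _ h2).trans (add_zero _)
  rw [Fintype.sum_prod_type, ← h3, ← sum_coe_sort U]
  refine sum_congr rfl fun f _ => ?_
  rw [Fin.sum_univ_succ (n := 4), (hU f f.2).1]
  simp only [(hU f f.2).2, mul_one, mul_zero, zero_add]

lemma rank (U : Finset F)
    (hU : ∀ f ∈ U, P.cut κ (f, 0) = 0 ∧ ∀ i : Fin 4, P.cut κ (f, i.succ) = 1) :
    U.card ≤ finrank F2 (Submodule.span F2 ((fun p : F × Fin 5 =>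
      ((P.S0 κ).map (bd P.a P.b)).mkQ (dl (P.v p.1 0) + dl (P.v p.1 p.2))) '' {p | p.1 ∈ U})) := by
  set π := ((P.S0 κ).map (bd P.a P.b)).mkQ
  let ι : U × Fin 4 → F × Fin 5 := fun e => (e.1, e.2.succ)
  have hι : Function.Injective ι := fun a b h => by
    simp only [ι, Prod.mk.injEq, Fin.succ_inj] at h
    exact Prod.ext (Subtype.ext h.1) h.2
  let Φ := π ∘ₗ bd (P.a ∘ ι) (P.b ∘ ι)
  let W := (P.Adm κ U).map (LinearMap.funLeft F2 F2 fun e => P.g (ι e).1 (ι e).2)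
  let T := LinearMap.funLeft F2 F2 (Prod.fst : U × Fin 4 → U)
  have h1 := LinearMap.finrank_range_add_finrank_ker Φ
  have h2 := selforth W (by
    rintro _ ⟨u, hu, rfl⟩ _ ⟨u', hu', rfl⟩
    refine P.parity κ U hU (u * u') fun f hf => ?_
    obtain ⟨t, h⟩ := hu f hf
    obtain ⟨t', h'⟩ := hu' f hf
    exact ⟨t * t', fun i hi => by rw [Pi.mul_apply, h i hi, h' i hi]⟩)
  have h3 := LinearMap.finrank_range_le T
  have h4 := Submodule.finrank_add_le_finrank_add_finrank (LinearMap.range T) W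
  have h5 : LinearMap.ker Φ ≤ LinearMap.range T ⊔ W := by
    intro z hz
    obtain ⟨j, hj, e⟩ := (Submodule.Quotient.mk_eq_zero _).1 (LinearMap.mem_ker.1 hz)
    let z0 : F × Fin 5 → F2 := ∑ e, z e • dl (ι e)
    have a1 : ∀ e, z0 (ι e) = z e := fun a => by
      simp only [z0, Finset.sum_apply, Pi.smul_apply, smul_eq_mul]
      rw [sum_eq_single a]
      · simp
      · intro b _ hb
        rw [dl_ne fun h => hb (hι h), mul_zero]
      · simp
    have a2 : ∀ f ∉ U, ∀ i, z0 (f, i) = 0 := fun f hf i => by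
      simp only [z0, Finset.sum_apply, Pi.smul_apply, smul_eq_mul]
      refine sum_eq_zero fun a _ => ?_
      have : ι a ≠ (f, i) := fun h => hf (by
        rw [← show (a.1 : F) = f from congrArg Prod.fst h]; exact a.1.2)
      rw [dl_ne this, mul_zero]
    obtain ⟨t, u, h⟩ := P.ex (z0 + j) (by
      rw [map_add, e, bd_eq_sum _ _ z]
      simp only [z0, map_sum, map_smul, bd_single]
      ext x
      exact F2_add_self _)
    refine Submodule.mem_sup.2 ⟨_, ⟨fun f => t f, rfl⟩, _, ⟨u, fun f hf => ⟨t f, fun i hi => ?_⟩,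
      rfl⟩, ?_⟩
    · have := h f i
      rw [Pi.add_apply, a2 f hf, hj _ hi] at this
      linear_combination F2_add_self (u (P.g f i)) + this
    · ext e
      have := h (ι e).1 (ι e).2
      rw [Pi.add_apply, a1, hj _ (by rw [(hU _ e.1.2).2]; exact one_ne_zero), add_zero] at this
      exact this.symm
  have h6 := Submodule.finrank_mono h5
  simp only [finrank_fintype_fun_eq_card, Fintype.card_prod, Fintype.card_coe, Fintype.card_fin]
    at h1 h2 h3
  refine le_trans (by omega) (Submodule.finrank_mono (s := LinearMap.range Φ) ?_)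
  rintro _ ⟨z, rfl⟩
  rw [LinearMap.comp_apply, bd_eq_sum, map_sum]
  refine Submodule.sum_mem _ fun e _ => ?_
  rw [map_smul]
  refine Submodule.smul_mem _ _ ?_
  have : dl ((P.a ∘ ι) e) + dl ((P.b ∘ ι) e) = (dl (P.v e.1 0) + dl (P.v e.1 e.2.succ)) +
      (dl (P.v e.1 0) + dl (P.v e.1 (e.2.succ + 1))) := by
    rw [add_add_add_comm, dl_add_self, zero_add]; rfl
  rw [this, map_add]
  exact Submodule.add_mem _ (Submodule.subset_span ⟨(e.1, e.2.succ), e.1.2, rfl⟩)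
    (Submodule.subset_span ⟨(e.1, e.2.succ + 1), e.1.2, rfl⟩)

omit κ

lemma normal [Fintype K] (rt : V → V) (h : V → ℕ) (h1 : ∀ x, h x = 0 → x = rt x)
    (h2 : ∀ x k, h x = k + 1 → ∃ y, Ad P.a P.b y x ∧ h y = k)
    (h3 : ∀ x y, Ad P.a P.b x y → rt x = rt y ∧ h y ≤ h x + 1)
    (h4 : ∀ f, h (P.v f 0) = h (P.v f 1) ∧ (h (P.v f 1) = h (P.v f 2) ∨
      ∀ i : Fin 4, h (P.v f i.succ) ≠ h (P.v f (i.succ + 1)))) :
    ∃ c : V → ZMod 3, ∀ f z, ∃ i, c (P.v f i) = z := by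
  have ad : ∀ f i, Ad P.a P.b (P.v f i) (P.v f (i + 1)) := fun f i => ⟨(f, i), Or.inl ⟨rfl, rfl⟩⟩
  have up : ∀ {x y}, Ad P.a P.b x y → Ad P.a' P.b' x y := fun ⟨s, hs⟩ => ⟨Sum.inl s, hs⟩
  obtain ⟨l, hl⟩ := levels P.exact' rt h h1 fun x k hx => by
    obtain ⟨y, a, b⟩ := h2 x k hx
    exact ⟨y, up a, (h3 _ _ a).1, b⟩
  let κ : V → F2 := fun x => h x
  have fl : ∀ f i, h (P.v f i) = h (P.v f (i + 1)) → P.cut κ (f, i) = 0 := fun f i e => by
    simp only [cut, κ, a, b, e]; exact F2_add_self _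
  obtain ⟨s, s1, s2⟩ := shifts ((P.S0 κ).map (bd P.a P.b)).mkQ
    (fun f => h (P.v f 1) ≠ h (P.v f 2)) (fun p : F × Fin 5 => P.v p.1 0) (fun p => P.v p.1 p.2)
    (fun p => - l (P.v p.1 0) - l (P.v p.1 1) - l (P.v p.1 p.2)) fun U hU =>
      P.rank κ U fun f hf => ⟨fl f 0 (h4 f).1, fun i => by
        have a1 := (h4 f).2.resolve_left (hU f hf) i
        have a2 := (h3 _ _ (ad f i.succ)).2
        have a3 := (h3 _ _ (ad f i.succ).symm).2
        simp only [cut, κ, a, b]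
        rcases (by omega : h (P.v f i.succ) = h (P.v f (i.succ + 1)) + 1 ∨
          h (P.v f (i.succ + 1)) = h (P.v f i.succ) + 1) with e | e <;> rw [e] <;> push_cast
        · linear_combination F2_add_self (h (P.v f (i.succ + 1)) : F2)
        · linear_combination F2_add_self (h (P.v f i.succ) : F2)⟩
  have sf : ∀ f i, h (P.v f i) = h (P.v f (i + 1)) → s (P.v f i) = s (P.v f (i + 1)) ∧
      l (P.v f i) ≠ l (P.v f (i + 1)) := fun f i e => by
    refine ⟨s1 _ _ ((Submodule.Quotient.mk_eq_zero _).2 ⟨dl (f, i), fun d hd => dl_ne ?_,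
      bd_single _ _ _⟩), hl _ _ (fun q => ?_) (up (ad f i)) (h3 _ _ (ad f i)).1 e⟩
    · rintro rfl
      exact hd (fl f i e)
    · simpa using P.inj f q
  have rb : ∀ a b c : ZMod 3, a ≠ b → (b ≠ c ∧ a ≠ c) ∨ a + b + c = 0 →
      ∀ z, a = z ∨ b = z ∨ c = z := by decide
  refine ⟨l + s, fun f z => ?_⟩
  obtain ⟨a1, a2⟩ : s (P.v f 0) = s (P.v f 1) ∧ l (P.v f 0) ≠ l (P.v f 1) := sf f 0 (h4 f).1
  have : ∃ o, ((l + s) (P.v f 1) ≠ (l + s) (P.v f o) ∧ (l + s) (P.v f 0) ≠ (l + s) (P.v f o)) ∨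
      (l + s) (P.v f 0) + (l + s) (P.v f 1) + (l + s) (P.v f o) = 0 := by
    by_cases c : h (P.v f 1) = h (P.v f 2)
    · obtain ⟨b1, b2⟩ : s (P.v f 1) = s (P.v f 2) ∧ l (P.v f 1) ≠ l (P.v f 2) := sf f 1 c
      have b3 := hl (P.v f 0) (P.v f 2) (fun q => by simpa using P.inj f q)
        ⟨Sum.inr f, Or.inl ⟨rfl, rfl⟩⟩ ((h3 _ _ (ad f 0)).1.trans (h3 _ _ (ad f 1)).1)
        ((h4 f).1.trans c)
      refine ⟨2, Or.inl ?_⟩
      simp only [Pi.add_apply, a1, b1, ne_eq, add_left_inj]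
      exact ⟨b2, b3⟩
    · obtain ⟨o, ho⟩ := s2 f c
      refine ⟨o, Or.inr ?_⟩
      simp only [Pi.add_apply, ← a1] at ho ⊢
      have h3 : (3 : ZMod 3) = 0 := rfl
      linear_combination ho + s (P.v f 0) * h3
  obtain ⟨o, ho⟩ := this
  rcases rb _ _ _ (by simpa [a1] using a2) ho z with e | e | e
  exacts [⟨_, e⟩, ⟨_, e⟩, ⟨_, e⟩]

theorem colouring [Fintype K] : ∃ c : V → ZMod 3, ∀ f z, ∃ i, c (P.v f i) = z := by
  obtain ⟨rt, h, h1, h2, h3⟩ := bfs (Ad P.a P.b) fun _ _ => Ad.symm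
  have ad : ∀ f i, Ad P.a P.b (P.v f i) (P.v f (i + 1)) := fun f i => ⟨(f, i), Or.inl ⟨rfl, rfl⟩⟩
  choose ρ hρ using fun f => classify (fun i => h (P.v f i)) fun i =>
    ⟨(h3 _ _ (ad f i)).2, (h3 _ _ (ad f i).symm).2⟩
  obtain ⟨c, hc⟩ := (P.rot ρ).normal rt h h1 (by simpa only [ad_rot] using h2)
    (by simpa only [ad_rot] using h3) hρ
  exact ⟨c, fun f z => (hc f z).elim fun i hi => ⟨_, hi⟩⟩

end Pool.Agent.P.MP_b2489f_co.Five.Pent
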