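import Pool.Agent.P.MP_b2489f_co.Five4
import Pool.Agent.P.MP_b2489f_co.Example

set_option autoImplicit false

/-! Pentagons inside the faces of a plane map, and `p(5) = 3`. -/

namespace Pool.Agent.P.MP_b2489f_co.Five

open Finset Classical Module Function

variable {D : Type} [Fintype D] (M : PlaneMap D)

lemma pick (f : Orb (M.σ * M.α)) (hf : 5 ≤ (M.faceVerts f).ncard) :
    ∃ (b : D) (k : Fin 5 → ℕ), orb (M.σ * M.α) b = f ∧ StrictMono k ∧
      (∀ i, k i < minimalPeriod (M.σ * M.α) b) ∧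
      Injective fun i => orb M.σ ((M.σ * M.α)^[k i] b) := by
  obtain ⟨b, rfl⟩ := orb_surj _ f
  rw [Set.ncard_eq_toFinset_card'] at hf
  obtain ⟨N, h2, h3⟩ := exists_subset_card_eq hf
  have : ∀ v : N, ∃ m < minimalPeriod (M.σ * M.α) b, orb M.σ ((M.σ * M.α)^[m] b) = v := fun v => by
    obtain ⟨d, e1, e2⟩ := Set.mem_toFinset.1 (h2 v.2)
    obtain ⟨m, -, rfl⟩ := ((orb_eq_iff _ _ _).1 e2.symm).exists_pow_eq'
    refine ⟨m % minimalPeriod (M.σ * M.α) b, Nat.mod_lt _
      (minimalPeriod_pos_of_mem_periodicPts ((M.σ * M.α).injective.mem_periodicPts b)), ?_⟩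
    rw [iterate_mod_minimalPeriod_eq, ← e1, Equiv.Perm.iterate_eq_pow]
  choose idx i1 i2 using this
  have hT : (univ.image idx).card = 5 := by
    rw [card_image_of_injective _ fun a b e => Subtype.ext (by rw [← i2, ← i2, e])]
    simpa using h3
  have : ∀ i, ∃ v, idx v = (univ.image idx).orderEmbOfFin hT i := fun i =>
    (mem_image.1 (orderEmbOfFin_mem _ hT i)).imp fun _ h => h.2
  choose w hw using this
  refine ⟨b, (univ.image idx).orderEmbOfFin hT, rfl, (orderEmbOfFin _ hT).strictMono,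
    fun i => hw i ▸ i1 _, fun i j e => (orderEmbOfFin _ hT).injective ?_⟩
  simp only [← hw, i2] at e
  rw [← hw, ← hw, Subtype.ext e]

omit [Fintype D] in
lemma orb_iter (π : Equiv.Perm D) (b : D) (m : ℕ) : orb π (π^[m] b) = orb π b := by
  induction m with
  | zero => rfl
  | succ m ih => rw [iterate_succ_apply', orb_apply, ih]

lemma corners (hM : ∀ f, 5 ≤ (M.faceVerts f).ncard) :
    ∃ d : Orb (M.σ * M.α) × Fin 5 → D, (∀ s, orb (M.σ * M.α) (d s) = s.1) ∧
      (∀ f, Injective fun i => orb M.σ (d (f, i))) ∧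
      ∀ {K : Type} (cl : Orb M.α → K), (∀ x, (¬ ∃ s, d s = x) → cl (e1 M.α x) = cl (e2 M.σ M.α x)) →
        ∀ f i, cl (e2 M.σ M.α (d (f, i + 1))) = cl (e1 M.α (d (f, i))) := by
  choose b k h1 h2 h3 h4 using fun f => pick M f (hM f)
  refine ⟨fun s => (M.σ * M.α)^[k s.1 s.2] (b s.1), fun s => (orb_iter _ _ _).trans (h1 _), h4,
    fun cl hcl f => ?_⟩
  have key : ∀ a m, a < m → (∀ x, a < x → x < m → ∀ j,
      (M.σ * M.α)^[k f j] (b f) ≠ (M.σ * M.α)^[x] (b f)) →
      cl (e2 M.σ M.α ((M.σ * M.α)^[m] (b f))) = cl (e1 M.α ((M.σ * M.α)^[a] (b f))) := by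
    intro a m hm
    have st : ∀ x, e2 M.σ M.α ((M.σ * M.α)^[x + 1] (b f)) = e1 M.α ((M.σ * M.α)^[x] (b f)) :=
      fun x => by
        rw [iterate_succ_apply']
        simp only [e1, e2, Equiv.Perm.mul_apply, Equiv.symm_apply_apply, orb_apply]
    induction m, hm using Nat.le_induction with
    | base => exact fun _ => congrArg cl (st a)
    | succ m hm ih =>
      intro h
      rw [st, hcl, ih fun x a1 a2 => h x a1 (by omega)]
      rintro ⟨⟨f', j⟩, e⟩
      have : f' = f := by
        have := congrArg (orb (M.σ * M.α)) e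
        rwa [orb_iter, orb_iter, h1, h1] at this
      subst this
      exact h m hm (by omega) j e
  intro i
  by_cases hi : i = 4
  · subst hi
    have := key (k f 4) (k f 0 + minimalPeriod (M.σ * M.α) (b f)) (by have := h3 f 4; omega)
      fun x a1 a2 j e => by
        have b1 := (h2 f).monotone (Fin.le_last j)
        have b2 := (h2 f).monotone (Fin.zero_le j)
        have b3 : k f (Fin.last 4) = k f 4 := rfl
        by_cases c : x < minimalPeriod (M.σ * M.α) (b f)
        · have := (iterate_eq_iterate_iff_of_lt_minimalPeriod (h3 f j) c).1 e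
          omega
        · obtain ⟨y, rfl⟩ : ∃ y, x = y + minimalPeriod (M.σ * M.α) (b f) :=
            ⟨x - minimalPeriod (M.σ * M.α) (b f), by omega⟩
          rw [iterate_add_minimalPeriod_eq] at e
          have := (iterate_eq_iterate_iff_of_lt_minimalPeriod (h3 f j)
            (by have := h3 f 0; omega)).1 e
          omega
    rwa [iterate_add_minimalPeriod_eq] at this
  · have lt : i < i + 1 := by revert i; decide
    refine key _ _ (h2 f lt) fun x a1 a2 j e => ?_
    have := (iterate_eq_iterate_iff_of_lt_minimalPeriod (h3 f j) (a2.trans (h3 f _))).1 e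
    subst this
    exact (by decide : ∀ i j : Fin 5, i < j → j < i + 1 → False) i j ((h2 f).lt_iff_lt.1 a1)
      ((h2 f).lt_iff_lt.1 a2)

lemma transfer (d : Orb (M.σ * M.α) × Fin 5 → D) (h1 : ∀ s, orb (M.σ * M.α) (d s) = s.1)
    (hd : Injective d) (z : Orb (M.σ * M.α) × Fin 5 → F2) (z' : D → F2)
    (h2 : ∀ x, (¬ ∃ s, d s = x) → z' x = 0) (h3 : ∀ f i, z' (d (f, i + 1)) = z (f, i + 1) + z (f, i)) :
    bd (rv M.σ M.α) (rf M.σ M.α) z' = 0 ↔
      bd (fun s => orb M.σ (d (s.1, s.2))) (fun s => orb M.σ (d (s.1, s.2 + 1))) z = 0 := by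
  have sm : ∀ g : D → F2, ∑ x, z' x * g x =
      ∑ s : Orb (M.σ * M.α) × Fin 5, z s * (g (d (s.1, s.2)) + g (d (s.1, s.2 + 1))) := by
    intro g
    rw [← sum_subset (subset_univ (univ.image d)) fun x _ hx => by
      rw [h2 x (by simpa using hx), zero_mul], sum_image fun a _ b _ e => hd e]
    simp only [Fintype.sum_prod_type]
    refine sum_congr rfl fun f _ => ?_
    rw [← Equiv.sum_comp (Equiv.addRight (1 : Fin 5))]
    simp only [Equiv.coe_addRight, h3, add_mul, mul_add, sum_add_distrib]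
    rw [← Equiv.sum_comp (Equiv.addRight (1 : Fin 5)) fun i => z (f, i) * g (d (f, i))]
    rfl
  have a1 : ∀ x, bd (rv M.σ M.α) (rf M.σ M.α) z' (Sum.inl x) =
      bd (fun s => orb M.σ (d (s.1, s.2))) (fun s => orb M.σ (d (s.1, s.2 + 1))) z x := fun x => by
    rw [bd_apply, sm, bd_apply]
    simp [rv, rf, dl]
  refine ⟨fun h => funext fun x => by rw [← a1, h]; rfl, fun h => funext ?_⟩
  rintro (x | f)
  · rw [a1, h]; rfl
  · rw [bd_apply, sm]
    refine sum_eq_zero fun s _ => ?_
    simp [rv, rf, dl, h1, F2_add_self]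

theorem three (hM : ∀ f, 5 ≤ (M.faceVerts f).ncard) :
    ∃ c : Orb M.σ → Fin 3, M.Polychromatic c := by
  obtain ⟨d, h1, h2, h3⟩ := corners M hM
  have hd : Injective d := by
    rintro ⟨f, i⟩ ⟨f', j⟩ e
    obtain rfl : f = f' := (h1 _).symm.trans ((congrArg _ e).trans (h1 _))
    rw [h2 f (congrArg (orb M.σ) e : orb M.σ (d (f, i)) = orb M.σ (d (f, j)))]
  let st : Setoid (Orb M.α) := Relation.EqvGen.setoid fun y y' =>
    ∃ x, (¬ ∃ s, d s = x) ∧ e1 M.α x = y ∧ e2 M.σ M.α x = y'
  let _ : Fintype (Quotient st) := Fintype.ofFinite _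
  have hcl : ∀ x, (¬ ∃ s, d s = x) → Quotient.mk st (e1 M.α x) = Quotient.mk st (e2 M.σ M.α x) :=
    fun x hx => Quotient.sound (Relation.EqvGen.rel _ _ ⟨x, hx, rfl, rfl⟩)
  have h4 := h3 _ hcl
  let P : Pent (Orb M.σ) (Orb (M.σ * M.α)) (Quotient st) :=
    ⟨fun f i => orb M.σ (d (f, i)), fun f i => Quotient.mk st (e1 M.α (d (f, i))), h2,
      fun u => (transfer M d h1 hd _ (cb (e1 M.α) (e2 M.σ M.α) (u ∘ Quotient.mk st))
        (fun x hx => by simp only [cb_apply, comp, hcl x hx, F2_add_self])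
        (fun f i => by simp only [cb_apply, comp, h4])).1 (bd_cb _ _ _),
      fun z hz => by
        have := (transfer M d h1 hd z (extend d (fun s => z s + z (s.1, s.2 - 1)) 0)
          (fun x hx => extend_apply' _ _ _ hx)
          (fun f i => by rw [hd.extend_apply, add_sub_cancel_right])).2 hz
        rw [← LinearMap.mem_ker, ← M.exact] at this
        obtain ⟨u, hu⟩ := this
        have hu' : ∀ y y', st.r y y' → u y = u y' := by
          intro y y' h
          induction h with
          | rel a b h =>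
            obtain ⟨x, hx, rfl, rfl⟩ := h
            have := congrFun hu x
            rw [cb_apply, extend_apply' _ _ _ hx] at this
            rw [← sub_eq_zero, CharTwo.sub_eq_add]; exact this
          | refl => rfl
          | symm _ _ _ ih => exact ih.symm
          | trans _ _ _ _ _ ih1 ih2 => exact ih1.trans ih2
        refine ⟨fun f => z (f, 0) + u (e1 M.α (d (f, 0))), Quotient.lift u hu', fun f i => ?_⟩
        have st1 : ∀ i, z (f, i + 1) + u (e1 M.α (d (f, i + 1))) = z (f, i) + u (e1 M.α (d (f, i))) :=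
          fun i => by
            have a1 := congrFun hu (d (f, i + 1))
            rw [cb_apply, hd.extend_apply, add_sub_cancel_right,
              hu' _ _ (Quotient.exact (h4 f i))] at a1
            linear_combination a1 + F2_add_self (z (f, i + 1)) - F2_add_self (u (e1 M.α (d (f, i))))
        have st2 : z (f, i) + u (e1 M.α (d (f, i))) = z (f, 0) + u (e1 M.α (d (f, 0))) := by
          fin_cases i
          exacts [rfl, st1 0, (st1 1).trans (st1 0), (st1 2).trans ((st1 1).trans (st1 0)),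
            (st1 4).symm]
        show _ = _ + u (e1 M.α (d (f, i)))
        linear_combination st2 - F2_add_self (u (e1 M.α (d (f, i))))⟩
  obtain ⟨c, hc⟩ := P.colouring
  exact ⟨c, fun f z => (hc f z).elim fun i hi => ⟨_, ⟨d (f, i), rfl, h1 _⟩, hi⟩⟩

theorem five :
    IsLeast {k | ∃ (D : Type) (_ : Finite D) (M : PlaneMap D), M.minFace = 5 ∧ M.polyNum = k} 3 := by
  have lower : ∀ (D : Type) [Finite D] (M : PlaneMap D), M.minFace = 5 → 3 ≤ M.polyNum := by
    intro D _ M hM
    have := Fintype.ofFinite D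
    obtain ⟨d⟩ := M.nonempty
    refine le_csSup ⟨Fintype.card (Orb M.σ), ?_⟩
      (three M fun f => hM ▸ Nat.sInf_le ⟨f, rfl⟩)
    rintro k ⟨c, hc⟩
    rw [← Fintype.card_fin k]
    refine Fintype.card_le_of_surjective c fun α => ?_
    obtain ⟨v, -, h⟩ := hc (orb _ d) α
    exact ⟨v, h⟩
  obtain ⟨D, _, M, h1, h2⟩ := upper 5 le_rfl
  refine ⟨⟨D, inferInstance, M, h1, le_antisymm h2 (lower D M h1)⟩, ?_⟩
  rintro k ⟨D', _, M', h3, rfl⟩
  exact lower D' M' h3

end Pool.Agent.P.MP_b2489f_co.Five
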