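import Mathlib

set_option autoImplicit false

/-! Edge colouring of multigraphs without dense triangles (an improvement of Shannon's bound). -/

namespace Pool.Agent.P.MP_b2489f_co.Kempe

open Finset Classical

variable {E N : Type} (p q : E → N) {k : ℕ}

def Jn (e : E) (x y : N) : Prop := (p e = x ∧ q e = y) ∨ (p e = y ∧ q e = x)
def Ic (e : E) (v : N) : Prop := p e = v ∨ q e = v
def Pr (B : Finset E) (c : E → Fin k) : Prop :=
  ∀ e ∈ B, ∀ e' ∈ B, ∀ v, Ic p q e v → Ic p q e' v → c e = c e' → e = e'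
def Ms (B : Finset E) (c : E → Fin k) (v : N) (α : Fin k) : Prop :=
  ∀ e ∈ B, Ic p q e v → c e ≠ α
def St (B : Finset E) (c : E → Fin k) (α γ : Fin k) (a b : N) : Prop :=
  ∃ e ∈ B, (c e = α ∨ c e = γ) ∧ Jn p q e a b
def Rc (B : Finset E) (c : E → Fin k) (α γ : Fin k) : N → N → Prop :=
  Relation.ReflTransGen (St p q B c α γ)

variable {p q}

lemma Jn.symm {e : E} {x y : N} (h : Jn p q e x y) : Jn p q e y x := Or.symm h
lemma Jn.left {e : E} {x y : N} (h : Jn p q e x y) : Ic p q e x := by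
  rcases h with h | h
  · exact Or.inl h.1
  · exact Or.inr h.2
lemma Jn.right {e : E} {x y : N} (h : Jn p q e x y) : Ic p q e y := h.symm.left
lemma Jn.ic {e : E} {x y v : N} (h : Jn p q e x y) (hv : Ic p q e v) : v = x ∨ v = y := by
  rcases h with ⟨rfl, rfl⟩ | ⟨rfl, rfl⟩ <;> rcases hv with rfl | rfl <;> simp
lemma Ic.jn {e : E} {v : N} (h : Ic p q e v) : ∃ w, Jn p q e v w := by
  rcases h with h | h
  · exact ⟨_, Or.inl ⟨h, rfl⟩⟩
  · exact ⟨_, Or.inr ⟨rfl, h⟩⟩
lemma Jn.ne {e : E} {x y : N} (h : Jn p q e x y) (hl : p e ≠ q e) : x ≠ y := by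
  rintro rfl
  rcases h with h | h <;> exact hl (h.1.trans h.2.symm)

lemma Rc.symm {B : Finset E} {c : E → Fin k} {α γ : Fin k} {a b : N} (h : Rc p q B c α γ a b) :
    Rc p q B c α γ b a := by
  induction h with
  | refl => exact Relation.ReflTransGen.refl
  | tail _ h ih =>
    obtain ⟨e, he, h1, h2⟩ := h
    exact Relation.ReflTransGen.head ⟨e, he, h1, h2.symm⟩ ih

lemma Rc.trans {B : Finset E} {c : E → Fin k} {α γ : Fin k} {a b d : N} (h : Rc p q B c α γ a b)
    (h' : Rc p q B c α γ b d) : Rc p q B c α γ a d := Relation.ReflTransGen.trans h h'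

/-- a connected graph has at least `n - 1` edges -/
lemma conn_card (T : Finset E) (r : N) (K : Finset N) (hr : r ∈ K)
    (hK : ∀ u ∈ K, Relation.ReflTransGen (fun a b => b ∈ K ∧ ∃ e ∈ T, Jn p q e a b) r u) :
    K.card ≤ T.card + 1 := by
  have key : ∀ n, n + 1 ≤ K.card → ∃ S ⊆ K, r ∈ S ∧ S.card = n + 1 ∧ ∃ T' ⊆ T, T'.card = n ∧
      ∀ e ∈ T', p e ∈ S ∧ q e ∈ S := by
    intro n
    induction n with
    | zero => intro _; exact ⟨{r}, by simpa, by simp, by simp, ∅, by simp, by simp, by simp⟩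
    | succ n ih =>
      intro hn
      obtain ⟨S, hS, hrS, hc, T', hT', hc', hT⟩ := ih (by omega)
      obtain ⟨u, hu, huS⟩ : ∃ u ∈ K, u ∉ S := by
        by_contra h
        push Not at h
        have := card_le_card (show K ⊆ S from h)
        omega
      have : ∃ a ∈ S, ∃ b ∈ K, b ∉ S ∧ ∃ e ∈ T, Jn p q e a b := by
        have h := hK u hu
        clear hu
        induction h with
        | refl => exact absurd hrS huS
        | @tail b d _ h ih =>
          by_cases hb : b ∈ S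
          · exact ⟨b, hb, d, h.1, huS, h.2⟩
          · exact ih hb
      obtain ⟨a, ha, b, hb, hbS, e, he, hj⟩ := this
      have heT : e ∉ T' := fun h => by
        rcases hj with h' | h'
        · exact hbS (h'.2 ▸ (hT e h).2)
        · exact hbS (h'.1 ▸ (hT e h).1)
      refine ⟨insert b S, insert_subset hb hS, mem_insert_of_mem hrS,
        by rw [card_insert_of_notMem hbS, hc], insert e T', insert_subset he hT',
        by rw [card_insert_of_notMem heT, hc'], ?_⟩
      intro e' he'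
      rcases mem_insert.1 he' with rfl | h
      · rcases hj with ⟨rfl, rfl⟩ | ⟨rfl, rfl⟩ <;> simp [ha]
      · exact ⟨mem_insert_of_mem (hT _ h).1, mem_insert_of_mem (hT _ h).2⟩
  have h0 : 0 < K.card := card_pos.2 ⟨r, hr⟩
  obtain ⟨S, -, -, -, T', h1, h2, -⟩ := key (K.card - 1) (by omega)
  have := card_le_card h1
  omega

variable [Fintype N]

lemma ends {B : Finset E} {c : E → Fin k} (hl : ∀ e ∈ B, p e ≠ q e) (hc : Pr p q B c)
    {α γ : Fin k} {x y z : N} (hxy : x ≠ y) (hxz : x ≠ z) (hyz : y ≠ z)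
    (h1 : Rc p q B c α γ x y) (h2 : Rc p q B c α γ x z)
    (mx : Ms p q B c x α ∨ Ms p q B c x γ) (my : Ms p q B c y α ∨ Ms p q B c y γ)
    (mz : Ms p q B c z α ∨ Ms p q B c z γ) : False := by
  let K : Finset N := univ.filter fun u => Rc p q B c α γ x u
  let T : Finset E := B.filter fun e => (c e = α ∨ c e = γ) ∧ p e ∈ K
  have hK : ∀ u, u ∈ K ↔ Rc p q B c α γ x u := fun u => by simp [K]
  have hx : x ∈ K := (hK x).2 Relation.ReflTransGen.refl
  have c1 : K.card ≤ T.card + 1 := by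
    refine conn_card (p := p) (q := q) T x K hx fun u hu => ?_
    rw [hK] at hu
    induction hu with
    | refl => rfl
    | @tail b d h h' ih =>
      have hd : d ∈ K := (hK d).2 (Relation.ReflTransGen.tail h h')
      refine ih.tail ⟨hd, ?_⟩
      obtain ⟨e, he, h3, h4⟩ := h'
      refine ⟨e, mem_filter.2 ⟨he, h3, ?_⟩, h4⟩
      rcases h4 with h4 | h4
      · rw [h4.1]; exact (hK b).2 h
      · rw [h4.1]; exact hd
  have c2 : T.card * 2 ≤ ∑ u ∈ K, (T.filter fun e => Ic p q e u).card := by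
    simp only [card_filter]
    rw [sum_comm, ← smul_eq_mul, ← sum_const]
    refine sum_le_sum fun e he => ?_
    obtain ⟨he, h3, h4⟩ := mem_filter.1 he
    rw [← card_filter, ← card_pair (hl e he)]
    refine card_le_card fun u hu => ?_
    rcases mem_insert.1 hu with rfl | hu
    · exact mem_filter.2 ⟨h4, Or.inl rfl⟩
    · rw [mem_singleton.1 hu]
      exact mem_filter.2 ⟨(hK _).2 (Relation.ReflTransGen.tail ((hK _).1 h4)
        ⟨e, he, h3, Or.inl ⟨rfl, rfl⟩⟩), Or.inr rfl⟩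
  have dg : ∀ (u : N) (S : Finset (Fin k)),
      (∀ e ∈ B, Ic p q e u → (c e = α ∨ c e = γ) → c e ∈ S) →
      (T.filter fun e => Ic p q e u).card ≤ S.card := by
    intro u S hS
    refine card_le_card_of_injOn c (fun e he => ?_) fun e he e' he' h => ?_
    · obtain ⟨h3, h4⟩ := mem_filter.1 he
      exact hS e (mem_filter.1 h3).1 h4 (mem_filter.1 h3).2.1
    · obtain ⟨h3, h4⟩ := mem_filter.1 he
      obtain ⟨h5, h6⟩ := mem_filter.1 he'
      exact hc e (mem_filter.1 h3).1 e' (mem_filter.1 h5).1 u h4 h6 h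
  have d2 : ∀ u, (T.filter fun e => Ic p q e u).card ≤ 2 := fun u =>
    (dg u {α, γ} fun e _ _ h => by simpa using h).trans card_le_two
  have d1 : ∀ u, (Ms p q B c u α ∨ Ms p q B c u γ) → (T.filter fun e => Ic p q e u).card ≤ 1 := by
    rintro u (h | h)
    · exact dg u {γ} fun e he h3 h4 => by simpa [h e he h3] using h4
    · exact dg u {α} fun e he h3 h4 => by simpa [h e he h3] using h4
  have hsub : ({x, y, z} : Finset N) ⊆ K := by
    intro u hu
    simp only [mem_insert, mem_singleton] at hu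
    rcases hu with rfl | rfl | rfl
    · exact hx
    · exact (hK _).2 h1
    · exact (hK _).2 h2
  have c3 : ({x, y, z} : Finset N).card = 3 := card_eq_three.2 ⟨x, y, z, hxy, hxz, hyz, rfl⟩
  rw [← sum_sdiff hsub] at c2
  have c4 : ∑ u ∈ K \ {x, y, z}, (T.filter fun e => Ic p q e u).card ≤ (K \ {x, y, z}).card * 2 :=
    by rw [← smul_eq_mul]; exact sum_le_card_nsmul _ _ _ fun u _ => d2 u
  have c5 : ∑ u ∈ {x, y, z}, (T.filter fun e => Ic p q e u).card ≤
      ({x, y, z} : Finset N).card * 1 := by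
    rw [← smul_eq_mul]
    refine sum_le_card_nsmul _ _ _ fun u hu => d1 u ?_
    simp only [mem_insert, mem_singleton] at hu
    rcases hu with rfl | rfl | rfl <;> assumption
  have c6 := card_sdiff_add_card_eq_card hsub
  omega

omit [Fintype N] in
lemma swap {B : Finset E} {c : E → Fin k} (hc : Pr p q B c) (α γ : Fin k) (v : N) :
    ∃ c' : E → Fin k, Pr p q B c' ∧ (Ms p q B c v γ → Ms p q B c' v α) ∧
      (∀ e, c e ≠ α → c e ≠ γ → c' e = c e) ∧
      (∀ u δ, δ ≠ α → δ ≠ γ → Ms p q B c u δ → Ms p q B c' u δ) ∧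
      ∀ u, ¬ Rc p q B c α γ v u → (∀ e ∈ B, Ic p q e u → c' e = c e) ∧
        ∀ δ, Ms p q B c u δ → Ms p q B c' u δ := by
  let c' : E → Fin k := fun e => if Rc p q B c α γ v (p e) then Equiv.swap α γ (c e) else c e
  have f1 : ∀ e, c e ≠ α → c e ≠ γ → c' e = c e := fun e h1 h2 => by
    simp only [c']
    split_ifs
    · exact Equiv.swap_apply_of_ne_of_ne h1 h2
    · rfl
  have key : ∀ e ∈ B, (c e = α ∨ c e = γ) → ∀ u, Ic p q e u →
      (Rc p q B c α γ v (p e) ↔ Rc p q B c α γ v u) := by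
    rintro e he h u (rfl | rfl)
    · rfl
    · exact ⟨fun h' => h'.tail ⟨e, he, h, Or.inl ⟨rfl, rfl⟩⟩,
        fun h' => h'.tail ⟨e, he, h, Or.inr ⟨rfl, rfl⟩⟩⟩
  have fin : ∀ e ∈ B, ∀ u, Ic p q e u → Rc p q B c α γ v u → c' e = Equiv.swap α γ (c e) := by
    intro e he u hu h
    by_cases h1 : c e = α ∨ c e = γ
    · simp only [c']
      rw [if_pos ((key e he h1 u hu).2 h)]
    · push Not at h1
      rw [f1 e h1.1 h1.2, Equiv.swap_apply_of_ne_of_ne h1.1 h1.2]
  have fout : ∀ e ∈ B, ∀ u, Ic p q e u → ¬ Rc p q B c α γ v u → c' e = c e := by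
    intro e he u hu h
    by_cases h1 : c e = α ∨ c e = γ
    · simp only [c']
      rw [if_neg fun h' => h ((key e he h1 u hu).1 h')]
    · push Not at h1
      exact f1 e h1.1 h1.2
  refine ⟨c', ?_, ?_, f1, ?_, fun u hu => ⟨fun e he h => fout e he u h hu, ?_⟩⟩
  · intro e he e' he' u h1 h2 h
    by_cases hu : Rc p q B c α γ v u
    · rw [fin e he u h1 hu, fin e' he' u h2 hu] at h
      exact hc e he e' he' u h1 h2 ((Equiv.swap α γ).injective h)
    · rw [fout e he u h1 hu, fout e' he' u h2 hu] at h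
      exact hc e he e' he' u h1 h2 h
  · intro h e he h1 h2
    rw [fin e he v h1 Relation.ReflTransGen.refl, Equiv.swap_apply_eq_iff,
      Equiv.swap_apply_left] at h2
    exact h e he h1 h2
  · intro u δ h1 h2 h e he h3 h4
    by_cases hu : Rc p q B c α γ v u
    · rw [fin e he u h3 hu, Equiv.swap_apply_eq_iff, Equiv.swap_apply_of_ne_of_ne h1 h2] at h4
      exact h e he h3 h4
    · rw [fout e he u h3 hu] at h4
      exact h e he h3 h4
  · intro δ h e he h3
    rw [fout e he u h3 hu]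
    exact h e he h3

omit [Fintype N] in
lemma pr_update {B B' : Finset E} {c : E → Fin k} (hc : Pr p q B c) {e : E} {x y : N} {α : Fin k}
    (hj : Jn p q e x y) (hB : ∀ e' ∈ B', e' ≠ e → e' ∈ B)
    (hx : ∀ e' ∈ B', e' ≠ e → Ic p q e' x → c e' ≠ α)
    (hy : ∀ e' ∈ B', e' ≠ e → Ic p q e' y → c e' ≠ α) : Pr p q B' (Function.update c e α) := by
  have key : ∀ e' ∈ B', e' ≠ e → ∀ v, Ic p q e v → Ic p q e' v → c e' ≠ α := by
    intro e' he' h v h1 h2
    rcases hj.ic h1 with rfl | rfl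
    · exact hx e' he' h h2
    · exact hy e' he' h h2
  intro a ha b hb v h1 h2 h
  by_cases h3 : a = e <;> by_cases h4 : b = e
  · rw [h3, h4]
  · subst h3
    rw [Function.update_self, Function.update_of_ne h4] at h
    exact (key b hb h4 v h1 h2 h.symm).elim
  · subst h4
    rw [Function.update_self, Function.update_of_ne h3] at h
    exact (key a ha h3 v h2 h1 h).elim
  · rw [Function.update_of_ne h3, Function.update_of_ne h4] at h
    exact hc a (hB a ha h3) b (hB b hb h4) v h1 h2 h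

omit [Fintype N] in
lemma ms_update {B B' : Finset E} {c : E → Fin k} {e : E} {v : N} {α β : Fin k}
    (hB : ∀ e' ∈ B', e' ≠ e → Ic p q e' v → e' ∈ B) (h : Ms p q B c v β)
    (he : Ic p q e v → α ≠ β) : Ms p q B' (Function.update c e α) v β := by
  intro e' he' h1
  by_cases h2 : e' = e
  · subst h2
    rw [Function.update_self]; exact he h1
  · rw [Function.update_of_ne h2]; exact h e' (hB e' he' h2 h1) h1

/-- standing assumptions: a critical multigraph -/
structure Crit (p q : E → N) (k : ℕ) (A : Finset E) (Δ : ℕ) : Prop where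
  loop : ∀ e ∈ A, p e ≠ q e
  deg : ∀ v, (A.filter fun e => Ic p q e v).card ≤ Δ
  lt : Δ < k
  big : k < 4 * (k - Δ) + 2
  no : ∀ c : E → Fin k, ¬ Pr p q A c

/-- a configuration: one edge left uncoloured -/
structure Cf (p q : E → N) {k : ℕ} (A : Finset E) (e0 : E) (x y : N) (c : E → Fin k) : Prop where
  mem : e0 ∈ A
  jn : Jn p q e0 x y
  pr : Pr p q (A.erase e0) c

section

variable {A : Finset E} {Δ : ℕ} (H : Crit p q k A Δ) {e0 : E} {x y : N} {c : E → Fin k}

omit [Fintype N] in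
lemma Cf.symm (C : Cf p q A e0 x y c) : Cf p q A e0 y x c := ⟨C.mem, C.jn.symm, C.pr⟩

omit [Fintype N] in
lemma ms_card (B : Finset E) (c : E → Fin k) (v : N) :
    k ≤ (univ.filter (Ms p q B c v)).card + (B.filter fun e => Ic p q e v).card := by
  have h1 := card_filter_add_card_filter_not (s := univ) (Ms p q B c v)
  have h2 : (univ.filter fun α => ¬ Ms p q B c v α) ⊆ (B.filter fun e => Ic p q e v).image c := by
    intro α hα
    have := (mem_filter.1 hα).2
    simp only [Ms] at this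
    push Not at this
    obtain ⟨e, he, h3, h4⟩ := this
    exact mem_image.2 ⟨e, mem_filter.2 ⟨he, h3⟩, h4⟩
  have h3 := (card_le_card h2).trans card_image_le
  simp only [card_univ, Fintype.card_fin] at h1
  omega

include H

omit [Fintype N] in
lemma ms_ge (e0 : E) (c : E → Fin k) (v : N) :
    k - Δ ≤ (univ.filter (Ms p q (A.erase e0) c v)).card := by
  have h1 := ms_card (p := p) (q := q) (A.erase e0) c v
  have h2 : ((A.erase e0).filter fun e => Ic p q e v).card ≤ Δ :=
    (card_le_card (filter_subset_filter _ (erase_subset _ _))).trans (H.deg v)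
  omega

omit [Fintype N] in
lemma ms_ge' (C : Cf p q A e0 x y c) :
    k - Δ + 1 ≤ (univ.filter (Ms p q (A.erase e0) c x)).card := by
  have h1 := ms_card (p := p) (q := q) (A.erase e0) c x
  have h2 := H.deg x
  rw [filter_erase, card_erase_of_mem (mem_filter.2 ⟨C.mem, C.jn.left⟩)] at h1
  have h3 : 0 < (A.filter fun e => Ic p q e x).card :=
    card_pos.2 ⟨e0, mem_filter.2 ⟨C.mem, C.jn.left⟩⟩
  have := H.lt
  omega

omit [Fintype N] in
lemma ms_ex (C : Cf p q A e0 x y c) (β : Fin k) : ∃ α, α ≠ β ∧ Ms p q (A.erase e0) c x α := by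
  have h1 := ms_ge' H C
  have := H.lt
  obtain ⟨α, h2, h3⟩ := exists_mem_ne (s := univ.filter (Ms p q (A.erase e0) c x)) (by omega) β
  exact ⟨α, h3, (mem_filter.1 h2).2⟩

omit [Fintype N] in
lemma loop' {e : E} (he : e ∈ A.erase e0) : p e ≠ q e := H.loop e (mem_of_mem_erase he)

omit [Fintype N] in
lemma c0 (C : Cf p q A e0 x y c) {α : Fin k} (hx : Ms p q (A.erase e0) c x α)
    (hy : Ms p q (A.erase e0) c y α) : False :=
  H.no _ (pr_update (B' := A) C.pr C.jn (fun _ h1 h2 => mem_erase.2 ⟨h2, h1⟩)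
    (fun _ h1 h2 => hx _ (mem_erase.2 ⟨h2, h1⟩)) (fun _ h1 h2 => hy _ (mem_erase.2 ⟨h2, h1⟩)))

omit [Fintype N] in
lemma c0' (C : Cf p q A e0 x y c) {α γ : Fin k} (hx : Ms p q (A.erase e0) c x α)
    (hy : Ms p q (A.erase e0) c y γ) : Rc p q (A.erase e0) c α γ y x := by
  by_contra h
  obtain ⟨c', h1, h2, -, -, h5⟩ := swap C.pr α γ y
  exact c0 H ⟨C.mem, C.jn, h1⟩ ((h5 x h).2 α hx) (h2 hy)

omit [Fintype N] in
lemma c1a (C : Cf p q A e0 x y c) {e : E} {z : N} (he : e ∈ A.erase e0) (hj : Jn p q e x z)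
    (hy : Ms p q (A.erase e0) c y (c e)) {α : Fin k} (hx : Ms p q (A.erase e0) c x α)
    (hz : Ms p q (A.erase e0) c z α) : False := by
  have h1 : Pr p q (A.erase e0) (Function.update c e α) :=
    pr_update C.pr hj (fun _ h _ => h) (fun _ h _ => hx _ h) (fun _ h _ => hz _ h)
  refine c0 H (α := c e) ⟨C.mem, C.jn, h1⟩ ?_
    (ms_update (fun _ h _ _ => h) hy fun h => (hy e he h rfl).elim)
  intro e' he' h2
  by_cases h3 : e' = e
  · subst h3
    rw [Function.update_self]
    exact (hx e' he h2).symm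
  · rw [Function.update_of_ne h3]
    exact fun h => h3 (C.pr e' he' e he x h2 hj.left h)

omit [Fintype N] in
lemma c1b (C : Cf p q A e0 x y c) {e : E} {z : N} (he : e ∈ A.erase e0) (hj : Jn p q e x z)
    (hy : Ms p q (A.erase e0) c y (c e)) {α γ : Fin k} (hx : Ms p q (A.erase e0) c x α)
    (hz : Ms p q (A.erase e0) c z γ) : Rc p q (A.erase e0) c α γ z x := by
  by_contra h
  obtain ⟨c', h1, h2, -, h4, h5⟩ := swap C.pr α γ z
  refine c1a H ⟨C.mem, C.jn, h1⟩ he hj ?_ ((h5 x h).2 α hx) (h2 hz)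
  rw [(h5 x h).1 e he hj.left]
  exact h4 y _ (hx e he hj.left) (hz e he hj.right) hy

lemma c1c (C : Cf p q A e0 x y c) {e : E} {z : N} (he : e ∈ A.erase e0) (hj : Jn p q e x z)
    (hy : Ms p q (A.erase e0) c y (c e)) {γ : Fin k} (hy' : Ms p q (A.erase e0) c y γ)
    (hz : Ms p q (A.erase e0) c z γ) : False := by
  obtain ⟨α, -, hx⟩ := ms_ex H C γ
  refine ends (fun e he => loop' H he) C.pr (C.jn.ne (H.loop _ C.mem)) (hj.ne (loop' H he)) ?_
    (c0' H C hx hy').symm (c1b H C he hj hy hx hz).symm (Or.inl hx) (Or.inr hy') (Or.inr hz)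
  rintro rfl
  exact hy e he hj.right rfl

lemma c4 (C : Cf p q A e0 x y c) {e : E} {z : N} (he : e ∈ A.erase e0) (hj : Jn p q e x z)
    (hy : Ms p q (A.erase e0) c y (c e)) (w : N) :
    ∃ γ, Ms p q (A.erase e0) c w γ ∧ (Ms p q (A.erase e0) c x γ ∨ Ms p q (A.erase e0) c y γ ∨
      Ms p q (A.erase e0) c z γ) := by
  by_contra h
  push Not at h
  have a1 := ms_ge' H C
  have a2 := ms_ge' H C.symm
  have a3 := ms_ge H e0 c z
  have a4 := ms_ge H e0 c w
  have a5 := H.big
  have : (univ.filter (Ms p q (A.erase e0) c x)).card + (univ.filter (Ms p q (A.erase e0) c y)).card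
      + (univ.filter (Ms p q (A.erase e0) c z)).card + (univ.filter (Ms p q (A.erase e0) c w)).card
      ≤ ∑ _γ : Fin k, 1 := by
    simp only [card_filter, ← sum_add_distrib]
    refine sum_le_sum fun γ _ => ?_
    have b1 := fun hx hy => c0 H C (α := γ) hx hy
    have b2 := fun hx hz => c1a H C he hj hy (α := γ) hx hz
    have b3 := fun hy' hz => c1c H C he hj hy (γ := γ) hy' hz
    have b4 := h γ
    split_ifs <;> simp_all
  simp only [sum_const, card_univ, Fintype.card_fin, smul_eq_mul] at this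
  omega

lemma c2 (C : Cf p q A e0 x y c) {e e' : E} {z z' : N} (he : e ∈ A.erase e0) (hj : Jn p q e x z)
    (hy : Ms p q (A.erase e0) c y (c e)) (he' : e' ∈ A.erase e0) (hj' : Jn p q e' x z')
    (hy' : Ms p q (A.erase e0) c y (c e')) : z = z' := by
  by_contra hne
  obtain ⟨γ, h1, h2 | h2 | h2⟩ := c4 H C he hj hy z'
  · exact c1a H C he' hj' hy' h2 h1
  · exact c1c H C he' hj' hy' h2 h1
  · obtain ⟨α, -, hx⟩ := ms_ex H C γ
    exact ends (fun e he => loop' H he) C.pr (hj.ne (loop' H he)) (hj'.ne (loop' H he')) hne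
      (c1b H C he hj hy hx h2).symm (c1b H C he' hj' hy' hx h1).symm (Or.inl hx) (Or.inr h2)
      (Or.inr h1)

lemma c2' (C : Cf p q A e0 x y c) {e e' : E} {z z' : N} (he : e ∈ A.erase e0) (hj : Jn p q e x z)
    (hy : Ms p q (A.erase e0) c y (c e)) (he' : e' ∈ A.erase e0) (hj' : Jn p q e' y z')
    (hx' : Ms p q (A.erase e0) c x (c e')) : z = z' := by
  by_contra hne
  obtain ⟨γ, h1, h2 | h2 | h2⟩ := c4 H C he hj hy z'
  · exact c1c H C.symm he' hj' hx' h2 h1
  · exact c1a H C.symm he' hj' hx' h2 h1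
  · obtain ⟨α, hα, hx⟩ := ms_ex H C (c e')
    have h : ¬ Rc p q (A.erase e0) c α γ z' x := fun h => by
      refine ends (fun e he => loop' H he) C.pr (hj.ne (loop' H he)) ?_ hne
        (c1b H C he hj hy hx h2).symm h.symm (Or.inl hx) (Or.inr h2) (Or.inr h1)
      rintro rfl
      exact hx' e' he' hj'.right rfl
    obtain ⟨c', a1, a2, a3, -, a5⟩ := swap C.pr α γ z'
    refine c1c H (Cf.symm ⟨C.mem, C.jn, a1⟩) he' hj' ?_ ((a5 x h).2 α hx) (a2 h1)
    rw [a3 e' hα.symm (h1 e' he' hj'.right)]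
    exact (a5 x h).2 _ hx'

lemma c5a (C : Cf p q A e0 x y c) {e : E} {z : N} (he : e ∈ A.erase e0) (hj : Jn p q e x z)
    (hy : Ms p q (A.erase e0) c y (c e)) {ex ey : E} {w w' : N} (hex : ex ∈ A.erase e0)
    (hey : ey ∈ A.erase e0) (jx : Jn p q ex x w) (jy : Jn p q ey y w') (hδ : c ex = c ey)
    (hwy : w ≠ y) (hwz : w ≠ z) (hw' : w' ≠ z) {α : Fin k} (hx : Ms p q (A.erase e0) c x α)
    (hw : Ms p q (A.erase e0) c w α) : False := by
  have hxy := C.jn.ne (H.loop _ C.mem)
  have h1 : Pr p q (A.erase e0) (Function.update c ex α) :=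
    pr_update C.pr jx (fun _ h _ => h) (fun _ h _ => hx _ h) (fun _ h _ => hw _ h)
  have hy0 : ¬ Ic p q ex y := fun h => by
    rcases jx.ic h with h | h
    · exact hxy h.symm
    · exact hwy h.symm
  have n1 : e ≠ ex := by
    rintro rfl
    rcases jx.ic hj.right with h | h
    · exact hj.ne (loop' H he) h.symm
    · exact hwz h.symm
  have n2 : ey ≠ ex := by
    rintro rfl
    exact hy0 jy.left
  refine hw' (c2' H ⟨C.mem, C.jn, h1⟩ he hj ?_ hey jy ?_).symm
  · rw [Function.update_of_ne n1]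
    exact ms_update (fun _ h _ _ => h) hy fun h => (hy0 h).elim
  · rw [Function.update_of_ne n2, ← hδ]
    intro a ha h
    by_cases h3 : a = ex
    · subst h3
      rw [Function.update_self]
      exact (hx a ha h).symm
    · rw [Function.update_of_ne h3]
      exact fun h' => h3 (C.pr a ha ex hex x h jx.left h')

lemma c5 (C : Cf p q A e0 x y c) {e : E} {z : N} (he : e ∈ A.erase e0) (hj : Jn p q e x z)
    (hy : Ms p q (A.erase e0) c y (c e)) {ex ey : E} {w w' : N} (hex : ex ∈ A.erase e0)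
    (hey : ey ∈ A.erase e0) (jx : Jn p q ex x w) (jy : Jn p q ey y w') (hδ : c ex = c ey)
    (hwy : w ≠ y) (hwz : w ≠ z) (hw' : w' ≠ z) : False := by
  have hxy := C.jn.ne (H.loop _ C.mem)
  have hxw := jx.ne (loop' H hex)
  obtain ⟨γ, h1, h2⟩ := c4 H C he hj hy w
  obtain ⟨α, -, hx⟩ := ms_ex H C γ
  obtain ⟨c', a1, a2, a3, a4, a5⟩ := swap C.pr α γ w
  have fin : ¬ Rc p q (A.erase e0) c α γ w x → Ms p q (A.erase e0) c' y (c e) → False := by
    intro h hy'
    refine c5a H ⟨C.mem, C.jn, a1⟩ he hj ?_ hex hey jx jy ?_ hwy hwz hw' ((a5 x h).2 α hx) (a2 h1)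
    · rw [(a5 x h).1 e he hj.left]; exact hy'
    · rw [(a5 x h).1 ex hex jx.left, a3 ey (hδ ▸ hx ex hex jx.left) (hδ ▸ h1 ex hex jx.right), hδ]
  rcases h2 with h2 | h2 | h2
  · exact c5a H C he hj hy hex hey jx jy hδ hwy hwz hw' h2 h1
  · have r1 := c0' H C hx h2
    have h : ¬ Rc p q (A.erase e0) c α γ w x := fun h =>
      ends (fun e he => loop' H he) C.pr hxy hxw hwy.symm r1.symm h.symm (Or.inl hx) (Or.inr h2)
        (Or.inr h1)
    exact fin h ((a5 y fun h' => h (h'.trans r1)).2 _ hy)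
  · have h : ¬ Rc p q (A.erase e0) c α γ w x := fun h =>
      ends (fun e he => loop' H he) C.pr (hj.ne (loop' H he)) hxw hwz.symm
        (c1b H C he hj hy hx h2).symm h.symm (Or.inl hx) (Or.inr h2) (Or.inr h1)
    exact fin h (a4 y _ (hx e he hj.left) (h2 e he hj.right) hy)

lemma dense (C : Cf p q A e0 x y c) : ∃ z, k + 1 ≤ (A.filter fun e =>
    (p e = x ∨ p e = y ∨ p e = z) ∧ (q e = x ∨ q e = y ∨ q e = z)).card := by
  have ex : ∀ v α, ¬ Ms p q (A.erase e0) c v α →
      ∃ e ∈ A.erase e0, c e = α ∧ ∃ w, Jn p q e v w := by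
    intro v α h
    simp only [Ms] at h
    push Not at h
    obtain ⟨e, he, h1, h2⟩ := h
    exact ⟨e, he, h2, h1.jn⟩
  obtain ⟨β, -, hβ⟩ := ms_ex H C.symm (c e0)
  obtain ⟨e, he, rfl, z, hj⟩ := ex x β fun h => c0 H C h hβ
  refine ⟨z, ?_⟩
  have ins : ∀ a u v, Jn p q a u v → (u = x ∨ u = y ∨ u = z) → (v = x ∨ v = y ∨ v = z) →
      (p a = x ∨ p a = y ∨ p a = z) ∧ (q a = x ∨ q a = y ∨ q a = z) := by
    rintro a u v (⟨rfl, rfl⟩ | ⟨rfl, rfl⟩) h1 h2
    · exact ⟨h1, h2⟩
    · exact ⟨h2, h1⟩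
  have all : ∀ δ, ∃ a ∈ A.erase e0, c a = δ ∧
      (p a = x ∨ p a = y ∨ p a = z) ∧ (q a = x ∨ q a = y ∨ q a = z) := by
    intro δ
    by_cases my : Ms p q (A.erase e0) c y δ
    · obtain ⟨a, ha, rfl, w, hw⟩ := ex x δ fun h => c0 H C h my
      exact ⟨a, ha, rfl, ins a _ _ hw (by simp) (by simp [c2 H C he hj hβ ha hw my])⟩
    obtain ⟨ey, hey, h1, w', jy⟩ := ex y δ my
    by_cases mx : Ms p q (A.erase e0) c x δ
    · exact ⟨ey, hey, h1, ins ey _ _ jy (by simp) (by simp [c2' H C he hj hβ hey jy (h1 ▸ mx)])⟩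
    obtain ⟨ex', hex, h2, w, jx⟩ := ex x δ mx
    by_cases b1 : w = y
    · exact ⟨ex', hex, h2, ins _ _ _ jx (by simp) (by simp [b1])⟩
    by_cases b2 : w = z
    · exact ⟨ex', hex, h2, ins _ _ _ jx (by simp) (by simp [b2])⟩
    by_cases b3 : w' = z
    · exact ⟨ey, hey, h1, ins _ _ _ jy (by simp) (by simp [b3])⟩
    exact (c5 H C he hj hβ hex hey jx jy (h2.trans h1.symm) b1 b2 b3).elim
  have m0 : e0 ∈ A.filter fun e =>
      (p e = x ∨ p e = y ∨ p e = z) ∧ (q e = x ∨ q e = y ∨ q e = z) :=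
    mem_filter.2 ⟨C.mem, ins _ _ _ C.jn (by simp) (by simp)⟩
  rw [← card_erase_add_one m0, ← filter_erase, add_le_add_iff_right]
  calc k = (univ : Finset (Fin k)).card := by simp
    _ ≤ _ := card_le_card_of_surjOn c fun δ _ => by
      obtain ⟨a, ha, h1, h2⟩ := all δ
      exact ⟨a, mem_coe.2 (mem_filter.2 ⟨ha, h2⟩), h1⟩

end

theorem colour (p q : E → N) (k Δ : ℕ) (lt : Δ < k) (big : k < 4 * (k - Δ) + 2) (A : Finset E)
    (loop : ∀ e ∈ A, p e ≠ q e) (deg : ∀ v, (A.filter fun e => Ic p q e v).card ≤ Δ)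
    (tri : ∀ x y z, (A.filter fun e =>
      (p e = x ∨ p e = y ∨ p e = z) ∧ (q e = x ∨ q e = y ∨ q e = z)).card ≤ k) :
    ∃ c : E → Fin k, Pr p q A c := by
  induction A using Finset.induction_on with
  | empty => exact ⟨fun _ => ⟨0, by omega⟩, fun e he => by simp at he⟩
  | insert e0 A h0 ih =>
    obtain ⟨c, hc⟩ := ih (fun e he => loop e (mem_insert_of_mem he))
      (fun v => (card_le_card (filter_subset_filter _ (subset_insert _ _))).trans (deg v))
      (fun x y z => (card_le_card (filter_subset_filter _ (subset_insert _ _))).trans (tri x y z))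
    by_contra h
    push Not at h
    obtain ⟨z, hz⟩ := dense ⟨loop, deg, lt, big, h⟩ (e0 := e0) (x := p e0) (y := q e0) (c := c)
      ⟨mem_insert_self _ _, Or.inl ⟨rfl, rfl⟩, by rwa [erase_insert h0]⟩
    have := tri (p e0) (q e0) z
    omega

end Pool.Agent.P.MP_b2489f_co.Kempe
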