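import Pool.Agent.P.MP_b2489f_co.Exact

set_option autoImplicit false

/-! Labelled maps: a convenient way to build plane maps, and edge subdivision. -/

namespace Pool.Agent.P.MP_b2489f_co

open Finset Classical

/-- A map on darts `E × Bool` given by its face successor, with vertex and face labels. -/
structure LMap (E V F : Type) [Fintype E] [Fintype V] [Fintype F] where
  φ : E × Bool → E × Bool
  inj : Function.Injective φ
  t : E × Bool → V
  u : E × Bool → F
  ht : ∀ d, t (φ d) = t (d.1, !d.2)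
  hu : ∀ d, u (φ d) = u d
  ts : Function.Surjective t
  us : Function.Surjective u
  conn : ∀ P : E × Bool → Prop, (∀ d, P (φ d) ↔ P d) → (∀ e, P (e, true) ↔ P (e, false)) →
    ∀ x y, P x → P y
  card : Fintype.card V + Fintype.card F = Fintype.card E + 2

/-- exchange the two darts of an edge -/
def flipD (E : Type) : Equiv.Perm (E × Bool) where
  toFun d := (d.1, !d.2)
  invFun d := (d.1, !d.2)
  left_inv d := by simp
  right_inv d := by simp

lemma flipD_apply {E : Type} (d : E × Bool) : flipD E d = (d.1, !d.2) := rfl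

lemma card_le_orb {D L : Type} [Fintype D] [Fintype L] (π : Equiv.Perm D) (t : D → L)
    (ht : ∀ d, t (π d) = t d) (hs : Function.Surjective t) :
    ∃ e : Orb π → L, Function.Surjective e ∧ ∀ d, e (orb π d) = t d := by
  refine ⟨Quotient.lift t fun a b h => inv_of_orb_eq π t ht ((orb_eq_iff π a b).2 h), ?_,
    fun d => rfl⟩
  intro l
  obtain ⟨d, rfl⟩ := hs l
  exact ⟨orb π d, rfl⟩

theorem LMap.toPlane {E V F : Type} [Fintype E] [Fintype V] [Fintype F] [Nonempty E]
    (L : LMap E V F) :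
    ∃ (M : PlaneMap (E × Bool)) (eV : Orb M.σ ≃ V) (eF : Orb (M.σ * M.α) ≃ F),
      ∀ v f, v ∈ M.faceVerts f ↔ ∃ d, L.t d = eV v ∧ L.u d = eF f := by
  let φ : Equiv.Perm (E × Bool) :=
    Equiv.ofBijective L.φ (Finite.injective_iff_bijective.1 L.inj)
  let α := flipD E
  have hαα : ∀ d, α (α d) = d := fun d => by simp [α, flipD_apply]
  have hne : ∀ d, α d ≠ d := fun d h => by
    have := congrArg Prod.snd h
    simp [α, flipD_apply] at this
  let σ := φ * α
  have hσα : ∀ d, (σ * α) d = L.φ d := fun d => by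
    show φ (α (α d)) = _
    rw [hαα]; rfl
  have hconn : ∀ x y, Relation.ReflTransGen (fun a b => b = σ a ∨ b = α a) x y := by
    intro x y
    have hφ : ∀ d, Relation.ReflTransGen (fun a b => b = σ a ∨ b = α a) d (φ d) := fun d => by
      refine Relation.ReflTransGen.head (b := α d) (Or.inr rfl) (Relation.ReflTransGen.single ?_)
      left
      show φ d = φ (α (α d))
      rw [hαα]
    have hpow : ∀ (n : ℕ) d, Relation.ReflTransGen (fun a b => b = σ a ∨ b = α a) d
        ((φ ^ n) d) := by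
      intro n
      induction n with
      | zero => intro d; rfl
      | succ n ih => intro d; rw [pow_succ']; exact (ih d).trans (hφ _)
    refine L.conn (fun d => Relation.ReflTransGen (fun a b => b = σ a ∨ b = α a) x d) ?_ ?_ x y
      Relation.ReflTransGen.refl
    · intro d
      refine ⟨fun h => ?_, fun h => h.trans (hφ d)⟩
      have h1 := hpow (orderOf φ - 1) (φ d)
      have h2 : (φ ^ (orderOf φ - 1)) (φ d) = d := by
        rw [← Equiv.Perm.mul_apply, ← pow_succ, Nat.sub_add_cancel (orderOf_pos φ),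
          pow_orderOf_eq_one]
        rfl
      rw [h2] at h1
      exact h.trans h1
    · intro e
      exact ⟨fun h => h.tail (Or.inr rfl), fun h => h.tail (Or.inr rfl)⟩
  have hV := card_le_orb σ L.t (fun d => by
    show L.t (L.φ (α d)) = _
    rw [L.ht]; simp [α, flipD_apply]) L.ts
  have hF := card_le_orb (σ * α) L.u (fun d => by rw [hσα, L.hu]) L.us
  obtain ⟨eV, sV, hV⟩ := hV
  obtain ⟨eF, sF, hF⟩ := hF
  have c1 := Fintype.card_le_of_surjective _ sV
  have c2 := Fintype.card_le_of_surjective _ sF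
  have c3 := euler_le σ α hαα hne hconn
  have c4 := card_darts α hαα hne
  have c5 := L.card
  rw [Fintype.card_prod, Fintype.card_bool] at c4
  have bV : Function.Bijective eV := (Fintype.bijective_iff_surjective_and_card _).2 ⟨sV, by omega⟩
  have bF : Function.Bijective eF := (Fintype.bijective_iff_surjective_and_card _).2 ⟨sF, by omega⟩
  refine ⟨⟨σ, α, hαα, hne, hconn, ?_⟩, Equiv.ofBijective eV bV, Equiv.ofBijective eF bF, ?_⟩
  · simp only [Nat.card_eq_fintype_card]; omega
  · intro v f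
    refine exists_congr fun d => and_congr ?_ ?_
    · rw [← hV]; exact bV.1.eq_iff.symm
    · rw [← hF]; exact bF.1.eq_iff.symm

section Sub

variable {E V F : Type} [Fintype E] [Fintype V] [Fintype F] (L : LMap E V F) (len : E → ℕ)

/-- first segment of a dart -/
def ent (d : E × Bool) : (Σ e, Fin (len e + 1)) × Bool :=
  (⟨d.1, if d.2 then 0 else Fin.last _⟩, d.2)

/-- face successor after subdivision -/
def subφ : (Σ e, Fin (len e + 1)) × Bool → (Σ e, Fin (len e + 1)) × Bool
  | (⟨e, j⟩, true) => if h : j.1 < len e then (⟨e, ⟨j.1 + 1, by omega⟩⟩, true)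
      else ent len (L.φ (e, true))
  | (⟨e, j⟩, false) => if h : 0 < j.1 then (⟨e, ⟨j.1 - 1, by omega⟩⟩, false)
      else ent len (L.φ (e, false))

/-- vertex labels after subdivision -/
def subt : (Σ e, Fin (len e + 1)) × Bool → V ⊕ Σ e, Fin (len e)
  | (⟨e, j⟩, true) => if h : 0 < j.1 then Sum.inr ⟨e, ⟨j.1 - 1, by omega⟩⟩
      else Sum.inl (L.t (e, true))
  | (⟨e, j⟩, false) => if h : j.1 < len e then Sum.inr ⟨e, ⟨j.1, h⟩⟩
      else Sum.inl (L.t (e, false))

lemma subt_ent (d : E × Bool) : subt L len (ent len d) = Sum.inl (L.t d) := by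
  rcases d with ⟨e, _ | _⟩ <;> simp [ent, subt]

omit [Fintype E] in
lemma ent_inj : Function.Injective (ent len) := by
  rintro ⟨e, b⟩ ⟨e', b'⟩ h
  have h1 : e = e' := congrArg (fun x => x.1.1) h
  have h2 : b = b' := congrArg (fun x => x.2) h
  rw [h1, h2]

/-- code of a subdivided dart -/
def cod (x : (Σ e, Fin (len e + 1)) × Bool) : E × ℕ × Bool := (x.1.1, x.1.2.1, x.2)

omit [Fintype E] in
lemma cod_inj : Function.Injective (cod len) := by
  rintro ⟨⟨e, j⟩, b⟩ ⟨⟨e', j'⟩, b'⟩ h
  simp only [cod, Prod.mk.injEq] at h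
  obtain ⟨rfl, h1, rfl⟩ := h
  rw [Fin.ext h1]

omit [Fintype E] in
lemma cod_ent (d : E × Bool) : cod len (ent len d) = (d.1, if d.2 then 0 else len d.1, d.2) := by
  rcases d with ⟨e, _ | _⟩ <;> simp [ent, cod]

lemma subφ_cases (e : E) (j : Fin (len e + 1)) (b : Bool) :
    (j.1 = (if b then len e else 0) ∧ subφ L len (⟨e, j⟩, b) = ent len (L.φ (e, b))) ∨
    (b = true ∧ j.1 < len e ∧ cod len (subφ L len (⟨e, j⟩, b)) = (e, j.1 + 1, true)) ∨
    (b = false ∧ 0 < j.1 ∧ cod len (subφ L len (⟨e, j⟩, b)) = (e, j.1 - 1, false)) := by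
  have := j.2
  cases b <;> simp only [subφ] <;> split_ifs with h <;> simp_all [cod]
  omega

lemma subφ_inj : Function.Injective (subφ L len) := by
  rintro ⟨⟨e, j⟩, b⟩ ⟨⟨e', j'⟩, b'⟩ h
  have hj := j.2
  have hj' := j'.2
  apply cod_inj len
  have h' := congrArg (cod len) h
  simp only [cod, Prod.mk.injEq]
  rcases subφ_cases L len e j b with ⟨h1, h2⟩ | ⟨rfl, h1, h2⟩ | ⟨rfl, h1, h2⟩ <;>
  rcases subφ_cases L len e' j' b' with ⟨h3, h4⟩ | ⟨rfl, h3, h4⟩ | ⟨rfl, h3, h4⟩ <;>
  rw [h2, h4] at h'
  · rw [h2, h4] at h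
    have := L.inj (ent_inj len h)
    simp only [Prod.mk.injEq] at this
    obtain ⟨rfl, rfl⟩ := this
    exact ⟨rfl, by omega, rfl⟩
  all_goals
    try rw [cod_ent] at h'
    simp only [Prod.mk.injEq] at h'
    obtain ⟨h5, h6, h7⟩ := h'
  · rw [h7] at h6; simp at h6
  · rw [h7, h5] at h6; simp at h6; omega
  · rw [← h7] at h6; simp at h6
  · exact ⟨h5, by omega, rfl⟩
  · simp at h7
  · rw [← h7, ← h5] at h6; simp at h6; omega
  · simp at h7
  · exact ⟨h5, by omega, rfl⟩

/-- the subdivided map -/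
def LMap.sub : LMap (Σ e, Fin (len e + 1)) (V ⊕ Σ e, Fin (len e)) F where
  φ := subφ L len
  inj := subφ_inj L len
  t := subt L len
  u := fun x => L.u (x.1.1, x.2)
  ht := by
    rintro ⟨⟨e, j⟩, _ | _⟩
    · simp only [subφ]
      split_ifs with h
      · have := j.2
        simp only [subt, Bool.not_false, h, dif_pos]
        rw [dif_pos (by omega)]
      · rw [subt_ent, L.ht]
        simp only [subt, Bool.not_false, h]
        rfl
    · simp only [subφ]
      split_ifs with h
      · simp [subt, h]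
      · rw [subt_ent, L.ht]
        simp only [subt, Bool.not_true, h]
        rfl
  hu := by
    rintro ⟨⟨e, j⟩, _ | _⟩ <;> simp only [subφ] <;> split_ifs with h
    · rfl
    · exact L.hu _
    · rfl
    · exact L.hu _
  ts := by
    rintro (v | ⟨e, j⟩)
    · obtain ⟨d, rfl⟩ := L.ts v
      exact ⟨_, subt_ent L len d⟩
    · exact ⟨(⟨e, j.castSucc⟩, false), by simp [subt]⟩
  us := fun f => by
    obtain ⟨d, rfl⟩ := L.us f
    exact ⟨ent len d, rfl⟩
  conn := by
    intro P h1 h2
    have up : ∀ e (n : ℕ) (h : n < len e + 1), P (⟨e, ⟨n, h⟩⟩, true) ↔ P (⟨e, 0⟩, true) := by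
      intro e n
      induction n with
      | zero => intro h; rfl
      | succ n ih =>
        intro h
        rw [← ih (by omega), ← h1 (⟨e, ⟨n, by omega⟩⟩, true)]
        simp only [subφ]
        rw [dif_pos (by omega)]
    have all : ∀ e j b, P (⟨e, j⟩, b) ↔ P (⟨e, 0⟩, true) := by
      intro e j b
      cases b
      · rw [← h2]; exact up e j.1 j.2
      · exact up e j.1 j.2
    have := L.conn (fun d => P (⟨d.1, 0⟩, true)) ?_ (fun e => Iff.rfl)
    · rintro ⟨⟨e, j⟩, b⟩ ⟨⟨e', j'⟩, b'⟩ hx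
      rw [all] at hx ⊢
      exact this (e, true) (e', true) hx
    · rintro ⟨e, _ | _⟩
      · have := h1 (⟨e, 0⟩, false)
        simp only [subφ] at this
        rw [dif_neg (by simp), ent, all, all e] at this
        exact this
      · have := h1 (⟨e, Fin.last _⟩, true)
        simp only [subφ] at this
        rw [dif_neg (by simp), ent, all, all e] at this
        exact this
  card := by
    have := L.card
    simp only [Fintype.card_sum, Fintype.card_sigma, Fintype.card_fin, sum_add_distrib, sum_const,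
      card_univ, smul_eq_mul, mul_one]
    omega

lemma sub_inc_inl (v : V) (f : F) :
    (∃ d, (L.sub len).t d = Sum.inl v ∧ (L.sub len).u d = f) ↔ ∃ d, L.t d = v ∧ L.u d = f := by
  constructor
  · rintro ⟨⟨⟨e, j⟩, _ | _⟩, h1, h2⟩ <;> simp only [LMap.sub, subt] at h1 h2 <;>
      split_ifs at h1 <;> exact ⟨_, Sum.inl_injective h1, h2⟩
  · rintro ⟨d, rfl, rfl⟩
    exact ⟨ent len d, subt_ent L len d, rfl⟩

lemma sub_inc_inr (x : Σ e, Fin (len e)) (f : F) :
    (∃ d, (L.sub len).t d = Sum.inr x ∧ (L.sub len).u d = f) ↔ ∃ b, L.u (x.1, b) = f := by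
  constructor
  · rintro ⟨⟨⟨e, j⟩, _ | _⟩, h1, h2⟩ <;> simp only [LMap.sub, subt] at h1 h2 <;>
      split_ifs at h1 <;> obtain rfl := Sum.inr_injective h1 <;> exact ⟨_, h2⟩
  · obtain ⟨e, j⟩ := x
    rintro ⟨_ | _, rfl⟩
    · exact ⟨(⟨e, j.castSucc⟩, false), by simp [LMap.sub, subt], rfl⟩
    · exact ⟨(⟨e, j.succ⟩, true), by simp [LMap.sub, subt], rfl⟩

lemma card_sub_filter (p : V ⊕ (Σ e, Fin (len e)) → Prop) (q : E → Prop)
    [DecidablePred p] [DecidablePred q]
    (hq : ∀ x, p (Sum.inr x) ↔ q x.1) :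
    (univ.filter p).card = (univ.filter fun v => p (Sum.inl v)).card +
      ∑ e, if q e then len e else 0 := by
  rw [card_filter, card_filter, Fintype.sum_sum_type, Fintype.sum_sigma]
  congr 1
  refine sum_congr rfl fun e _ => ?_
  simp only [hq]
  split_ifs <;> simp

end Sub

end Pool.Agent.P.MP_b2489f_co
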