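import Pool.Agent.P.MP_b2489f_co.Ord
import Pool.Agent.P.MP_b2489f_co.Kempe

set_option autoImplicit false
set_option linter.unusedSectionVars false

/-! Trimming the ordinary faces and colouring the core. -/

namespace Pool.Agent.P.MP_b2489f_co

open Finset Classical

variable {V F Nd : Type} [Fintype V] [Fintype F] [Fintype Nd]

theorem Sys.trim [Nonempty V] [Nonempty Nd] (S : Sys V F Nd) (g k κ b0 Q Δ : ℕ)
    (hN : ∀ φ, (S.N φ).card = g) (hh : 71 + 143 * 54 < S.h)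
    (nocrit : ∀ x y z, ¬ S.sup x → ¬ S.sup y → ¬ S.sup z → x ≠ y → x ≠ z → y ≠ z →
      (S.N (S.fc x 0) ∩ S.N (S.fc y 0)).card ≤ S.h ∨ (S.N (S.fc x 0) ∩ S.N (S.fc z 0)).card ≤ S.h ∨
      (S.N (S.fc y 0) ∩ S.N (S.fc z 0)).card ≤ S.h)
    (hQ : Q = 4 * b0 + 2)
    (na : Q * (k + κ + 71) + b0 * g + 144 * (Q * Q) ≤ Q * g)
    (nb : (2 * b0 + 2) * g + 144 * (Q * Q) ≤ Q * Δ)
    (nc : Q * Δ + 2 * (Q * Q) + (2 * b0 + 2) * S.h ≤ Q * k)
    (nd : Δ < k) (ne : k < 4 * (k - Δ) + 2) :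
    ∃ X, S.Adm X ∧ (∀ n, ¬ S.sup n → (X n).card = k + κ) ∧ ∃ c0 : V → Fin k, ∀ n, ¬ S.sup n →
      ((X n).filter fun v => ∃ m, ¬ S.sup m ∧ m ≠ n ∧ v ∈ X m).card ≤ Δ ∧
      Set.InjOn c0 ((X n).filter fun v => ∃ m, ¬ S.sup m ∧ m ≠ n ∧ v ∈ X m) := by
  have hQ0 : 0 < Q := by omega
  let X0 : Nd → Finset V := fun n => univ.biUnion fun i => S.N (S.fc n i)
  have hX0 : S.Adm X0 := ⟨fun n v hv => by simpa [X0] using hv,
    fun n _ i => subset_biUnion_of_mem (fun i => S.N (S.fc n i)) (mem_univ i)⟩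
  have nor : ∀ n, ¬ S.sup n → ∀ v, v ∈ X0 n ↔ v ∈ S.N (S.fc n 0) := fun n hn v => by
    simp [X0, S.fc_nor n hn]
  obtain ⟨O⟩ := S.ord hX0 hh
  have : ∀ v, ∃ t, ∀ m, O.sec v m → t = m := fun v => by
    by_cases h : ∃ m, O.sec v m
    · obtain ⟨m, hm⟩ := h
      exact ⟨m, fun m' hm' => O.sec_uniq hm hm'⟩
    · exact ⟨O.τ v, fun m hm => absurd ⟨m, hm⟩ h⟩
  choose b hb using this
  let W : Finset V := univ.filter fun v => ¬ S.sup (O.τ v) ∧ ¬ S.sup (b v) ∧ O.sec v (b v)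
  have hW : ∀ v, v ∈ W ↔ ¬ S.sup (O.τ v) ∧ ¬ S.sup (b v) ∧ O.sec v (b v) := fun v => by simp [W]
  have W1 : ∀ v ∈ W, v ∈ S.N (S.fc (O.τ v) 0) := fun v hv =>
    (nor _ ((hW v).1 hv).1 v).1 (O.τ_mem v _ ((hW v).1 hv).2.2.1)
  have W2 : ∀ v ∈ W, v ∈ S.N (S.fc (b v) 0) := fun v hv =>
    (nor _ ((hW v).1 hv).2.1 v).1 ((hW v).1 hv).2.2.1
  obtain ⟨lab, hlab⟩ := split2 hQ0 W O.τ b
  obtain ⟨J0, -, j0⟩ := exists_subset_card_eq (s := (univ : Finset (Fin Q))) (n := 2 * b0 + 2)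
    (by simp; omega)
  have j0' : J0ᶜ.card = 2 * b0 := by rw [card_compl]; simp; omega
  obtain ⟨J1, j1', j1⟩ := exists_subset_card_eq (s := J0ᶜ) (n := b0) (by omega)
  have j2 : (J0ᶜ \ J1).card = b0 := by rw [card_sdiff_of_subset j1']; omega
  have cnt : ∀ (n : Nd) (J J' : Finset (Fin Q)), J'.card = J.card →
      Q * ((W.filter fun v => O.τ v = n ∧ lab v ∈ J).card +
        (W.filter fun v => b v = n ∧ lab v ∈ J').card) ≤ J.card * g + 144 * (Q * Q) := by
    intro n J J' hJ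
    have a1 := (hlab J).2 n
    let T := univ.filter fun m => ∃ v, O.sec v n ∧ O.τ v = m
    have hT : ∀ v ∈ W, b v = n → O.τ v ∈ T := fun v hv h =>
      mf.2 ⟨mem_univ _, v, h ▸ ((hW v).1 hv).2.2, rfl⟩
    have a2 : (W.filter fun v => b v = n ∧ lab v ∈ J').card =
        ∑ m ∈ T, (W.filter fun v => O.τ v = m ∧ b v = n ∧ lab v ∈ J').card := by
      rw [card_eq_sum_card_fiberwise (f := O.τ) (t := T)
        fun v hv => hT v (mf.1 hv).1 (mf.1 hv).2.1]
      refine sum_congr rfl fun m _ => ?_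
      rw [filter_filter]
      exact congrArg card (filter_congr fun v _ => and_comm)
    have a3 : (W.filter fun v => b v = n).card =
        ∑ m ∈ T, (W.filter fun v => O.τ v = m ∧ b v = n).card := by
      rw [card_eq_sum_card_fiberwise (f := O.τ) (t := T) fun v hv => hT v (mf.1 hv).1 (mf.1 hv).2]
      refine sum_congr rfl fun m _ => ?_
      rw [filter_filter]
      exact congrArg card (filter_congr fun v _ => and_comm)
    have a4 : Q * (W.filter fun v => b v = n ∧ lab v ∈ J').card ≤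
        J.card * (W.filter fun v => b v = n).card + 143 * (Q * Q) := by
      rw [a2, a3, mul_sum, mul_sum, ← hJ]
      refine (sum_le_sum fun m _ => (hlab J').1 m n).trans ?_
      rw [sum_add_distrib, sum_const, smul_eq_mul]
      exact Nat.add_le_add_left (Nat.mul_le_mul_right _ (O.p3 n)) _
    have a5 : (W.filter fun v => O.τ v = n).card + (W.filter fun v => b v = n).card ≤ g := by
      rw [← card_union_of_disjoint, ← hN (S.fc n 0)]
      · refine card_le_card fun v hv => ?_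
        rcases mem_union.1 hv with h | h
        · exact (mf.1 h).2 ▸ W1 v (mf.1 h).1
        · exact (mf.1 h).2 ▸ W2 v (mf.1 h).1
      · rw [disjoint_left]
        intro v h1 h2
        exact ((hW v).1 (mf.1 h1).1).2.2.2.1 ((mf.1 h1).2.trans (mf.1 h2).2.symm)
    have a6 := Nat.mul_le_mul_left J.card a5
    rw [mul_add] at a6 ⊢
    omega
  let D0 : Nd → Finset V := fun n => (S.N (S.fc n 0)).filter fun v =>
    (O.τ v = n ∨ O.sec v n) ∧ ¬ (v ∈ W ∧ O.τ v = n ∧ lab v ∈ J0ᶜ \ J1) ∧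
      ¬ (v ∈ W ∧ b v = n ∧ lab v ∈ J1)
  have hD0 : ∀ n, ∃ D, ¬ S.sup n → D ⊆ D0 n ∧ D.card = k + κ := fun n => by
    by_cases hn : S.sup n
    · exact ⟨∅, fun h => absurd hn h⟩
    have a1 : S.N (S.fc n 0) ⊆ D0 n ∪ (((X0 n).filter fun v => O.τ v ≠ n ∧ ¬ O.sec v n) ∪
        ((W.filter fun v => O.τ v = n ∧ lab v ∈ J0ᶜ \ J1) ∪
          (W.filter fun v => b v = n ∧ lab v ∈ J1))) := by
      intro v hv
      by_contra h
      simp only [mem_union, not_or, mem_filter, D0, hv, true_and, (nor n hn v).2 hv] at h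
      tauto
    have a2 := (card_le_card a1).trans ((card_union_le _ _).trans (Nat.add_le_add_left
      ((card_union_le _ _).trans (Nat.add_le_add (O.p2 n) (card_union_le _ _))) _))
    have a3 := cnt n (J0ᶜ \ J1) J1 (by omega)
    rw [hN] at a2
    rw [j2] at a3
    have a4 := Nat.mul_le_mul_left Q a2
    rw [mul_add, mul_add] at a4
    rw [mul_add Q (k + κ)] at na
    obtain ⟨D, h1, h2⟩ := exists_subset_card_eq (s := D0 n) (n := k + κ)
      (Nat.le_of_mul_le_mul_left (by omega) hQ0)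
    exact ⟨D, fun _ => ⟨h1, h2⟩⟩
  choose D hD using hD0
  let X : Nd → Finset V := fun n => if S.sup n then X0 n else D n
  have hX : ∀ n, ¬ S.sup n → X n = D n := fun n hn => if_neg hn
  let A := W.filter fun v => lab v ∈ J0
  have hdeg : ∀ n, (A.filter fun v => Kempe.Ic O.τ b v n).card ≤ Δ := fun n => by
    have a1 := cnt n J0 J0 rfl
    have a2 : (A.filter fun v => Kempe.Ic O.τ b v n) ⊆ (W.filter fun v => O.τ v = n ∧ lab v ∈ J0) ∪
        (W.filter fun v => b v = n ∧ lab v ∈ J0) := by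
      intro v hv
      obtain ⟨h1, h2 | h2⟩ := mf.1 hv
      · exact mem_union_left _ (mf.2 ⟨(mf.1 h1).1, h2, (mf.1 h1).2⟩)
      · exact mem_union_right _ (mf.2 ⟨(mf.1 h1).1, h2, (mf.1 h1).2⟩)
    have a3 := Nat.mul_le_mul_left Q ((card_le_card a2).trans (card_union_le _ _))
    rw [j0] at a1
    exact Nat.le_of_mul_le_mul_left (by omega) hQ0
  have hloop : ∀ v ∈ A, O.τ v ≠ b v := fun v hv => ((hW v).1 (mf.1 hv).1).2.2.2.1
  have star : ∀ (x y z w : Nd), (∀ v ∈ A, (O.τ v = x ∨ O.τ v = y ∨ O.τ v = z) →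
      (b v = x ∨ b v = y ∨ b v = z) → Kempe.Ic O.τ b v w) → (A.filter fun e =>
      (O.τ e = x ∨ O.τ e = y ∨ O.τ e = z) ∧ (b e = x ∨ b e = y ∨ b e = z)).card ≤ k :=
    fun x y z w h => le_trans (card_le_card fun v hv =>
      mf.2 ⟨(mf.1 hv).1, h v (mf.1 hv).1 (mf.1 hv).2.1 (mf.1 hv).2.2⟩) ((hdeg w).trans nd.le)
  have light : ∀ (x y z : Nd), y ≠ z → (S.N (S.fc y 0) ∩ S.N (S.fc z 0)).card ≤ S.h →
      ∀ T : Finset V, (∀ v ∈ T, v ∈ A ∧ (O.τ v = x ∨ O.τ v = y ∨ O.τ v = z) ∧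
        (b v = x ∨ b v = y ∨ b v = z)) → T.card ≤ k := by
    intro x y z hyz h T hT
    have a1 : T ⊆ (A.filter fun v => Kempe.Ic O.τ b v x) ∪
        ((W.filter fun v => O.τ v = y ∧ b v = z ∧ lab v ∈ J0) ∪
          (W.filter fun v => O.τ v = z ∧ b v = y ∧ lab v ∈ J0)) := by
      intro v hv
      obtain ⟨h1, h2, h3⟩ := hT v hv
      have h4 := hloop v h1
      have h5 := mf.1 h1
      simp only [mem_union, mem_filter, Kempe.Ic, h1, h5.1, h5.2, true_and, and_true]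
      rcases h2 with h2 | h2 | h2 <;> rcases h3 with h3 | h3 | h3 <;> simp_all
    have a2 := (card_le_card a1).trans ((card_union_le _ _).trans
      (Nat.add_le_add (hdeg x) (card_union_le _ _)))
    have a3 := (hlab J0).1 y z
    have a4 := (hlab J0).1 z y
    have a5 : (W.filter fun v => O.τ v = y ∧ b v = z).card +
        (W.filter fun v => O.τ v = z ∧ b v = y).card ≤ S.h := by
      rw [← card_union_of_disjoint]
      · refine le_trans (card_le_card fun v hv => ?_) h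
        rcases mem_union.1 hv with h | h
        · obtain ⟨h1, rfl, rfl⟩ := mf.1 h
          exact mem_inter.2 ⟨W1 v h1, W2 v h1⟩
        · obtain ⟨h1, rfl, rfl⟩ := mf.1 h
          exact mem_inter.2 ⟨W2 v h1, W1 v h1⟩
      · rw [disjoint_left]
        intro v h1 h2
        exact hyz ((mf.1 h1).2.1.symm.trans (mf.1 h2).2.1)
    have a6 := Nat.mul_le_mul_left Q a2
    have a7 := Nat.mul_le_mul_left (2 * b0 + 2) a5
    rw [j0] at a3 a4
    rw [mul_add, mul_add] at a6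
    rw [mul_add] at a7
    exact Nat.le_of_mul_le_mul_left (by omega) hQ0
  obtain ⟨c0, hc0⟩ := Kempe.colour O.τ b k Δ nd ne A hloop hdeg fun x y z => by
    have ns : ∀ v ∈ A, ¬ S.sup (O.τ v) ∧ ¬ S.sup (b v) := fun v hv =>
      ⟨((hW v).1 (mf.1 hv).1).1, ((hW v).1 (mf.1 hv).1).2.1⟩
    by_cases h1 : S.sup x ∨ x = y
    · refine star x y z z fun v hv h2 h3 => ?_
      have := hloop v hv
      have := ns v hv
      unfold Kempe.Ic
      grind
    by_cases h2 : S.sup y ∨ y = z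
    · refine star x y z x fun v hv h2 h3 => ?_
      have := hloop v hv
      have := ns v hv
      unfold Kempe.Ic
      grind
    by_cases h3 : S.sup z ∨ x = z
    · refine star x y z y fun v hv h2 h3 => ?_
      have := hloop v hv
      have := ns v hv
      unfold Kempe.Ic
      grind
    push Not at h1 h2 h3
    rcases nocrit x y z h1.1 h2.1 h3.1 h1.2 h3.2 h2.2 with h | h | h
    · exact light z x y h1.2 h _ fun v hv => by have := mf.1 hv; tauto
    · exact light y x z h3.2 h _ fun v hv => by have := mf.1 hv; tauto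
    · exact light x y z h2.2 h _ fun v hv => mf.1 hv
  have core : ∀ n, ¬ S.sup n → ((X n).filter fun v => ∃ m, ¬ S.sup m ∧ m ≠ n ∧ v ∈ X m) ⊆
      A.filter fun v => Kempe.Ic O.τ b v n := by
    intro n hn v hv
    obtain ⟨h1, m, hm, h2, h3⟩ := mf.1 hv
    rw [hX n hn] at h1
    rw [hX m hm] at h3
    obtain ⟨-, a1, a2, a3⟩ := mf.1 ((hD n hn).1 h1)
    obtain ⟨-, b1, b2, b3⟩ := mf.1 ((hD m hm).1 h3)
    have fin : ∀ n m, ¬ S.sup n → ¬ S.sup m → O.τ v = n → O.sec v m →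
        ¬ (v ∈ W ∧ O.τ v = n ∧ lab v ∈ J0ᶜ \ J1) → ¬ (v ∈ W ∧ b v = m ∧ lab v ∈ J1) →
        v ∈ A := fun n m hn hm c1 c2 c3 c4 => by
      have c5 := hb v m c2
      have c6 : v ∈ W := (hW v).2 ⟨c1 ▸ hn, c5 ▸ hm, c5 ▸ c2⟩
      refine mf.2 ⟨c6, ?_⟩
      by_contra c7
      exact c3 ⟨c6, c1, mem_sdiff.2 ⟨mem_compl.2 c7, fun c8 => c4 ⟨c6, c5, c8⟩⟩⟩
    rcases a1 with a1 | a1 <;> rcases b1 with b1 | b1
    · exact absurd (b1.symm.trans a1) h2
    · exact mf.2 ⟨fin n m hn hm a1 b1 a2 b3, Or.inl a1⟩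
    · exact mf.2 ⟨fin m n hm hn b1 a1 b2 a3, Or.inr (hb v n a1)⟩
    · exact absurd (O.sec_uniq b1 a1) h2
  refine ⟨X, ⟨fun n v hv => ?_, fun n hn i => ?_⟩, fun n hn => by rw [hX n hn, (hD n hn).2], c0,
    fun n hn => ⟨(card_le_card (core n hn)).trans (hdeg n), fun x hx y hy h => ?_⟩⟩
  · by_cases hn : S.sup n
    · exact hX0.sub n v (by simpa [X, hn] using hv)
    · rw [hX n hn] at hv
      exact ⟨0, (mf.1 ((hD n hn).1 hv)).1⟩
  · simp only [X, if_pos hn]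
    exact hX0.sup n hn i
  · obtain ⟨a1, a2⟩ := mf.1 (core n hn hx)
    obtain ⟨a3, a4⟩ := mf.1 (core n hn hy)
    exact hc0 x a1 y a3 n a2 a4 h

end Pool.Agent.P.MP_b2489f_co
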