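import Pool.Agent.P.MP_b2489f_co.Steps
import Pool.Agent.P.MP_b2489f_co.Trim
import Pool.Agent.P.MP_b2489f_co.Example

set_option autoImplicit false
set_option linter.unusedSectionVars false

/-! The lower bound for large `g` and the exact value. -/

namespace Pool.Agent.P.MP_b2489f_co

open Finset Classical

variable {V F : Type} [Fintype V] [Fintype F]

lemma tri0 {N : F → Finset V} (plan : Plan fun v f => v ∈ N f) {a b c : F} (h1 : a ≠ b)
    (h2 : a ≠ c) (h3 : b ≠ c) : (N a ∩ N b ∩ N c).card ≤ 2 :=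
  plan.bl h1 {Sum.inr c} (conn_singleton _ _) (by simpa) (by simpa) _
    fun z hz => ⟨(mem_inter.1 (mem_inter.1 hz).1).1, (mem_inter.1 (mem_inter.1 hz).1).2, by simp,
      c, rfl, (mem_inter.1 hz).2⟩

lemma two_heavy {N : F → Finset V} (plan : Plan fun v f => v ∈ N f) {a b c : F} (h1 : a ≠ b)
    (h2 : a ≠ c) (h3 : b ≠ c) :
    (N a ∩ N b).card + (N a ∩ N c).card ≤ (N a ∩ (N b ∪ N c)).card + 2 := by
  have a1 := card_union_add_card_inter (N a ∩ N b) (N a ∩ N c)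
  have a2 := tri0 plan h1 h2 h3
  rw [← inter_union_distrib_left] at a1
  have : N a ∩ N b ∩ (N a ∩ N c) = N a ∩ N b ∩ N c := by ext; simp; tauto
  rw [this] at a1
  omega

lemma three_heavy {N : F → Finset V} (plan : Plan fun v f => v ∈ N f) {a b c d : F} (h1 : a ≠ b)
    (h2 : a ≠ c) (h3 : a ≠ d) (h4 : b ≠ c) (h5 : b ≠ d) (h6 : c ≠ d) :
    (N a ∩ N b).card + (N a ∩ N c).card + (N a ∩ N d).card ≤ (N a).card + 6 := by
  have a1 := two_heavy plan h1 h2 h4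
  have a2 := card_union_add_card_inter (N a ∩ (N b ∪ N c)) (N a ∩ N d)
  have a3 : (N a ∩ (N b ∪ N c) ∪ N a ∩ N d).card ≤ (N a).card :=
    card_le_card (union_subset inter_subset_left inter_subset_left)
  have a4 : (N a ∩ (N b ∪ N c) ∩ (N a ∩ N d)).card ≤
      (N a ∩ N b ∩ N d ∪ N a ∩ N c ∩ N d).card := card_le_card fun v hv => by
    simp only [mem_inter, mem_union] at hv ⊢; tauto
  have a5 := card_union_le (N a ∩ N b ∩ N d) (N a ∩ N c ∩ N d)
  have a6 := tri0 plan h1 h3 h5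
  have a7 := tri0 plan h2 h3 h6
  omega

theorem sys_ex (N : F → Finset V) (plan : Plan fun v f => v ∈ N f) (g h : ℕ)
    (hN : ∀ φ, (N φ).card = g) (hh : g + 6 < 3 * h) :
    ∃ (Nd : Type) (_ : Fintype Nd) (S : Sys V F Nd), S.N = N ∧ S.h = h ∧
      ∀ x y z, ¬ S.sup x → ¬ S.sup y → ¬ S.sup z → x ≠ y → x ≠ z → y ≠ z →
        (N (S.fc x 0) ∩ N (S.fc y 0)).card ≤ h ∨ (N (S.fc x 0) ∩ N (S.fc z 0)).card ≤ h ∨
        (N (S.fc y 0) ∩ N (S.fc z 0)).card ≤ h := by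
  let Hv : F → F → Prop := fun a b => a ≠ b ∧ h ≤ (N a ∩ N b).card
  have hsym : ∀ a b, Hv a b → Hv b a := fun a b x => ⟨x.1.symm, by rw [inter_comm]; exact x.2⟩
  have no3 : ∀ a b c d, Hv a b → Hv a c → Hv a d → b ≠ c → d = b ∨ d = c := by
    intro a b c d x y z e
    by_contra q
    push Not at q
    have := three_heavy plan x.1 y.1 z.1 e q.1.symm q.2.symm
    have := hN a
    have := x.2
    have := y.2
    have := z.2
    omega
  let r : Setoid F := ⟨fun a b => a = b ∨ ∃ c, Hv a b ∧ Hv a c ∧ Hv b c, fun _ => Or.inl rfl,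
    fun {a b} x => x.imp Eq.symm fun ⟨c, x1, x2, x3⟩ => ⟨c, hsym _ _ x1, x3, x2⟩, by
      rintro a b d (rfl | ⟨c, x1, x2, x3⟩) (rfl | ⟨e, y1, y2, y3⟩)
      · exact Or.inl rfl
      · exact Or.inr ⟨e, y1, y2, y3⟩
      · exact Or.inr ⟨c, x1, x2, x3⟩
      · rcases no3 b a c d (hsym _ _ x1) x3 y1 x2.1 with rfl | rfl
        · exact Or.inl rfl
        · exact Or.inr ⟨b, x2, x1, hsym _ _ x3⟩⟩
  have : ∀ n : Quotient r, ∃ f : Fin 3 → F, f 0 = n.out ∧ (∀ i, Quotient.mk r (f i) = n) ∧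
      (∀ φ, Quotient.mk r φ = n → ∃ i, f i = φ) ∧
      ((∃ b c, Hv n.out b ∧ Hv n.out c ∧ Hv b c) → ∀ i j, i ≠ j → Hv (f i) (f j)) ∧
      ((¬ ∃ b c, Hv n.out b ∧ Hv n.out c ∧ Hv b c) → ∀ i, f i = f 0) := by
    intro n
    have key : ∀ φ, Quotient.mk r φ = n → n.out = φ ∨ ∃ c, Hv n.out φ ∧ Hv n.out c ∧ Hv φ c :=
      fun φ e => Quotient.exact (n.out_eq.trans e.symm)
    by_cases q : ∃ b c, Hv n.out b ∧ Hv n.out c ∧ Hv b c
    · obtain ⟨b, c, x1, x2, x3⟩ := q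
      refine ⟨![n.out, b, c], rfl, fun i => ?_, fun φ e => ?_, fun _ i j e => ?_,
        fun q => absurd ⟨b, c, x1, x2, x3⟩ q⟩
      · fin_cases i
        · exact n.out_eq
        · exact (Quotient.sound (Or.inr ⟨c, x1, x2, x3⟩)).symm.trans n.out_eq
        · exact (Quotient.sound (Or.inr ⟨b, x2, x1, hsym _ _ x3⟩)).symm.trans n.out_eq
      · rcases key φ e with e | ⟨d, y1, -⟩
        · exact ⟨0, e⟩
        · rcases no3 _ b c φ x1 x2 y1 x3.1 with rfl | rfl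
          · exact ⟨1, rfl⟩
          · exact ⟨2, rfl⟩
      · fin_cases i <;> fin_cases j
        exacts [absurd rfl e, x1, x2, hsym _ _ x1, absurd rfl e, x3, hsym _ _ x2, hsym _ _ x3,
          absurd rfl e]
    · exact ⟨fun _ => n.out, rfl, fun _ => n.out_eq, fun φ e => ⟨0, (key φ e).resolve_right
        fun ⟨c, x⟩ => q ⟨φ, c, x⟩⟩, fun q' => absurd q' q, fun _ _ => rfl⟩
  choose fc f0 f1 f2 f3 f4 using this
  refine ⟨Quotient r, Fintype.ofFinite _, ⟨N, plan, Quotient.mk r, fc,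
    fun n => ∃ b c, Hv n.out b ∧ Hv n.out c ∧ Hv b c, h, f1, fun φ => f2 _ φ rfl,
    fun n hn i j e => by_contra fun q => (f3 n hn i j q).1 e, f4,
    fun n hn i j q => (f3 n hn i j q).2⟩, rfl, rfl, fun x y z hx _ _ a b c => ?_⟩
  by_contra q
  push Not at q
  have ne : ∀ n m : Quotient r, n ≠ m → fc n 0 ≠ fc m 0 := fun n m e e' =>
    e (by rw [← f1 n 0, e', f1])
  exact hx ⟨fc y 0, fc z 0, f0 x ▸ ⟨ne _ _ a, q.1.le⟩, f0 x ▸ ⟨ne _ _ b, q.2.1.le⟩,
    ⟨ne _ _ c, q.2.2.le⟩⟩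

theorem lower_hyp [Nonempty V] [Nonempty F] (N : F → Finset V) (plan : Plan fun v f => v ∈ N f)
    (g : ℕ) (hg : 10 ^ 110 ≤ g) (hN : ∀ φ, (N φ).card = g) :
    ∃ c : V → Fin ((3 * g - 1) / 4), ∀ φ α, ∃ v ∈ N φ, c v = α := by
  obtain ⟨Nd, _, S, rfl, hh, nocrit⟩ := sys_ex N plan g (g / 2 - 4 * (g / (4 * 10 ^ 50 + 2))) hN
    (by omega)
  have : Nonempty Nd := ⟨S.nd (Classical.arbitrary F)⟩
  have hh' : 71 + 143 * 54 < S.h := by omega
  obtain ⟨X, hX, hXc, c0, hc0⟩ := S.trim g ((3 * g - 1) / 4) 316910093 (10 ^ 50) (4 * 10 ^ 50 + 2)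
    (g / 2 + g / (4 * 10 ^ 50 + 2) + 144 * (4 * 10 ^ 50 + 2) + 2) hN hh' (by rw [hh]; exact nocrit)
    rfl (by omega) (by omega) (by omega) (by omega) (by omega)
  obtain ⟨O⟩ := S.ord hX hh'
  obtain ⟨can, can1, can2⟩ := hX.can
  have oth : ∀ i : Fin 3, i ≠ i + 1 ∧ i ≠ i + 2 ∧ i + 1 ≠ i + 2 := by decide
  have hC : ∀ s, S.sup s → ((X s).filter fun z => S.Sing z s).card ≤
      3 * (8 * (g / (4 * 10 ^ 50 + 2)) + 3) := by
    intro s hs
    refine le_trans (card_le_card fun z hz => ?_) (card_biUnion_le_mul univ (fun i =>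
      S.N (S.fc s i) \ (S.N (S.fc s (i + 1)) ∪ S.N (S.fc s (i + 2)))) 3 _ (by simp) fun i _ => ?_)
    · obtain ⟨i, hi⟩ := hX.sub s z (mf.1 hz).1
      refine mem_biUnion.2 ⟨i, mem_univ _, mem_sdiff.2 ⟨hi, fun q => ?_⟩⟩
      rcases mem_union.1 q with q | q
      · exact (oth i).1 ((mf.1 hz).2 _ _ hi q)
      · exact (oth i).2.1 ((mf.1 hz).2 _ _ hi q)
    · have inj := S.fc_sup s hs
      have a1 := two_heavy plan (inj.ne (oth i).1) (inj.ne (oth i).2.1) (inj.ne (oth i).2.2)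
      have a2 := card_sdiff_add_card_inter (S.N (S.fc s i))
        (S.N (S.fc s (i + 1)) ∪ S.N (S.fc s (i + 2)))
      have a3 := S.heavy s hs _ _ (oth i).1
      have a4 := S.heavy s hs _ _ (oth i).2.1
      rw [hN] at a2
      omega
  have hPm : ∀ s, S.sup s → ∀ i j, i ≠ j → (S.N (S.fc s i) ∩ S.N (S.fc s j)).card ≤
      g / 2 + 4 * (g / (4 * 10 ^ 50 + 2)) + 3 := by
    intro s hs i j hij
    have inj := S.fc_sup s hs
    obtain ⟨l, h1, h2⟩ : ∃ l : Fin 3, i ≠ l ∧ j ≠ l := by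
      revert i j; decide
    have a1 := two_heavy plan (inj.ne hij) (inj.ne h1) (inj.ne h2)
    have a2 : (S.N (S.fc s i) ∩ (S.N (S.fc s j) ∪ S.N (S.fc s l))).card ≤ g :=
      (card_le_card inter_subset_left).trans (hN _).le
    have a3 := S.heavy s hs _ _ h1
    omega
  have hM := fun f hf => O.card_must (f := f) (hc0 f hf).1 hC
  have : ∀ f, ∃ D : Finset V, ¬ S.sup f → univ.filter (O.Must f) ⊆ D ∧
      D ⊆ (X f).filter (O.Keep f) ∧ D.card = (3 * g - 1) / 4 := fun f => by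
    by_cases hf : S.sup f
    · exact ⟨∅, fun q => absurd hf q⟩
    · have a1 := hM f hf
      have a2 := O.card_notKeep hX hf
      have a3 := card_filter_add_card_filter_not (s := X f) (O.Keep f)
      rw [hXc f hf] at a3
      obtain ⟨D, h⟩ := exists_subsuperset_card_eq (s := univ.filter (O.Must f))
        (t := (X f).filter (O.Keep f)) (n := (3 * g - 1) / 4)
        (fun z hz => mf.2 ⟨(mf.1 hz).2.1.1, (mf.1 hz).2.1⟩) (by omega) (by omega)
      exact ⟨D, fun _ => h⟩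
  choose D hD using this
  refine Ctx.colouring ⟨X, hX, O, (3 * g - 1) / 4, 316910093, _, _, c0,
    fun f hf x hx y hy a b => (hc0 f hf).2 (O.gc_core hx a) (O.gc_core hy b), hC, hM, can, can1,
    can2, D, fun f hf z hz => (mf.1 ((hD f hf).2.1 hz)).2, fun f hf => (hD f hf).2.2,
    fun f hf z hz => (hD f hf).1 (mf.2 ⟨mem_univ _, hz⟩), fun f hf => ?_⟩ ?_ hN ?_ hPm ?_ ?_ ?_
  · rw [card_sdiff_of_subset ((hD f hf).2.1.trans (filter_subset _ _)), hXc f hf, (hD f hf).2.2]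
    omega
  · show 0 < (3 * g - 1) / 4
    omega
  · show 4 * ((3 * g - 1) / 4) + 1 ≤ 3 * g
    omega
  · simp only [Ctx.B]
    have h1 : (4 * 10 ^ 50 + 2) * (g / (4 * 10 ^ 50 + 2)) ≤ g := Nat.mul_div_le _ _
    have h2 : 2 * (g / 2) ≤ g := Nat.mul_div_le _ _
    have h3 : 3 * g ≤ 4 * ((3 * g - 1) / 4) + 4 := by omega
    generalize g / (4 * 10 ^ 50 + 2) = e at h1 ⊢
    generalize g / 2 = a at h2 ⊢
    generalize (3 * g - 1) / 4 = k at h3 ⊢
    linarith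
  · simp only [Ctx.B]
    norm_num only
    omega
  · simp only
    omega

theorem lower (g : ℕ) (hg : 10 ^ 110 ≤ g) (D : Type) [Finite D] (M : PlaneMap D)
    (hM : M.minFace = g) : (3 * g - 1) / 4 ≤ M.polyNum := by
  have := Fintype.ofFinite D
  obtain ⟨d⟩ := M.nonempty
  have : Nonempty (Orb M.σ) := ⟨orb _ d⟩
  have : Nonempty (Orb (M.σ * M.α)) := ⟨orb _ d⟩
  have : ∀ f, ∃ N : Finset (Orb M.σ), (∀ v ∈ N, v ∈ M.faceVerts f) ∧ N.card = g := fun f => by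
    have h1 : g ≤ (M.faceVerts f).ncard := hM ▸ Nat.sInf_le ⟨f, rfl⟩
    rw [Set.ncard_eq_toFinset_card'] at h1
    obtain ⟨N, h2, h3⟩ := exists_subset_card_eq h1
    exact ⟨N, fun v hv => Set.mem_toFinset.1 (h2 hv), h3⟩
  choose N h1 h2 using this
  obtain ⟨c, hc⟩ := lower_hyp N (M.plan.mono fun v f => h1 f v) g hg h2
  refine le_csSup ⟨Fintype.card (Orb M.σ), ?_⟩ ⟨c, fun f α => ?_⟩
  · rintro k ⟨c, hc⟩
    rw [← Fintype.card_fin k]
    refine Fintype.card_le_of_surjective c fun α => ?_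
    obtain ⟨v, -, h⟩ := hc (orb _ d) α
    exact ⟨v, h⟩
  · obtain ⟨v, a, b⟩ := hc f α
    exact ⟨v, h1 f v a, b⟩

theorem main (g : ℕ) (hg : 10 ^ 110 ≤ g) :
    IsLeast {k | ∃ (D : Type) (_ : Finite D) (M : PlaneMap D), M.minFace = g ∧ M.polyNum = k}
      ((3 * g - 1) / 4) := by
  obtain ⟨D, _, M, h1, h2⟩ := upper g (by omega)
  refine ⟨⟨D, inferInstance, M, h1, le_antisymm h2 (lower g hg D M h1)⟩, ?_⟩
  rintro k ⟨D', _, M', h3, rfl⟩
  exact lower g hg D' M' h3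

end Pool.Agent.P.MP_b2489f_co
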