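import Pool.Agent.P.MP_b2489f_co.Exact

set_option autoImplicit false

/-! Euler-type bounds for minors of a graph with an exact dual. -/

namespace Pool.Agent.P.MP_b2489f_co

open Finset Classical Module

lemma F2_cases (x : F2) : x = 0 ∨ x = 1 := by
  fin_cases x
  · exact Or.inl rfl
  · exact Or.inr rfl

lemma add_mem_trans {X : Type} (T : Submodule F2 (X → F2)) (a b c : X → F2) (h1 : a + b ∈ T)
    (h2 : b + c ∈ T) : a + c ∈ T := by
  have : a + c = (a + b) + (b + c) := by
    ext x; simp only [Pi.add_apply]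
    have := F2_add_self (b x)
    linear_combination -this
  rw [this]; exact T.add_mem h1 h2

theorem minor_core {D X Y ι : Type} [Fintype D] [Fintype X] [Fintype Y] [Fintype ι] [Nonempty ι]
    (p1 p2 : D → X) (q1 q2 : D → Y)
    (hex : LinearMap.range (cb q1 q2) = LinearMap.ker (bd p1 p2))
    (W : ι → Set X) (hdis : ∀ i j x, x ∈ W i → x ∈ W j → i = j)
    (hconn : ∀ i, ∃ r, ∀ x ∈ W i, Relation.ReflTransGen
      (fun a b => a ∈ W i ∧ b ∈ W i ∧ ∃ d, (p1 d = a ∧ p2 d = b) ∨ (p1 d = b ∧ p2 d = a)) r x)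
    (A : Finset (ι × ι)) (hne : ∀ a ∈ A, a.1 ≠ a.2) (hasym : ∀ a ∈ A, a.swap ∉ A)
    (hadj : ∀ a ∈ A, ∃ x ∈ W a.1, ∃ y ∈ W a.2,
      ∃ d, (p1 d = x ∧ p2 d = y) ∨ (p1 d = y ∧ p2 d = x))
    (γ : ℕ) (hγ : ∀ z : A → F2, bd (fun a : A => a.1.1) (fun a : A => a.1.2) z = 0 → z ≠ 0 →
      γ ≤ (univ.filter fun a => z a ≠ 0).card)
    (hcard : Fintype.card ι ≤ A.card) :
    γ * (A.card + 2) ≤ 2 * A.card + γ * Fintype.card ι := by
  choose r hr using hconn
  have hrep : ∀ a : A, ∃ d, (p1 d ∈ W a.1.1 ∧ p2 d ∈ W a.1.2) ∨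
      (p1 d ∈ W a.1.2 ∧ p2 d ∈ W a.1.1) := by
    intro a
    obtain ⟨x, hx, y, hy, d, h | h⟩ := hadj a.1 a.2
    · exact ⟨d, Or.inl ⟨h.1 ▸ hx, h.2 ▸ hy⟩⟩
    · exact ⟨d, Or.inr ⟨h.1 ▸ hy, h.2 ▸ hx⟩⟩
  choose rep hrep using hrep
  have hinj : Function.Injective rep := by
    intro a b hab
    have ha := hrep a
    have hb := hrep b
    rw [hab] at ha
    rcases ha with ha | ha <;> rcases hb with hb | hb
    · exact Subtype.ext (Prod.ext (hdis _ _ _ ha.1 hb.1) (hdis _ _ _ ha.2 hb.2))
    · exfalso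
      apply hasym a.1 a.2
      have : a.1.swap = b.1 := Prod.ext (hdis _ _ _ ha.2 hb.2) (hdis _ _ _ ha.1 hb.1)
      rw [this]; exact b.2
    · exfalso
      apply hasym a.1 a.2
      have : a.1.swap = b.1 := Prod.ext (hdis _ _ _ ha.1 hb.1) (hdis _ _ _ ha.2 hb.2)
      rw [this]; exact b.2
    · exact Subtype.ext (Prod.ext (hdis _ _ _ ha.2 hb.2) (hdis _ _ _ ha.1 hb.1))
  -- contracted darts
  let C : D → Prop := fun d => ∃ i, p1 d ∈ W i ∧ p2 d ∈ W i
  have hrepC : ∀ a, ¬ C (rep a) := by
    rintro a ⟨i, h1, h2⟩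
    rcases hrep a with h | h
    · exact hne a.1 a.2 ((hdis _ _ _ h.1 h1).trans (hdis _ _ _ h2 h.2))
    · exact hne a.1 a.2 ((hdis _ _ _ h.2 h2).trans (hdis _ _ _ h1 h.1))
  let Del : D → Prop := fun d => ¬ C d ∧ ∀ a, rep a ≠ d
  let st : Setoid Y := Relation.EqvGen.setoid fun y y' => ∃ d, Del d ∧ q1 d = y ∧ q2 d = y'
  let K := Quotient st
  let _ : Fintype K := Fintype.ofFinite _
  let cl : Y → K := Quotient.mk st
  have hcl : ∀ d, Del d → cl (q1 d) = cl (q2 d) := fun d hd =>
    Quotient.sound (Relation.EqvGen.rel _ _ ⟨d, hd, rfl, rfl⟩)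
  let Ψ : (K → F2) →ₗ[F2] (A → F2) := cb (fun a => cl (q1 (rep a))) (fun a => cl (q2 (rep a)))
  let ZA := LinearMap.ker (bd (fun a : A => a.1.1) (fun a : A => a.1.2))
  -- indicator of a branch set
  let χ : ι → X → F2 := fun i x => if x ∈ W i then 1 else 0
  have hχ : ∀ i j x, x ∈ W j → χ i x = dl j i := by
    intro i j x hx
    by_cases h : j = i
    · subst h; simp [χ, hx]
    · rw [dl_ne h]
      have : x ∉ W i := fun h' => h (hdis _ _ _ hx h')
      simp [χ, this]
  have hχrep : ∀ i a, χ i (p1 (rep a)) + χ i (p2 (rep a)) = dl a.1.1 i + dl a.1.2 i := by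
    intro i a
    rcases hrep a with h | h
    · rw [hχ i _ _ h.1, hχ i _ _ h.2]
    · rw [hχ i _ _ h.1, hχ i _ _ h.2, add_comm]
  have hpush : ∀ (z : D → F2) i, ∑ x, χ i x * bd p1 p2 z x =
      ∑ d, z d * (χ i (p1 d) + χ i (p2 d)) := by
    intro z i
    simp only [bd_apply, mul_sum]
    rw [sum_comm]
    refine sum_congr rfl fun d _ => ?_
    have : ∀ x, χ i x * (z d * (dl (p1 d) x + dl (p2 d) x)) =
        z d * (dl (p1 d) x * χ i x) + z d * (dl (p2 d) x * χ i x) := fun x => by ring
    simp only [this, sum_add_distrib, ← mul_sum, sum_dl_mul]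
    ring
  have hsumrep : ∀ (g : D → F2), (∀ d, (∀ a, rep a ≠ d) → g d = 0) →
      ∑ d, g d = ∑ a, g (rep a) := by
    intro g hg
    rw [← sum_image (s := univ) (g := rep) (fun a _ b _ h => hinj h)]
    refine (sum_subset (subset_univ _) fun d _ hd => hg d fun a ha => hd ?_).symm
    exact mem_image.2 ⟨a, mem_univ _, ha⟩
  -- (i) the image of Ψ consists of cycles
  have h1 : ∀ c, Ψ c ∈ ZA := by
    intro c
    have hz : bd p1 p2 (cb q1 q2 (c ∘ cl)) = 0 := by
      rw [← LinearMap.mem_ker, ← hex]; exact ⟨_, rfl⟩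
    rw [LinearMap.mem_ker]
    ext i
    have := hpush (cb q1 q2 (c ∘ cl)) i
    rw [hz] at this
    simp only [Pi.zero_apply, mul_zero, sum_const_zero] at this
    rw [hsumrep] at this
    · rw [bd_apply, Pi.zero_apply, this]
      refine sum_congr rfl fun a _ => ?_
      rw [hχrep]; rfl
    · intro d hd
      by_cases hC : C d
      · obtain ⟨j, h1, h2⟩ := hC
        rw [hχ i j _ h1, hχ i j _ h2, F2_add_self, mul_zero]
      · have := hcl d ⟨hC, hd⟩
        simp only [cb_apply, Function.comp, this, F2_add_self, zero_mul]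
  -- (ii) every cycle is in the image
  have h2 : ∀ z ∈ ZA, ∃ c, Ψ c = z := by
    intro z hz
    let S : Submodule F2 (D → F2) :=
      { carrier := {w | ∀ d, ¬ C d → w d = 0}
        add_mem' := fun {a b} ha hb d hd => by simp [ha d hd, hb d hd]
        zero_mem' := fun d _ => rfl
        smul_mem' := fun c w hw d hd => by simp [hw d hd] }
    let T := S.map (bd p1 p2)
    have hT : ∀ i, ∀ x ∈ W i, dl x + dl (r i) ∈ T := by
      intro i x hx
      have := hr i x hx
      clear hx
      induction this with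
      | refl =>
        have : dl (r i) + dl (r i) = 0 := by ext x; exact F2_add_self _
        rw [this]; exact T.zero_mem
      | @tail b c _ h ih =>
        obtain ⟨hb, hc, d, hd⟩ := h
        refine add_mem_trans T _ _ _ ?_ ih
        refine ⟨dl d, ?_, ?_⟩
        · intro d' hd'
          refine dl_ne ?_
          rintro rfl
          rcases hd with hd | hd
          · exact hd' ⟨i, hd.1 ▸ hb, hd.2 ▸ hc⟩
          · exact hd' ⟨i, hd.1 ▸ hc, hd.2 ▸ hb⟩
        · rw [bd_single]
          rcases hd with hd | hd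
          · rw [hd.1, hd.2, add_comm]
          · rw [hd.1, hd.2]
    let z0 : D → F2 := ∑ a, z a • dl (rep a)
    have hz0 : ∀ a, z0 (rep a) = z a := by
      intro a
      simp only [z0, Finset.sum_apply, Pi.smul_apply, smul_eq_mul]
      rw [sum_eq_single a]
      · simp
      · intro b _ hb
        rw [dl_ne fun h => hb (hinj h), mul_zero]
      · simp
    have hz0' : ∀ d, (∀ a, rep a ≠ d) → z0 d = 0 := by
      intro d hd
      simp only [z0, Finset.sum_apply, Pi.smul_apply, smul_eq_mul]
      exact sum_eq_zero fun a _ => by rw [dl_ne (hd a), mul_zero]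
    have hzero : ∑ a, z a • (dl (r a.1.1) + dl (r a.1.2)) = (0 : X → F2) := by
      ext x
      have hz' : ∀ i, ∑ a : A, z a * (dl a.1.1 i + dl a.1.2 i) = 0 := fun i =>
        congrFun (LinearMap.mem_ker.1 hz) i
      have : ∑ i, (∑ a : A, z a * (dl a.1.1 i + dl a.1.2 i)) * dl (r i) x = 0 := by
        simp only [hz', zero_mul, sum_const_zero]
      rw [Pi.zero_apply, ← this]
      simp only [Finset.sum_apply, Pi.smul_apply, smul_eq_mul, Pi.add_apply, sum_mul]
      rw [sum_comm]
      refine sum_congr rfl fun a _ => ?_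
      have : ∀ i, z a * (dl a.1.1 i + dl a.1.2 i) * dl (r i) x =
          z a * (dl a.1.1 i * dl (r i) x) + z a * (dl a.1.2 i * dl (r i) x) := fun i => by ring
      simp only [this, sum_add_distrib, ← mul_sum]
      rw [sum_dl_mul (fun i => dl (r i) x), sum_dl_mul (fun i => dl (r i) x)]
      ring
    have hmem : bd p1 p2 z0 ∈ T := by
      have : bd p1 p2 z0 = ∑ a, z a • ((dl (p1 (rep a)) + dl (p2 (rep a))) +
          (dl (r a.1.1) + dl (r a.1.2))) := by
        simp only [smul_add (z _) (dl (p1 _) + dl (p2 _)), sum_add_distrib, hzero, add_zero]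
        simp only [z0, map_sum, map_smul, bd_single]
      rw [this]
      refine T.sum_mem fun a _ => T.smul_mem _ ?_
      rcases hrep a with h | h
      · have := T.add_mem (hT _ _ h.1) (hT _ _ h.2)
        convert this using 1; abel
      · have := T.add_mem (hT _ _ h.1) (hT _ _ h.2)
        convert this using 1; abel
    obtain ⟨w, hwS, hw⟩ := hmem
    have hker : z0 + w ∈ LinearMap.ker (bd p1 p2) := by
      rw [LinearMap.mem_ker, map_add, hw]
      ext x; exact F2_add_self _
    rw [← hex] at hker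
    obtain ⟨u, hu⟩ := hker
    have hu' : ∀ y y', st.r y y' → u y = u y' := by
      intro y y' h
      induction h with
      | rel a b h =>
        obtain ⟨d, hd, rfl, rfl⟩ := h
        have := congrFun hu d
        rw [cb_apply, Pi.add_apply, hz0' d hd.2, hwS d hd.1, add_zero] at this
        rw [← sub_eq_zero, CharTwo.sub_eq_add]; exact this
      | refl => rfl
      | symm _ _ _ ih => exact ih.symm
      | trans _ _ _ _ _ ih1 ih2 => exact ih1.trans ih2
    refine ⟨Quotient.lift u hu', ?_⟩
    ext a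
    have := congrFun hu (rep a)
    rw [cb_apply, Pi.add_apply, hz0, hwS _ (hrepC a), add_zero] at this
    exact this
  -- dimension of the cycle space
  have h3 : A.card + 1 ≤ finrank F2 ZA + Fintype.card ι := by
    have ha := LinearMap.finrank_range_add_finrank_ker
      (bd (fun a : A => a.1.1) (fun a : A => a.1.2))
    have hb := Submodule.finrank_mono (range_bd_le (fun a : A => a.1.1) (fun a : A => a.1.2))
    have hc := finrank_ker_tot ι
    simp only [finrank_fintype_fun_eq_card, Fintype.card_coe] at ha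
    show A.card + 1 ≤ finrank F2 (LinearMap.ker (bd (fun a : A => a.1.1) (fun a : A => a.1.2))) + _
    omega
  let Q : K → A → F2 := fun κ => Ψ (dl κ)
  let S := univ.filter fun κ => Q κ ≠ 0
  have hdec : ∀ c : K → F2, Ψ c = ∑ κ, c κ • Q κ := by
    intro c
    have : c = ∑ κ, c κ • dl κ := by
      ext y; simp [Finset.sum_apply, sum_mul_dl]
    conv_lhs => rw [this]
    simp only [map_sum, map_smul, Q]
  have hS : S.Nonempty := by
    by_contra hS
    have hall : ∀ κ, Q κ = 0 := by
      intro κ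
      by_contra h
      exact hS ⟨κ, by simp [S, h]⟩
    have : ZA = ⊥ := by
      rw [eq_bot_iff]
      intro z hz
      obtain ⟨c, rfl⟩ := h2 z hz
      rw [hdec]; simp [hall]
    rw [this] at h3
    simp at h3
    omega
  obtain ⟨κ0, hκ0⟩ := hS
  have h4 : finrank F2 ZA + 1 ≤ S.card := by
    have hle : ZA ≤ Submodule.span F2 (((S.erase κ0).image Q : Finset (A → F2)) : Set (A → F2)) := by
      intro z hz
      obtain ⟨c, rfl⟩ := h2 z hz
      have h0 : Ψ (fun _ => c κ0) = 0 := by ext a; exact F2_add_self _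
      have : Ψ c = Ψ (c + fun _ => c κ0) := by rw [map_add, h0, add_zero]
      rw [this, hdec]
      refine Submodule.sum_mem _ fun κ _ => ?_
      by_cases hk : κ = κ0
      · subst hk
        simp [F2_add_self]
      by_cases hq : Q κ = 0
      · simp [hq]
      refine Submodule.smul_mem _ _ (Submodule.subset_span ?_)
      simp only [coe_image, Set.mem_image, mem_coe]
      exact ⟨κ, by simp [S, hk, hq], rfl⟩
    have := (Submodule.finrank_mono hle).trans (finrank_span_finset_le_card _)
    have h' := card_image_le (s := S.erase κ0) (f := Q)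
    rw [card_erase_of_mem hκ0] at h'
    have := card_pos.2 ⟨κ0, hκ0⟩
    omega
  have h5 : ∑ κ ∈ S, (univ.filter fun a => Q κ a ≠ 0).card ≤ 2 * A.card := by
    have := sum_card_bipartiteAbove_eq_sum_card_bipartiteBelow (s := S) (t := (univ : Finset A))
      (fun κ a => Q κ a ≠ 0)
    simp only [bipartiteAbove, bipartiteBelow] at this
    rw [this]
    calc ∑ a : A, (S.filter fun κ => Q κ a ≠ 0).card ≤ ∑ _a : A, 2 := by
          refine sum_le_sum fun a _ => ?_
          refine (card_le_card (t := {cl (q1 (rep a)), cl (q2 (rep a))}) ?_).trans card_le_two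
          intro κ hκ
          rw [mem_filter] at hκ
          by_contra hn
          simp only [mem_insert, mem_singleton, not_or] at hn
          apply hκ.2
          show dl κ (cl (q1 (rep a))) + dl κ (cl (q2 (rep a))) = 0
          rw [dl_ne hn.1, dl_ne hn.2, add_zero]
      _ = 2 * A.card := by simp [mul_comm]
  have h6 : γ * S.card ≤ ∑ κ ∈ S, (univ.filter fun a => Q κ a ≠ 0).card := by
    rw [mul_comm, ← smul_eq_mul, ← sum_const]
    refine sum_le_sum fun κ hκ => hγ _ (h1 _) (mem_filter.1 hκ).2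
  have h7 : γ * (A.card + 2) ≤ γ * (S.card + Fintype.card ι) := Nat.mul_le_mul_left _ (by omega)
  rw [mul_add γ S.card] at h7
  omega

end Pool.Agent.P.MP_b2489f_co
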