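import Pool.Agent.P.MP_b2489f_co.Order

set_option autoImplicit false
set_option linter.unusedSectionVars false

/-! The elimination order in terms of first owners. -/

namespace Pool.Agent.P.MP_b2489f_co

open Finset Classical

variable {V F Nd : Type} [Fintype V] [Fintype F] [Fintype Nd]

/-- `n` is the second node containing `v` -/
def Sec (X : Nd → Finset V) (pos : Nd → ℕ) (τ : V → Nd) (v : V) (n : Nd) : Prop :=
  v ∈ X n ∧ τ v ≠ n ∧ ∀ m, v ∈ X m → pos m < pos n → m = τ v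

/-- an order of the nodes with bounded back-connectivity -/
structure Ord (S : Sys V F Nd) (X : Nd → Finset V) where
  pos : Nd → ℕ
  inj : Function.Injective pos
  τ : V → Nd
  τ_mem : ∀ v n, v ∈ X n → v ∈ X (τ v)
  τ_le : ∀ v n, v ∈ X n → pos (τ v) ≤ pos n
  p2 : ∀ n, ((X n).filter fun v => τ v ≠ n ∧ ¬ Sec X pos τ v n).card ≤ 71
  p3 : ∀ n, (univ.filter fun m => ∃ v, Sec X pos τ v n ∧ τ v = m).card ≤ 143
  p4 : ∀ o, (univ.filter fun m => pos m < pos o ∧ ∃ s, S.sup s ∧ pos o < pos s ∧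
    ∃ z ∈ X s, ∃ x ∈ X s, τ z = o ∧ τ x = m).card ≤ 369359
  ℓ : Nd → Bool → V
  hℓ : ∀ s, S.sup s → ∀ b, ℓ s b ∈ S.N (S.fc s 0) ∧ ℓ s b ∈ S.N (S.fc s (if b then 2 else 1))
  τℓ : ∀ s, S.sup s → ∀ b, τ (ℓ s b) = s

theorem Sys.ord [Nonempty V] [Nonempty Nd] (S : Sys V F Nd) {X : Nd → Finset V} (hX : S.Adm X)
    (hh : 71 + 143 * 54 < S.h) : Nonempty (Ord S X) := by
  obtain ⟨pos, inj, hG⟩ := S.order hX hh
  have : ∀ v, ∃ t, ∀ n, v ∈ X n → v ∈ X t ∧ pos t ≤ pos n := fun v => by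
    rcases (univ.filter fun n => v ∈ X n).eq_empty_or_nonempty with h | h
    · exact ⟨Classical.arbitrary Nd, fun n hn =>
        (filter_eq_empty_iff.1 h (mem_univ n) hn).elim⟩
    · obtain ⟨t, h1, h2⟩ := exists_min_image _ pos h
      exact ⟨t, fun n hn => ⟨(mf.1 h1).2, h2 n (mf.2 ⟨mem_univ _, hn⟩)⟩⟩
  choose τ hτ using this
  have : ∀ s (b : Bool), ∃ v, S.sup s → (v ∈ S.N (S.fc s 0) ∧
      v ∈ S.N (S.fc s (if b then 2 else 1))) ∧ τ v = s := fun s b => by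
    by_cases hs : S.sup s
    · obtain ⟨v, h1, h2⟩ := S.link_ex hX hh hs (hG s) (i := 0) (j := if b then 2 else 1)
        (by cases b <;> decide)
      refine ⟨v, fun _ => ⟨h1, ?_⟩⟩
      by_contra h
      have := hτ v s (hX.sup s hs 0 h1.1)
      exact h2 _ (mem_erase.2 ⟨h, mf.2 ⟨mem_univ _, this.2⟩⟩) this.1
    · exact ⟨Classical.arbitrary V, fun h => absurd h hs⟩
  choose ℓ hℓ using this
  refine ⟨⟨pos, inj, τ, fun v n h => (hτ v n h).1, fun v n h => (hτ v n h).2, fun n => ?_,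
    fun n => ?_, fun o => ?_, ℓ, fun s h b => (hℓ s b h).1, fun s h b => (hℓ s b h).2⟩⟩
  · refine le_trans (card_le_card fun v hv => ?_) (hG n).1
    obtain ⟨h1, h2, h3⟩ := mf.1 hv
    refine mf.2 ⟨h1, ?_⟩
    simp only [Sec, not_and, not_forall] at h3
    obtain ⟨m, h4, h5, h6⟩ := h3 h1 h2
    have : ({n, τ v, m} : Finset Nd).card = 3 :=
      card_eq_three.2 ⟨_, _, _, h2.symm, by rintro rfl; omega, Ne.symm h6, rfl⟩
    rw [← this]
    refine card_le_card fun a ha => ?_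
    simp only [mem_insert, mem_singleton] at ha
    rcases ha with rfl | rfl | rfl
    · exact mf.2 ⟨mf.2 ⟨mem_univ _, le_rfl⟩, h1⟩
    · exact mf.2 ⟨mf.2 ⟨mem_univ _, (hτ v n h1).2⟩, (hτ v n h1).1⟩
    · exact mf.2 ⟨mf.2 ⟨mem_univ _, h5.le⟩, h4⟩
  · refine le_trans (card_le_card fun m hm => ?_) (hG n).2.1
    obtain ⟨v, ⟨h1, h2, h3⟩, rfl⟩ := (mf.1 hm).2
    refine mem_erase.2 ⟨h2, mf.2 ⟨mf.2 ⟨mem_univ _, (hτ v n h1).2⟩, v, h1, (hτ v n h1).1, ?_⟩⟩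
    refine le_trans (card_le_card (t := {n, τ v}) fun a ha => ?_) card_le_two
    obtain ⟨h4, h5⟩ := mf.1 ha
    rcases (mf.1 h4).2.lt_or_eq with h | h
    · simp [h3 a h5 h]
    · simp [inj h]
  · refine le_trans ?_ (hG o).2.2
    refine le_trans (card_le_card fun m hm => ?_) ((card_union_le _ _).trans
      (Nat.add_le_add_right (card_image_le (f := τ)) _))
    obtain ⟨h1, s, h2, h3, z, h4, x, h5, rfl, rfl⟩ := (mf.1 hm).2
    have g : S.Gh X (univ.filter fun m => pos m ≤ pos (τ z)) (τ z) x := by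
      refine ⟨s, fun h => by have := (mf.1 h).2; omega, h2, h5, z, h4, (hτ z s h4).1, ?_⟩
      refine le_trans (card_le_card (t := {τ z}) fun a ha => ?_) (by simp)
      obtain ⟨h6, h7⟩ := mf.1 ha
      exact mem_singleton.2 (inj (le_antisymm (mf.1 h6).2 (hτ z a h7).2))
    by_cases h : Sys.dg X (univ.filter fun m => pos m ≤ pos (τ z)) x ≤ 2
    · exact mem_union_right _ (mf.2 ⟨mem_erase.2 ⟨by rintro h'; rw [h'] at h1; omega,
        mf.2 ⟨mem_univ _, h1.le⟩⟩, x, (hτ x s h5).1, h, g⟩)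
    · exact mem_union_left _ (mem_image_of_mem _ (mf.2 ⟨mem_univ _, by omega, g⟩))

namespace Ord

variable {S : Sys V F Nd} {X : Nd → Finset V} (O : Ord S X)

abbrev sec (v : V) (n : Nd) : Prop := Sec X O.pos O.τ v n

lemma τ_lt {v : V} {n : Nd} (h : v ∈ X n) (h' : O.τ v ≠ n) : O.pos (O.τ v) < O.pos n :=
  lt_of_le_of_ne (O.τ_le v n h) fun e => h' (O.inj e)

lemma sec_lt {v : V} {n : Nd} (h : O.sec v n) : O.pos (O.τ v) < O.pos n := O.τ_lt h.1 h.2.1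

lemma sec_uniq {v : V} {n m : Nd} (h : O.sec v n) (h' : O.sec v m) : n = m := by
  rcases lt_trichotomy (O.pos n) (O.pos m) with a | a | a
  · exact absurd (h'.2.2 n h.1 a).symm h.2.1
  · exact O.inj a
  · exact absurd (h.2.2 m h'.1 a).symm h'.2.1

/-- bounding a set of vertices second-owned by `n`, class by class -/
lemma card_sec (n : Nd) (Z : Finset V) (hZ : ∀ z ∈ Z, O.sec z n) (b : ℕ)
    (h : ∀ m, (Z.filter fun z => O.τ z = m).card ≤ b) : Z.card ≤ 143 * b := by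
  refine le_trans (card_le_card fun z hz => ?_)
    (card_biUnion_le_mul _ (fun m => Z.filter fun z => O.τ z = m) 143 b (O.p3 n) fun m _ => h m)
  exact mem_biUnion.2 ⟨O.τ z, mf.2 ⟨mem_univ _, z, hZ z hz, rfl⟩, mf.2 ⟨hz, rfl⟩⟩

lemma blob_disj {s s' : Nd} (hs : S.sup s) (hs' : S.sup s') {y : V ⊕ F}
    (h1 : y ∈ S.blob O.ℓ s) (h2 : y ∈ S.blob O.ℓ s') : s = s' :=
  S.blob_disj O.ℓ (fun b b' h => by rw [← O.τℓ s hs b, h, O.τℓ s' hs' b']) h1 h2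

/-- few later supers touch three disjoint earlier hubs -/
lemma tl (hX : S.Adm X) (o : Nd) (H : Fin 3 → Set (V ⊕ F))
    (hH : ∀ i j x, x ∈ H i → x ∈ H j → i = j) (cH : ∀ i, Conn (fun v f => v ∈ S.N f) (H i))
    (h1 : ∀ i x, Sum.inl x ∈ H i → O.pos (O.τ x) ≤ O.pos o)
    (h2 : ∀ i φ, Sum.inr φ ∈ H i → O.pos (S.nd φ) ≤ O.pos o) (T : Finset Nd)
    (hT : ∀ s ∈ T, S.sup s ∧ O.pos o < O.pos s ∧ ∀ i, ∃ x ∈ X s, Sum.inl x ∈ H i) :
    T.card ≤ 2 := by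
  refine S.plan.le_two T H (S.blob O.ℓ) hH
    (fun a ha b hb x => O.blob_disj (hT a ha).1 (hT b hb).1) ?_ cH
    (fun a ha => S.blob_conn _ _ (O.hℓ a (hT a ha).1)) fun i a ha => ?_
  · rintro i a ha _ hx (⟨j, rfl⟩ | ⟨b, rfl⟩)
    · have := h2 i _ hx
      rw [S.nd_fc] at this
      have := (hT a ha).2.1
      omega
    · have := h1 i _ hx
      rw [O.τℓ a (hT a ha).1] at this
      have := (hT a ha).2.1
      omega
  · obtain ⟨x, a1, a2⟩ := (hT a ha).2.2 i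
    obtain ⟨j, hj⟩ := hX.sub a x a1
    exact ⟨_, a2, _, Or.inl ⟨j, rfl⟩, hj⟩

/-- few common vertices of two faces are tied to a hub through later supers -/
lemma bl (hX : S.Adm X) (o : Nd) {φ ψ : F} (hne : φ ≠ ψ) (H : Set (V ⊕ F))
    (cH : Conn (fun v f => v ∈ S.N f) H) (h1 : Sum.inr φ ∉ H) (h2 : Sum.inr ψ ∉ H)
    (h3 : ∀ s, S.sup s → O.pos o < O.pos s → S.nd φ ≠ s ∧ S.nd ψ ≠ s) (Z : Finset V)
    (hZ : ∀ z ∈ Z, z ∈ S.N φ ∧ z ∈ S.N ψ ∧ O.τ z = o ∧ Sum.inl z ∉ H ∧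
      ∃ s, S.sup s ∧ O.pos o < O.pos s ∧ z ∈ X s ∧ ∃ x ∈ X s, Sum.inl x ∈ H) : Z.card ≤ 2 := by
  refine S.plan.bl hne (H ∪ {y | ∃ s, (S.sup s ∧ O.pos o < O.pos s ∧ ∃ x ∈ X s, Sum.inl x ∈ H) ∧
    y ∈ S.blob O.ℓ s}) (conn_iUnion cH _ _ (fun s hs => S.blob_conn _ _ (O.hℓ s hs.1)) ?_) ?_ ?_ Z ?_
  · rintro s ⟨-, -, x, a1, a2⟩
    obtain ⟨j, hj⟩ := hX.sub s x a1
    exact ⟨_, a2, _, Or.inl ⟨j, rfl⟩, hj⟩
  · rintro (h | ⟨s, a1, ⟨i, a2⟩ | ⟨b, a2⟩⟩)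
    · exact h1 h
    · exact (h3 s a1.1 a1.2.1).1 (by rw [Sum.inr_injective a2, S.nd_fc])
    · simp at a2
  · rintro (h | ⟨s, a1, ⟨i, a2⟩ | ⟨b, a2⟩⟩)
    · exact h2 h
    · exact (h3 s a1.1 a1.2.1).2 (by rw [Sum.inr_injective a2, S.nd_fc])
    · simp at a2
  · intro z hz
    obtain ⟨a1, a2, a3, a4, s, a5, a6, a7, a8⟩ := hZ z hz
    obtain ⟨j, hj⟩ := hX.sub s z a7
    refine ⟨a1, a2, ?_, S.fc s j, Or.inr ⟨s, ⟨a5, a6, a8⟩, Or.inl ⟨j, rfl⟩⟩, hj⟩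
    rintro (h | ⟨s', b1, ⟨i, b2⟩ | ⟨b, b2⟩⟩)
    · exact a4 h
    · simp at b2
    · have := O.τℓ s' b1.1 b
      rw [← Sum.inl_injective b2, a3] at this
      have := b1.2.1
      subst_vars
      omega

end Ord

end Pool.Agent.P.MP_b2489f_co
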