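import Mathlib

set_option autoImplicit false

/-! Finite combinatorial tools. -/

namespace Pool.Agent.P.MP_b2489f_co

open Finset Classical

section Hall

variable {V K : Type}

lemma hall_aux [Nonempty K] (P : Finset V) (t : V → Finset K)
    (h : ∀ S ⊆ P, S.Nonempty → S.card ≤ (S.biUnion t).card) :
    ∃ f : V → K, Set.InjOn f P ∧ ∀ z ∈ P, f z ∈ t z := by
  obtain ⟨f, h1, h2⟩ := (all_card_le_biUnion_card_iff_exists_injective
    (fun z : P => t z.1)).1 fun S => by
      rcases S.eq_empty_or_nonempty with rfl | hS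
      · simp
      · have := h (S.map (Function.Embedding.subtype _)) (fun x hx => by
          obtain ⟨y, -, rfl⟩ := mem_map.1 hx
          exact y.2) (by simpa using hS)
        rw [card_map] at this
        refine this.trans (card_le_card fun a ha => ?_)
        obtain ⟨x, hx, ha⟩ := mem_biUnion.1 ha
        obtain ⟨y, hy, rfl⟩ := mem_map.1 hx
        exact mem_biUnion.2 ⟨y, hy, ha⟩
  refine ⟨fun z => if hz : z ∈ P then f ⟨z, hz⟩ else Classical.arbitrary K, ?_, ?_⟩
  · intro a ha b hb hab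
    simp only [mem_coe.1 ha, mem_coe.1 hb, dif_pos] at hab
    exact congrArg Subtype.val (h1 hab)
  · intro z hz
    simp only [hz, dif_pos]
    exact h2 ⟨z, hz⟩

/-- a bijection avoiding few forbidden pairs -/
lemma hall_bij [Nonempty K] (P : Finset V) (M : Finset K) (hc : P.card ≤ M.card)
    (bad : V → K → Prop) (B B' : ℕ) (h1 : ∀ z ∈ P, (M.filter (bad z)).card ≤ B)
    (h2 : ∀ α ∈ M, (P.filter fun z => bad z α).card ≤ B') (hB : B + B' ≤ M.card) :
    ∃ f : V → K, Set.InjOn f P ∧ ∀ z ∈ P, f z ∈ M ∧ ¬ bad z (f z) := by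
  obtain ⟨f, a1, a2⟩ := hall_aux P (fun z => M.filter fun α => ¬ bad z α) fun S hS ⟨z, hz⟩ => by
    by_cases h : S.card ≤ B'
    · have b1 := card_filter_add_card_filter_not (s := M) (bad z)
      have b2 := h1 z (hS hz)
      have b3 := card_le_card (subset_biUnion_of_mem (fun z => M.filter fun α => ¬ bad z α) hz)
      omega
    · refine ((card_le_card hS).trans hc).trans (card_le_card fun α hα => ?_)
      by_contra h'
      refine h ((card_le_card fun z hz => ?_).trans (h2 α hα))
      refine mem_filter.2 ⟨hS hz, ?_⟩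
      by_contra h''
      exact h' (mem_biUnion.2 ⟨z, hz, mem_filter.2 ⟨hα, h''⟩⟩)
  exact ⟨f, a1, fun z hz => mem_filter.1 (a2 z hz)⟩

/-- greedy injective list colouring -/
lemma hall_greedy [Nonempty K] [Fintype K] (P : Finset V) (bad : V → Finset K)
    (h1 : ∀ z ∈ P, (bad z).card + P.card ≤ Fintype.card K) :
    ∃ f : V → K, Set.InjOn f P ∧ ∀ z ∈ P, f z ∉ bad z := by
  obtain ⟨f, a1, a2⟩ := hall_aux P (fun z => (bad z)ᶜ) fun S hS ⟨z, hz⟩ => by
    have b1 := card_compl (bad z)
    have b2 := h1 z (hS hz)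
    have b3 := card_le_card (subset_biUnion_of_mem (fun z => (bad z)ᶜ) hz)
    have b4 := card_le_card hS
    omega
  exact ⟨f, a1, fun z hz => mem_compl.1 (a2 z hz)⟩

lemma cover_inj [Nonempty K] (P : Finset V) (T W : Finset K) (hTW : T ⊆ W) (h1 : T.card ≤ P.card)
    (h2 : P.card ≤ W.card) :
    ∃ f : V → K, Set.InjOn f P ∧ (∀ z ∈ P, f z ∈ W) ∧ ∀ α ∈ T, ∃ z ∈ P, f z = α := by
  obtain ⟨U, h3, h4, h5⟩ := exists_subsuperset_card_eq hTW h1 h2
  obtain ⟨f, a1, a2⟩ := hall_aux P (fun _ => U) fun S hS ⟨z, hz⟩ =>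
    ((card_le_card hS).trans h5.ge).trans (card_le_card (subset_biUnion_of_mem (fun _ => U) hz))
  refine ⟨f, a1, fun z hz => h4 (a2 z hz), fun α hα => ?_⟩
  have : P.image f = U := eq_of_subset_of_card_le (fun a ha => by
    obtain ⟨z, hz, rfl⟩ := mem_image.1 ha
    exact a2 z hz) (by rw [card_image_of_injOn a1, h5])
  have h6 := h3 hα
  rw [← this] at h6
  exact mem_image.1 h6

end Hall

section Split

variable {V : Type} {Q : ℕ}

lemma split1 (hQ : 0 < Q) (S : Finset V) : ∃ (lab : V → Fin Q) (R : Finset V), R.card ≤ Q ∧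
    ∀ J : Finset (Fin Q), Q * ((S \ R).filter fun v => lab v ∈ J).card = J.card * (S \ R).card := by
  obtain ⟨S', h1, h2⟩ := exists_subset_card_eq (s := S) (n := S.card / Q * Q)
    (Nat.div_mul_le_self _ _)
  have e : S' ≃ Fin (S.card / Q) × Fin Q := Fintype.equivOfCardEq (by simp [h2])
  refine ⟨fun v => if hv : v ∈ S' then (e ⟨v, hv⟩).2 else ⟨0, hQ⟩, S \ S', ?_, fun J => ?_⟩
  · rw [card_sdiff_of_subset h1, h2]
    have := Nat.div_add_mod S.card Q
    have := Nat.mod_lt S.card hQ
    rw [mul_comm]; omega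
  · rw [Finset.sdiff_sdiff_eq_self h1, h2]
    have : (S'.filter fun v => (if hv : v ∈ S' then (e ⟨v, hv⟩).2 else ⟨0, hQ⟩) ∈ J).card =
        ((univ : Finset (Fin (S.card / Q))) ×ˢ J).card := by
      refine card_bij (fun v hv => e ⟨v, (mem_filter.1 hv).1⟩) ?_ ?_ ?_
      · intro v hv
        obtain ⟨h3, h4⟩ := mem_filter.1 hv
        rw [dif_pos h3] at h4
        exact mem_product.2 ⟨mem_univ _, h4⟩
      · intro a _ b _ h
        exact congrArg Subtype.val (e.injective h)
      · intro x hx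
        refine ⟨(e.symm x).1, mem_filter.2 ⟨(e.symm x).2, ?_⟩, by simp⟩
        rw [dif_pos (e.symm x).2]
        simpa using (mem_product.1 hx).2
    rw [this, card_product, card_univ, Fintype.card_fin]
    ring

/-- simultaneous proportional labelling for two nested partitions -/
lemma split2 (hQ : 0 < Q) {K : Type} [Fintype K] (W : Finset V) (a b : V → K) :
    ∃ lab : V → Fin Q, ∀ J : Finset (Fin Q),
      (∀ n m, Q * (W.filter fun v => a v = n ∧ b v = m ∧ lab v ∈ J).card ≤
        J.card * (W.filter fun v => a v = n ∧ b v = m).card + Q * Q) ∧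
      ∀ n, Q * (W.filter fun v => a v = n ∧ lab v ∈ J).card ≤
        J.card * (W.filter fun v => a v = n).card + Q * Q := by
  choose l1 R1 h1 h2 using fun n m => split1 hQ (W.filter fun v => a v = n ∧ b v = m)
  choose l2 R2 h3 h4 using fun n => split1 hQ (W.filter fun v => a v = n ∧ v ∈ R1 (a v) (b v))
  refine ⟨fun v => if v ∈ R1 (a v) (b v) then l2 (a v) v else l1 (a v) (b v) v, fun J => ⟨?_, ?_⟩⟩
  · intro n m
    have : (W.filter fun v => a v = n ∧ b v = m ∧
        (if v ∈ R1 (a v) (b v) then l2 (a v) v else l1 (a v) (b v) v) ∈ J) ⊆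
        (((W.filter fun v => a v = n ∧ b v = m) \ R1 n m).filter fun v => l1 n m v ∈ J) ∪ R1 n m := by
      intro v hv
      obtain ⟨hW, rfl, rfl, h⟩ := mem_filter.1 hv
      by_cases hR : v ∈ R1 (a v) (b v)
      · exact mem_union_right _ hR
      · rw [if_neg hR] at h
        exact mem_union_left _ (mem_filter.2 ⟨mem_sdiff.2 ⟨mem_filter.2 ⟨hW, rfl, rfl⟩, hR⟩, h⟩)
    have c1 := (card_le_card this).trans (card_union_le _ _)
    have c2 := h2 n m J
    have c3 := Nat.mul_le_mul_left J.card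
      (card_le_card (sdiff_subset (s := W.filter fun v => a v = n ∧ b v = m) (t := R1 n m)))
    have c4 := Nat.mul_le_mul_left Q (c1.trans (Nat.add_le_add_left (h1 n m) _))
    rw [mul_add] at c4
    beta_reduce
    omega
  · intro n
    have : (W.filter fun v => a v = n ∧
        (if v ∈ R1 (a v) (b v) then l2 (a v) v else l1 (a v) (b v) v) ∈ J) ⊆
        (univ.biUnion fun m =>
          (((W.filter fun v => a v = n ∧ b v = m) \ R1 n m).filter fun v => l1 n m v ∈ J)) ∪
        ((((W.filter fun v => a v = n ∧ v ∈ R1 (a v) (b v)) \ R2 n).filter fun v => l2 n v ∈ J) ∪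
          R2 n) := by
      intro v hv
      obtain ⟨hW, rfl, h⟩ := mem_filter.1 hv
      by_cases hR : v ∈ R1 (a v) (b v)
      · rw [if_pos hR] at h
        refine mem_union_right _ ?_
        by_cases hR2 : v ∈ R2 (a v)
        · exact mem_union_right _ hR2
        · exact mem_union_left _ (mem_filter.2 ⟨mem_sdiff.2 ⟨mem_filter.2 ⟨hW, rfl, hR⟩, hR2⟩, h⟩)
      · rw [if_neg hR] at h
        exact mem_union_left _ (mem_biUnion.2 ⟨b v, mem_univ _,
          mem_filter.2 ⟨mem_sdiff.2 ⟨mem_filter.2 ⟨hW, rfl, rfl⟩, hR⟩, h⟩⟩)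
    have c1 := (card_le_card this).trans ((card_union_le _ _).trans
      (Nat.add_le_add card_biUnion_le ((card_union_le _ _).trans (Nat.add_le_add_left (h3 n) _))))
    have c2 := Nat.mul_le_mul_left Q c1
    rw [mul_add, mul_add, mul_sum, h4 n J, sum_congr rfl fun m _ => h2 n m J, ← mul_sum,
      ← add_assoc, ← mul_add] at c2
    refine c2.trans (Nat.add_le_add_right (Nat.mul_le_mul_left _ ?_) _)
    have c3 : ∑ m, ((W.filter fun v => a v = n ∧ b v = m) \ R1 n m).card =
        (W.filter fun v => a v = n ∧ v ∉ R1 (a v) (b v)).card := by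
      rw [card_eq_sum_card_fiberwise (f := b) (t := univ) fun _ _ => mem_coe.2 (mem_univ _)]
      refine sum_congr rfl fun m _ => congrArg card ?_
      ext v
      simp only [mem_sdiff, mem_filter]
      constructor
      · rintro ⟨⟨h, rfl, rfl⟩, h'⟩; exact ⟨⟨h, rfl, h'⟩, rfl⟩
      · rintro ⟨⟨h, rfl, h'⟩, rfl⟩; exact ⟨⟨h, rfl, rfl⟩, h'⟩
    have c4 := card_filter_add_card_filter_not (s := W.filter fun v => a v = n)
      (fun v => v ∈ R1 (a v) (b v))
    rw [filter_filter, filter_filter] at c4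
    have c5 := card_le_card
      (sdiff_subset (s := W.filter fun v => a v = n ∧ v ∈ R1 (a v) (b v)) (t := R2 n))
    omega

end Split

/-- greedy construction of an elimination order -/
lemma greedy_order {O : Type} [Fintype O] (Good : Finset O → O → Prop) (Inv : Finset O → Prop)
    (h0 : Inv univ) (step : ∀ U, Inv U → U.Nonempty → ∃ o ∈ U, Good U o ∧ Inv (U.erase o)) :
    ∃ pos : O → ℕ, Function.Injective pos ∧ ∀ o, Good (univ.filter fun m => pos m ≤ pos o) o := by
  have key : ∀ (n : ℕ) (U : Finset O), U.card = n → Inv U → ∃ pos : O → ℕ, Set.InjOn pos U ∧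
      (∀ o ∈ U, pos o < n) ∧ ∀ o ∈ U, Good (U.filter fun m => pos m ≤ pos o) o := by
    intro n
    induction n with
    | zero =>
      intro U hU _
      obtain rfl := card_eq_zero.1 hU
      exact ⟨fun _ => 0, by simp, by simp, by simp⟩
    | succ n ih =>
      intro U hU hI
      obtain ⟨o, ho, h1, h2⟩ := step U hI (card_pos.1 (by omega))
      obtain ⟨pos, a1, a2, a3⟩ := ih (U.erase o) (by rw [card_erase_of_mem ho]; omega) h2
      have b1 : ∀ m ∈ U, m ≠ o → pos m < n := fun m hm h => a2 m (mem_erase.2 ⟨h, hm⟩)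
      refine ⟨Function.update pos o n, ?_, ?_, ?_⟩
      · intro x hx y hy h
        by_cases h3 : x = o <;> by_cases h4 : y = o
        · rw [h3, h4]
        · subst h3
          rw [Function.update_self, Function.update_of_ne h4] at h
          have := b1 y hy h4
          omega
        · subst h4
          rw [Function.update_self, Function.update_of_ne h3] at h
          have := b1 x hx h3
          omega
        · rw [Function.update_of_ne h3, Function.update_of_ne h4] at h
          exact a1 (mem_erase.2 ⟨h3, hx⟩) (mem_erase.2 ⟨h4, hy⟩) h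
      · intro x hx
        by_cases h3 : x = o
        · subst h3; simp
        · rw [Function.update_of_ne h3]
          have := b1 x hx h3
          omega
      · intro x hx
        by_cases h3 : x = o
        · subst h3
          rw [filter_true_of_mem]
          · exact h1
          · intro m hm
            by_cases h4 : m = x
            · rw [h4]
            · rw [Function.update_self, Function.update_of_ne h4]
              exact (b1 m hm h4).le
        · have := a3 x (mem_erase.2 ⟨h3, hx⟩)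
          convert this using 1
          ext m
          simp only [mem_filter, mem_erase, Function.update_of_ne h3]
          by_cases h4 : m = o
          · subst h4
            have := b1 x hx h3
            simp only [Function.update_self, ne_eq, not_true_eq_false, false_and, iff_false]
            omega
          · simp [h4]
  obtain ⟨pos, a1, -, a3⟩ := key _ univ rfl h0
  exact ⟨pos, fun x y h => a1 (by simp) (by simp) h, fun o => a3 o (mem_univ _)⟩

/-- a colouring respecting the conflict relations is injective off one point -/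
lemma inj_off_one {V K : Type} [Nonempty V] (E : Finset V) (T : V → ℕ) (c : V → K)
    (h1 : ∀ x ∈ E, ∀ z ∈ E, T x < T z → (∃ y ∈ E, y ≠ x ∧ T y < T z) →
      (∃ y ∈ E, y ≠ z ∧ T y ≤ T z ∧ T y ≠ T x) → c x ≠ c z)
    (h2 : ∀ x ∈ E, ∀ z ∈ E, x ≠ z → T x = T z → c x ≠ c z) :
    ∃ u, ∀ x ∈ E, ∀ z ∈ E, x ≠ u → z ≠ u → c x = c z → x = z := by
  have red : ∀ u, (∀ x ∈ E, ∀ z ∈ E, x ≠ u → z ≠ u → T x < T z → c x ≠ c z) →
      ∃ u, ∀ x ∈ E, ∀ z ∈ E, x ≠ u → z ≠ u → c x = c z → x = z := by
    intro u h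
    refine ⟨u, fun x hx z hz a1 a2 a3 => ?_⟩
    by_contra a4
    rcases lt_trichotomy (T x) (T z) with a5 | a5 | a5
    · exact h x hx z hz a1 a2 a5 a3
    · exact h2 x hx z hz a4 a5 a3
    · exact h z hz x hx a2 a1 a5 a3.symm
  rcases E.eq_empty_or_nonempty with rfl | hE
  · exact ⟨Classical.arbitrary V, by simp⟩
  obtain ⟨x1, m1, b1⟩ := exists_min_image E T hE
  by_cases h3 : ∃ x2 ∈ E, x2 ≠ x1 ∧ T x2 = T x1
  · obtain ⟨x2, m2, b2, b3⟩ := h3
    rcases (E.filter fun y => T x1 < T y).eq_empty_or_nonempty with h4 | h4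
    · refine red x1 fun x hx z hz _ _ h => ?_
      have := b1 x hx
      exact absurd (mem_filter.2 ⟨hz, by omega⟩) (h4 ▸ notMem_empty z)
    · obtain ⟨w, m3, b4⟩ := exists_min_image _ T h4
      obtain ⟨m3, b5⟩ := mem_filter.1 m3
      refine red w fun x hx z hz a1 a2 h => h1 x hx z hz h ?_ ?_
      · have := b1 x hx
        by_cases a3 : x = x1
        · exact ⟨x2, m2, a3 ▸ b2, by omega⟩
        · exact ⟨x1, m1, Ne.symm a3, by omega⟩
      · have := b1 x hx
        by_cases a3 : T x = T x1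
        · exact ⟨w, m3, a2.symm, b4 z (mem_filter.2 ⟨hz, by omega⟩), by omega⟩
        · exact ⟨x1, m1, by rintro rfl; omega, by omega, Ne.symm a3⟩
  · push Not at h3
    refine red x1 fun x hx z hz a1 a2 h => ?_
    have a3 := b1 x hx
    have a4 := h3 x hx a1
    exact h1 x hx z hz h ⟨x1, m1, a1.symm, by omega⟩ ⟨x1, m1, a2.symm, by omega, a4.symm⟩

/-- completing a colouring on three faces -/
lemma complete {V : Type} {k g : ℕ} (hk : 0 < k) (A P : Fin 3 → Finset V) (Y : Finset V)
    (hA : ∀ i, (A i).card = g) (hg : 4 * k + 1 ≤ 3 * g)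
    (h3 : (Y.filter fun v => ∀ i, v ∈ A i).card ≤ 2)
    (hP : ∀ i, ∀ v ∈ P i, v ∉ A i ∧ v ∉ Y ∧ ∀ j, j ≠ i → v ∈ A j)
    (hY : ∀ v ∈ Y, ∃ i, v ∈ A i) (hcov : ∀ i, ∀ v ∈ A i, v ∈ Y ∨ ∃ j, v ∈ P j)
    (hs : ∀ i, (P i).card + Y.card ≤ k) (c : V → Fin k) (u : V)
    (hc : ∀ x ∈ Y, ∀ z ∈ Y, x ≠ u → z ≠ u → c x = c z → x = z) :
    ∃ c' : V → Fin k, (∀ v, (∀ i, v ∉ P i) → c' v = c v) ∧ (∀ i, Set.InjOn c' (P i)) ∧
      (∀ i, ∀ z ∈ P i, ∀ y ∈ Y, (∀ j, j ≠ i → y ∈ A j) → c' z ≠ c y) ∧
      ∀ i α, ∃ v ∈ A i, c' v = α := by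
  have : Nonempty (Fin k) := ⟨⟨0, hk⟩⟩
  have hPP : ∀ i j, ∀ v ∈ P i, v ∈ P j → i = j := fun i j v h1 h2 => by
    by_contra h
    exact (hP i v h1).1 ((hP j v h2).2.2 i h)
  let Cy := Y.image c
  let full : Fin k → Prop := fun α => ∀ i, ∃ y ∈ Y, y ∈ A i ∧ c y = α
  have hι : ∀ α, ∃ i, α ∈ Cy → ∃ y ∈ Y, y ∈ A i ∧ c y = α := fun α => by
    by_cases h : α ∈ Cy
    · obtain ⟨y, hy, rfl⟩ := mem_image.1 h
      obtain ⟨i, hi⟩ := hY y hy
      exact ⟨i, fun _ => ⟨y, hy, hi, rfl⟩⟩
    · exact ⟨0, fun h' => absurd h' h⟩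
  choose ι hι using hι
  let Ty : Fin 3 → Finset (Fin k) := fun i => Cy.filter fun α => ¬ full α ∧ ι α = i
  have c1 : ∑ i, (Ty i).card + (Cy.filter full).card = Cy.card := by
    rw [← card_filter_add_card_filter_not (s := Cy) full, add_comm,
      card_eq_sum_card_fiberwise (f := ι) (s := Cy.filter fun α => ¬ full α) (t := univ)
        fun _ _ => mem_coe.2 (mem_univ _)]
    simp only [filter_filter, Ty]
  have c2 : Y.card ≤ Cy.card + 1 := by
    have : (Y.erase u).card ≤ Cy.card := card_le_card_of_injOn c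
      (fun y hy => mem_image_of_mem c (mem_of_mem_erase hy))
      fun x hx z hz h => hc x (mem_of_mem_erase hx) z (mem_of_mem_erase hz) (ne_of_mem_erase hx)
        (ne_of_mem_erase hz) h
    have := pred_card_le_card_erase (s := Y) (a := u)
    omega
  have c3 : Cy.card ≤ Y.card := card_image_le
  have c4 : 0 < (Y.filter fun v => ∀ i, v ∈ A i).card → 0 < (Cy.filter full).card := by
    intro h
    obtain ⟨y, hy⟩ := card_pos.1 h
    obtain ⟨h1, h2⟩ := mem_filter.1 hy
    exact card_pos.2 ⟨c y, mem_filter.2 ⟨mem_image_of_mem c h1, fun i => ⟨y, h1, h2 i, rfl⟩⟩⟩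
  have c5 : 3 * g ≤ 2 * (∑ i, (P i).card + Y.card) + (Y.filter fun v => ∀ i, v ∈ A i).card := by
    have a1 : ∀ i, g ≤ (Y.filter fun v => v ∈ A i).card + ∑ j, if j = i then 0 else (P j).card := by
      intro i
      have : A i ⊆ (Y.filter fun v => v ∈ A i) ∪ univ.biUnion fun j => if j = i then ∅ else P j := by
        intro v hv
        rcases hcov i v hv with h | ⟨j, h⟩
        · exact mem_union_left _ (mem_filter.2 ⟨h, hv⟩)
        · refine mem_union_right _ (mem_biUnion.2 ⟨j, mem_univ _, ?_⟩)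
          rw [if_neg]
          · exact h
          · rintro rfl; exact (hP j v h).1 hv
      rw [← hA i]
      refine (card_le_card this).trans ((card_union_le _ _).trans (Nat.add_le_add_left
        (card_biUnion_le.trans (sum_le_sum fun j _ => ?_)) _))
      split_ifs <;> simp
    have a2 : ∑ i, (Y.filter fun v => v ∈ A i).card ≤
        ∑ _v ∈ Y, 2 + (Y.filter fun v => ∀ i, v ∈ A i).card := by
      simp only [card_filter]
      rw [sum_comm, ← sum_add_distrib]
      refine sum_le_sum fun v _ => ?_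
      simp only [Fin.sum_univ_three, Fin.forall_fin_succ, IsEmpty.forall_iff, and_true,
        Fin.succ_zero_eq_one, Fin.succ_one_eq_two]
      split_ifs <;> simp_all
    have b0 := a1 0
    have b1 := a1 1
    have b2 := a1 2
    simp only [Fin.sum_univ_three, sum_const, smul_eq_mul] at a2 b0 b1 b2 ⊢
    simp at b0 b1 b2
    omega
  have c6 : Cyᶜ.card + Cy.card = k := by rw [card_compl_add_card]; simp
  have hex : ∃ Fr : Fin 3 → Finset (Fin k), (∀ i, Fr i ⊆ Cyᶜ) ∧
      (∀ i j α, α ∈ Fr i → α ∈ Fr j → i = j) ∧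
      ∀ i, (Ty i).card + Cyᶜ.card ≤ (P i).card + (Fr i).card := by
    have s0 := hs 0
    have s1 := hs 1
    have s2 := hs 2
    simp only [Fin.sum_univ_three] at c1 c5
    obtain ⟨F0, a1, a2⟩ := exists_subset_card_eq (s := Cyᶜ)
      (n := (Ty 0).card + Cyᶜ.card - (P 0).card) (by omega)
    have a3 := card_sdiff_add_card_eq_card a1
    obtain ⟨F1, b1, b2⟩ := exists_subset_card_eq (s := Cyᶜ \ F0)
      (n := (Ty 1).card + Cyᶜ.card - (P 1).card) (by omega)
    have b3 := card_sdiff_add_card_eq_card b1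
    refine ⟨![F0, F1, (Cyᶜ \ F0) \ F1], ?_, ?_, ?_⟩
    · intro i
      fin_cases i
      · exact a1
      · exact b1.trans sdiff_subset
      · exact sdiff_subset.trans sdiff_subset
    · intro i j α h1 h2
      have := @b1 α
      fin_cases i <;> fin_cases j <;> simp_all
    · intro i
      fin_cases i <;> simp only [Fin.zero_eta, Fin.mk_one, Fin.reduceFinMk, Matrix.cons_val] <;>
        omega
  obtain ⟨Fr, f1, f2, f3⟩ := hex
  have hf : ∀ i, ∃ f : V → Fin k, Set.InjOn f (P i) ∧
      (∀ z ∈ P i, f z ∈ ((Y.filter fun y => ∀ j, j ≠ i → y ∈ A j).image c)ᶜ) ∧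
      ∀ α ∈ Ty i ∪ (Cyᶜ \ Fr i), ∃ z ∈ P i, f z = α := by
    intro i
    refine cover_inj _ _ _ ?_ ?_ ?_
    · intro α hα
      rw [mem_compl]
      intro h
      obtain ⟨y, hy, rfl⟩ := mem_image.1 h
      obtain ⟨h1, h2⟩ := mem_filter.1 hy
      rcases mem_union.1 hα with h4 | h4
      · obtain ⟨h4, h5, h6⟩ := mem_filter.1 h4
        refine h5 fun j => ?_
        by_cases h7 : j = i
        · rw [h7, ← h6]; exact hι _ h4
        · exact ⟨y, h1, h2 j h7, rfl⟩
      · exact mem_compl.1 (mem_sdiff.1 h4).1 (mem_image_of_mem c h1)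
    · have := card_union_le (Ty i) (Cyᶜ \ Fr i)
      have := card_sdiff_add_card_eq_card (f1 i)
      have := f3 i
      omega
    · have a1 := card_compl_add_card ((Y.filter fun y => ∀ j, j ≠ i → y ∈ A j).image c)
      have a2 : ((Y.filter fun y => ∀ j, j ≠ i → y ∈ A j).image c).card ≤ Y.card :=
        card_image_le.trans (card_filter_le _ _)
      have := hs i
      rw [Fintype.card_fin] at a1
      omega
  choose f g1 g2 g3 using hf
  let c' : V → Fin k := fun v => if h : ∃ i, v ∈ P i then f h.choose v else c v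
  have e1 : ∀ i, ∀ v ∈ P i, c' v = f i v := fun i v hv => by
    have h : ∃ i, v ∈ P i := ⟨i, hv⟩
    simp only [c', dif_pos h]
    rw [hPP _ _ v h.choose_spec hv]
  have e2 : ∀ v, (∀ i, v ∉ P i) → c' v = c v := fun v hv => by
    simp only [c']
    rw [dif_neg (not_exists.2 hv)]
  have e3 : ∀ y ∈ Y, c' y = c y := fun y hy => e2 y fun i h => (hP i y h).2.1 hy
  refine ⟨c', e2, fun i x hx y hy h => ?_, fun i z hz y hy h h' => ?_, fun j α => ?_⟩
  · rw [e1 i x hx, e1 i y hy] at h
    exact g1 i hx hy h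
  · rw [e1 i z hz] at h'
    exact mem_compl.1 (g2 i z hz) (h' ▸ mem_image_of_mem c (mem_filter.2 ⟨hy, h⟩))
  · have fin : ∀ i, i ≠ j → α ∈ Ty i ∪ (Cyᶜ \ Fr i) → ∃ v ∈ A j, c' v = α := fun i h h' => by
      obtain ⟨z, hz, h1⟩ := g3 i α h'
      exact ⟨z, (hP i z hz).2.2 j h.symm, by rw [e1 i z hz, h1]⟩
    by_cases h : α ∈ Cy
    · by_cases h1 : full α
      · obtain ⟨y, hy, h2, h4⟩ := h1 j
        exact ⟨y, h2, by rw [e3 y hy, h4]⟩
      · by_cases h2 : ι α = j
        · obtain ⟨y, hy, h5, h4⟩ := hι α h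
          exact ⟨y, h2 ▸ h5, by rw [e3 y hy, h4]⟩
        · exact fin _ h2 (mem_union_left _ (mem_filter.2 ⟨h, h1, rfl⟩))
    · by_cases h1 : α ∈ Fr (j + 1)
      · refine fin (j + 2) (by fin_cases j <;> decide) (mem_union_right _
          (mem_sdiff.2 ⟨mem_compl.2 h, fun h2 => ?_⟩))
        have := f2 _ _ α h1 h2
        revert this
        fin_cases j <;> decide
      · exact fin (j + 1) (by fin_cases j <;> decide) (mem_union_right _
          (mem_sdiff.2 ⟨mem_compl.2 h, h1⟩))

end Pool.Agent.P.MP_b2489f_co
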