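import Pool.Agent.P.MP_b2489f_co.Plan
import Pool.Agent.P.MP_b2489f_co.Tools

set_option autoImplicit false

/-! Node systems and the elimination order. -/

namespace Pool.Agent.P.MP_b2489f_co

open Finset Classical

lemma mf {α : Type} {p : α → Prop} {_ : DecidablePred p} {s : Finset α} {a : α} :
    a ∈ s.filter p ↔ a ∈ s ∧ p a := mem_filter

variable {V F Nd : Type} [Fintype V] [Fintype F] [Fintype Nd]

theorem Plan.le_two {I : V → F → Prop} (h : Plan I) {ι : Type} (S : Finset ι)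
    (H : Fin 3 → Set (V ⊕ F)) (Q : ι → Set (V ⊕ F))
    (hH : ∀ i j x, x ∈ H i → x ∈ H j → i = j)
    (hQ : ∀ a ∈ S, ∀ b ∈ S, ∀ x, x ∈ Q a → x ∈ Q b → a = b)
    (hHQ : ∀ i, ∀ a ∈ S, ∀ x ∈ H i, x ∉ Q a) (cH : ∀ i, Conn I (H i))
    (cQ : ∀ a ∈ S, Conn I (Q a)) (hT : ∀ i, ∀ a ∈ S, Touch I (H i) (Q a)) : S.card ≤ 2 := by
  by_contra hc
  have : Fintype.card (Fin 3) ≤ Fintype.card S := by
    rw [Fintype.card_coe, Fintype.card_fin]; omega
  obtain ⟨e⟩ := Function.Embedding.nonempty_of_card_le this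
  exact h.noK33 H (fun j => Q (e j)) hH
    (fun i j x h1 h2 => e.injective (Subtype.ext (hQ _ (e i).2 _ (e j).2 x h1 h2)))
    (fun i j x h1 => hHQ i _ (e j).2 x h1) cH (fun j => cQ _ (e j).2) fun i j => hT i _ (e j).2

/-- two faces and a connected set have at most two common neighbours -/
theorem Plan.bl {I : V → F → Prop} (h : Plan I) {φ ψ : F} (hne : φ ≠ ψ) (H : Set (V ⊕ F))
    (cH : Conn I H) (h1 : Sum.inr φ ∉ H) (h2 : Sum.inr ψ ∉ H) (Z : Finset V)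
    (hZ : ∀ z ∈ Z, I z φ ∧ I z ψ ∧ Sum.inl z ∉ H ∧ ∃ χ, Sum.inr χ ∈ H ∧ I z χ) : Z.card ≤ 2 := by
  refine h.le_two Z ![{Sum.inr φ}, {Sum.inr ψ}, H] (fun z => {Sum.inl z}) ?_ ?_ ?_ ?_
    (fun _ _ => conn_singleton _ _) ?_
  · intro i j x a1 a2
    fin_cases i <;> fin_cases j <;> simp_all
  · intro a _ b _ x a1 a2
    exact Sum.inl_injective (a1.symm.trans a2)
  · intro i a ha x a1 a2
    rw [Set.mem_singleton_iff.1 a2] at a1
    have := (hZ a ha).2.2.1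
    fin_cases i <;> simp_all
  · intro i
    fin_cases i
    · exact conn_singleton _ _
    · exact conn_singleton _ _
    · exact cH
  · intro i a ha
    obtain ⟨a1, a2, -, χ, a3, a4⟩ := hZ a ha
    fin_cases i
    · exact ⟨_, rfl, _, rfl, a1⟩
    · exact ⟨_, rfl, _, rfl, a2⟩
    · exact ⟨_, a3, _, rfl, a4⟩

omit [Fintype V] [Fintype F] in
lemma conn_star (I : V → F → Prop) (φ : F) (S : V → Prop) (hS : ∀ x, S x → I x φ) :
    Conn I ({Sum.inr φ} ∪ {y | ∃ x, S x ∧ y = Sum.inl x}) :=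
  conn_iUnion (conn_singleton I _) S (fun x => {Sum.inl x}) (fun _ _ => conn_singleton _ _)
    fun x hx => ⟨_, rfl, _, rfl, hS x hx⟩

lemma card_biUnion_le_mul {α β : Type} [DecidableEq β] (S : Finset α) (f : α → Finset β) (a b : ℕ)
    (h1 : S.card ≤ a) (h2 : ∀ x ∈ S, (f x).card ≤ b) : (S.biUnion f).card ≤ a * b :=
  (card_biUnion_le_card_mul S f b h2).trans (Nat.mul_le_mul_right _ h1)

/-- faces grouped into nodes: single faces and heavy triples -/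
structure Sys (V F Nd : Type) [DecidableEq V] where
  N : F → Finset V
  plan : Plan fun v f => v ∈ N f
  nd : F → Nd
  fc : Nd → Fin 3 → F
  sup : Nd → Prop
  h : ℕ
  nd_fc : ∀ n i, nd (fc n i) = n
  fc_nd : ∀ φ, ∃ i, fc (nd φ) i = φ
  fc_sup : ∀ n, sup n → Function.Injective (fc n)
  fc_nor : ∀ n, ¬ sup n → ∀ i, fc n i = fc n 0
  heavy : ∀ n, sup n → ∀ i j, i ≠ j → h ≤ (N (fc n i) ∩ N (fc n j)).card

namespace Sys

variable (S : Sys V F Nd)

/-- admissible vertex sets of the nodes -/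
structure Adm (X : Nd → Finset V) : Prop where
  sub : ∀ n, ∀ v ∈ X n, ∃ i, v ∈ S.N (S.fc n i)
  sup : ∀ n, S.sup n → ∀ i, S.N (S.fc n i) ⊆ X n

omit [Fintype Nd] in
lemma tri {a b c : F} (h1 : a ≠ b) (h2 : a ≠ c) (h3 : b ≠ c) (Z : Finset V)
    (hZ : ∀ z ∈ Z, z ∈ S.N a ∧ z ∈ S.N b ∧ z ∈ S.N c) : Z.card ≤ 2 :=
  S.plan.bl h1 {Sum.inr c} (conn_singleton _ _) (by simpa) (by simpa) Z
    fun z hz => ⟨(hZ z hz).1, (hZ z hz).2.1, by simp, c, rfl, (hZ z hz).2.2⟩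

omit [Fintype V] [Fintype F] [Fintype Nd] in
lemma fc_ne {n m : Nd} (h : n ≠ m) (i j : Fin 3) : S.fc n i ≠ S.fc m j := fun h' =>
  h (by rw [← S.nd_fc n i, h', S.nd_fc])

omit [Fintype Nd] in
lemma share {X : Nd → Finset V} (hX : S.Adm X) {s m : Nd} (hs : S.sup s) (hm : m ≠ s)
    (Z : Finset V) (hZ : ∀ z ∈ Z, z ∈ X m ∧ ∃ i j, i ≠ j ∧ z ∈ S.N (S.fc s i) ∧ z ∈ S.N (S.fc s j)) :
    Z.card ≤ 54 := by
  have : Z ⊆ (univ : Finset (Fin 3 × Fin 3 × Fin 3)).biUnion fun p => Z.filter fun z =>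
      p.1 ≠ p.2.1 ∧ z ∈ S.N (S.fc s p.1) ∧ z ∈ S.N (S.fc s p.2.1) ∧ z ∈ S.N (S.fc m p.2.2) := by
    intro z hz
    obtain ⟨h1, i, j, h2, h3, h4⟩ := hZ z hz
    obtain ⟨l, hl⟩ := hX.sub m z h1
    exact mem_biUnion.2 ⟨(i, j, l), mem_univ _, mem_filter.2 ⟨hz, h2, h3, h4, hl⟩⟩
  refine (card_le_card this).trans (card_biUnion_le_mul _ _ 27 2 (by simp) fun p _ => ?_)
  by_cases h : p.1 = p.2.1
  · simp [h]
  · exact S.tri (fun h' => h (S.fc_sup s hs h')) (S.fc_ne hm.symm _ _) (S.fc_ne hm.symm _ _) _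
      fun z hz => (mem_filter.1 hz).2.2

omit [Fintype V] [Fintype Nd] in
lemma card_faces (T : Finset Nd) : (univ.filter fun φ => S.nd φ ∈ T).card ≤ 3 * T.card := by
  have : (univ.filter fun φ => S.nd φ ∈ T) ⊆ (T ×ˢ univ).image fun p => S.fc p.1 p.2 := by
    intro φ hφ
    obtain ⟨i, hi⟩ := S.fc_nd φ
    exact mem_image.2 ⟨(S.nd φ, i), mem_product.2 ⟨(mem_filter.1 hφ).2, mem_univ _⟩, hi⟩
  refine (card_le_card this).trans (card_image_le.trans ?_)
  rw [card_product, card_univ, Fintype.card_fin, mul_comm]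

omit [Fintype V] [Fintype F] [Fintype Nd] in
lemma Adm.can {S : Sys V F Nd} {X : Nd → Finset V} (hX : S.Adm X) :
    ∃ can : Nd → V → F, (∀ n v, S.nd (can n v) = n) ∧ ∀ n, ∀ v ∈ X n, v ∈ S.N (can n v) := by
  have : ∀ n v, ∃ φ, S.nd φ = n ∧ (v ∈ X n → v ∈ S.N φ) := fun n v => by
    by_cases h : v ∈ X n
    · obtain ⟨i, hi⟩ := hX.sub n v h
      exact ⟨_, S.nd_fc n i, fun _ => hi⟩
    · exact ⟨_, S.nd_fc n 0, fun h' => absurd h' h⟩
  choose can h1 h2 using this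
  exact ⟨can, h1, h2⟩

/-- a heavy triple together with two linking vertices -/
def blob (ℓ : Nd → Bool → V) (s : Nd) : Set (V ⊕ F) :=
  {y | (∃ i, y = Sum.inr (S.fc s i)) ∨ ∃ b, y = Sum.inl (ℓ s b)}

omit [Fintype V] [Fintype F] [Fintype Nd] in
lemma blob_conn (ℓ : Nd → Bool → V) (s : Nd)
    (h : ∀ b, ℓ s b ∈ S.N (S.fc s 0) ∧ ℓ s b ∈ S.N (S.fc s (if b then 2 else 1))) :
    Conn (fun v f => v ∈ S.N f) (S.blob ℓ s) := by
  refine ⟨Sum.inr (S.fc s 0), ?_⟩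
  have a1 : ∀ b, Relation.ReflTransGen (fun a b => a ∈ S.blob ℓ s ∧ b ∈ S.blob ℓ s ∧
      Adj (fun v f => v ∈ S.N f) a b) (Sum.inr (S.fc s 0)) (Sum.inl (ℓ s b)) := fun b =>
    Relation.ReflTransGen.single ⟨Or.inl ⟨0, rfl⟩, Or.inr ⟨b, rfl⟩, (h b).1⟩
  rintro _ (⟨i, rfl⟩ | ⟨b, rfl⟩)
  · fin_cases i
    · rfl
    · exact (a1 false).tail ⟨Or.inr ⟨_, rfl⟩, Or.inl ⟨_, rfl⟩, (h false).2⟩
    · exact (a1 true).tail ⟨Or.inr ⟨_, rfl⟩, Or.inl ⟨_, rfl⟩, (h true).2⟩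
  · exact a1 b

omit [Fintype V] [Fintype F] [Fintype Nd] in
lemma blob_disj (ℓ : Nd → Bool → V) {s s' : Nd} (h : ∀ b b', ℓ s b = ℓ s' b' → s = s')
    {y : V ⊕ F} (h1 : y ∈ S.blob ℓ s) (h2 : y ∈ S.blob ℓ s') : s = s' := by
  rcases h1 with ⟨i, rfl⟩ | ⟨b, rfl⟩ <;> rcases h2 with ⟨j, h2⟩ | ⟨b', h2⟩
  · by_contra h3; exact S.fc_ne h3 _ _ (Sum.inr_injective h2)
  · simp at h2
  · simp at h2
  · exact h _ _ (Sum.inl_injective h2)

variable (X : Nd → Finset V)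

/-- number of current nodes containing a vertex -/
noncomputable def dg (U : Finset Nd) (v : V) : ℕ := (U.filter fun m => v ∈ X m).card

noncomputable def Hv (U : Finset Nd) (n : Nd) : Finset V := (X n).filter fun v => 3 ≤ dg X U v

noncomputable def Tc (U : Finset Nd) (n : Nd) : Finset Nd :=
  U.filter fun m => ∃ x ∈ X n, x ∈ X m ∧ dg X U x ≤ 2

def Gh (U : Finset Nd) (o : Nd) (x : V) : Prop :=
  ∃ s, s ∉ U ∧ S.sup s ∧ x ∈ X s ∧ ∃ z ∈ X s, z ∈ X o ∧ dg X U z ≤ 1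

noncomputable def G1 (U : Finset Nd) (o : Nd) : Finset V :=
  univ.filter fun x => 3 ≤ dg X U x ∧ S.Gh X U o x

noncomputable def G2 (U : Finset Nd) (o : Nd) : Finset Nd :=
  (U.erase o).filter fun m => ∃ x ∈ X m, dg X U x ≤ 2 ∧ S.Gh X U o x

def Good (U : Finset Nd) (o : Nd) : Prop :=
  (Hv X U o).card ≤ 71 ∧ ((Tc X U o).erase o).card ≤ 143 ∧
    (S.G1 X U o).card + (S.G2 X U o).card ≤ 369359

def Inv (U : Finset Nd) : Prop :=
  (∀ s, s ∉ U → S.sup s → 2 * (Hv X U s).card + (Tc X U s).card ≤ 285) ∧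
  ∃ ℓ : Nd → Bool → V, (∀ s, s ∉ U → S.sup s → ∀ b, (ℓ s b ∈ S.N (S.fc s 0) ∧
      ℓ s b ∈ S.N (S.fc s (if b then 2 else 1))) ∧ ∀ m ∈ U, ℓ s b ∉ X m) ∧
    ∀ s s', s ∉ U → s' ∉ U → S.sup s → S.sup s' → ∀ b b', ℓ s b = ℓ s' b' → s = s'

omit [Fintype V] [Fintype Nd] in
lemma dg_erase_le (U : Finset Nd) (o : Nd) (v : V) : dg X (U.erase o) v ≤ dg X U v :=
  card_le_card (filter_subset_filter _ (erase_subset _ _))

omit [Fintype V] [Fintype Nd] in
lemma wt_step (U : Finset Nd) (o s : Nd) :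
    2 * (Hv X (U.erase o) s).card + (Tc X (U.erase o) s).card ≤
      2 * (Hv X U s).card + ((Tc X U s).erase o).card := by
  have h1 : Hv X (U.erase o) s ⊆ Hv X U s := fun v hv =>
    mem_filter.2 ⟨(mem_filter.1 hv).1, (mem_filter.1 hv).2.trans (dg_erase_le X U o v)⟩
  have h2 : Tc X (U.erase o) s ⊆ (Tc X U s).erase o ∪ (Hv X U s \ Hv X (U.erase o) s).biUnion
      fun x => (U.erase o).filter fun m => x ∈ X m := by
    intro m hm
    obtain ⟨a1, x, a2, a3, a4⟩ := mem_filter.1 hm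
    by_cases h : dg X U x ≤ 2
    · exact mem_union_left _ (mem_erase.2 ⟨(mem_erase.1 a1).1,
        mem_filter.2 ⟨(mem_erase.1 a1).2, x, a2, a3, h⟩⟩)
    · refine mem_union_right _ (mem_biUnion.2 ⟨x, mem_sdiff.2 ⟨mem_filter.2 ⟨a2, by omega⟩,
        fun h' => ?_⟩, mem_filter.2 ⟨a1, a3⟩⟩)
      have := (mem_filter.1 h').2
      omega
  have h3 := (card_le_card h2).trans ((card_union_le _ _).trans (Nat.add_le_add_left
    (card_biUnion_le_card_mul _ _ 2 fun x hx => by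
      obtain ⟨a1, a2⟩ := mem_sdiff.1 hx
      by_contra h
      exact a2 (mem_filter.2 ⟨(mem_filter.1 a1).1, not_le.1 h⟩)) _))
  have h4 := card_sdiff_add_card_eq_card h1
  omega

variable {X}

omit [Fintype Nd] in
lemma link_ex (hX : S.Adm X) (hh : 71 + 143 * 54 < S.h) {U : Finset Nd} {o : Nd}
    (hs : S.sup o) (hG : S.Good X U o) {i j : Fin 3} (hij : i ≠ j) :
    ∃ v, (v ∈ S.N (S.fc o i) ∧ v ∈ S.N (S.fc o j)) ∧ ∀ m ∈ U.erase o, v ∉ X m := by
  by_contra h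
  push Not at h
  have : S.N (S.fc o i) ∩ S.N (S.fc o j) ⊆ Hv X U o ∪ ((Tc X U o).erase o).biUnion
      fun m => (S.N (S.fc o i) ∩ S.N (S.fc o j)).filter fun v => v ∈ X m := by
    intro v hv
    obtain ⟨m, h1, h2⟩ := h v (mem_inter.1 hv)
    have h3 := hX.sup o hs i (mem_inter.1 hv).1
    by_cases h4 : dg X U v ≤ 2
    · exact mem_union_right _ (mem_biUnion.2 ⟨m, mem_erase.2 ⟨(mem_erase.1 h1).1,
        mem_filter.2 ⟨(mem_erase.1 h1).2, v, h3, h2, h4⟩⟩, mem_filter.2 ⟨hv, h2⟩⟩)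
    · exact mem_union_left _ (mem_filter.2 ⟨h3, by omega⟩)
  have h3 := (card_le_card this).trans ((card_union_le _ _).trans (Nat.add_le_add hG.1
    (card_biUnion_le_mul _ _ 143 54 hG.2.1 fun m hm => S.share hX hs (mem_erase.1 hm).1 _
      fun z hz => ⟨(mem_filter.1 hz).2, i, j, hij, mem_inter.1 (mem_filter.1 hz).1⟩)))
  have := S.heavy o hs i j hij
  omega

omit [Fintype Nd] in
lemma inv_step (hX : S.Adm X) (hh : 71 + 143 * 54 < S.h) {U : Finset Nd} {o : Nd} (ho : o ∈ U)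
    (hI : S.Inv X U) (hG : S.Good X U o) : S.Inv X (U.erase o) := by
  obtain ⟨h1, ℓ, h2, h3⟩ := hI
  have nm : ∀ s, s ∉ U.erase o → s ≠ o → s ∉ U := fun s a b c => a (mem_erase.2 ⟨b, c⟩)
  refine ⟨fun s a b => ?_, ?_⟩
  · have := wt_step X U o s
    by_cases c : s = o
    · subst c
      have := hG.1
      have := hG.2.1
      omega
    · have := h1 s (nm s a c) b
      have := card_erase_le (s := Tc X U s) (a := o)
      omega
  · by_cases hs : S.sup o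
    · have : ∀ b : Bool, ∃ v, (v ∈ S.N (S.fc o 0) ∧ v ∈ S.N (S.fc o (if b then 2 else 1))) ∧
          ∀ m ∈ U.erase o, v ∉ X m := fun b => S.link_ex hX hh hs hG (by cases b <;> decide)
      choose l hl using this
      have key : ∀ s, s ∉ U → S.sup s → ∀ b b', ℓ s b ≠ l b' := fun s a c b b' h =>
        (h2 s a c b).2 o ho (h ▸ hX.sup o hs 0 (hl b').1.1)
      refine ⟨Function.update ℓ o l, fun s a c b => ?_, fun s s' a a' c c' b b' h => ?_⟩
      · by_cases d : s = o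
        · subst d
          rw [Function.update_self]; exact hl b
        · rw [Function.update_of_ne d]
          exact ⟨(h2 s (nm s a d) c b).1, fun m hm => (h2 s (nm s a d) c b).2 m (mem_of_mem_erase hm)⟩
      · by_cases d : s = o <;> by_cases d' : s' = o
        · rw [d, d']
        · subst d
          rw [Function.update_self, Function.update_of_ne d'] at h
          exact (key s' (nm s' a' d') c' _ _ h.symm).elim
        · subst d'
          rw [Function.update_self, Function.update_of_ne d] at h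
          exact (key s (nm s a d) c _ _ h).elim
        · rw [Function.update_of_ne d, Function.update_of_ne d'] at h
          exact h3 s s' (nm s a d) (nm s' a' d') c c' _ _ h
    · have nm' : ∀ s, s ∉ U.erase o → S.sup s → s ∉ U := fun s a c =>
        nm s a (by rintro rfl; exact hs c)
      exact ⟨ℓ, fun s a c b => ⟨(h2 s (nm' s a c) c b).1,
        fun m hm => (h2 s (nm' s a c) c b).2 m (mem_of_mem_erase hm)⟩,
        fun s s' a a' c c' => h3 s s' (nm' s a c) (nm' s' a' c') c c'⟩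

lemma sum_hv (hX : S.Adm X) (U : Finset Nd) :
    (univ.filter fun v => 3 ≤ dg X U v).card ≤ 6 * U.card ∧
      ∑ o ∈ U, (Hv X U o).card ≤ 18 * U.card := by
  obtain ⟨can, c1, c2⟩ := hX.can
  let E := (U.sigma fun o => Hv X U o).image fun p => (p.2, can p.1 p.2)
  have e1 : E.card = ∑ o ∈ U, (Hv X U o).card := by
    rw [card_image_of_injective, card_sigma]
    rintro ⟨a, x⟩ ⟨b, y⟩ h
    simp only [Prod.mk.injEq] at h
    obtain ⟨rfl, h⟩ := h
    obtain rfl : a = b := by rw [← c1 a x, h, c1]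
    rfl
  have e2 := S.plan.sparse E (fun e he => by
      obtain ⟨p, hp, rfl⟩ := mem_image.1 he
      exact c2 _ _ (mem_filter.1 (mem_sigma.1 hp).2).1)
    (univ.filter fun v => 3 ≤ dg X U v) (univ.filter fun φ => S.nd φ ∈ U)
    (fun e he => by
      obtain ⟨p, hp, rfl⟩ := mem_image.1 he
      exact mem_filter.2 ⟨mem_univ _, (mem_filter.1 (mem_sigma.1 hp).2).2⟩)
    (fun e he => by
      obtain ⟨p, hp, rfl⟩ := mem_image.1 he
      exact mem_filter.2 ⟨mem_univ _, by rw [c1]; exact (mem_sigma.1 hp).1⟩)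
  have e3 := S.card_faces U
  have e4 : (univ.filter fun v => 3 ≤ dg X U v).card * 3 ≤ ∑ o ∈ U, (Hv X U o).card := by
    have : ∀ o, (Hv X U o).card =
        ∑ v ∈ univ.filter fun v => 3 ≤ dg X U v, if v ∈ X o then 1 else 0 := fun o => by
      rw [← card_filter]
      congr 1
      ext v
      simp [Hv, and_comm]
    rw [sum_congr rfl fun o _ => this o, sum_comm, ← smul_eq_mul, ← sum_const]
    refine sum_le_sum fun v hv => ?_
    rw [← card_filter]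
    exact (mem_filter.1 hv).2
  omega

lemma sum_tc (hX : S.Adm X) (U : Finset Nd) :
    ∑ o ∈ U, ((Tc X U o).erase o).card ≤ 36 * U.card := by
  obtain ⟨can, c1, c2⟩ := hX.can
  have h1 := S.plan.connectors (C := {φ // S.nd φ ∈ U}) (Γ := V) (fun c => {Sum.inr c.1})
    (fun v => {Sum.inl v}) (fun v => dg X U v ≤ 2)
    (fun i j x a b => Subtype.ext (Sum.inr_injective (a.symm.trans b)))
    (fun i j x _ _ a b => Sum.inl_injective (a.symm.trans b))
    (fun i j x _ a b => by rw [Set.mem_singleton_iff.1 a] at b; simp at b)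
    (fun _ => conn_singleton _ _) (fun _ _ => conn_singleton _ _)
    (fun v c => ∃ m, v ∈ X m ∧ c.1 = can m v)
    (fun v c _ ⟨m, a, b⟩ => ⟨_, rfl, _, rfl, by rw [b]; exact c2 m v a⟩) 2
    (fun v hv => le_trans (card_le_card_of_injOn (fun c => S.nd c.1) (fun c hc => by
      obtain ⟨m, a, b⟩ := (mf.1 hc).2
      refine mem_coe.2 (mf.2 ⟨c.2, ?_⟩)
      beta_reduce
      rw [b, c1]; exact a) (fun c hc c' hc' h => by
      obtain ⟨m, a, b⟩ := (mf.1 hc).2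
      obtain ⟨m', a', b'⟩ := (mf.1 hc').2
      simp only [b, b', c1] at h
      exact Subtype.ext (by rw [b, b', h]))) hv)
  have h2 := S.card_faces U
  rw [Fintype.card_subtype] at h1
  rw [← card_sigma]
  refine le_trans (card_le_card_of_surjOn
    (fun p : {φ // S.nd φ ∈ U} × {φ // S.nd φ ∈ U} => (⟨S.nd p.1.1, S.nd p.2.1⟩ : Σ _ : Nd, Nd))
    ?_) (h1.trans (by omega))
  rintro ⟨o, m⟩ hp
  obtain ⟨a1, a2⟩ := mem_sigma.1 (mem_coe.1 hp)
  obtain ⟨a2, a3⟩ := mem_erase.1 a2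
  obtain ⟨a3, x, a4, a5, a6⟩ := mf.1 a3
  refine ⟨(⟨can o x, by rw [c1]; exact a1⟩, ⟨can m x, by rw [c1]; exact a3⟩),
    mem_coe.2 (mf.2 ⟨mem_univ _, fun h => a2 ?_, x, a6, ⟨o, a4, rfl⟩, ⟨m, a5, rfl⟩⟩),
    by simp [c1]⟩
  have := congrArg (fun c : {φ // S.nd φ ∈ U} => S.nd c.1) h
  simpa [c1] using this.symm

lemma sum_gh_aux (hX : S.Adm X) (U : Finset Nd) (hI : S.Inv X U) (a : V → Nd) :
    (((U.sigma fun o => S.G1 X U o).filter fun p => ∀ z ∈ X p.1, dg X U z ≤ 1 → a z = p.1).card +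
    ((U.sigma fun o => (U.erase o).filter fun m =>
      ∃ x ∈ X m, a x = m ∧ dg X U x ≤ 2 ∧ S.Gh X U o x).filter
        fun p => ∀ z ∈ X p.1, dg X U z ≤ 1 → a z = p.1).card) ≤ 46170 * U.card := by
  obtain ⟨can, c1, c2⟩ := hX.can
  obtain ⟨w, ℓ, l1, l2⟩ := hI
  let W : {φ // S.nd φ ∈ U} ⊕ {x // 3 ≤ dg X U x} → Set (V ⊕ F) := Sum.elim
    (fun c => {Sum.inr c.1} ∪
      {y | ∃ x, (dg X U x ≤ 2 ∧ x ∈ X (a x) ∧ can (a x) x = c.1) ∧ y = Sum.inl x})
    fun x => {Sum.inl x.1}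
  have hW : ∀ c x, Sum.inl x ∈ W c ↔ Sum.elim
      (fun c : {φ // S.nd φ ∈ U} => dg X U x ≤ 2 ∧ x ∈ X (a x) ∧ can (a x) x = c.1)
      (fun y : {x // 3 ≤ dg X U x} => x = y.1) c := by
    rintro (c | c) x <;> simp [W]
  have hW' : ∀ c φ, Sum.inr φ ∈ W c ↔ Sum.elim (fun c : {φ // S.nd φ ∈ U} => φ = c.1)
      (fun _ : {x // 3 ≤ dg X U x} => False) c := by
    rintro (c | c) x <;> simp [W]
  have h1 := S.plan.connectors W (S.blob ℓ) (fun s => s ∉ U ∧ S.sup s) ?_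
    (fun i j x a b => S.blob_disj ℓ (l2 i j a.1 b.1 a.2 b.2)) ?_ ?_
    (fun s hs => S.blob_conn ℓ s fun b => (l1 s hs.1 hs.2 b).1)
    (fun s c => ∃ x ∈ X s, Sum.inl x ∈ W c) ?_ 855 ?_
  · have h2 := S.card_faces U
    have h3 := (S.sum_hv hX U).1
    rw [Fintype.card_sum, Fintype.card_subtype, Fintype.card_subtype] at h1
    rw [← card_disjSum]
    refine le_trans (card_le_card_of_surjOn (fun p => Sum.elim
      (fun c : {φ // S.nd φ ∈ U} => Sum.elim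
        (fun d : {φ // S.nd φ ∈ U} => (Sum.inr ⟨S.nd c.1, S.nd d.1⟩ :
          (Σ _ : Nd, V) ⊕ (Σ _ : Nd, Nd)))
        (fun x : {x // 3 ≤ dg X U x} => Sum.inl ⟨S.nd c.1, x.1⟩) p.2)
      (fun x : {x // 3 ≤ dg X U x} => Sum.inr ⟨a x.1, a x.1⟩) p.1) ?_) (h1.trans (by omega))
    rintro (⟨o, x⟩ | ⟨o, m⟩) hp
    · obtain ⟨a1, a2⟩ := mf.1 (inl_mem_disjSum.1 (mem_coe.1 hp))
      obtain ⟨a1, a3⟩ := mem_sigma.1 a1
      obtain ⟨a3, s, a4, a5, a6, z, a7, a8, a9⟩ := (mf.1 a3).2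
      have b1 : a z = o := a2 z a8 a9
      refine ⟨(Sum.inl ⟨can o z, by rw [c1]; exact a1⟩, Sum.inr ⟨x, a3⟩),
        mem_coe.2 (mf.2 ⟨mem_univ _, by simp, s, ⟨a4, a5⟩, ⟨z, a7, ?_⟩, x, a6, ?_⟩),
        by simp [c1]⟩
      · rw [hW]; exact ⟨by omega, b1 ▸ a8, by rw [b1]⟩
      · rw [hW]; rfl
    · obtain ⟨a1, a2⟩ := mf.1 (inr_mem_disjSum.1 (mem_coe.1 hp))
      obtain ⟨a1, a3⟩ := mem_sigma.1 a1
      obtain ⟨a0, x, b2, b3, b4, s, a4, a5, a6, z, a7, a8, a9⟩ := mf.1 a3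
      have b1 : a z = o := a2 z a8 a9
      refine ⟨(Sum.inl ⟨can o z, by rw [c1]; exact a1⟩,
        Sum.inl ⟨can m x, by rw [c1]; exact (mem_erase.1 a0).2⟩),
        mem_coe.2 (mf.2 ⟨mem_univ _, fun h => (mem_erase.1 a0).1 ?_, s, ⟨a4, a5⟩,
          ⟨z, a7, ?_⟩, x, a6, ?_⟩), by simp [c1]⟩
      · have := congrArg (fun c : {φ // S.nd φ ∈ U} => S.nd c.1) (Sum.inl_injective h)
        simpa [c1] using this.symm
      · rw [hW]; exact ⟨by omega, b1 ▸ a8, by rw [b1]⟩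
      · rw [hW]; exact ⟨b4, b3.symm ▸ b2, by rw [b3]⟩
  · rintro (i | i) (j | j) (x | x) h1 h2 <;>
      simp only [hW, hW', Sum.elim_inl, Sum.elim_inr] at h1 h2
    · rw [Subtype.ext (h1.2.2.symm.trans h2.2.2)]
    · rw [Subtype.ext (h1.symm.trans h2)]
    · have := j.2; rw [← h2] at this; omega
    · have := i.2; rw [← h1] at this; omega
    · rw [Subtype.ext (h1.symm.trans h2)]
  · rintro c s y hs h1 (⟨i, rfl⟩ | ⟨b, rfl⟩)
    · rcases c with c | c
      · rw [hW'] at h1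
        have := c.2
        rw [← show _ = c.1 from h1, S.nd_fc] at this
        exact hs.1 this
      · exact (hW' _ _).1 h1
    · rw [hW] at h1
      rcases c with c | c
      · have := c.2
        rw [← h1.2.2, c1] at this
        exact (l1 s hs.1 hs.2 b).2 _ this h1.2.1
      · have := c.2
        rw [← show _ = c.1 from h1] at this
        obtain ⟨m, hm⟩ := card_pos.1 (lt_of_lt_of_le (by norm_num) this)
        exact (l1 s hs.1 hs.2 b).2 m (mf.1 hm).1 (mf.1 hm).2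
  · rintro (c | c)
    · exact conn_star _ _ _ fun x hx => hx.2.2 ▸ c2 _ _ hx.2.1
    · exact conn_singleton _ _
  · rintro s c - ⟨x, h1, h2⟩
    obtain ⟨i, hi⟩ := hX.sub s x h1
    exact ⟨_, h2, _, Or.inl ⟨i, rfl⟩, hi⟩
  · intro s hs
    have b1 := w s hs.1 hs.2
    have b2 := S.card_faces (Tc X U s)
    refine le_trans (card_le_card_of_injOn (t := (univ.filter fun φ => S.nd φ ∈ Tc X U s).disjSum
      (Hv X U s)) (Sum.map Subtype.val Subtype.val) ?_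
      (Subtype.val_injective.sumMap Subtype.val_injective).injOn) ?_
    · rintro (c | c) hc <;> obtain ⟨x, h1, h2⟩ := (mf.1 hc).2 <;> rw [hW] at h2
      · refine mem_coe.2 (inl_mem_disjSum.2 (mf.2 ⟨mem_univ _, mf.2
          ⟨c.2, x, h1, ?_, h2.1⟩⟩))
        rw [← h2.2.2, c1]; exact h2.2.1
      · exact mem_coe.2 (inr_mem_disjSum.2 (mf.2 ⟨(show x = c.1 from h2) ▸ h1, c.2⟩))
    · rw [card_disjSum]; omega

lemma sum_gh (hX : S.Adm X) (U : Finset Nd) (hI : S.Inv X U) (hU : U.Nonempty) :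
    ∑ o ∈ U, ((S.G1 X U o).card + (S.G2 X U o).card) ≤ 92340 * U.card := by
  have : ∀ x, ∃ m1 m2, (dg X U x ≤ 2 → ∀ m ∈ U, x ∈ X m → m1 = m ∨ m2 = m) ∧
      (dg X U x ≤ 1 → ∀ m ∈ U, x ∈ X m → m1 = m ∧ m2 = m) := by
    intro x
    obtain ⟨o, -⟩ := hU
    by_cases h1 : dg X U x ≤ 1
    · have : Nonempty Nd := ⟨o⟩
      obtain ⟨m1, h⟩ := card_le_one_iff_subset_singleton.1 h1
      have : ∀ m ∈ U, x ∈ X m → m1 = m := fun m a b =>
        (mem_singleton.1 (h (mf.2 ⟨a, b⟩))).symm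
      exact ⟨m1, m1, fun _ m a b => Or.inl (this m a b), fun _ m a b => ⟨this m a b, this m a b⟩⟩
    · by_cases h2 : dg X U x = 2
      · obtain ⟨m1, m2, -, h⟩ := card_eq_two.1 h2
        refine ⟨m1, m2, fun _ m a b => ?_, fun h' => absurd h' h1⟩
        have : m ∈ ({m1, m2} : Finset Nd) := h ▸ mf.2 ⟨a, b⟩
        simpa [eq_comm] using this
      · exact ⟨o, o, fun h => by omega, fun h => absurd h h1⟩
  choose a1 a2 h1 h2 using this
  have b1 := S.sum_gh_aux hX U hI a1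
  have b2 := S.sum_gh_aux hX U hI a2
  rw [filter_true_of_mem fun p hp z c d => (h2 z d _ (mem_sigma.1 hp).1 c).1,
    filter_true_of_mem fun p hp z c d => (h2 z d _ (mem_sigma.1 hp).1 c).1] at b1
  rw [filter_true_of_mem fun p hp z c d => (h2 z d _ (mem_sigma.1 hp).1 c).2,
    filter_true_of_mem fun p hp z c d => (h2 z d _ (mem_sigma.1 hp).1 c).2] at b2
  rw [card_sigma, card_sigma] at b1 b2
  have b3 : ∑ o ∈ U, (S.G2 X U o).card ≤ ∑ o ∈ U, (((U.erase o).filter fun m =>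
      ∃ x ∈ X m, a1 x = m ∧ dg X U x ≤ 2 ∧ S.Gh X U o x).card + ((U.erase o).filter fun m =>
      ∃ x ∈ X m, a2 x = m ∧ dg X U x ≤ 2 ∧ S.Gh X U o x).card) := by
    refine sum_le_sum fun o _ => le_trans (card_le_card fun m hm => ?_) (card_union_le _ _)
    obtain ⟨c1, x, c2, c3, c4⟩ := mf.1 hm
    rcases h1 x c3 m (mem_of_mem_erase c1) c2 with h | h
    · exact mem_union_left _ (mf.2 ⟨c1, x, c2, h, c3, c4⟩)
    · exact mem_union_right _ (mf.2 ⟨c1, x, c2, h, c3, c4⟩)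
  rw [sum_add_distrib] at b3 ⊢
  omega

lemma good_ex (hX : S.Adm X) (U : Finset Nd) (hI : S.Inv X U) (hU : U.Nonempty) :
    ∃ o ∈ U, S.Good X U o := by
  by_contra h
  push Not at h
  have a1 := (S.sum_hv hX U).2
  have a2 := S.sum_tc hX U
  have a3 := S.sum_gh hX U hI hU
  have a4 : ∑ _o ∈ U, 369360 ≤ ∑ o ∈ U, (5130 * (Hv X U o).card +
      2565 * ((Tc X U o).erase o).card + ((S.G1 X U o).card + (S.G2 X U o).card)) := by
    refine sum_le_sum fun o ho => ?_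
    have := h o ho
    simp only [Good] at this
    omega
  rw [sum_add_distrib, sum_add_distrib, ← mul_sum, ← mul_sum, sum_const, smul_eq_mul] at a4
  have := hU.card_pos
  omega

theorem order [Nonempty V] (hX : S.Adm X) (hh : 71 + 143 * 54 < S.h) :
    ∃ pos : Nd → ℕ, Function.Injective pos ∧
      ∀ o, S.Good X (univ.filter fun m => pos m ≤ pos o) o := by
  refine greedy_order (S.Good X) (S.Inv X) ⟨by simp, fun _ _ => Classical.arbitrary V, by simp,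
    by simp⟩ fun U hI hU => ?_
  obtain ⟨o, h1, h2⟩ := S.good_ex hX U hI hU
  exact ⟨o, h1, h2, S.inv_step hX hh h1 hI h2⟩

end Sys

end Pool.Agent.P.MP_b2489f_co
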