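import Pool.Agent.P.MP_b2489f_co.Cover3
import Pool.Agent.P.MP_b2489f_co.Plan
import Pool.Agent.P.MP_b2489f_co.Tools

set_option autoImplicit false
set_option linter.unusedSectionVars false

/-! Orientation of the incidences, and repair of the sparse triples of faces. -/

namespace Pool.Agent.P.MP_b2489f_co.Cover

open Finset Classical Sum

variable {V F : Type} [Fintype V] [Fintype F] {k : ℕ}

lemma orient (N : F → Finset V) (plan : Plan fun v f => v ∈ N f) (d : ℕ)
    (hN : ∀ f, (N f).card = d + 2) : ∃ S : F → Finset V, (∀ f, S f ⊆ N f ∧ (S f).card = d) ∧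
      ∀ v, (univ.filter fun f => v ∈ S f).card ≤ 2 := by
  rcases isEmpty_or_nonempty F with _ | _
  · exact ⟨N, fun f => isEmptyElim f, fun v => by simp⟩
  obtain ⟨φ, inj, hφ⟩ := hall_aux (K := V × Bool ⊕ F × Bool)
    (univ.filter fun e : V × F => e.1 ∈ N e.2)
    (fun e => ({e.1} ×ˢ univ).disjSum ({e.2} ×ˢ univ)) fun S hS _ => by
      refine (plan.sparse S (fun e b => (mem_filter.1 (hS b)).2) (S.image Prod.fst)
        (S.image Prod.snd) (fun e b => mem_image_of_mem _ b) fun e b => mem_image_of_mem _ b).trans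
        (le_trans ?_ (card_le_card (s := (S.image Prod.fst ×ˢ univ).disjSum
          (S.image Prod.snd ×ˢ univ)) ?_))
      · simp only [card_disjSum, card_product, card_univ, Fintype.card_bool]
        omega
      · rintro (⟨v, b⟩ | ⟨v, b⟩) q <;> simp only [inl_mem_disjSum, inr_mem_disjSum, mem_product,
          mem_image, mem_univ, and_true] at q <;> obtain ⟨e, q, rfl⟩ := q <;>
          exact (@mem_biUnion _ _ _ _ (_) _).2 ⟨e, q, by simp⟩
  have key : ∀ f, ∃ S ⊆ (N f).filter fun v => (φ (v, f)).isLeft, S.card = d := fun f => by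
    refine exists_subset_card_eq ?_
    have h1 := card_filter_add_card_filter_not (s := N f) fun v => (φ (v, f)).isLeft
    have h2 : ((N f).filter fun v => ¬ (φ (v, f)).isLeft).card ≤
        ({inr (f, false), inr (f, true)} : Finset (V × Bool ⊕ F × Bool)).card := by
      refine card_le_card_of_injOn (fun v => φ (v, f)) (fun v b => ?_) fun v b w b' e =>
        congrArg Prod.fst (inj (by simpa using (mem_filter.1 b).1)
          (by simpa using (mem_filter.1 b').1) e)
      have q := hφ (v, f) (by simpa using (mem_filter.1 b).1)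
      have q' := (mem_filter.1 b).2
      rcases hh : φ (v, f) with x | ⟨x, _ | _⟩ <;> simp_all
    have := hN f
    have := h2.trans card_le_two
    omega
  choose S h1 h2 using key
  refine ⟨S, fun f => ⟨(h1 f).trans (filter_subset _ _), h2 f⟩, fun v => ?_⟩
  refine le_trans (card_le_card_of_injOn
    (t := ({inl (v, false), inl (v, true)} : Finset (V × Bool ⊕ F × Bool)))
    (fun f => φ (v, f)) (fun f b => ?_) fun f b w b' e =>
      congrArg Prod.snd (inj (by simpa using (mem_filter.1 (h1 _ (mem_filter.1 b).2)).1)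
        (by simpa using (mem_filter.1 (h1 _ (mem_filter.1 b').2)).1) e)) card_le_two
  obtain ⟨q, q'⟩ := mem_filter.1 (h1 _ (mem_filter.1 b).2)
  have q := hφ (v, f) (by simpa using q)
  rcases hh : φ (v, f) with ⟨x, _ | _⟩ | x <;> simp_all

theorem coverS (S : F → Finset V) (two : ∀ v, (univ.filter fun f => v ∈ S f).card ≤ 2)
    (R : F → Prop) (k s : ℕ) (deg : ∀ f, R f → k + s ≤ (S f).card ∨ (S f).card + s ≤ k)
    (hk : 0 < k) (pos : 1 ≤ s) (big : k < 4 * s + 2)
    (tri : ∀ x y z, R x → R y → R z → x ≠ y → x ≠ z → y ≠ z → 2 * k ≤ (S x ∪ S y ∪ S z).card +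
      ((k - (S x).card) + (k - (S y).card) + (k - (S z).card))) :
    ∃ c : V → Fin k, ∀ f, R f → (k ≤ (S f).card → ∀ α, ∃ v ∈ S f, c v = α) ∧
      ((S f).card < k → Set.InjOn c (S f)) := by
  have : ∀ v, ∃ n : Bool → Option F, (∀ f, v ∈ S f ↔ ∃ b, n b = some f) ∧
      ∀ f, n false = some f → n true ≠ some f := fun v => by
    have m : ∀ f, v ∈ S f ↔ f ∈ univ.filter fun f => v ∈ S f := by simp
    have := two v
    obtain q | q | q : (univ.filter fun f => v ∈ S f).card = 0 ∨
      (univ.filter fun f => v ∈ S f).card = 1 ∨ (univ.filter fun f => v ∈ S f).card = 2 := by omega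
    · exact ⟨fun _ => none, fun f => by rw [m, card_eq_zero.1 q]; simp, by simp⟩
    · obtain ⟨x, q⟩ := card_eq_one.1 q
      exact ⟨fun b => if b then some x else none, fun f => by rw [m, q]; simp [eq_comm], by simp⟩
    · obtain ⟨x, y, n, q⟩ := card_eq_two.1 q
      exact ⟨fun b => if b then some x else some y, fun f => by rw [m, q]; simp [eq_comm, or_comm],
        by simp [n]⟩
  choose n h1 h2 using this
  have hd : ∀ f, (At (fun h : V × Bool => n h.1 h.2) (some f)).card = (S f).card := by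
    intro f
    have m : ∀ h, h ∈ At (fun h : V × Bool => n h.1 h.2) (some f) ↔ n h.1 h.2 = some f := by
      simp [At]
    refine card_bij (fun h _ => h.1) (fun h b => (h1 _ _).2 ⟨_, (m _).1 b⟩) ?_ fun v b => ?_
    · rintro ⟨v, _ | _⟩ b ⟨w, _ | _⟩ b' (rfl : v = w)
      exacts [rfl, (h2 _ _ ((m _).1 b) ((m _).1 b')).elim,
        (h2 _ _ ((m _).1 b') ((m _).1 b)).elim, rfl]
    · obtain ⟨b, e⟩ := (h1 _ _).1 b
      exact ⟨(v, b), (m _).2 e, rfl⟩
  obtain ⟨c, hc⟩ := cover (fun h : V × Bool => n h.1 h.2) (fun o => ∃ f, R f ∧ some f = o) k s _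
    (fun _ => rfl) (by
      rintro ⟨v, _ | _⟩ ⟨f, -, e⟩ e'
      exacts [h2 v f e.symm (e'.trans e.symm), h2 v f (e'.trans e.symm) e.symm])
    (by rintro _ ⟨f, r, rfl⟩; rw [hd]; exact deg f r) hk pos big (by
      rintro _ _ _ ⟨x, rx, rfl⟩ ⟨y, ry, rfl⟩ ⟨z, rz, rfl⟩ n1 n2 n3
      rw [hd, hd, hd]
      refine (tri x y z rx ry rz (by simpa using n1) (by simpa using n2) (by simpa using n3)).trans
        (Nat.add_le_add_right (card_le_card fun v b => ?_) _)
      simp only [mem_union, h1] at b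
      simp only [Inc, mem_filter, mem_univ, true_and]
      rcases b with (⟨b, e⟩ | ⟨b, e⟩) | ⟨b, e⟩ <;> exact ⟨b, by simp [e]⟩)
  refine ⟨c, fun f r => ⟨fun b α => ?_, fun b v q w q' e => ?_⟩⟩
  · obtain ⟨h, e, e'⟩ := (hc _ ⟨f, r, rfl⟩).1 (hd f ▸ b) α
    exact ⟨h.1, (h1 _ _).2 ⟨_, e⟩, e'⟩
  · obtain ⟨b1, q⟩ := (h1 _ _).1 q
    obtain ⟨b2, q'⟩ := (h1 _ _).1 q'
    exact congrArg Prod.fst ((hc _ ⟨f, r, rfl⟩).2 (hd f ▸ b) (v, b1) (w, b2) q q' e)

lemma split {K : Type} (U : Finset F) (x : F → ℕ) : ∀ O : Finset K, ∑ f ∈ U, x f ≤ O.card →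
    ∃ M : F → Finset K, ∀ f ∈ U, M f ⊆ O ∧ (M f).card = x f ∧
      ∀ f' ∈ U, ∀ α ∈ M f, α ∈ M f' → f = f' := by
  induction U using Finset.induction_on with
  | empty => exact fun _ _ => ⟨fun _ => ∅, by simp⟩
  | insert g U n ih =>
    intro O h
    rw [sum_insert n] at h
    obtain ⟨A, h1, h2⟩ := exists_subset_card_eq (s := O) (n := x g) (by omega)
    obtain ⟨M, hM⟩ := ih (O \ A) (by rw [card_sdiff_of_subset h1]; omega)
    have u : ∀ f ∈ U, Function.update M g A f = M f := fun f b =>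
      Function.update_of_ne (fun e : f = g => n (e ▸ b)) _ _
    refine ⟨Function.update M g A, fun f b => ?_⟩
    rcases mem_insert.1 b with rfl | q
    · rw [Function.update_self]
      refine ⟨h1, h2, fun f' b' α a a' => (mem_insert.1 b').elim Eq.symm fun q' => ?_⟩
      rw [u f' q'] at a'
      exact absurd a (mem_sdiff.1 ((hM f' q').1 a')).2
    · rw [u f q]
      refine ⟨(hM f q).1.trans sdiff_subset, (hM f q).2.1, fun f' b' α a a' => ?_⟩
      rcases mem_insert.1 b' with rfl | q'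
      · rw [Function.update_self] at a'
        exact absurd a' (mem_sdiff.1 ((hM f q).1 a)).2
      · rw [u f' q'] at a'
        exact (hM f q).2.2 f' q' α a a'

lemma fill {K : Type} (U : Finset F) (J : F → Finset V) (A : F → Finset K) (c : V → K)
    (hJ : ∀ f ∈ U, ∀ f' ∈ U, ∀ v ∈ J f, v ∈ J f' → f = f') (hA : ∀ f ∈ U, (A f).card ≤ (J f).card) :
    ∃ c' : V → K, (∀ v, c' v = c v ∨ ∃ f ∈ U, v ∈ J f ∧ c' v ∈ A f) ∧
      ∀ f ∈ U, ∀ α ∈ A f, ∃ v ∈ J f, c' v = α := by
  induction U using Finset.induction_on with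
  | empty => exact ⟨c, by simp, by simp⟩
  | insert g U n ih =>
    obtain ⟨c', h1, h2⟩ := ih (fun f b f' b' => hJ f (mem_insert_of_mem b) f' (mem_insert_of_mem b'))
      fun f b => hA f (mem_insert_of_mem b)
    rcases (A g).eq_empty_or_nonempty with e | ⟨α, e⟩
    · refine ⟨c', fun v => (h1 v).imp id fun ⟨f, b, q⟩ => ⟨f, mem_insert_of_mem b, q⟩,
        fun f b α a => ?_⟩
      rcases mem_insert.1 b with rfl | q
      exacts [by simp [e] at a, h2 f q α a]
    have : Nonempty K := ⟨α⟩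
    obtain ⟨P, p1, p2⟩ := exists_subset_card_eq (hA g (mem_insert_self _ _))
    obtain ⟨φ, -, f1, f2⟩ := cover_inj P (A g) (A g) Subset.rfl p2.ge p2.le
    refine ⟨fun v => if v ∈ P then φ v else c' v, fun v => ?_, fun f b α a => ?_⟩
    · by_cases q : v ∈ P
      · exact Or.inr ⟨g, mem_insert_self _ _, p1 q, by simpa [q] using f1 v q⟩
      · simp only [if_neg q]
        exact (h1 v).imp id fun ⟨f, b, q⟩ => ⟨f, mem_insert_of_mem b, q⟩
    · rcases mem_insert.1 b with rfl | q
      · obtain ⟨v, q, e⟩ := f2 α a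
        exact ⟨v, p1 q, by simp [q, e]⟩
      · obtain ⟨v, q', e⟩ := h2 f q α a
        exact ⟨v, q', (if_neg fun p => n (hJ f b g (mem_insert_self _ _) v q' (p1 p) ▸ q)).trans e⟩

end Pool.Agent.P.MP_b2489f_co.Cover
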