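import Pool.Agent.P.MP_b2489f_co.Risk
import Pool.Agent.P.MP_b2489f_co.Example

set_option autoImplicit false
set_option linter.unusedSectionVars false

/-! Repair of the sparse triples of faces; the exact value for `g ≡ 0, 1 (mod 4)`. -/

namespace Pool.Agent.P.MP_b2489f_co.Cover

open Finset Classical Sum

variable {V F : Type} [Fintype V] [Fintype F] {k d b : ℕ} {N S : F → Finset V} {U U' : Finset F}
  {T : Finset (Finset F)} {f : F} {v z : V} {c : V → Fin k}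

structure Sy (N S : F → Finset V) (k d b : ℕ) : Prop where
  sub : ∀ f, S f ⊆ N f
  hS : ∀ f, (S f).card = d
  hN : ∀ f, (N f).card = d + 2
  two : ∀ v, (univ.filter fun f => v ∈ S f).card ≤ 2
  hk : 4 * k = 3 * d + 2 + b
  hb : b ≤ 1
  big : 5 + 4 * b ≤ k

/-- the vertices kept by exactly `j` faces of `U` -/
noncomputable def Lv (S : F → Finset V) (U : Finset F) (j : ℕ) : Finset V :=
  univ.filter fun v => (U.filter fun f => v ∈ S f).card = j

def Rk (S : F → Finset V) (k : ℕ) (U : Finset F) : Prop :=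
  U.card = 3 ∧ (Lv S U 1).card + (Lv S U 2).card < 2 * k

def Good (N S : F → Finset V) (T : Finset (Finset F)) (Q : V → Prop) (c : V → Fin k) : Prop :=
  ∀ f, (∀ U ∈ T, f ∉ U) → ∀ α, ∃ v ∈ N f, c v = α ∧ ((∀ U ∈ T, v ∉ Lv S U 2) ∨ Q v)

def Prom (N S : F → Finset V) (U : Finset F) (z : V) (c : V → Fin k) : Prop :=
  z ∈ Lv S U 2 ∧ (∀ v ∈ Lv S U 1, c v ≠ c z) ∧
    ∀ f ∈ U, z ∈ N f \ S f ∨ ∃ r ∈ N f \ S f, c r ≠ c z

lemma mem_lv {j : ℕ} : v ∈ Lv S U j ↔ (U.filter fun f => v ∈ S f).card = j := by simp [Lv]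

lemma lv_ex {j : ℕ} (h : v ∈ Lv S U (j + 1)) : ∃ f ∈ U, v ∈ S f := by
  obtain ⟨f, q⟩ := card_pos.1 ((Nat.succ_pos j).trans_eq (mem_lv.1 h).symm)
  exact ⟨f, mem_filter.1 q⟩

lemma Rk.oth (r : Rk S k U) (h : v ∈ Lv S U 2) {f' : F} (b1 : f ∈ U) (b2 : f' ∈ U) (n : v ∉ S f) :
    v ∈ S f' ∨ f' = f := by
  have : U.filter (fun f => v ∈ S f) = U.erase f := eq_of_subset_of_card_le
    (fun g q => mem_erase.2 ⟨fun e => n (e ▸ (mem_filter.1 q).2), (mem_filter.1 q).1⟩)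
    (by rw [card_erase_of_mem b1, r.1, mem_lv.1 h])
  by_contra q
  push Not at q
  have m := mem_erase.2 ⟨q.2, b2⟩
  rw [← this] at m
  exact q.1 (mem_filter.1 m).2

lemma Rk.sum (r : Rk S k U) (J : Finset V) (hJ : J ⊆ Lv S U 2) :
    ∑ f ∈ U, (J \ S f).card = J.card := by
  simp only [sdiff_eq_filter, card_filter]
  rw [sum_comm, card_eq_sum_ones]
  refine sum_congr rfl fun v q => ?_
  have := card_filter_add_card_filter_not (s := U) fun f => v ∈ S f
  rw [mem_lv.1 (hJ q), r.1] at this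
  rw [← card_filter]
  omega

variable (Y : Sy N S k d b)
include Y

lemma Sy.le2 (v : V) : (U.filter fun f => v ∈ S f).card ≤ 2 :=
  (card_le_card (filter_subset_filter _ (subset_univ _))).trans (Y.two v)

lemma Sy.mem (h : v ∈ Lv S U 2) (q : v ∈ S f) : f ∈ U := by
  have : U.filter (fun f => v ∈ S f) = univ.filter fun f => v ∈ S f := eq_of_subset_of_card_le
    (filter_subset_filter _ (subset_univ _)) (by rw [mem_lv.1 h]; exact Y.two v)
  have m : f ∈ univ.filter fun f => v ∈ S f := by simpa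
  rw [← this] at m
  exact (mem_filter.1 m).1

lemma Sy.lv (b1 : f ∈ U) (q : v ∈ S f) : v ∈ Lv S U 1 ∨ v ∈ Lv S U 2 := by
  have := Y.le2 (U := U) v
  have : 0 < (U.filter fun f => v ∈ S f).card := card_pos.2 ⟨f, by simp [b1, q]⟩
  simp only [mem_lv]
  omega

lemma Sy.cnt (r : Rk S k U) : (Lv S U 1).card = b ∧ (Lv S U 2).card + 1 + b = 2 * k := by
  have : ∑ f ∈ U, (S f).card = (Lv S U 1).card + 2 * (Lv S U 2).card := by
    have : ∀ f, (S f).card = ∑ v, if v ∈ S f then 1 else 0 := fun f => by simp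
    simp only [this]
    rw [sum_comm, Lv, Lv, card_filter, card_filter, mul_sum, ← sum_add_distrib]
    refine sum_congr rfl fun v _ => ?_
    have := Y.le2 (U := U) v
    rw [← card_filter]
    split_ifs <;> omega
  simp only [Y.hS, sum_const, r.1, smul_eq_mul] at this
  have := r.2
  have := Y.hk
  have := Y.hb
  omega

lemma Sy.typ (r : Rk S k U) (q : f ∈ U) :
    3 + b ≤ (Lv S U 2 \ S f).card ∧ (Lv S U 2 \ S f).card + 2 + b ≤ k := by
  have h1 := card_sdiff_add_card_inter (Lv S U 2) (S f)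
  have h2 : (Lv S U 2 ∩ S f).card ≤ d := Y.hS f ▸ card_le_card inter_subset_right
  have h3 : d ≤ (Lv S U 1 ∪ Lv S U 2 ∩ S f).card := Y.hS f ▸ card_le_card fun v h => by
    have := Y.lv q h
    simp only [mem_union, mem_inter]
    tauto
  have := card_union_le (Lv S U 1) (Lv S U 2 ∩ S f)
  have := Y.cnt r
  have := Y.hk
  have := Y.hb
  have := Y.big
  omega

lemma Sy.eq (r : Rk S k U) (r' : Rk S k U') (q : f ∈ U) (q' : f ∈ U') : U = U' := by
  by_contra n
  obtain ⟨g, g1, g2⟩ : ∃ g ∈ U', g ∉ U := by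
    by_contra q
    push Not at q
    exact n (eq_of_subset_of_card_le q (by rw [r.1, r'.1])).symm
  have n1 : g ≠ f := fun e => g2 (e ▸ q)
  obtain ⟨l, hl⟩ : ((U'.erase f).erase g).Nonempty := card_pos.1 (by
    rw [card_erase_of_mem (mem_erase.2 ⟨n1, g1⟩), card_erase_of_mem q', r'.1]; omega)
  simp only [mem_erase] at hl
  have h1 := (Y.typ r' hl.2.2).1
  have h2 : (Lv S U' 2 \ S l).card ≤ (Lv S U 1).card := card_le_card fun v h => by
    obtain ⟨h1, h2⟩ := mem_sdiff.1 h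
    exact (Y.lv q ((r'.oth h1 hl.2.2 q' h2).resolve_right (Ne.symm hl.2.1))).resolve_right fun h3 =>
      g2 (Y.mem h3 ((r'.oth h1 hl.2.2 g1 h2).resolve_right (Ne.symm hl.1)))
  have := (Y.cnt r).1
  omega

lemma Sy.eq' {j : ℕ} (r : Rk S k U) (r' : Rk S k U') (h : v ∈ Lv S U (j + 1))
    (h' : v ∈ Lv S U' 2) : U = U' ∧ j = 1 := by
  obtain ⟨f, q, q'⟩ := lv_ex h
  obtain rfl := Y.eq r r' q (Y.mem h' q')
  have := (mem_lv.1 h).symm.trans (mem_lv.1 h')
  exact ⟨rfl, by omega⟩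

lemma Sy.step (hT : ∀ U ∈ T, Rk S k U) (hU : U ∈ T) (G : Good N S T (· = z) c) (c1 : V → Fin k)
    (h1 : ∀ v, (∀ U ∈ T, v ∉ Lv S U 2) ∨ v = z → c1 v = c v) (P : Finset V) (zP : z ∈ P)
    (hP : P ⊆ Lv S U 2) (Q : V → Prop) (A B : Finset (Fin k)) (AB : Disjoint A B)
    (hA : ∀ α ∈ A, ∀ f ∈ U, ∃ v ∈ N f, c1 v = α ∧ (v ∈ P ∨ (∀ U ∈ T, v ∉ Lv S U 2) ∨
      v ∉ Lv S U 2 ∧ Q v))
    (hB : ∀ α ∈ B, ∃ f ∈ U, ∃ v ∈ N f, c1 v = α ∧ (v ∈ P ∨ ∀ U ∈ T, v ∉ Lv S U 2))
    (n1 : P.card + 1 + b ≤ 2 * A.card + B.card) (n2 : B.card + P.card ≤ 3 + b)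
    (n3 : A.card + B.card ≤ 2 + b) : ∃ c' : V → Fin k, Good N S (T.erase U) Q c' ∧
      (∀ v, v ∉ Lv S U 2 → c' v = c1 v) ∧ ∀ v, c' v = c1 v ∨ c' v ∉ A := by
  have r := hT U hU
  have k0 : 0 < k := by have := Y.big; omega
  have : Nonempty F := ⟨(card_pos.1 (by rw [r.1]; omega)).choose⟩
  choose! t t1 t2 using hB
  let O := univ \ (A ∪ B)
  have hO : O.card + A.card + B.card = k := by
    have := card_sdiff_add_card_eq_card (subset_univ (A ∪ B))
    rw [card_union_of_disjoint AB, card_univ, Fintype.card_fin] at this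
    rw [add_assoc, this]
  let J : F → Finset V := fun f => (Lv S U 2 \ P) \ S f
  let B' : F → Finset (Fin k) := fun f => B.filter fun α => t α = f
  have j1 : ∑ f ∈ U, (J f).card + P.card = (Lv S U 2).card := by
    rw [r.sum _ sdiff_subset, card_sdiff_add_card_eq_card hP]
  have j2 : ∑ f ∈ U, (B' f).card = B.card := (card_eq_sum_card_fiberwise fun α h => t1 α h).symm
  have j3 : ∀ f ∈ U, (B' f).card ≤ (J f).card ∧ (J f).card ≤ O.card := fun f q => by
    have a1 := Y.typ r q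
    have a2 : (B' f).card ≤ B.card := card_filter_le _ _
    have a3 : (J f).card ≤ (Lv S U 2 \ S f).card :=
      card_le_card (sdiff_subset_sdiff sdiff_subset Subset.rfl)
    have a4 : (Lv S U 2 \ S f).card ≤ (J f ∪ P).card := card_le_card fun v h => by
      simp only [J, mem_union, mem_sdiff] at h ⊢
      tauto
    have := card_union_le (J f) P
    omega
  obtain ⟨M, hM⟩ := split U (fun f => O.card + (B' f).card - (J f).card) O (by
    have : ∑ f ∈ U, (O.card + (B' f).card - (J f).card + (J f).card) =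
        ∑ f ∈ U, (O.card + (B' f).card) := sum_congr rfl fun f q => by have := j3 f q; omega
    simp only [sum_add_distrib, sum_const, r.1, smul_eq_mul] at this
    have := (Y.cnt r).2
    omega)
  obtain ⟨c', f1, f2⟩ := fill U J (fun f => O \ M f ∪ B' f) c1 (fun f q f' q' v h h' =>
      ((r.oth (mem_sdiff.1 (mem_sdiff.1 h).1).1 q q' (mem_sdiff.1 h).2).resolve_left
        (mem_sdiff.1 h').2).symm) fun f q => by
    have := card_union_le (O \ M f) (B' f)
    have := card_sdiff_add_card_eq_card (hM f q).1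
    have := (hM f q).2.1
    have := j3 f q
    omega
  have fx : ∀ v, v ∈ P ∨ v ∉ Lv S U 2 → c' v = c1 v := fun v h => (f1 v).resolve_right
    fun ⟨f, _, q, _⟩ => by simp only [J, mem_sdiff] at q; tauto
  have st : ∀ v ∈ Lv S U 2, ∀ U' ∈ T.erase U, v ∉ Lv S U' 2 := fun v h U' q h' =>
    (mem_erase.1 q).1 (Y.eq' r (hT _ (mem_of_mem_erase q)) h h').1.symm
  have key : ∀ v, (v ∈ P ∨ (∀ U ∈ T, v ∉ Lv S U 2) ∨ v ∉ Lv S U 2 ∧ Q v) →
      c' v = c1 v ∧ ((∀ U' ∈ T.erase U, v ∉ Lv S U' 2) ∨ Q v) := by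
    rintro v (h | h | h)
    exacts [⟨fx v (Or.inl h), Or.inl (st v (hP h))⟩, ⟨fx v (Or.inr (h U hU)),
      Or.inl fun U' q => h U' (mem_of_mem_erase q)⟩, ⟨fx v (Or.inr h.1), Or.inr h.2⟩]
  have cov : ∀ f ∈ U, ∀ g ∈ U, f ≠ g → ∀ α ∈ O \ M g ∪ B' g, ∃ v ∈ N f, c' v = α ∧
      ((∀ U' ∈ T.erase U, v ∉ Lv S U' 2) ∨ Q v) := fun f q g q' n α h => by
    obtain ⟨v, h, e⟩ := f2 g q' α h
    have h' := (mem_sdiff.1 (mem_sdiff.1 h).1).1
    exact ⟨v, Y.sub f ((r.oth h' q' q (mem_sdiff.1 h).2).resolve_right n), e, Or.inl (st v h')⟩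
  refine ⟨c', fun f q α => ?_, fun v h => fx v (Or.inr h), fun v => (f1 v).imp id ?_⟩
  · by_cases q' : f ∈ U
    · by_cases a : α ∈ A
      · obtain ⟨v, h, e, h'⟩ := hA α a f q'
        exact ⟨v, h, (key v h').1.trans e, (key v h').2⟩
      by_cases a' : α ∈ B
      · by_cases e : f = t α
        · obtain ⟨v, h, e', h'⟩ := t2 α a'
          have := key v (h'.imp id Or.inl)
          exact ⟨v, e ▸ h, this.1.trans e', this.2⟩
        · exact cov f q' _ (t1 α a') e α (mem_union_right _ (mem_filter.2 ⟨a', rfl⟩))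
      obtain ⟨g, g1, g', g2, n⟩ := one_lt_card.1 (show 1 < (U.erase f).card by
        rw [card_erase_of_mem q', r.1]; omega)
      rw [mem_erase] at g1 g2
      have o : α ∈ O := by simp [O, a, a']
      by_cases m : α ∈ M g
      · exact cov f q' g' g2.2 g2.1.symm α (mem_union_left _ (mem_sdiff.2
          ⟨o, fun m' => n ((hM g g1.2).2.2 g' g2.2 α m m')⟩))
      · exact cov f q' g g1.2 g1.1.symm α (mem_union_left _ (mem_sdiff.2 ⟨o, m⟩))
    · obtain ⟨v, h, e, h'⟩ := G f (fun U' a => by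
        by_cases e : U' = U
        exacts [e ▸ q', q U' (mem_erase.2 ⟨e, a⟩)]) α
      have := key v (h'.elim (fun h => Or.inr (Or.inl h)) fun h => Or.inl (h ▸ zP))
      exact ⟨v, h, this.1.trans ((h1 v h').trans e), this.2⟩
  · rintro ⟨f, -, -, h⟩ a
    rcases mem_union.1 h with h | h
    · simp [O, a] at h
    · exact disjoint_left.1 AB a (mem_filter.1 h).1

lemma Sy.newc (r : Rk S k U) (w : V) (c : V → Fin k) (X : Finset (Fin k)) (hX : X.card ≤ 1 + b) :
    ∃ δ ∉ X, (∀ v ∈ Lv S U 1, c v ≠ δ) ∧ ∀ f ∈ U, ∃ r ∈ N f \ S f, r ≠ w ∧ c r ≠ δ := by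
  have : ∀ f, ∃ r ∈ N f \ S f, r ≠ w := fun f => exists_mem_ne (by
    rw [card_sdiff_of_subset (Y.sub f), Y.hN, Y.hS]; omega) w
  choose ρ h1 h2 using this
  obtain ⟨δ, -, h⟩ := exists_mem_notMem_of_card_lt_card (t := univ)
    (s := X ∪ (Lv S U 1).image c ∪ U.image fun f => c (ρ f)) (by
      have a1 := card_union_le (X ∪ (Lv S U 1).image c) (U.image fun f => c (ρ f))
      have a2 := card_union_le X ((Lv S U 1).image c)
      have a3 : ((Lv S U 1).image c).card ≤ _ := card_image_le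
      have a4 : (U.image fun f => c (ρ f)).card ≤ _ := card_image_le
      have := Y.cnt r
      have := r.1
      have := Y.big
      have := Y.hb
      rw [card_univ, Fintype.card_fin]
      omega)
  simp only [mem_union, mem_image, not_or, not_exists, not_and] at h
  exact ⟨δ, h.1.1, h.1.2, fun f q => ⟨_, h1 f, h2 f, h.2 f q⟩⟩

lemma Sy.start (hT : ∀ U ∈ T, Rk S k U) (G : Good N S T (fun _ => False) c) {p : Prop}
    (h0 : ∀ c : V → Fin k, (∀ f α, ∃ v ∈ N f, c v = α) → p)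
    (ih : ∀ U ∈ T, ∀ z (c : V → Fin k), Prom N S U z c → Good N S T (· = z) c → p) : p := by
  rcases T.eq_empty_or_nonempty with rfl | ⟨U, hU⟩
  · exact h0 c fun f α => (G f (by simp) α).imp fun _ h => ⟨h.1, h.2.1⟩
  have r := hT U hU
  obtain ⟨z, hz⟩ : (Lv S U 2).Nonempty := card_pos.1 (by
    have := Y.cnt r; have := Y.big; omega)
  obtain ⟨δ, -, h1, h2⟩ := Y.newc r z c ∅ (by simp)
  refine ih U hU z (Function.update c z δ) ⟨hz, fun v h => ?_, fun f q => Or.inr ?_⟩ fun f q α => ?_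
  · rw [Function.update_self, Function.update_of_ne fun e => by
      simpa using (Y.eq' r r h (e ▸ hz)).2]
    exact h1 v h
  · obtain ⟨ρ, a1, a2, a3⟩ := h2 f q
    exact ⟨ρ, a1, by rwa [Function.update_self, Function.update_of_ne a2]⟩
  · obtain ⟨v, h, e, h' | h'⟩ := G f q α
    exacts [⟨v, h, by rwa [Function.update_of_ne fun e : v = z => h' U hU (e ▸ hz)], Or.inl h'⟩, h'.elim]

lemma Sy.fix {p : Prop} (h0 : ∀ c : V → Fin k, (∀ f α, ∃ v ∈ N f, c v = α) → p)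
    (T : Finset (Finset F)) : (∀ U ∈ T, Rk S k U) →
    ∀ U ∈ T, ∀ z (c : V → Fin k), Prom N S U z c → Good N S T (· = z) c → p := by
  induction T using Finset.strongInduction with
  | H T ih =>
  intro hT U hU z c ⟨hz, p1, p2⟩ G
  have r := hT U hU
  have hT' : ∀ U' ∈ T.erase U, Rk S k U' := fun U' q => hT U' (mem_of_mem_erase q)
  have ih := ih _ (erase_ssubset hU) hT'
  have fin : ∀ c' : V → Fin k, Good N S (T.erase U) (fun _ => False) c' → p :=
    fun c' G' => Y.start hT' G' h0 ih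
  have hb := Y.hb
  have cB : ((Lv S U 1).image c).card = b := by
    have := (Y.cnt r).1
    rw [card_image_of_injOn fun v h w h' _ => card_le_one.1 (by omega) v h w h', this]
  have nz : c z ∉ (Lv S U 1).image c := fun h => by
    obtain ⟨v, h, e⟩ := mem_image.1 h
    exact p1 v h e
  have cB' := card_insert_of_notMem nz
  have vB : ∀ α ∈ (Lv S U 1).image c, ∃ f ∈ U, ∃ v ∈ N f, c v = α ∧ ∀ U ∈ T, v ∉ Lv S U 2 := by
    intro α h
    obtain ⟨v, h, e⟩ := mem_image.1 h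
    obtain ⟨f, q, q'⟩ := lv_ex h
    exact ⟨f, q, v, Y.sub f q', e, fun U' a h' => by simpa using (Y.eq' r (hT U' a) h h').2⟩
  obtain ⟨fz, z1, z2⟩ := lv_ex hz
  by_cases c1 : ∃ f ∈ U, z ∈ N f \ S f
  · obtain ⟨f, q, h⟩ := c1
    obtain ⟨c', G', -⟩ := Y.step hT hU G c (fun _ _ => rfl) {z} (by simp) (by simpa)
      (fun _ => False) {c z} ((Lv S U 1).image c) (by simpa using p1) (fun α a g q' => ⟨z, by
        rcases r.oth hz q q' (mem_sdiff.1 h).2 with e | rfl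
        exacts [Y.sub g e, (mem_sdiff.1 h).1], by simp_all, by simp⟩)
      (fun α a => by
        obtain ⟨f, q, v, a1, a2, a3⟩ := vB α a
        exact ⟨f, q, v, a1, a2, Or.inr a3⟩) (by rw [cB, card_singleton, card_singleton])
      (by rw [cB, card_singleton]; omega) (by rw [cB, card_singleton]; omega)
    exact fin c' G'
  replace p2 : ∀ f ∈ U, ∃ ρ ∈ N f \ S f, c ρ ≠ c z := fun f q =>
    (p2 f q).resolve_left fun h => c1 ⟨f, q, h⟩
  have ds : ∀ f ∈ U, ∀ ρ ∈ N f \ S f, ∀ w ∈ Lv S U 2 \ S f, w ≠ z → ρ ≠ z →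
      ∀ δ ∉ insert (c z) ((Lv S U 1).image c), ∀ Q : V → Prop,
      (ρ = w ∨ ((∀ U ∈ T, ρ ∉ Lv S U 2) ∧ c ρ = δ) ∨
        (ρ ∉ Lv S U 2 ∧ Q ρ ∧ ∃ U ∈ T, ρ ∈ Lv S U 2)) →
      ∃ c' : V → Fin k, Good N S (T.erase U) Q c' ∧ (ρ ∉ Lv S U 2 → c' ρ = δ) ∧
        ∀ v, v ≠ ρ → v ≠ w → c v ≠ δ → c' v ≠ δ := by
    intro f q ρ hρ w hw wz ρz δ hδ Q h
    obtain ⟨w1, w2⟩ := mem_sdiff.1 hw
    have u1 : Function.update (Function.update c ρ δ) w δ ρ = δ := by
      by_cases e : ρ = w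
      · rw [e, Function.update_self]
      · rw [Function.update_of_ne e, Function.update_self]
    have u2 : ∀ v, (∀ U ∈ T, v ∉ Lv S U 2) ∨ v = z →
        Function.update (Function.update c ρ δ) w δ v = c v := fun v h' => by
      have n : v ≠ w := by rintro rfl; exact h'.elim (fun h' => h' U hU w1) wz
      by_cases e : v = ρ
      · subst e
        rcases h with h | h | ⟨-, -, U', a, h⟩
        exacts [absurd h n, u1.trans h.2.symm, h'.elim (fun h' => absurd h (h' U' a)) (absurd · ρz)]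
      · rw [Function.update_of_ne n, Function.update_of_ne e]
    obtain ⟨c', G', a1, a2⟩ := Y.step hT hU G _ u2 {z, w} (by simp)
      (by simp [insert_subset_iff, hz, w1]) Q {δ} (insert (c z) ((Lv S U 1).image c))
      (disjoint_singleton_left.2 hδ) (fun α a g q' => by
        rw [mem_singleton.1 a]
        rcases r.oth w1 q q' w2 with e | rfl
        · exact ⟨w, Y.sub g e, Function.update_self .., by simp⟩
        · refine ⟨ρ, (mem_sdiff.1 hρ).1, u1, ?_⟩
          rcases h with h | h | h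
          exacts [by simp [h], Or.inr (Or.inl h.1), Or.inr (Or.inr ⟨h.1, h.2.1⟩)])
      (fun α a => by
        rcases mem_insert.1 a with rfl | a
        · exact ⟨fz, z1, z, Y.sub _ z2, u2 z (Or.inr rfl), by simp⟩
        · obtain ⟨f, q, v, a1, a2, a3⟩ := vB α a
          exact ⟨f, q, v, a1, (u2 v (Or.inl a3)).trans a2, Or.inr a3⟩)
      (by rw [cB', cB, card_pair wz.symm, card_singleton]; omega)
      (by rw [cB', cB, card_pair wz.symm]; omega) (by rw [cB', cB, card_singleton]; omega)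
    refine ⟨c', G', fun h => (a1 ρ h).trans u1, fun v n1 n2 n3 => (a2 v).elim (fun e => ?_)
      (by simpa using ·)⟩
    rwa [e, Function.update_of_ne n2, Function.update_of_ne n1]
  have ew : ∀ f ∈ U, ∃ w ∈ Lv S U 2 \ S f, w ≠ z := fun f q =>
    exists_mem_ne (by have := Y.typ r q; omega) z
  have : Nonempty V := ⟨z⟩
  choose! ρ h1 h2 using p2
  have ρz : ∀ f ∈ U, ρ f ≠ z := fun f q e => h2 f q (e ▸ rfl)
  by_cases c2 : ∀ f ∈ U, (∀ U ∈ T, ρ f ∉ Lv S U 2) ∧ c (ρ f) ∈ (Lv S U 1).image c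
  · have := card_pos.2 ⟨_, (c2 fz z1).2⟩
    obtain ⟨c', G', -⟩ := Y.step hT hU G c (fun _ _ => rfl) {z} (by simp) (by simpa)
      (fun _ => False) ((Lv S U 1).image c) {c z} (disjoint_singleton_right.2 nz)
      (fun α a g q' => ⟨ρ g, (mem_sdiff.1 (h1 g q')).1,
        card_le_one.1 (by omega) _ (c2 g q').2 _ a, Or.inr (Or.inl (c2 g q').1)⟩)
      (fun α a => ⟨fz, z1, z, Y.sub _ z2, (mem_singleton.1 a).symm, by simp⟩)
      (by rw [cB, card_singleton, card_singleton]; omega)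
      (by rw [card_singleton, card_singleton]; omega) (by rw [cB, card_singleton]; omega)
    exact fin c' G'
  push Not at c2
  obtain ⟨f, q, c2⟩ := c2
  obtain ⟨w, w1, w2⟩ := ew f q
  by_cases c3 : ∀ U ∈ T, ρ f ∉ Lv S U 2
  · obtain ⟨c', G', -⟩ := ds f q _ (h1 f q) w w1 w2 (ρz f q) (c (ρ f))
      (by rw [mem_insert, not_or]; exact ⟨h2 f q, c2 c3⟩) (fun _ => False)
      (Or.inr (Or.inl ⟨c3, rfl⟩))
    exact fin c' G'
  push Not at c3
  obtain ⟨U', a, h⟩ := c3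
  obtain ⟨δ, d1, d2, d3⟩ := Y.newc (hT U' a) w c (insert (c z) ((Lv S U 1).image c)) (by omega)
  by_cases e : U' = U
  · obtain ⟨c', G', -⟩ := ds f q _ (h1 f q) (ρ f) (mem_sdiff.2 ⟨e ▸ h, (mem_sdiff.1 (h1 f q)).2⟩)
      (ρz f q) (ρz f q) δ d1 (fun _ => False) (Or.inl rfl)
    exact fin c' G'
  have n : ρ f ∉ Lv S U 2 := fun h' => e (Y.eq' (hT U' a) r h h').1
  obtain ⟨c', G', a1, a2⟩ := ds f q _ (h1 f q) w w1 w2 (ρz f q) δ d1 (· = ρ f)
    (Or.inr (Or.inr ⟨n, rfl, U', a, h⟩))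
  refine ih U' (mem_erase.2 ⟨e, a⟩) (ρ f) c' ⟨h, fun v h' => ?_, fun g q' => ?_⟩ G'
  · rw [a1 n]
    refine a2 v ?_ ?_ (d2 v h') <;> rintro rfl
    exacts [by simpa using (Y.eq' (hT U' a) (hT U' a) h' h).2,
      by simpa using (Y.eq' (hT U' a) r h' (mem_sdiff.1 w1).1).2]
  · obtain ⟨v, v1, v2, v3⟩ := d3 g q'
    by_cases e : v = ρ f
    exacts [Or.inl (e ▸ v1), Or.inr ⟨v, v1, a1 n ▸ a2 v e v2 v3⟩]

theorem Sy.poly : ∃ c : V → Fin k, ∀ f α, ∃ v ∈ N f, c v = α := by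
  have := Y.hk
  have := Y.hb
  have := Y.big
  let T : Finset (Finset F) := univ.filter (Rk S k)
  have hT : ∀ U ∈ T, Rk S k U := fun U q => (mem_filter.1 q).2
  obtain ⟨c, hc⟩ := coverS S Y.two (fun f => ∀ U ∈ T, f ∉ U) k (d - k)
    (fun f _ => Or.inl (by rw [Y.hS]; omega)) (by omega) (by omega) (by omega)
    fun x y z rx _ _ n1 n2 n3 => by
      by_contra q
      refine rx {x, y, z} (mem_filter.2 ⟨mem_univ _, card_eq_three.2 ⟨x, y, z, n1, n2, n3, rfl⟩,
        ?_⟩) (by simp)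
      rw [← card_union_of_disjoint (disjoint_left.2 fun v h h' => by
        simpa using (mem_lv.1 h).symm.trans (mem_lv.1 h'))]
      refine (card_le_card (t := S x ∪ S y ∪ S z) fun v h => ?_).trans_lt (by omega)
      obtain ⟨f, a, a'⟩ := (mem_union.1 h).elim lv_ex lv_ex
      simp only [mem_insert, mem_singleton, mem_union] at a ⊢
      rcases a with rfl | rfl | rfl <;> tauto
  have h0 : ∀ c : V → Fin k, (∀ f α, ∃ v ∈ N f, c v = α) →
    ∃ c : V → Fin k, ∀ f α, ∃ v ∈ N f, c v = α := fun c h => ⟨c, h⟩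
  refine Y.start hT (c := c) (fun f q α => ?_) h0 (Y.fix h0 T hT)
  obtain ⟨v, h, e⟩ := (hc f q).1 (by rw [Y.hS]; omega) α
  exact ⟨v, Y.sub f h, e, Or.inl fun U a h' => q U a (Y.mem h' h)⟩

omit Y in
theorem exact_of (g : ℕ) (hg : 5 ≤ g) (h : ∀ (V F : Type) [Fintype V] [Fintype F]
    (N : F → Finset V), (Plan fun v f => v ∈ N f) → (∀ f, (N f).card = g) →
      ∃ c : V → Fin ((3 * g - 1) / 4), ∀ f α, ∃ v ∈ N f, c v = α) :
    IsLeast {k | ∃ (D : Type) (_ : Finite D) (M : PlaneMap D), M.minFace = g ∧ M.polyNum = k}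
      ((3 * g - 1) / 4) := by
  have lower : ∀ (D : Type) [Finite D] (M : PlaneMap D), M.minFace = g →
      (3 * g - 1) / 4 ≤ M.polyNum := by
    intro D _ M hM
    have := Fintype.ofFinite D
    obtain ⟨d⟩ := M.nonempty
    have : ∀ f, ∃ N : Finset (Orb M.σ), (∀ v ∈ N, v ∈ M.faceVerts f) ∧ N.card = g := fun f => by
      have h1 : g ≤ (M.faceVerts f).ncard := hM ▸ Nat.sInf_le ⟨f, rfl⟩
      rw [Set.ncard_eq_toFinset_card'] at h1
      obtain ⟨N, h2, h3⟩ := exists_subset_card_eq h1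
      exact ⟨N, fun v hv => Set.mem_toFinset.1 (h2 hv), h3⟩
    choose N h1 h2 using this
    obtain ⟨c, hc⟩ := h _ _ N (M.plan.mono fun v f => h1 f v) h2
    refine le_csSup ⟨Fintype.card (Orb M.σ), ?_⟩ ⟨c, fun f α => ?_⟩
    · rintro k ⟨c, hc⟩
      rw [← Fintype.card_fin k]
      refine Fintype.card_le_of_surjective c fun α => ?_
      obtain ⟨v, -, h⟩ := hc (orb _ d) α
      exact ⟨v, h⟩
    · obtain ⟨v, a, b⟩ := hc f α
      exact ⟨v, h1 f v a, b⟩
  obtain ⟨D, _, M, h1, h2⟩ := upper g hg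
  refine ⟨⟨D, inferInstance, M, h1, le_antisymm h2 (lower D M h1)⟩, ?_⟩
  rintro k ⟨D', _, M', h3, rfl⟩
  exact lower D' M' h3

omit Y in
theorem res01 (g : ℕ) (hg : (g % 4 = 0 ∧ 8 ≤ g) ∨ (g % 4 = 1 ∧ 13 ≤ g)) :
    IsLeast {k | ∃ (D : Type) (_ : Finite D) (M : PlaneMap D), M.minFace = g ∧ M.polyNum = k}
      ((3 * g - 1) / 4) := by
  refine exact_of g (by omega) fun V F _ _ N plan hN => ?_
  have hN' : ∀ f, (N f).card = g - 2 + 2 := fun f => by rw [hN]; omega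
  obtain ⟨S, h1, h2⟩ := orient N plan (g - 2) hN'
  exact Sy.poly (b := g % 4) ⟨fun f => (h1 f).1, fun f => (h1 f).2, hN', h2, by omega, by omega,
    by omega⟩

end Pool.Agent.P.MP_b2489f_co.Cover
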