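import Pool.Agent.P.MP_b2489f_co.Risk2

set_option autoImplicit false
set_option linter.unusedSectionVars false

/-! A minor-closed form of planarity, and the rooted colouring without dense triples. -/

namespace Pool.Agent.P.MP_b2489f_co.Cover

open Finset Classical Sum

variable {V F : Type} {I : V → F → Prop}

/-- Euler's bound for all bipartite minors of the incidence graph -/
def Spr (I : V → F → Prop) : Prop :=
  ∀ (ι : Type) [Fintype ι] [Nonempty ι] (W : ι → Set (V ⊕ F)),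
    (∀ i j x, x ∈ W i → x ∈ W j → i = j) → (∀ i, Conn I (W i)) →
    ∀ (A : Finset (ι × ι)) (χ : ι → Prop), (∀ a ∈ A, χ a.1 ∧ ¬ χ a.2) →
    (∀ a ∈ A, Touch I (W a.1) (W a.2)) → Fintype.card ι ≤ A.card →
    A.card + 4 ≤ 2 * Fintype.card ι

lemma Spr.map {V' F' : Type} {J : V' → F' → Prop} (h : Spr I) (φ : V' ⊕ F' → Set (V ⊕ F))
    (dis : ∀ x y z, z ∈ φ x → z ∈ φ y → x = y) (cn : ∀ x, Conn I (φ x))
    (ad : ∀ v f, J v f → Touch I (φ (inl v)) (φ (inr f))) : Spr J := by
  have ad' : ∀ x y, Adj J x y → Touch I (φ x) (φ y) := by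
    rintro (x | x) (y | y) a
    exacts [a.elim, ad _ _ a, (ad _ _ a).symm, a.elim]
  intro ι _ _ W h1 h2 A χ h3 h4 h5
  refine h ι (fun i => {z | ∃ x ∈ W i, z ∈ φ x}) ?_ (fun i => ?_) A χ h3 (fun a q => ?_) h5
  · rintro i j z ⟨x, a, b⟩ ⟨y, a', b'⟩
    exact h1 i j x a (dis x y z b b' ▸ a')
  · obtain ⟨r, hr⟩ := h2 i
    choose R hR using cn
    have sb : ∀ x ∈ W i, φ x ⊆ {z | ∃ x ∈ W i, z ∈ φ x} := fun x a z b => ⟨x, a, b⟩
    refine ⟨R r, ?_⟩
    rintro z ⟨x, a, b⟩
    have p := hr x a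
    induction p generalizing z with
    | refl => exact rtg_mono (sb _ a) (hR _ z b)
    | @tail y x _ p ih =>
      obtain ⟨u, u1, w, w1, e⟩ := ad' _ _ p.2.2
      exact ((ih u p.1 u1).tail ⟨sb _ p.1 u1, sb _ a w1, e⟩).trans
        (rtg_mono (sb _ a) ((rtg_symm (hR _ w w1)).trans (hR _ z b)))
  · obtain ⟨x, a, y, a', e⟩ := h4 a q
    exact (ad' _ _ e).mono (fun z b => ⟨x, a, b⟩) fun z b => ⟨y, a', b⟩

lemma Spr.hub (h : Spr I) {H1 H2 H3 : Set (V ⊕ F)} (c1 : Conn I H1) (c2 : Conn I H2)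
    (c3 : Conn I H3) (d1 : ∀ x ∈ H1, x ∉ H2) (d2 : ∀ x ∈ H1, x ∉ H3) (d3 : ∀ x ∈ H2, x ∉ H3)
    (Z : Finset V) (hZ : ∀ z ∈ Z, (inl z ∉ H1 ∧ inl z ∉ H2 ∧ inl z ∉ H3) ∧
      (∃ f, inr f ∈ H1 ∧ I z f) ∧ (∃ f, inr f ∈ H2 ∧ I z f) ∧ ∃ f, inr f ∈ H3 ∧ I z f) :
    Z.card ≤ 2 := by
  by_contra hc
  have : Fintype.card (Fin 3) ≤ Fintype.card Z := by
    rw [Fintype.card_coe, Fintype.card_fin]; omega
  obtain ⟨e⟩ := Function.Embedding.nonempty_of_card_le this
  let A : Finset ((Fin 3 ⊕ Fin 3) × (Fin 3 ⊕ Fin 3)) :=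
    univ.image fun p : Fin 3 × Fin 3 => (inl p.1, inr p.2)
  have hA : A.card = 9 := by
    rw [card_image_of_injective]
    · simp
    · rintro ⟨a, b⟩ ⟨c, d⟩ h
      simpa using h
  have n : ∀ i j, inl (e j).1 ∉ ![H1, H2, H3] i := fun i j => by
    have := (hZ _ (e j).2).1
    fin_cases i <;> simp [this]
  have := h (Fin 3 ⊕ Fin 3) (Sum.elim ![H1, H2, H3] fun j => {inl (e j).1}) ?_ ?_ A
    (fun i => i.isLeft = true) ?_ ?_ (by simp [hA])
  · simp [hA] at this
  · rintro (i | i) (j | j) x a b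
    · fin_cases i <;> fin_cases j <;> first | rfl | (exfalso; simp at a b; grind)
    · exact (n i j (b ▸ a)).elim
    · exact (n j i (a ▸ b)).elim
    · rw [e.injective (Subtype.ext (inl_injective (a.symm.trans b)))]
  · rintro (i | i)
    · fin_cases i
      exacts [c1, c2, c3]
    · exact conn_singleton _ _
  · intro a ha
    obtain ⟨p, -, rfl⟩ := mem_image.1 ha
    simp
  · intro a ha
    obtain ⟨⟨i, j⟩, -, rfl⟩ := mem_image.1 ha
    obtain ⟨-, ⟨f1, a1, b1⟩, ⟨f2, a2, b2⟩, f3, a3, b3⟩ := hZ _ (e j).2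
    fin_cases i
    exacts [⟨_, a1, _, rfl, b1⟩, ⟨_, a2, _, rfl, b2⟩, ⟨_, a3, _, rfl, b3⟩]

variable [Fintype V] [Fintype F] {k : ℕ}

lemma spr_of (h : Plan I) : Spr I := fun _ _ _ W a b A χ c d e => h.minor4 W a b A χ c d e

lemma Spr.sparse (h : Spr I) (E : Finset (V × F)) (hE : ∀ e ∈ E, I e.1 e.2) (ne : E.Nonempty) :
    E.card + 4 ≤ 2 * ((E.image Prod.fst).card + (E.image Prod.snd).card) ∨
      E.card < (E.image Prod.fst).card + (E.image Prod.snd).card := by
  obtain ⟨e0, he0⟩ := ne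
  let ι := (E.image Prod.fst : Finset V) ⊕ (E.image Prod.snd : Finset F)
  have : Nonempty ι := ⟨inl ⟨e0.1, mem_image_of_mem _ he0⟩⟩
  let g : E → ι × ι := fun e =>
    (inl ⟨e.1.1, mem_image_of_mem _ e.2⟩, inr ⟨e.1.2, mem_image_of_mem _ e.2⟩)
  have hg : Function.Injective g := by
    intro a b hab
    simp only [g, ι, Prod.mk.injEq, inl.injEq, Subtype.mk.injEq, inr.injEq] at hab
    exact Subtype.ext (Prod.ext hab.1 hab.2)
  have hA : (univ.image g).card = E.card := by
    rw [card_image_of_injective _ hg]; simp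
  have hι : Fintype.card ι = (E.image Prod.fst).card + (E.image Prod.snd).card := by
    simp only [ι, Fintype.card_sum, Fintype.card_coe]
  by_cases hc : Fintype.card ι ≤ (univ.image g).card
  · have := h ι (fun i => {Sum.map Subtype.val Subtype.val i}) ?_
      (fun i => conn_singleton _ _) (univ.image g) (fun i => i.isLeft = true) ?_ ?_ hc
    · omega
    · intro i j x h1 h2
      exact (Subtype.val_injective.sumMap Subtype.val_injective) (h1.symm.trans h2)
    · intro a ha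
      obtain ⟨p, -, rfl⟩ := mem_image.1 ha
      simp [g]
    · intro a ha
      obtain ⟨p, -, rfl⟩ := mem_image.1 ha
      exact ⟨_, rfl, _, rfl, hE _ p.2⟩
  · omega

lemma Spr.orient {N : F → Finset V} (h : Spr fun v f => v ∈ N f) (D : Finset V) (hD : D.card ≤ 2) :
    ∃ S : F → Finset V, (∀ f, S f ⊆ N f \ D ∧ (S f).card = (N f).card - 2) ∧
      ∀ v, (univ.filter fun f => v ∈ S f).card ≤ 2 := by
  rcases isEmpty_or_nonempty F with _ | _
  · exact ⟨N, fun f => isEmptyElim f, fun v => by simp⟩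
  obtain ⟨φ, inj, hφ⟩ := hall_aux (K := V × Bool ⊕ F × Bool)
    (univ.filter fun e : V × F => e.1 ∈ N e.2)
    (fun e => (({e.1} \ D) ×ˢ univ).disjSum ({e.2} ×ˢ univ)) fun S hS ne => by
      refine le_trans ?_ (card_le_card (s := ((S.image Prod.fst \ D) ×ˢ univ).disjSum
          (S.image Prod.snd ×ˢ univ)) ?_)
      · have := h.sparse S (fun e b => (mem_filter.1 (hS b)).2) ne
        have := le_card_sdiff D (S.image Prod.fst)
        have := card_pos.2 (ne.image Prod.snd)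
        simp only [card_disjSum, card_product, card_univ, Fintype.card_bool]
        omega
      · rintro (⟨v, b⟩ | ⟨v, b⟩) q <;> simp only [inl_mem_disjSum, inr_mem_disjSum, mem_product,
          mem_image, mem_univ, and_true, mem_sdiff] at q
        · obtain ⟨⟨e, q, rfl⟩, q'⟩ := q
          exact (@mem_biUnion _ _ _ _ (_) _).2 ⟨e, q, by simp [q']⟩
        · obtain ⟨e, q, rfl⟩ := q
          exact (@mem_biUnion _ _ _ _ (_) _).2 ⟨e, q, by simp⟩
  have key : ∀ f, ∃ S ⊆ (N f).filter fun v => (φ (v, f)).isLeft, S.card = (N f).card - 2 := by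
    refine fun f => exists_subset_card_eq ?_
    have h1 := card_filter_add_card_filter_not (s := N f) fun v => (φ (v, f)).isLeft
    have h2 : ((N f).filter fun v => ¬ (φ (v, f)).isLeft).card ≤
        ({inr (f, false), inr (f, true)} : Finset (V × Bool ⊕ F × Bool)).card := by
      refine card_le_card_of_injOn (fun v => φ (v, f)) (fun v b => ?_) fun v b w b' e =>
        congrArg Prod.fst (inj (by simpa using (mem_filter.1 b).1)
          (by simpa using (mem_filter.1 b').1) e)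
      have q := hφ (v, f) (by simpa using (mem_filter.1 b).1)
      have q' := (mem_filter.1 b).2
      rcases hh : φ (v, f) with x | ⟨x, _ | _⟩ <;> simp_all
    have := h2.trans card_le_two
    omega
  choose S h1 h2 using key
  refine ⟨S, fun f => ⟨fun v b => ?_, h2 f⟩, fun v => ?_⟩
  · obtain ⟨q, q'⟩ := mem_filter.1 (h1 _ b)
    have q'' := hφ (v, f) (by simpa using q)
    rcases hh : φ (v, f) with ⟨x, _⟩ | x <;> simp_all
    exact q''.1 ▸ q''.2
  refine le_trans (card_le_card_of_injOn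
    (t := ({inl (v, false), inl (v, true)} : Finset (V × Bool ⊕ F × Bool)))
    (fun f => φ (v, f)) (fun f b => ?_) fun f b w b' e =>
      congrArg Prod.snd (inj (by simpa using (mem_filter.1 (h1 _ (mem_filter.1 b).2)).1)
        (by simpa using (mem_filter.1 (h1 _ (mem_filter.1 b').2)).1) e)) card_le_two
  obtain ⟨q, q'⟩ := mem_filter.1 (h1 _ (mem_filter.1 b).2)
  have q := hφ (v, f) (by simpa using q)
  rcases hh : φ (v, f) with ⟨x, _ | _⟩ | x <;> simp_all

/-- at most two repeated colours -/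
def Dup (c : V → Fin k) (A : Finset V) : Prop := A.card ≤ (A.image c).card + 2

/-- what is asked of a face: all colours if it is big, at most two repetitions otherwise -/
def Req (g : ℕ) (c : V → Fin k) (A : Finset V) : Prop :=
  (A.card = g → ∀ α, ∃ v ∈ A, c v = α) ∧ (A.card ≠ g → Dup c A)

lemma Req.cg {g : ℕ} {c c' : V → Fin k} {A : Finset V} (h : Req g c A) (e : ∀ v ∈ A, c' v = c v) :
    Req g c' A :=
  ⟨fun q α => (h.1 q α).imp fun v a => ⟨a.1, (e v a.1).trans a.2⟩,
    fun q => by unfold Dup; rw [image_congr e]; exact h.2 q⟩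

lemma base {N : F → Finset V} (h : Spr fun v f => v ∈ N f) {g : ℕ} (hg : 4 * k + 2 = 3 * g)
    (big : 60 ≤ g) (hN : ∀ f, (N f).card = g ∨ (N f).card ≤ 13)
    (nd : ∀ x y z, x ≠ y → x ≠ z → y ≠ z → (N x).card = g → (N y).card = g → (N z).card = g →
      2 * k + 6 ≤ (N x ∪ N y ∪ N z).card) (ρ : F) (hρ : (N ρ).card ≤ 13) (c0 : V → Fin k)
    (h0 : Dup c0 (N ρ)) : ∃ c : V → Fin k, (∀ v ∈ N ρ, c v = c0 v) ∧ ∀ f, Req g c (N f) := by
  obtain ⟨A, a1, a2, a3⟩ := Finset.exists_subset_injOn_image_eq_of_surjOn (f := c0)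
    (N ρ : Set V) ((N ρ).image c0) (by simp [Set.SurjOn])
  obtain ⟨B, b1, b2⟩ := exists_subset_card_eq (s := A) (n := (N ρ).card - 2) (by
    rw [← card_image_of_injOn a2, a3]; unfold Dup at h0; omega)
  have b3 : B ⊆ N ρ := fun v a => a1 (b1 a)
  obtain ⟨S, s1, s2⟩ := h.orient (N ρ \ B) (by rw [card_sdiff_of_subset b3]; omega)
  have s3 : ∀ f, S f ⊆ N f := fun f => (s1 f).1.trans sdiff_subset
  obtain ⟨c, hc⟩ := coverS S s2 (fun _ => True) k (g - 2 - k)
    (fun f _ => by rw [(s1 f).2]; have := hN f; omega) (by omega) (by omega) (by omega)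
    fun x y z _ _ _ n1 n2 n3 => by
      have u1 : (S x).card ≤ (S x ∪ S y ∪ S z).card := card_le_card (by grind)
      have u2 : (S y).card ≤ (S x ∪ S y ∪ S z).card := card_le_card (by grind)
      have u3 : (S z).card ≤ (S x ∪ S y ∪ S z).card := card_le_card (by grind)
      have u4 : (N x ∪ N y ∪ N z).card ≤
          (S x ∪ S y ∪ S z ∪ (N x \ S x ∪ N y \ S y ∪ N z \ S z)).card := card_le_card (by grind)
      have u5 := card_union_le (S x ∪ S y ∪ S z) (N x \ S x ∪ N y \ S y ∪ N z \ S z)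
      have u6 := card_union_le (N x \ S x ∪ N y \ S y) (N z \ S z)
      have u7 := card_union_le (N x \ S x) (N y \ S y)
      simp only [card_sdiff_of_subset (s3 _), (s1 _).2] at u1 u2 u3 u6 u7 ⊢
      have := nd x y z n1 n2 n3
      have := hN x
      have := hN y
      have := hN z
      omega
  have e : S ρ = B := eq_of_subset_of_card_le (fun v a => by
    have := (s1 ρ).1 a
    grind) (by rw [b2, (s1 ρ).2])
  have i1 : Set.InjOn c B := e ▸ (hc ρ trivial).2 (by rw [(s1 ρ).2]; omega)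
  obtain ⟨σ, hσ⟩ := Equiv.Perm.exists_extending_pair (f := fun v : B => c v) (g := fun v => c0 v)
    (fun v w q => Subtype.ext (i1 v.2 w.2 q)) fun v w q => Subtype.ext (a2 (b1 v.2) (b1 w.2) q)
  have u : ∀ f, ∀ v ∈ S f, (if v ∈ N ρ \ B then c0 v else σ (c v)) = σ (c v) :=
    fun f v a => if_neg (mem_sdiff.1 ((s1 f).1 a)).2
  refine ⟨fun v => if v ∈ N ρ \ B then c0 v else σ (c v), fun v a => ?_,
    fun f => ⟨fun q α => ?_, fun q => ?_⟩⟩
  · by_cases q : v ∈ N ρ \ B
    exacts [if_pos q, (if_neg q).trans (hσ ⟨v, by grind⟩)]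
  · obtain ⟨v, a, e⟩ := (hc f trivial).1 (by rw [(s1 f).2]; omega) (σ.symm α)
    exact ⟨v, s3 f a, (u f v a).trans (by simp [e])⟩
  · have i2 := (hc f trivial).2 (by rw [(s1 f).2]; have := hN f; omega)
    have := card_le_card (image_subset_image
      (f := fun v => if v ∈ N ρ \ B then c0 v else σ (c v)) (s3 f))
    rw [card_image_of_injOn fun v a w a' q => i2 a a'
      (σ.injective (by rwa [← u f v a, ← u f w a'])), (s1 f).2] at this
    unfold Dup
    omega

end Pool.Agent.P.MP_b2489f_co.Cover
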