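import Pool.Agent.P.MP_b2489f_co.Ord

set_option autoImplicit false
set_option linter.unusedSectionVars false

/-! Set-up of the sequential colouring: kept vertices, times, labels and conflict counts. -/

namespace Pool.Agent.P.MP_b2489f_co

open Finset Classical

variable {V F Nd : Type} [Fintype V] [Fintype F] [Fintype Nd]

/-- `z` lies on at most one face of `s` -/
def Sys.Sing (S : Sys V F Nd) (z : V) (s : Nd) : Prop :=
  ∀ i j, z ∈ S.N (S.fc s i) → z ∈ S.N (S.fc s j) → i = j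

namespace Ord

variable {S : Sys V F Nd} {X : Nd → Finset V} (O : Ord S X)

def Bad (z : V) : Prop :=
  ∃ s, S.sup s ∧ O.pos (O.τ z) < O.pos s ∧ z ∈ X s ∧ ∃ x ∈ X s, O.pos (O.τ x) < O.pos (O.τ z)

def GC (z : V) : Prop := ¬ S.sup (O.τ z) ∧ (∃ n, ¬ S.sup n ∧ O.sec z n) ∧ ¬ O.Bad z

def Keep (f : Nd) (z : V) : Prop :=
  z ∈ X f ∧ (O.τ z = f ∨ (O.sec z f ∧ (O.GC z ∨ (S.sup (O.τ z) ∧ S.Sing z (O.τ z)))))

def Must (f : Nd) (z : V) : Prop := O.Keep f z ∧ (O.GC z ∨ O.τ z ≠ f)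

/-- vertices on two faces tied to strictly earlier owners -/
lemma bl_early (hX : S.Adm X) (o : Nd) {φ ψ : F} (hne : φ ≠ ψ)
    (h1 : O.pos o ≤ O.pos (S.nd φ)) (h2 : O.pos o ≤ O.pos (S.nd ψ))
    (h3 : ∀ s, S.sup s → O.pos o < O.pos s → S.nd φ ≠ s ∧ S.nd ψ ≠ s) (Z : Finset V)
    (hZ : ∀ z ∈ Z, z ∈ S.N φ ∧ z ∈ S.N ψ ∧ O.τ z = o ∧ O.Bad z) : Z.card ≤ 2216154 := by
  have a1 := (S.card_faces _).trans (Nat.mul_le_mul_left 3 (O.p4 o))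
  refine le_trans (card_le_card fun z hz => ?_) (card_biUnion_le_mul _ (fun χ => Z.filter fun z =>
    ∃ s, S.sup s ∧ O.pos o < O.pos s ∧ z ∈ X s ∧ ∃ x ∈ X s, x ∈ S.N χ ∧ O.τ x = S.nd χ)
    (3 * 369359) 2 a1 fun χ hχ => ?_)
  · obtain ⟨-, -, rfl, s, b1, b2, b3, x, b4, b5⟩ := hZ z hz
    obtain ⟨i, hi⟩ := hX.sub _ x (O.τ_mem x s b4)
    refine mem_biUnion.2 ⟨S.fc (O.τ x) i, mf.2 ⟨mem_univ _, mf.2 ⟨mem_univ _, ?_⟩⟩,
      mf.2 ⟨hz, s, b1, b2, b3, x, b4, hi, by rw [S.nd_fc]⟩⟩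
    rw [S.nd_fc]
    exact ⟨b5, s, b1, b2, z, b3, x, b4, rfl, rfl⟩
  · have b1 := (mf.1 (mf.1 hχ).2).2.1
    refine O.bl hX o hne _ (conn_star _ χ (fun x => x ∈ S.N χ ∧ O.τ x = S.nd χ) fun x hx => hx.1)
      ?_ ?_ h3 _ fun z hz => ?_
    · simp only [Set.mem_union, Set.mem_singleton_iff, Sum.inr.injEq, Set.mem_ofPred_eq,
        reduceCtorEq, and_false, exists_false, or_false]
      rintro rfl; omega
    · simp only [Set.mem_union, Set.mem_singleton_iff, Sum.inr.injEq, Set.mem_ofPred_eq,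
        reduceCtorEq, and_false, exists_false, or_false]
      rintro rfl; omega
    · obtain ⟨c1, s, c2, c3, c4, x, c5, c6⟩ := mf.1 hz
      obtain ⟨d1, d2, d3, -⟩ := hZ z c1
      refine ⟨d1, d2, d3, ?_, s, c2, c3, c4, x, c5, Or.inr ⟨x, c6, rfl⟩⟩
      rintro (h | ⟨y, h, h'⟩)
      · simp at h
      · rw [← Sum.inl_injective h', d3] at h
        rw [← h.2] at b1
        omega

lemma card_notKeep (hX : S.Adm X) {f : Nd} (hf : ¬ S.sup f) :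
    ((X f).filter fun z => ¬ O.Keep f z).card ≤ 71 + 143 * 2216154 := by
  have : ((X f).filter fun z => ¬ O.Keep f z) ⊆ ((X f).filter fun v => O.τ v ≠ f ∧ ¬ O.sec v f) ∪
      ((X f).filter fun z => O.sec z f ∧ ¬ O.Keep f z) := by
    intro z hz
    obtain ⟨h1, h2⟩ := mf.1 hz
    by_cases h : O.sec z f
    · exact mem_union_right _ (mf.2 ⟨h1, h, h2⟩)
    · exact mem_union_left _ (mf.2 ⟨h1, fun h' => h2 ⟨h1, Or.inl h'⟩, h⟩)
  refine (card_le_card this).trans ((card_union_le _ _).trans (Nat.add_le_add (O.p2 f)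
    (O.card_sec f _ (fun z hz => (mf.1 hz).2.1) _ fun m => ?_)))
  by_cases hm : S.sup m
  · refine le_trans (S.share hX hm (m := f) (by rintro rfl; exact hf hm) _ fun z hz => ?_)
      (by norm_num)
    obtain ⟨h1, rfl⟩ := mf.1 hz
    obtain ⟨h1, h2, h3⟩ := mf.1 h1
    refine ⟨h1, ?_⟩
    by_contra h
    push Not at h
    exact h3 ⟨h1, Or.inr ⟨h2, Or.inr ⟨hm, fun i j a b => by
      by_contra c; exact h i j c a b⟩⟩⟩
  · by_cases hlt : O.pos m < O.pos f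
    · refine O.bl_early hX m (φ := S.fc m 0) (ψ := S.fc f 0)
        (S.fc_ne (by rintro rfl; omega) _ _) (by rw [S.nd_fc]) (by rw [S.nd_fc]; omega)
        (fun s a _ => by
          rw [S.nd_fc, S.nd_fc]
          exact ⟨by rintro rfl; exact hm a, by rintro rfl; exact hf a⟩) _ fun z hz => ?_
      obtain ⟨h1, rfl⟩ := mf.1 hz
      obtain ⟨h1, h2, h3⟩ := mf.1 h1
      obtain ⟨i, hi⟩ := hX.sub _ z (O.τ_mem z f h1)
      obtain ⟨j, hj⟩ := hX.sub _ z h1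
      rw [S.fc_nor _ hm] at hi
      rw [S.fc_nor _ hf] at hj
      refine ⟨hi, hj, rfl, ?_⟩
      by_contra h
      exact h3 ⟨h1, Or.inr ⟨h2, Or.inl ⟨hm, ⟨f, hf, h2⟩, h⟩⟩⟩
    · rw [filter_eq_empty_iff.2, card_empty]
      · omega
      · rintro z hz rfl
        exact hlt (O.sec_lt (mf.1 hz).2.1)

lemma gc_core {f : Nd} {z : V} (h1 : z ∈ X f) (h : O.GC z) :
    z ∈ (X f).filter fun v => ∃ m, ¬ S.sup m ∧ m ≠ f ∧ v ∈ X m := by
  refine mf.2 ⟨h1, ?_⟩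
  by_cases h2 : O.τ z = f
  · obtain ⟨n, a1, a2⟩ := h.2.1
    exact ⟨n, a1, fun e => a2.2.1 (h2.trans e.symm), a2.1⟩
  · exact ⟨_, h.1, h2, O.τ_mem z f h1⟩

lemma card_must {f : Nd} {Δ C : ℕ}
    (h1 : ((X f).filter fun v => ∃ m, ¬ S.sup m ∧ m ≠ f ∧ v ∈ X m).card ≤ Δ)
    (hC : ∀ s, S.sup s → ((X s).filter fun z => S.Sing z s).card ≤ C) :
    (univ.filter (O.Must f)).card ≤ Δ + 143 * C := by
  have : univ.filter (O.Must f) ⊆ ((X f).filter fun v => ∃ m, ¬ S.sup m ∧ m ≠ f ∧ v ∈ X m) ∪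
      univ.filter fun z => O.sec z f ∧ S.sup (O.τ z) ∧ S.Sing z (O.τ z) := by
    intro z hz
    obtain ⟨⟨a1, a2⟩, a3⟩ := (mf.1 hz).2
    by_cases h : O.GC z
    · exact mem_union_left _ (O.gc_core a1 h)
    · obtain ⟨a4, a5⟩ := a2.resolve_left (a3.resolve_left h)
      exact mem_union_right _ (mf.2 ⟨mem_univ _, a4, a5.resolve_left h⟩)
  refine (card_le_card this).trans ((card_union_le _ _).trans (Nat.add_le_add h1
    (O.card_sec f _ (fun z hz => (mf.1 hz).2.1) _ fun m => ?_)))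
  by_cases hm : S.sup m
  · refine le_trans (card_le_card fun z hz => ?_) (hC m hm)
    obtain ⟨a1, rfl⟩ := mf.1 hz
    exact mf.2 ⟨O.τ_mem z f (mf.1 a1).2.1.1, (mf.1 a1).2.2.2⟩
  · rw [filter_eq_empty_iff.2, card_empty]
    · omega
    · rintro z hz rfl
      exact hm (mf.1 hz).2.2.1

end Ord

/-- all data of the sequential colouring -/
structure Ctx (S : Sys V F Nd) where
  X : Nd → Finset V
  hX : S.Adm X
  O : Ord S X
  k : ℕ
  κ : ℕ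
  M : ℕ
  C : ℕ
  c0 : V → Fin k
  hc0 : ∀ f, ¬ S.sup f → ∀ x ∈ X f, ∀ y ∈ X f, O.GC x → O.GC y → c0 x = c0 y → x = y
  hC : ∀ s, S.sup s → ((X s).filter fun z => S.Sing z s).card ≤ C
  hM : ∀ f, ¬ S.sup f → (univ.filter (O.Must f)).card ≤ M
  can : Nd → V → F
  can_nd : ∀ n v, S.nd (can n v) = n
  can_mem : ∀ n, ∀ v ∈ X n, v ∈ S.N (can n v)
  D : Nd → Finset V
  D_keep : ∀ f, ¬ S.sup f → ∀ z ∈ D f, O.Keep f z
  D_card : ∀ f, ¬ S.sup f → (D f).card = k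
  D_must : ∀ f, ¬ S.sup f → ∀ z, O.Must f z → z ∈ D f
  D_ext : ∀ f, ¬ S.sup f → (X f \ D f).card ≤ κ

namespace Ctx

variable {S : Sys V F Nd} (Z : Ctx S)

def Extra (z : V) : Prop := ¬ S.sup (Z.O.τ z) ∧ z ∉ Z.D (Z.O.τ z)

noncomputable def T (z : V) : ℕ := Z.O.pos (Z.O.τ z) * (Fintype.card V + 1) +
  if Z.Extra z then (Fintype.equivFin V z).1 + 1 else 0

noncomputable def hb (z : V) : V ⊕ F :=
  if Z.Extra z then Sum.inl z else Sum.inr (Z.can (Z.O.τ z) z)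

noncomputable def Ext (s : Nd) : Finset V := (Z.X s).filter fun z => Z.O.τ z ≠ s

def Con (x z : V) : Prop := ∃ s, S.sup s ∧ x ∈ Z.Ext s ∧ z ∈ Z.Ext s ∧ Z.T x < Z.T z ∧
  (∃ y ∈ Z.Ext s, y ≠ x ∧ Z.T y < Z.T z) ∧ ∃ y ∈ Z.Ext s, y ≠ z ∧ Z.T y ≤ Z.T z ∧ Z.T y ≠ Z.T x

def Grp (x z : V) : Prop := x ≠ z ∧ Z.T x = Z.T z ∧ ∃ s, S.sup s ∧ x ∈ Z.Ext s ∧ z ∈ Z.Ext s

lemma T_ge (z : V) : Z.O.pos (Z.O.τ z) * (Fintype.card V + 1) ≤ Z.T z := Nat.le_add_right _ _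

lemma T_lt (z : V) : Z.T z < (Z.O.pos (Z.O.τ z) + 1) * (Fintype.card V + 1) := by
  have := (Fintype.equivFin V z).2
  rw [T, add_mul]
  split_ifs <;> omega

lemma T_lt_mul {x : V} {n : ℕ} (h : Z.O.pos (Z.O.τ x) < n) : Z.T x < n * (Fintype.card V + 1) :=
  (Z.T_lt x).trans_le (Nat.mul_le_mul_right _ h)

lemma T_lt_of_pos {x z : V} (h : Z.O.pos (Z.O.τ x) < Z.O.pos (Z.O.τ z)) : Z.T x < Z.T z :=
  (Z.T_lt_mul h).trans_le (Z.T_ge z)

lemma pos_le_of_T {x z : V} (h : Z.T x ≤ Z.T z) : Z.O.pos (Z.O.τ x) ≤ Z.O.pos (Z.O.τ z) := by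
  by_contra h'
  have := Z.T_lt_of_pos (not_le.1 h')
  omega

lemma T_non {z : V} (h : ¬ Z.Extra z) : Z.T z = Z.O.pos (Z.O.τ z) * (Fintype.card V + 1) := by
  rw [T, if_neg h, add_zero]

lemma pos_lt_of_T {x z : V} (hz : ¬ Z.Extra z) (h : Z.T x < Z.T z) :
    Z.O.pos (Z.O.τ x) < Z.O.pos (Z.O.τ z) := by
  rw [Z.T_non hz] at h
  exact Nat.lt_of_mul_lt_mul_right ((Z.T_ge x).trans_lt h)

lemma T_eq_mul {z : V} {n : Nd} (h : Z.T z = Z.O.pos n * (Fintype.card V + 1)) :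
    Z.O.τ z = n ∧ ¬ Z.Extra z := by
  have a1 := Z.T_ge z
  have a2 := Z.T_lt z
  rw [h] at a1 a2
  have a3 := Nat.le_of_mul_le_mul_right a1 (Nat.succ_pos _)
  have a4 := Nat.lt_of_mul_lt_mul_right a2
  have a5 : Z.O.τ z = n := Z.O.inj (by omega)
  refine ⟨a5, fun he => ?_⟩
  rw [T, if_pos he, a5] at h
  omega

lemma T_extra {x z : V} (hz : Z.Extra z) (h : Z.T x = Z.T z) : x = z := by
  have a1 : Z.O.τ x = Z.O.τ z := Z.O.inj (le_antisymm (Z.pos_le_of_T h.le) (Z.pos_le_of_T h.ge))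
  rw [T, T, a1, if_pos hz] at h
  split_ifs at h
  · exact (Fintype.equivFin V).injective (Fin.ext (by omega))
  · omega

lemma hb_T {x y : V} (h : Z.hb x = Z.hb y) : Z.T x = Z.T y := by
  unfold hb at h
  split_ifs at h with h1 h2
  · rw [Sum.inl_injective h]
  · rename_i h2
    rw [Z.T_non h1, Z.T_non h2, ← Z.can_nd (Z.O.τ x) x, Sum.inr_injective h, Z.can_nd]

lemma ext_lt {s : Nd} {z : V} (h : z ∈ Z.Ext s) : Z.O.pos (Z.O.τ z) < Z.O.pos s :=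
  Z.O.τ_lt (mf.1 h).1 (mf.1 h).2

lemma card_ext {s : Nd} (hs : S.sup s) : (Z.Ext s).card ≤ 71 + 143 * (Z.C + 54) := by
  have : Z.Ext s ⊆ ((Z.X s).filter fun v => Z.O.τ v ≠ s ∧ ¬ Z.O.sec v s) ∪
      univ.filter fun z => Z.O.sec z s := by
    intro z hz
    by_cases h : Z.O.sec z s
    · exact mem_union_right _ (mf.2 ⟨mem_univ _, h⟩)
    · exact mem_union_left _ (mf.2 ⟨(mf.1 hz).1, (mf.1 hz).2, h⟩)
  refine (card_le_card this).trans ((card_union_le _ _).trans (Nat.add_le_add (Z.O.p2 s)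
    (Z.O.card_sec s _ (fun z hz => (mf.1 hz).2) _ fun m => ?_)))
  rw [← card_filter_add_card_filter_not (fun z => S.Sing z s)]
  refine Nat.add_le_add (le_trans (card_le_card fun z hz => ?_) (Z.hC s hs)) ?_
  · exact mf.2 ⟨(mf.1 (mf.1 (mf.1 hz).1).1).2.1, (mf.1 hz).2⟩
  · by_cases hm : m = s
    · rw [filter_eq_empty_iff.2, card_empty]
      · omega
      · intro z hz
        exact absurd ((mf.1 hz).2.trans hm) (mf.1 (mf.1 hz).1).2.2.1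
    · refine S.share Z.hX hs hm _ fun z hz => ?_
      obtain ⟨h1, h2⟩ := mf.1 hz
      obtain ⟨h3, rfl⟩ := mf.1 h1
      refine ⟨Z.O.τ_mem z s (mf.1 h3).2.1, ?_⟩
      simp only [Sys.Sing] at h2
      push Not at h2
      obtain ⟨i, j, a, b, c⟩ := h2
      exact ⟨i, j, c, a, b⟩

/-- labels that can interact with the owner `o` -/
noncomputable def Lb (o : Nd) : Finset (V ⊕ F) :=
  (univ.filter fun x => Z.O.pos (Z.O.τ x) ≤ Z.O.pos o ∧ ∃ s, S.sup s ∧ Z.O.pos o < Z.O.pos s ∧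
    x ∈ Z.X s ∧ ∃ z ∈ Z.X s, Z.O.τ z = o).image Z.hb

lemma card_Lb (o : Nd) : (Z.Lb o).card ≤ 369360 * (3 + Z.κ) := by
  refine le_trans (card_le_card fun η hη => ?_) (card_biUnion_le_mul _ (fun m =>
    (univ.image fun i => (Sum.inr (S.fc m i) : V ⊕ F)) ∪
      (if S.sup m then ∅ else Z.X m \ Z.D m).image Sum.inl) _ _
    ((card_insert_le o _).trans (Nat.add_le_add_right (Z.O.p4 o) 1)) fun m _ => ?_)
  · obtain ⟨x, hx, rfl⟩ := mem_image.1 hη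
    obtain ⟨h1, s, h2, h3, h4, z, h5, h6⟩ := (mf.1 hx).2
    refine mem_biUnion.2 ⟨Z.O.τ x, ?_, ?_⟩
    · rcases h1.lt_or_eq with h | h
      · exact mem_insert_of_mem (mf.2 ⟨mem_univ _, h, s, h2, h3, z, h5, x, h4, h6, rfl⟩)
      · rw [Z.O.inj h]; exact mem_insert_self _ _
    · unfold hb
      by_cases a : Z.Extra x
      · rw [if_pos a, if_neg a.1]
        exact mem_union_right _ (mem_image_of_mem _ (mem_sdiff.2 ⟨Z.O.τ_mem x s h4, a.2⟩))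
      · rw [if_neg a]
        obtain ⟨i, hi⟩ := S.fc_nd (Z.can (Z.O.τ x) x)
        rw [Z.can_nd] at hi
        exact mem_union_left _ (mem_image.2 ⟨i, mem_univ _, by rw [hi]⟩)
  · refine (card_union_le _ _).trans (Nat.add_le_add (card_image_le.trans (by simp))
      (card_image_le.trans ?_))
    split_ifs with h
    · simp
    · exact Z.D_ext m h

/-- hub of a label, without the vertex `u` -/
def hub (u : V) : V ⊕ F → Set (V ⊕ F)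
  | Sum.inl v => {Sum.inl v}
  | Sum.inr φ => {Sum.inr φ} ∪
      {y | ∃ x, (Z.hb x = Sum.inr φ ∧ x ≠ u ∧ x ∈ Z.X (Z.O.τ x)) ∧ y = Sum.inl x}

lemma hb_inl {x v : V} (h : Z.hb x = Sum.inl v) : x = v := by
  unfold hb at h
  split_ifs at h
  exact Sum.inl_injective h

lemma hb_inr {x : V} {φ : F} (h : Z.hb x = Sum.inr φ) : Z.can (Z.O.τ x) x = φ := by
  unfold hb at h
  split_ifs at h
  exact Sum.inr_injective h

lemma hub_conn (u : V) (η : V ⊕ F) : Conn (fun v f => v ∈ S.N f) (Z.hub u η) := by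
  rcases η with v | φ
  · exact conn_singleton _ _
  · exact conn_star _ _ _ fun x hx => Z.hb_inr hx.1 ▸ Z.can_mem _ _ hx.2.2

lemma mem_hub {u x : V} {s : Nd} (h1 : x ≠ u) (h2 : x ∈ Z.X s) : Sum.inl x ∈ Z.hub u (Z.hb x) := by
  rcases h : Z.hb x with v | φ
  · rw [Z.hb_inl h]; rfl
  · exact Or.inr ⟨x, ⟨h, h1, Z.O.τ_mem x s h2⟩, rfl⟩

lemma hub_inl {u x y : V} (h1 : x ≠ u) (h : Sum.inl y ∈ Z.hub u (Z.hb x)) :
    Z.hb y = Z.hb x ∧ y ≠ u := by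
  rcases h' : Z.hb x with v | φ <;> rw [h'] at h
  · obtain rfl := Z.hb_inl h'
    obtain rfl := Sum.inl_injective h
    exact ⟨h', h1⟩
  · rcases h with h | ⟨w, h, e⟩
    · simp at h
    · obtain rfl := Sum.inl_injective e
      exact ⟨h.1, h.2.1⟩

lemma hub_inr {u : V} {η : V ⊕ F} {φ : F} (h : Sum.inr φ ∈ Z.hub u η) : η = Sum.inr φ := by
  rcases η with v | ψ
  · simp [hub] at h
  · simp only [hub, Set.mem_union, Set.mem_singleton_iff, Sum.inr.injEq, Set.mem_ofPred_eq,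
      reduceCtorEq, and_false, exists_false, or_false] at h
    rw [h]

lemma few_sup (o : Nd) (u : V) (hu : Z.O.pos (Z.O.τ u) ≤ Z.O.pos o) (T : Finset Nd)
    (hT : ∀ s ∈ T, S.sup s ∧ Z.O.pos o < Z.O.pos s ∧ u ∈ Z.X s ∧ (∃ z ∈ Z.X s, Z.O.τ z = o) ∧
      ∃ x ∈ Z.X s, ∃ y ∈ Z.X s, x ≠ u ∧ y ≠ u ∧ Z.hb x ≠ Z.hb y ∧
        Z.O.pos (Z.O.τ x) ≤ Z.O.pos o ∧ Z.O.pos (Z.O.τ y) ≤ Z.O.pos o) :
    T.card ≤ 369360 * (3 + Z.κ) * (369360 * (3 + Z.κ)) * 2 := by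
  refine le_trans (card_le_card fun s hs => ?_) (card_biUnion_le_mul (Z.Lb o ×ˢ Z.Lb o)
    (fun p => T.filter fun s => ∃ x ∈ Z.X s, ∃ y ∈ Z.X s, x ≠ u ∧ y ≠ u ∧ Z.hb x ≠ Z.hb y ∧
      Z.O.pos (Z.O.τ x) ≤ Z.O.pos o ∧ Z.O.pos (Z.O.τ y) ≤ Z.O.pos o ∧ Z.hb x = p.1 ∧ Z.hb y = p.2)
    _ 2 (by rw [card_product]; exact Nat.mul_le_mul (Z.card_Lb o) (Z.card_Lb o)) fun p _ => ?_)
  · obtain ⟨a1, a2, -, a4, x, a5, y, a6, a7, a8, a9, b1, b2⟩ := hT s hs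
    exact mem_biUnion.2 ⟨(Z.hb x, Z.hb y), mem_product.2
      ⟨mem_image_of_mem _ (mf.2 ⟨mem_univ _, b1, s, a1, a2, a5, a4⟩),
        mem_image_of_mem _ (mf.2 ⟨mem_univ _, b2, s, a1, a2, a6, a4⟩)⟩,
      mf.2 ⟨hs, x, a5, y, a6, a7, a8, a9, b1, b2, rfl, rfl⟩⟩
  · rcases eq_empty_or_nonempty (T.filter fun s => ∃ x ∈ Z.X s, ∃ y ∈ Z.X s, x ≠ u ∧ y ≠ u ∧
      Z.hb x ≠ Z.hb y ∧ Z.O.pos (Z.O.τ x) ≤ Z.O.pos o ∧ Z.O.pos (Z.O.τ y) ≤ Z.O.pos o ∧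
      Z.hb x = p.1 ∧ Z.hb y = p.2) with h | ⟨s0, h⟩
    · rw [h]; simp
    obtain ⟨-, x0, -, y0, -, a1, a2, a3, a4, a5, a6, a7⟩ := mf.1 h
    have k1 : ∀ x y, x ≠ u → Z.O.pos (Z.O.τ x) ≤ Z.O.pos o → Sum.inl y ∈ Z.hub u (Z.hb x) →
        Z.O.pos (Z.O.τ y) ≤ Z.O.pos o := fun x y b1 b2 b3 =>
      (Z.pos_le_of_T (Z.hb_T (Z.hub_inl b1 b3).1).le).trans b2
    have k2 : ∀ x φ, Z.O.pos (Z.O.τ x) ≤ Z.O.pos o → Sum.inr φ ∈ Z.hub u (Z.hb x) →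
        Z.O.pos (S.nd φ) ≤ Z.O.pos o := fun x φ b2 b3 => by
      rw [← Z.hb_inr (Z.hub_inr b3), Z.can_nd]; exact b2
    have k3 : ∀ w, w ∈ Z.hub u (Z.hb x0) → w ∈ Z.hub u (Z.hb y0) → False := by
      rintro (w | w) b1 b2
      · exact a3 ((Z.hub_inl a1 b1).1.symm.trans (Z.hub_inl a2 b2).1)
      · exact a3 ((Z.hub_inr b1).trans (Z.hub_inr b2).symm)
    have k4 : ∀ x, x ≠ u → Sum.inl u ∉ Z.hub u (Z.hb x) := fun x b1 b2 => (Z.hub_inl b1 b2).2 rfl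
    refine Z.O.tl Z.hX o ![{Sum.inl u}, Z.hub u (Z.hb x0), Z.hub u (Z.hb y0)] ?_ ?_ ?_ ?_ _ ?_
    · intro i j w b1 b2
      fin_cases i <;> fin_cases j
      · rfl
      · exact (k4 _ a1 ((show w = _ from b1) ▸ b2)).elim
      · exact (k4 _ a2 ((show w = _ from b1) ▸ b2)).elim
      · exact (k4 _ a1 ((show w = _ from b2) ▸ b1)).elim
      · rfl
      · exact (k3 w b1 b2).elim
      · exact (k4 _ a2 ((show w = _ from b2) ▸ b1)).elim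
      · exact (k3 w b2 b1).elim
      · rfl
    · intro i
      fin_cases i
      · exact conn_singleton _ _
      · exact Z.hub_conn _ _
      · exact Z.hub_conn _ _
    · intro i x hx
      fin_cases i
      · rw [Sum.inl_injective (show Sum.inl x = Sum.inl u from hx)]; exact hu
      · exact k1 _ _ a1 a4 hx
      · exact k1 _ _ a2 a5 hx
    · intro i φ hx
      fin_cases i
      · exact absurd (show Sum.inr φ = Sum.inl u from hx) (by simp)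
      · exact k2 _ _ a4 hx
      · exact k2 _ _ a5 hx
    · intro s hs
      obtain ⟨b1, x, b2, y, b3, b4, b5, -, -, -, b6, b7⟩ := mf.1 hs
      refine ⟨(hT s b1).1, (hT s b1).2.1, fun i => ?_⟩
      fin_cases i
      · exact ⟨u, (hT s b1).2.2.1, rfl⟩
      · exact ⟨x, b2, by rw [a6, ← b6]; exact Z.mem_hub b4 b2⟩
      · exact ⟨y, b3, by rw [a7, ← b7]; exact Z.mem_hub b5 b3⟩

/-- bound on the number of conflicts -/
def B : ℕ := 369360 * (3 + Z.κ) * (369360 * (3 + Z.κ)) * 2 * (71 + 143 * (Z.C + 54))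

lemma card_con1 (z : V) : (univ.filter fun x => Z.Con x z).card ≤ Z.B := by
  refine le_trans (card_le_card fun x hx => ?_) (card_biUnion_le_mul (univ.filter fun s =>
    S.sup s ∧ z ∈ Z.Ext s ∧ ∃ x ∈ Z.Ext s, Z.T x < Z.T z ∧
      ∃ y ∈ Z.Ext s, y ≠ z ∧ Z.T y ≤ Z.T z ∧ Z.T y ≠ Z.T x) Z.Ext _ _
    (Z.few_sup (Z.O.τ z) z le_rfl _ fun s hs => ?_) fun s hs => Z.card_ext (mf.1 hs).2.1)
  · obtain ⟨s, a1, a2, a3, a4, -, a5⟩ := (mf.1 hx).2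
    exact mem_biUnion.2 ⟨s, mf.2 ⟨mem_univ _, a1, a3, x, a2, a4, a5⟩, a2⟩
  · obtain ⟨a1, a2, x, a3, a4, y, a5, a6, a7, a8⟩ := (mf.1 hs).2
    exact ⟨a1, Z.ext_lt a2, (mf.1 a2).1, ⟨z, (mf.1 a2).1, rfl⟩, x, (mf.1 a3).1, y, (mf.1 a5).1,
      by rintro rfl; omega, a6, fun h => a8 (Z.hb_T h).symm, Z.pos_le_of_T a4.le, Z.pos_le_of_T a7⟩

lemma card_con2 (x : V) (o : Nd) :
    (univ.filter fun z => Z.O.τ z = o ∧ Z.Con x z).card ≤ Z.B := by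
  rcases eq_empty_or_nonempty (univ.filter fun z => Z.O.τ z = o ∧ Z.Con x z) with h | ⟨z0, h⟩
  · rw [h]; simp
  obtain ⟨rfl, s0, -, -, -, h0, -⟩ := (mf.1 h).2
  refine le_trans (card_le_card fun z hz => ?_) (card_biUnion_le_mul (univ.filter fun s =>
    S.sup s ∧ x ∈ Z.Ext s ∧ ∃ z ∈ Z.Ext s, Z.O.τ z = Z.O.τ z0 ∧ Z.T x < Z.T z ∧
      ∃ y ∈ Z.Ext s, y ≠ x ∧ Z.T y < Z.T z) Z.Ext _ _
    (Z.few_sup (Z.O.τ z0) x (Z.pos_le_of_T h0.le) _ fun s hs => ?_)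
    fun s hs => Z.card_ext (mf.1 hs).2.1)
  · obtain ⟨a0, s, a1, a2, a3, a4, a5, -⟩ := (mf.1 hz).2
    exact mem_biUnion.2 ⟨s, mf.2 ⟨mem_univ _, a1, a2, z, a3, a0, a4, a5⟩, a3⟩
  · obtain ⟨a1, a2, z, a3, a4, a5, y, a6, a7, a8⟩ := (mf.1 hs).2
    exact ⟨a1, a4 ▸ Z.ext_lt a3, (mf.1 a2).1, ⟨z, (mf.1 a3).1, a4⟩, z, (mf.1 a3).1, y, (mf.1 a6).1,
      by rintro rfl; omega, a7, fun h => by have := Z.hb_T h; omega, by rw [a4],
      a4 ▸ Z.pos_le_of_T a8.le⟩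

/-- plain vertices of a heavy triple, missing exactly the face `i` -/
def Plain (s : Nd) (i : Fin 3) (z : V) : Prop :=
  Z.O.τ z = s ∧ z ∉ S.N (S.fc s i) ∧ (∀ j, j ≠ i → z ∈ S.N (S.fc s j)) ∧
    ∀ s', S.sup s' → z ∈ Z.Ext s' → ∀ x ∈ Z.X s', Z.O.pos (Z.O.τ x) ≤ Z.O.pos s →
      Z.O.τ x = s ∧ ∀ j, j ≠ i → x ∈ S.N (S.fc s j)

noncomputable def NP (s : Nd) : Finset V :=
  (Z.X s).filter fun z => Z.O.τ z = s ∧ ∀ i, ¬ Z.Plain s i z

lemma card_NP {s : Nd} (hs : S.sup s) :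
    (Z.NP s).card ≤ Z.C + 2 + 3 * (2216154 + 2 + Z.C * 2) := by
  have inj := S.fc_sup s hs
  have oth : ∀ i : Fin 3, i + 1 ≠ i ∧ i + 2 ≠ i ∧ i + 1 ≠ i + 2 ∧
      ∀ j, j ≠ i → j = i + 1 ∨ j = i + 2 := by decide
  let Ty : Fin 3 → Finset V := fun i => (Z.NP s).filter fun z =>
    z ∉ S.N (S.fc s i) ∧ ∀ j, j ≠ i → z ∈ S.N (S.fc s j)
  have a1 : Z.NP s ⊆ (((Z.X s).filter fun z => S.Sing z s) ∪
      univ.filter fun z => ∀ i, z ∈ S.N (S.fc s i)) ∪ univ.biUnion Ty := by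
    intro z hz
    by_cases h1 : S.Sing z s
    · exact mem_union_left _ (mem_union_left _ (mf.2 ⟨(mf.1 hz).1, h1⟩))
    by_cases h2 : ∀ i, z ∈ S.N (S.fc s i)
    · exact mem_union_left _ (mem_union_right _ (mf.2 ⟨mem_univ _, h2⟩))
    push Not at h2
    obtain ⟨i, hi⟩ := h2
    refine mem_union_right _ (mem_biUnion.2 ⟨i, mem_univ _, mf.2 ⟨hz, hi, fun j hj => ?_⟩⟩)
    simp only [Sys.Sing] at h1
    push Not at h1
    obtain ⟨a, b, h3, h4, h5⟩ := h1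
    have : ∀ i j a b : Fin 3, a ≠ i → b ≠ i → j ≠ i → a ≠ b → j = a ∨ j = b := by decide
    rcases this i j a b (by rintro rfl; exact hi h3) (by rintro rfl; exact hi h4) hj h5 with
      rfl | rfl <;> assumption
  refine (card_le_card a1).trans ((card_union_le _ _).trans (Nat.add_le_add
    ((card_union_le _ _).trans (Nat.add_le_add (Z.hC s hs) ?_))
    (card_biUnion_le_mul _ _ 3 _ (by simp) fun i _ => ?_)))
  · exact S.tri (a := S.fc s 0) (b := S.fc s 1) (c := S.fc s 2) (inj.ne (by decide))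
      (inj.ne (by decide)) (inj.ne (by decide)) _
      fun z hz => ⟨(mf.1 hz).2 _, (mf.1 hz).2 _, (mf.1 hz).2 _⟩
  obtain ⟨o1, o2, o3, o4⟩ := oth i
  have h3 : ∀ s', S.sup s' → Z.O.pos s < Z.O.pos s' →
      S.nd (S.fc s (i + 1)) ≠ s' ∧ S.nd (S.fc s (i + 2)) ≠ s' := fun s' _ h => by
    rw [S.nd_fc, S.nd_fc]
    exact ⟨by rintro rfl; omega, by rintro rfl; omega⟩
  have base : ∀ z ∈ Ty i, z ∈ S.N (S.fc s (i + 1)) ∧ z ∈ S.N (S.fc s (i + 2)) ∧ Z.O.τ z = s :=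
    fun z hz => ⟨(mf.1 hz).2.2 _ o1, (mf.1 hz).2.2 _ o2, (mf.1 (mf.1 hz).1).2.1⟩
  have a2 : Ty i ⊆ (((Ty i).filter Z.O.Bad) ∪ (Ty i).filter fun z => ∃ s', S.sup s' ∧
      Z.O.pos s < Z.O.pos s' ∧ z ∈ Z.X s' ∧ ∃ x ∈ Z.X s', x ∈ S.N (S.fc s i)) ∪
      ((Z.X s).filter fun z => S.Sing z s).biUnion fun x => (Ty i).filter fun z => ∃ s', S.sup s' ∧
        Z.O.pos s < Z.O.pos s' ∧ z ∈ Z.X s' ∧ x ∈ Z.X s' := by
    intro z hz
    obtain ⟨b1, b2, b3⟩ := mf.1 hz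
    obtain ⟨b4, b5, b6⟩ := mf.1 b1
    have := b6 i
    simp only [Plain, not_and, not_forall] at this
    obtain ⟨s', c1, c2, x, c3, c4, c5⟩ := this b5 b2 b3
    have c6 := Z.ext_lt c2
    by_cases d1 : Z.O.τ x = s
    · rw [b5] at c6
      by_cases d2 : x ∈ S.N (S.fc s i)
      · exact mem_union_left _ (mem_union_right _
          (mf.2 ⟨hz, s', c1, c6, (mf.1 c2).1, x, c3, d2⟩))
      · refine mem_union_right _ (mem_biUnion.2 ⟨x, mf.2 ⟨d1 ▸ Z.O.τ_mem x s' c3, ?_⟩,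
          mf.2 ⟨hz, s', c1, c6, (mf.1 c2).1, c3⟩⟩)
        obtain ⟨j, e1, e2⟩ := c5 d1
        intro a b ha hb
        have : ∀ i j a b : Fin 3, a ≠ i → b ≠ i → a ≠ j → b ≠ j → j ≠ i → a = b := by
          intro i j a b; omega
        exact this i j a b (by rintro rfl; exact d2 ha) (by rintro rfl; exact d2 hb)
          (by rintro rfl; exact e2 ha) (by rintro rfl; exact e2 hb) e1
    · refine mem_union_left _ (mem_union_left _ (mf.2 ⟨hz, s', c1, c6, (mf.1 c2).1, x, c3, ?_⟩))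
      rw [b5]
      exact lt_of_le_of_ne c4 fun e => d1 (Z.O.inj e)
  refine (card_le_card a2).trans ((card_union_le _ _).trans (Nat.add_le_add
    ((card_union_le _ _).trans (Nat.add_le_add ?_ ?_))
    (card_biUnion_le_mul _ _ _ 2 (Z.hC s hs) fun x hx => ?_)))
  · exact Z.O.bl_early Z.hX s (inj.ne o3) (by rw [S.nd_fc]) (by rw [S.nd_fc]) h3 _ fun z hz =>
      ⟨(base z (mf.1 hz).1).1, (base z (mf.1 hz).1).2.1, (base z (mf.1 hz).1).2.2, (mf.1 hz).2⟩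
  · refine Z.O.bl Z.hX s (inj.ne o3) _
      (conn_star _ (S.fc s i) (fun x => x ∈ S.N (S.fc s i)) fun x hx => hx)
      (by simpa using inj.ne o1) (by simpa using inj.ne o2) h3 _ fun z hz => ?_
    obtain ⟨c1, s', c2, c3, c4, x, c5, c6⟩ := mf.1 hz
    exact ⟨(base z c1).1, (base z c1).2.1, (base z c1).2.2, by simpa using (mf.1 c1).2.1,
      s', c2, c3, c4, x, c5, Or.inr ⟨x, c6, rfl⟩⟩
  · refine Z.O.bl Z.hX s (inj.ne o3) {Sum.inl x} (conn_singleton _ _) (by simp) (by simp) h3 _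
      fun z hz => ?_
    obtain ⟨c1, s', c2, c3, c4, c5⟩ := mf.1 hz
    refine ⟨(base z c1).1, (base z c1).2.1, (base z c1).2.2, fun h => ?_, s', c2, c3, c4, x, c5, rfl⟩
    obtain rfl := Sum.inl_injective (show Sum.inl z = Sum.inl x from h)
    exact o3 ((mf.1 hx).2 _ _ (base z c1).1 (base z c1).2.1)

end Ctx

end Pool.Agent.P.MP_b2489f_co
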