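import Pool.Agent.P.MP_b2489f_co.Stage

set_option autoImplicit false
set_option linter.unusedSectionVars false

/-! The sequential colouring. -/

namespace Pool.Agent.P.MP_b2489f_co

open Finset Classical

variable {V F Nd : Type} [Fintype V] [Fintype F] [Fintype Nd]

namespace Ctx

variable {S : Sys V F Nd} (Z : Ctx S)

def cl (z : V) : Fin 3 → Prop := fun i => Z.Plain (Z.O.τ z) i z

/-- the invariant at time `t` -/
structure J (t : ℕ) (c : V → Fin Z.k) : Prop where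
  i0 : ∀ z, Z.O.GC z → c z = Z.c0 z
  i1 : ∀ x z, Z.Con x z → Z.T z < t → c x ≠ c z
  i2 : ∀ x z, Z.Grp x z → Z.T z < t → c x ≠ c z
  i3 : ∀ x y, x ∈ Z.X (Z.O.τ x) → y ∈ Z.X (Z.O.τ y) → Z.T x = Z.T y → Z.T x < t →
    Z.cl x = Z.cl y → c x = c y → x = y
  i4 : ∀ f, ¬ S.sup f → ∀ x ∈ Z.D f, ∀ y ∈ Z.D f, (Z.O.GC x ∨ Z.T x < t) → (Z.O.GC y ∨ Z.T y < t) →
    c x = c y → x = y
  i5 : ∀ s, S.sup s → Z.O.pos s * (Fintype.card V + 1) < t → ∀ i α, ∃ v ∈ S.N (S.fc s i), c v = α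

lemma J_zero : Z.J 0 Z.c0 :=
  ⟨fun _ _ => rfl, by simp, by simp, by simp, fun f hf x hx y hy a b =>
    Z.hc0 f hf x (Z.D_keep f hf x hx).1 y (Z.D_keep f hf y hy).1 (by simpa using a)
      (by simpa using b), by simp⟩

lemma T_le_of_mem {s : Nd} (hs : S.sup s) {v : V} (hv : v ∈ Z.X s) :
    Z.T v ≤ Z.O.pos s * (Fintype.card V + 1) := by
  by_cases h : Z.O.τ v = s
  · rw [Z.T_non (fun a => a.1 (h ▸ hs)), h]
  · exact (Z.T_lt_mul (Z.O.τ_lt hv h)).le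

variable {Z}

lemma J.step {t : ℕ} {c : V → Fin Z.k} (h : Z.J t c) (c' : V → Fin Z.k)
    (h0 : ∀ z, (Z.T z ≠ t ∨ Z.O.GC z) → c' z = c z)
    (n1 : ∀ x z, Z.Con x z → Z.T z = t → c x ≠ c' z)
    (n2 : ∀ x z, Z.Grp x z → Z.T z = t → c' x ≠ c' z)
    (n3 : ∀ x y, x ∈ Z.X (Z.O.τ x) → y ∈ Z.X (Z.O.τ y) → Z.T x = t → Z.T y = t →
      Z.cl x = Z.cl y → c' x = c' y → x = y)
    (n4 : ∀ f, ¬ S.sup f → ∀ x ∈ Z.D f, ∀ y ∈ Z.D f, Z.T x = t → ¬ Z.O.GC x →
      (Z.O.GC y ∨ Z.T y ≤ t) → c' x = c' y → x = y)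
    (n5 : ∀ s, S.sup s → Z.O.pos s * (Fintype.card V + 1) = t →
      ∀ i α, ∃ v ∈ S.N (S.fc s i), c' v = α) : Z.J (t + 1) c' := by
  refine ⟨fun z hz => by rw [h0 z (Or.inr hz), h.i0 z hz], fun x z a b => ?_, fun x z a b => ?_,
    fun x y a b d e f g => ?_, fun f hf x hx y hy a b d => ?_, fun s hs a i α => ?_⟩
  · have : Z.T x < Z.T z := by obtain ⟨s, -, -, -, h, -⟩ := a; exact h
    rw [h0 x (Or.inl (by omega))]
    by_cases e : Z.T z = t
    · exact n1 x z a e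
    · rw [h0 z (Or.inl e)]; exact h.i1 x z a (by omega)
  · by_cases e : Z.T z = t
    · exact n2 x z a e
    · rw [h0 z (Or.inl e), h0 x (Or.inl (by rw [a.2.1]; exact e))]
      exact h.i2 x z a (by omega)
  · by_cases e' : Z.T x = t
    · exact n3 x y a b e' (d ▸ e') f g
    · rw [h0 x (Or.inl e'), h0 y (Or.inl (d ▸ e'))] at g
      exact h.i3 x y a b d (by omega) f g
  · by_cases e1 : Z.T x = t ∧ ¬ Z.O.GC x
    · exact n4 f hf x hx y hy e1.1 e1.2 (b.imp id Nat.le_of_lt_succ) d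
    by_cases e2 : Z.T y = t ∧ ¬ Z.O.GC y
    · exact (n4 f hf y hy x hx e2.1 e2.2 (a.imp id Nat.le_of_lt_succ) d.symm).symm
    rw [h0 x (by tauto), h0 y (by tauto)] at d
    refine h.i4 f hf x hx y hy ?_ ?_ d
    · by_contra e; push Not at e
      exact e1 ⟨by have := a.resolve_left e.1; omega, e.1⟩
    · by_contra e; push Not at e
      exact e2 ⟨by have := b.resolve_left e.1; omega, e.1⟩
  · by_cases e : Z.O.pos s * (Fintype.card V + 1) = t
    · exact n5 s hs e i α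
    · obtain ⟨v, h1, h2⟩ := h.i5 s hs (by omega) i α
      have := Z.T_le_of_mem hs (Z.hX.sup s hs i h1)
      exact ⟨v, h1, by rw [h0 v (Or.inl (by omega)), h2]⟩

lemma gc_non {z : V} (h : Z.O.GC z) : ¬ Z.Extra z := fun e => by
  obtain ⟨n, -, a⟩ := h.2.1
  exact e.2 (Z.D_must _ h.1 z ⟨⟨Z.O.τ_mem z n a.1, Or.inl rfl⟩, Or.inl h⟩)

lemma con_bad {x z : V} (hz : ¬ Z.Extra z) (h : Z.Con x z) : Z.O.Bad z := by
  obtain ⟨s, a1, a2, a3, a4, -⟩ := h
  exact ⟨s, a1, Z.ext_lt a3, (mf.1 a3).1, x, (mf.1 a2).1, Z.pos_lt_of_T hz a4⟩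

lemma step_extra (hB : Z.B < Z.k) {c : V → Fin Z.k} {z0 : V} (hz : Z.Extra z0)
    (h : Z.J (Z.T z0) c) : ∃ c', Z.J (Z.T z0 + 1) c' := by
  obtain ⟨α, -, hα⟩ := exists_mem_notMem_of_card_lt_card (s := (univ.filter fun x =>
    Z.Con x z0).image c) (t := univ) (by
      rw [card_univ, Fintype.card_fin]
      exact (card_image_le.trans (Z.card_con1 z0)).trans_lt hB)
  refine ⟨Function.update c z0 α, h.step _ (fun z a => Function.update_of_ne ?_ _ _)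
    (fun x z a b => ?_) (fun x z a b => ?_) (fun x y _ _ a b _ _ => ?_)
    (fun f hf x hx y hy a b _ _ => ?_) fun s hs a => ?_⟩
  · rintro rfl
    exact a.elim (fun a => a rfl) fun a => gc_non a hz
  · obtain rfl := Z.T_extra hz b
    rw [Function.update_self]
    exact fun e => hα (mem_image.2 ⟨x, mf.2 ⟨mem_univ _, a⟩, e⟩)
  · exact (a.1 ((Z.T_extra hz (a.2.1.trans b)).trans (Z.T_extra hz b).symm)).elim
  · rw [Z.T_extra hz a, Z.T_extra hz b]
  · obtain rfl := Z.T_extra hz a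
    rcases (Z.D_keep f hf x hx).2 with e | ⟨-, e | e⟩
    · exact (hz.2 (e ▸ hx)).elim
    · exact (b e).elim
    · exact (hz.1 e.1).elim
  · exact ((Z.T_eq_mul a.symm).2 hz).elim

lemma card_col {t : ℕ} {c : V → Fin Z.k} (h : Z.J t c) (o : Nd) (α : Fin Z.k) (Y : Finset V)
    (hY : ∀ x ∈ Y, c x = α ∧ Z.T x < t ∧ ∃ z, Z.O.τ z = o ∧ Z.Con x z) :
    Y.card ≤ 369360 * (3 + Z.κ) * 8 := by
  refine le_trans (card_le_card_of_injOn (t := Z.Lb o ×ˢ univ) (fun x => (Z.hb x, Z.cl x))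
    (fun x hx => ?_) fun x hx y hy e => ?_) ?_
  · obtain ⟨-, -, z, rfl, s, a1, a2, a3, a4, -⟩ := hY x hx
    exact mem_coe.2 (mem_product.2 ⟨mem_image_of_mem _ (mf.2 ⟨mem_univ _, Z.pos_le_of_T a4.le, s,
      a1, Z.ext_lt a3, (mf.1 a2).1, z, (mf.1 a3).1, rfl⟩), mem_univ _⟩)
  · obtain ⟨a1, a2, -, -, s, -, a3, -⟩ := hY x hx
    obtain ⟨b1, -, -, -, s', -, b3, -⟩ := hY y hy
    exact h.i3 x y (Z.O.τ_mem x s (mf.1 a3).1) (Z.O.τ_mem y s' (mf.1 b3).1)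
      (Z.hb_T (Prod.mk.inj e).1) a2 (Prod.mk.inj e).2 (a1.trans b1.symm)
  · rw [card_product]
    exact Nat.mul_le_mul (Z.card_Lb o) (by simp)

lemma step_normal (hk : 0 < Z.k) (hB : Z.M + Z.B + 369360 * (3 + Z.κ) * 8 * Z.B ≤ Z.k)
    {c : V → Fin Z.k} {f : Nd} (hf : ¬ S.sup f)
    (h : Z.J (Z.O.pos f * (Fintype.card V + 1)) c) :
    ∃ c', Z.J (Z.O.pos f * (Fintype.card V + 1) + 1) c' := by
  have : Nonempty (Fin Z.k) := ⟨⟨0, hk⟩⟩
  let P := (Z.D f).filter fun z => Z.O.τ z = f ∧ ¬ Z.O.GC z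
  let R := (Z.D f).filter fun z => ¬ (Z.O.τ z = f ∧ ¬ Z.O.GC z)
  have hR : ∀ z ∈ R, Z.O.GC z ∨ Z.T z < Z.O.pos f * (Fintype.card V + 1) := fun z hz => by
    by_cases a : Z.O.GC z
    · exact Or.inl a
    · exact Or.inr (Z.T_lt_mul (Z.O.τ_lt (Z.D_keep f hf z (mf.1 hz).1).1
        fun e => (mf.1 hz).2 ⟨e, a⟩))
  have hP : ∀ z ∈ P, Z.T z = Z.O.pos f * (Fintype.card V + 1) := fun z hz => by
    rw [Z.T_non fun e => e.2 ((mf.1 hz).2.1.symm ▸ (mf.1 hz).1), (mf.1 hz).2.1]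
  have hT : ∀ z, Z.T z = Z.O.pos f * (Fintype.card V + 1) → Z.O.τ z = f ∧ z ∈ Z.D f := fun z hz => by
    obtain ⟨a, b⟩ := Z.T_eq_mul hz
    refine ⟨a, ?_⟩
    by_contra e
    exact b ⟨a ▸ hf, a ▸ e⟩
  have iR : Set.InjOn c R := fun x hx y hy e =>
    h.i4 f hf x (mf.1 hx).1 y (mf.1 hy).1 (hR x hx) (hR y hy) e
  have c1 : P.card + R.card = Z.k := by
    rw [card_filter_add_card_filter_not, Z.D_card f hf]
  have c2 : (R.image c)ᶜ.card + R.card = Z.k := by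
    rw [← card_image_of_injOn iR, card_compl_add_card, Fintype.card_fin]
  have c3 : R.card ≤ Z.M := le_trans (card_le_card fun z hz => mf.2 ⟨mem_univ _,
    Z.D_keep f hf z (mf.1 hz).1, by have := (mf.1 hz).2; tauto⟩) (Z.hM f hf)
  obtain ⟨e, e1, e2⟩ := hall_bij P (R.image c)ᶜ (by omega) (fun z α => ∃ x, Z.Con x z ∧ c x = α)
    Z.B (369360 * (3 + Z.κ) * 8 * Z.B)
    (fun z _ => le_trans (card_le_card fun α hα => by
      obtain ⟨x, a, b⟩ := (mf.1 hα).2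
      exact mem_image.2 ⟨x, mf.2 ⟨mem_univ _, a⟩, b⟩) (card_image_le.trans (Z.card_con1 z)))
    (fun α _ => le_trans (card_le_card fun z hz => by
      obtain ⟨a, x, b, d⟩ := mf.1 hz
      have : Z.T x < Z.T z := by obtain ⟨s, -, -, -, h, -⟩ := b; exact h
      exact mem_biUnion.2 ⟨x, mf.2 ⟨mem_univ _, d, hP z a ▸ this, z, (mf.1 a).2.1, b⟩,
        mf.2 ⟨mem_univ _, (mf.1 a).2.1, b⟩⟩)
      (card_biUnion_le_mul (univ.filter fun x => c x = α ∧
        Z.T x < Z.O.pos f * (Fintype.card V + 1) ∧ ∃ z, Z.O.τ z = f ∧ Z.Con x z)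
        (fun x => univ.filter fun z => Z.O.τ z = f ∧ Z.Con x z) _ _
        (card_col h f α _ fun x hx => (mf.1 hx).2) fun x _ => Z.card_con2 x f)) (by omega)
  let c' : V → Fin Z.k := fun z => if z ∈ P then e z else c z
  have d1 : ∀ z ∈ P, c' z = e z := fun z hz => if_pos hz
  have d2 : ∀ z, z ∉ P → c' z = c z := fun z hz => if_neg hz
  have inj : ∀ x ∈ Z.D f, ∀ y ∈ Z.D f, c' x = c' y → x = y := by
    have pr : ∀ x ∈ Z.D f, x ∉ P → x ∈ R := fun x a b => mf.2 ⟨a, fun d => b (mf.2 ⟨a, d⟩)⟩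
    intro x hx y hy e0
    by_cases a : x ∈ P <;> by_cases b : y ∈ P
    · rw [d1 x a, d1 y b] at e0; exact e1 a b e0
    · rw [d1 x a, d2 y b] at e0
      exact (mem_compl.1 (e2 x a).1 (e0 ▸ mem_image_of_mem c (pr y hy b))).elim
    · rw [d2 x a, d1 y b] at e0
      exact (mem_compl.1 (e2 y b).1 (e0 ▸ mem_image_of_mem c (pr x hx a))).elim
    · rw [d2 x a, d2 y b] at e0; exact iR (pr x hx a) (pr y hy b) e0
  refine ⟨c', h.step c' (fun z a => d2 z fun b => ?_) (fun x z a b => ?_) (fun x z a b => ?_)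
    (fun x y _ _ a b _ => ?_) (fun f' hf' x hx y hy a b d => ?_) fun s hs a => ?_⟩
  · exact a.elim (fun a => a (hP z b)) (mf.1 b).2.2
  · have : z ∈ P := mf.2 ⟨(hT z b).2, (hT z b).1, fun g => g.2.2 (con_bad (gc_non g) a)⟩
    rw [d1 z this]
    exact fun g => (e2 z this).2 ⟨x, a, g⟩
  · exact fun g => a.1 (inj x (hT x (a.2.1.trans b)).2 z (hT z b).2 g)
  · exact inj x (hT x a).2 y (hT y b).2
  · rcases (Z.D_keep f' hf' x hx).2 with g | ⟨-, g | g⟩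
    · obtain rfl : f = f' := (hT x a).1.symm.trans g
      exact inj x hx y hy
    · exact (b g).elim
    · exact (hf ((hT x a).1 ▸ g.1)).elim
  · exact (hf (Z.O.inj (Nat.eq_of_mul_eq_mul_right (Nat.succ_pos _) a) ▸ hs)).elim

lemma step_super [Nonempty V] (hk : 0 < Z.k) {g Pm : ℕ} (hN : ∀ φ, (S.N φ).card = g)
    (hg : 4 * Z.k + 1 ≤ 3 * g)
    (hPm : ∀ s, S.sup s → ∀ i j, i ≠ j → (S.N (S.fc s i) ∩ S.N (S.fc s j)).card ≤ Pm)
    (n2 : Z.M + (71 + 143 * (Z.C + 54)) + Z.B + (Z.C + 2 + 3 * (2216154 + 2 + Z.C * 2)) ≤ Z.k)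
    (n3 : Pm + (71 + 143 * (Z.C + 54)) + (Z.C + 2 + 3 * (2216154 + 2 + Z.C * 2)) ≤ Z.k)
    {c : V → Fin Z.k} {s : Nd} (hs : S.sup s)
    (h : Z.J (Z.O.pos s * (Fintype.card V + 1)) c) :
    ∃ c', Z.J (Z.O.pos s * (Fintype.card V + 1) + 1) c' := by
  have : Nonempty (Fin Z.k) := ⟨⟨0, hk⟩⟩
  have oth : ∀ i : Fin 3, i + 1 ≠ i ∧ i + 2 ≠ i ∧ i + 1 ≠ i + 2 := by decide
  have cE := Z.card_ext hs
  have cN := Z.card_NP hs
  have hT : ∀ z, Z.T z = Z.O.pos s * (Fintype.card V + 1) ↔ Z.O.τ z = s := fun z =>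
    ⟨fun a => (Z.T_eq_mul a).1, fun a => by rw [Z.T_non fun e => e.1 (a ▸ hs), a]⟩
  have hE : ∀ z ∈ Z.Ext s, Z.T z < Z.O.pos s * (Fintype.card V + 1) := fun z hz =>
    Z.T_lt_mul (Z.ext_lt hz)
  let G : V → Finset V := fun z => univ.filter fun y => ∃ f, ¬ S.sup f ∧ Z.O.sec z f ∧ Z.O.Must f y
  have hG : ∀ z, (G z).card ≤ Z.M := fun z => by
    rcases (G z).eq_empty_or_nonempty with a | ⟨y, a⟩
    · rw [a]; simp
    · obtain ⟨f, a1, a2, -⟩ := (mf.1 a).2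
      refine le_trans (card_le_card fun y hy => ?_) (Z.hM f a1)
      obtain ⟨f', -, b2, b3⟩ := (mf.1 hy).2
      exact mf.2 ⟨mem_univ _, Z.O.sec_uniq b2 a2 ▸ b3⟩
  obtain ⟨e, e1, e2⟩ := hall_greedy (Z.NP s)
    (fun z => (G z ∪ Z.Ext s ∪ univ.filter fun x => Z.Con x z).image c) fun z _ => by
      have a1 := card_image_le (f := c) (s := G z ∪ Z.Ext s ∪ univ.filter fun x => Z.Con x z)
      have a2 := card_union_le (G z ∪ Z.Ext s) (univ.filter fun x => Z.Con x z)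
      have a3 := card_union_le (G z) (Z.Ext s)
      have a4 := hG z
      have a5 := Z.card_con1 z
      rw [Fintype.card_fin]
      omega
  let c1 : V → Fin Z.k := fun z => if z ∈ Z.NP s then e z else c z
  have d1 : ∀ z ∈ Z.NP s, c1 z = e z := fun z hz => if_pos hz
  have d2 : ∀ z, z ∉ Z.NP s → c1 z = c z := fun z hz => if_neg hz
  have EN : ∀ z ∈ Z.Ext s, z ∉ Z.NP s := fun z a b => (mf.1 a).2 (mf.1 b).2.1
  obtain ⟨u, hu⟩ := inj_off_one (Z.Ext s) Z.T c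
    (fun x a z b d1 d2 d3 => h.i1 x z ⟨s, hs, a, b, d1, d2, d3⟩ (hE z b))
    (fun x a z b d1 d2 => h.i2 x z ⟨d1, d2, s, hs, a, b⟩ (hE z b))
  let P : Fin 3 → Finset V := fun i => univ.filter (Z.Plain s i)
  have hP : ∀ i z, z ∈ P i ↔ Z.Plain s i z := fun i z => by simp [P]
  obtain ⟨c', g1, g2, g3, g4⟩ := complete hk (fun i => S.N (S.fc s i)) P (Z.Ext s ∪ Z.NP s)
    (fun i => hN _) hg
    (S.tri (a := S.fc s 0) (b := S.fc s 1) (c := S.fc s 2) ((S.fc_sup s hs).ne (by decide))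
      ((S.fc_sup s hs).ne (by decide)) ((S.fc_sup s hs).ne (by decide)) _
      fun z hz => ⟨(mf.1 hz).2 _, (mf.1 hz).2 _, (mf.1 hz).2 _⟩)
    (fun i v hv => by
      have a := (hP i v).1 hv
      refine ⟨a.2.1, fun b => ?_, a.2.2.1⟩
      rcases mem_union.1 b with b | b
      · exact (mf.1 b).2 a.1
      · exact (mf.1 b).2.2 i a)
    (fun v hv => Z.hX.sub s v (by
      rcases mem_union.1 hv with b | b
      · exact (mf.1 b).1
      · exact (mf.1 b).1))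
    (fun i v hv => by
      have a := Z.hX.sup s hs i hv
      by_cases b : Z.O.τ v = s
      · by_cases d : ∃ j, Z.Plain s j v
        · exact Or.inr (d.imp fun j hj => (hP j v).2 hj)
        · exact Or.inl (mem_union_right _ (mf.2 ⟨a, b, not_exists.1 d⟩))
      · exact Or.inl (mem_union_left _ (mf.2 ⟨a, b⟩)))
    (fun i => by
      have a1 := card_union_le (Z.Ext s) (Z.NP s)
      have a2 : (P i).card ≤ Pm := le_trans (card_le_card fun z hz => mem_inter.2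
        ⟨((hP i z).1 hz).2.2.1 _ (oth i).1, ((hP i z).1 hz).2.2.1 _ (oth i).2.1⟩)
        (hPm s hs _ _ (oth i).2.2)
      omega) c1 u
    (fun x hx z hz a b d => by
      by_cases p1 : x ∈ Z.NP s <;> by_cases p2 : z ∈ Z.NP s
      · rw [d1 x p1, d1 z p2] at d; exact e1 p1 p2 d
      · rw [d1 x p1, d2 z p2] at d
        exact (e2 x p1 (d ▸ mem_image_of_mem c (mem_union_left _ (mem_union_right _
          ((mem_union.1 hz).resolve_right p2))))).elim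
      · rw [d2 x p1, d1 z p2] at d
        exact (e2 z p2 (d ▸ mem_image_of_mem c (mem_union_left _ (mem_union_right _
          ((mem_union.1 hx).resolve_right p1))))).elim
      · rw [d2 x p1, d2 z p2] at d
        exact hu x ((mem_union.1 hx).resolve_right p1) z ((mem_union.1 hz).resolve_right p2) a b d)
  have k1 : ∀ z ∈ Z.NP s, c' z = e z := fun z hz => by
    rw [g1 z fun i a => (mf.1 hz).2.2 i ((hP i z).1 a), d1 z hz]
  have k2 : ∀ z, Z.O.τ z ≠ s → c' z = c z := fun z hz => by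
    rw [g1 z fun i a => hz ((hP i z).1 a).1, d2 z fun a => hz (mf.1 a).2.1]
  have cas : ∀ z n, z ∈ Z.X n → Z.O.τ z = s → z ∈ Z.NP s ∨ ∃ i, Z.Plain s i z := fun z n a b => by
    by_cases d : ∃ j, Z.Plain s j z
    · exact Or.inr d
    · exact Or.inl (mf.2 ⟨b ▸ Z.O.τ_mem z n a, b, not_exists.1 d⟩)
  have pl : ∀ i x z, Z.Plain s i z → x ≠ z → x ∈ Z.X s → Z.O.τ x = s →
      (∀ j, j ≠ i → x ∈ S.N (S.fc s j)) → c' z ≠ c' x := by
    intro i x z a b d1' d2' d3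
    rcases cas x s d1' d2' with p | ⟨j, p⟩
    · rw [k1 x p, ← d1 x p]
      exact g3 i z ((hP i z).2 a) x (mem_union_right _ p) d3
    · obtain rfl : j = i := by
        by_contra q
        exact p.2.1 (d3 j q)
      exact fun q => b (g2 j ((hP j z).2 a) ((hP j x).2 p) q).symm
  have gs : ∀ f, ¬ S.sup f → ∀ x ∈ Z.D f, Z.O.τ x = s → x ∈ Z.NP s ∧ Z.O.sec x f := by
    intro f hf x hx a
    obtain ⟨b1, b2 | ⟨b2, b3 | b3⟩⟩ := Z.D_keep f hf x hx
    · exact (hf (b2 ▸ a ▸ hs)).elim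
    · exact (b3.1 (a ▸ hs)).elim
    · refine ⟨(cas x f b1 a).resolve_right ?_, b2⟩
      rintro ⟨i, p⟩
      exact (oth i).2.2 (b3.2 _ _ (a ▸ p.2.2.1 _ (oth i).1) (a ▸ p.2.2.1 _ (oth i).2.1))
  refine ⟨c', h.step c' (fun z a => k2 z fun b => ?_) (fun x z a b => ?_) (fun x z a b => ?_)
    (fun x y hx hy a b d q => ?_) (fun f hf x hx y hy a b d q => ?_) fun s' hs' a => ?_⟩
  · exact a.elim (fun a => a ((hT z).2 b)) fun a => a.1 (b ▸ hs)
  · have b' := (hT z).1 b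
    have a' := a
    obtain ⟨s', a1, a2, a3, a4, -⟩ := a'
    rcases cas z s' (mf.1 a3).1 b' with p | ⟨i, p⟩
    · rw [k1 z p]
      exact fun q => e2 z p (q ▸ mem_image_of_mem c (mem_union_right _ (mf.2 ⟨mem_univ _, a⟩)))
    · have := (p.2.2.2 s' a1 a3 x (mf.1 a2).1 (b' ▸ Z.pos_le_of_T a4.le)).1
      rw [← hT] at this
      omega
  · obtain ⟨a0, a4, s', a1, a2, a3⟩ := a
    have bz := (hT z).1 b
    have bx := (hT x).1 (a4.trans b)
    rcases cas z s' (mf.1 a3).1 bz with p | ⟨i, p⟩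
    · rcases cas x s' (mf.1 a2).1 bx with p' | ⟨i, p'⟩
      · rw [k1 x p', k1 z p]
        exact fun q => a0 (e1 p' p q)
      · exact pl i z x p' a0.symm (mf.1 p).1 bz (p'.2.2.2 s' a1 a2 z (mf.1 a3).1 (by rw [bz])).2
    · exact (pl i x z p a0 (bx ▸ Z.O.τ_mem x s' (mf.1 a2).1) bx
        (p.2.2.2 s' a1 a3 x (mf.1 a2).1 (by rw [bx])).2).symm
  · have bx := (hT x).1 a
    have by' := (hT y).1 b
    have d' : ∀ i, Z.Plain s i x ↔ Z.Plain s i y := fun i => by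
      have := congrFun d i
      simp only [cl, bx, by'] at this
      rw [this]
    rcases cas x _ hx bx with p | ⟨i, p⟩
    · have p' : y ∈ Z.NP s := (cas y _ hy by').resolve_right
        fun ⟨i, r⟩ => (mf.1 p).2.2 i ((d' i).2 r)
      rw [k1 x p, k1 y p'] at q
      exact e1 p p' q
    · exact g2 i ((hP i x).2 p) ((hP i y).2 ((d' i).1 p)) q
  · obtain ⟨p, r⟩ := gs f hf x hx ((hT x).1 a)
    by_cases b' : Z.O.τ y = s
    · rw [k1 x p, k1 y (gs f hf y hy b').1] at q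
      exact e1 p (gs f hf y hy b').1 q
    · rw [k1 x p, k2 y b'] at q
      refine (e2 x p (q ▸ mem_image_of_mem c (mem_union_left _ (mem_union_left _
        (mf.2 ⟨mem_univ _, f, hf, r, Z.D_keep f hf y hy, d.imp id fun d e => ?_⟩))))).elim
      have r1 := Z.O.sec_lt r
      have r2 := Z.pos_le_of_T (d.trans a.ge)
      rw [e] at r2
      omega
  · obtain rfl := Z.O.inj (Nat.eq_of_mul_eq_mul_right (Nat.succ_pos _) a)
    exact g4

theorem colouring [Nonempty V] (Z : Ctx S) (hk : 0 < Z.k) {g Pm : ℕ} (hN : ∀ φ, (S.N φ).card = g)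
    (hg : 4 * Z.k + 1 ≤ 3 * g)
    (hPm : ∀ s, S.sup s → ∀ i j, i ≠ j → (S.N (S.fc s i) ∩ S.N (S.fc s j)).card ≤ Pm)
    (n1 : Z.M + Z.B + 369360 * (3 + Z.κ) * 8 * Z.B ≤ Z.k)
    (n2 : Z.M + (71 + 143 * (Z.C + 54)) + Z.B + (Z.C + 2 + 3 * (2216154 + 2 + Z.C * 2)) ≤ Z.k)
    (n3 : Pm + (71 + 143 * (Z.C + 54)) + (Z.C + 2 + 3 * (2216154 + 2 + Z.C * 2)) ≤ Z.k) :
    ∃ c : V → Fin Z.k, ∀ φ α, ∃ v ∈ S.N φ, c v = α := by
  have all : ∀ t, ∃ c, Z.J t c := by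
    intro t
    induction t with
    | zero => exact ⟨_, Z.J_zero⟩
    | succ t ih =>
      obtain ⟨c, h⟩ := ih
      by_cases a : ∃ n, Z.O.pos n * (Fintype.card V + 1) = t
      · obtain ⟨n, rfl⟩ := a
        by_cases hn : S.sup n
        · exact step_super hk hN hg hPm n2 n3 hn h
        · exact step_normal hk n1 hn h
      by_cases b : ∃ z, Z.T z = t
      · obtain ⟨z, rfl⟩ := b
        refine step_extra (by omega) ?_ h
        by_contra e
        exact a ⟨_, (Z.T_non e).symm⟩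
      push Not at a b
      exact ⟨c, h.step c (fun _ _ => rfl) (fun _ z _ e => (b z e).elim) (fun _ z _ e => (b z e).elim)
        (fun x _ _ _ e => (b x e).elim) (fun _ _ x _ _ _ e => (b x e).elim)
        fun s _ e => (a s e).elim⟩
  obtain ⟨c, h⟩ := all ((univ.sup Z.O.pos + 1) * (Fintype.card V + 1))
  have big : ∀ n, Z.O.pos n < univ.sup Z.O.pos + 1 := fun n =>
    Nat.lt_succ_of_le (le_sup (mem_univ n))
  refine ⟨c, fun φ α => ?_⟩
  obtain ⟨i, hi⟩ := S.fc_nd φ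
  generalize S.nd φ = n at hi
  subst hi
  by_cases hn : S.sup n
  · exact h.i5 n hn (Nat.mul_lt_mul_of_pos_right (big n) (Nat.succ_pos _)) i α
  · have : (Z.D n).image c = univ := eq_univ_of_card _ (by
      rw [card_image_of_injOn fun x hx y hy => h.i4 n hn x hx y hy
        (Or.inr (Z.T_lt_mul (big _))) (Or.inr (Z.T_lt_mul (big _))), Z.D_card n hn,
        Fintype.card_fin])
    obtain ⟨v, h1, h2⟩ := mem_image.1 (this ▸ mem_univ α)
    obtain ⟨j, hj⟩ := Z.hX.sub n v (Z.D_keep n hn v h1).1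
    rw [S.fc_nor n hn] at hj ⊢
    exact ⟨v, hj, h2⟩

end Ctx

end Pool.Agent.P.MP_b2489f_co
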